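import Pool.Agent.Lib.H70X.Defs

/-!
# H42V: the spectrum of `w_{=n}` is `[n, ∞]` (MP_5a602a_nt)

Definitions. A vector `v : Fin (n+1) → ℝ` (or `→ ℤ`) is the polynomial `∑ v l T^l` of degree at most `n`.
-/

open Polynomial MeasureTheory Set Filter

namespace Pool.Agent.Lib.H42V

/-- An integer vector as a real vector. -/
def rv {k : ℕ} (v : Fin k → ℤ) : Fin k → ℝ := fun l => (v l : ℝ)

/-- The `i`-th Taylor coefficient at `x` of the polynomial `∑ v l T^l` (so `tc x v 0` is its value). -/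
noncomputable def tc {n : ℕ} (x : ℝ) (v : Fin (n + 1) → ℝ) (i : ℕ) : ℝ :=
  ∑ l : Fin (n + 1), ((l : ℕ).choose i : ℝ) * x ^ ((l : ℕ) - i) * v l

/-- `v` is an integer multiple of `w`. -/
def Mul {k : ℕ} (v w : Fin k → ℤ) : Prop := ∃ m : ℤ, v = m • w

/-- The polynomial `T^n - 2`. -/
def F0 (n : ℕ) : Fin (n + 1) → ℤ := fun l => if (l : ℕ) = n then 1 else if (l : ℕ) = 0 then -2 else 0

/-- The number `2^(1/n)`. -/
noncomputable def a0 (n : ℕ) : ℝ := (2 : ℝ) ^ (1 / (n : ℝ))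

/-- An integral `2 × 2` matrix `(p, p'; q, q')`. -/
structure Mo where
  p : ℤ
  p' : ℤ
  q : ℤ
  q' : ℤ

/-- The matrices which are used. -/
structure Mo.Ok (g : Mo) : Prop where
  qpos : 0 < g.q
  det : g.p * g.q' - g.p' * g.q = 1
  lo : 2 * g.q ≤ g.q'
  hi : g.q' ≤ 3 * g.q
  p0 : 0 ≤ g.p
  p1 : g.p ≤ g.q

/-- The algebraic number `(p a0 + p') / (q a0 + q')`. -/
noncomputable def al (n : ℕ) (g : Mo) : ℝ := (g.p * a0 n + g.p') / (g.q * a0 n + g.q')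

/-- The polynomial `(q' T - p')^n - 2 (p - q T)^n`. -/
def pk (n : ℕ) (g : Mo) : Fin (n + 1) → ℤ := fun l =>
  (n.choose (l : ℕ) : ℤ) * (g.q' ^ (l : ℕ) * (-g.p') ^ (n - (l : ℕ)) -
    2 * ((-g.q) ^ (l : ℕ) * g.p ^ (n - (l : ℕ))))

/-- The polynomial `∑ v l (p T + p')^l (q T + q')^(n-l)`. -/
noncomputable def gm {n : ℕ} (g : Mo) (v : Fin (n + 1) → ℤ) : Fin (n + 1) → ℤ := fun i =>
  (∑ l : Fin (n + 1), C (v l) * (C g.p * X + C g.p') ^ (l : ℕ) *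
    (C g.q * X + C g.q') ^ (n - (l : ℕ)) : ℤ[X]).coeff (i : ℕ)

/-- The minor with columns `J` of the Taylor coefficients at `a`. -/
noncomputable def Da {n j : ℕ} (a : ℝ) (v : Fin j → Fin (n + 1) → ℝ) (J : Fin j → Fin (n + 1)) : ℝ :=
  Matrix.det (Matrix.of fun s t : Fin j => tc a (v s) (J t : ℕ))

/-- The Wronskian (columns: Taylor coefficients `0, ..., j-1` at `-θ`). -/
noncomputable def wr {n j : ℕ} (θ : ℝ) (v : Fin j → Fin (n + 1) → ℝ) : ℝ :=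
  Matrix.det (Matrix.of fun s t : Fin j => tc (-θ) (v s) (t : ℕ))

/-- The same with the first column replaced by the values at `a` (columns: value at `a`, Taylor coefficients
`0, ..., j-1` at `-θ`). -/
noncomputable def wr2 {n j : ℕ} (a θ : ℝ) (v : Fin (j + 1) → Fin (n + 1) → ℝ) : ℝ :=
  Matrix.det (Matrix.of fun s t : Fin (j + 1) =>
    (Fin.cons (tc a (v s) 0) (fun t : Fin j => tc (-θ) (v s) (t : ℕ)) : Fin (j + 1) → ℝ) t)

/-- The sum of the absolute values of all minors. -/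
noncomputable def Dn {n j : ℕ} (v : Fin j → Fin (n + 1) → ℝ) : ℝ :=
  ∑ S : Fin j → Fin (n + 1), |Matrix.det (Matrix.of fun s t : Fin j => v s (S t))|

/-- The sum of the absolute values of all minors whose first column consists of the values at `a`. -/
noncomputable def Tn {n j : ℕ} (a : ℝ) (v : Fin (j + 1) → Fin (n + 1) → ℝ) : ℝ :=
  ∑ S : Fin j → Fin (n + 1), |Matrix.det (Matrix.of fun s t : Fin (j + 1) =>
    (Fin.cons (tc a (v s) 0) (fun t : Fin j => v s (S t)) : Fin (j + 1) → ℝ) t)|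

/-- The tuple `f, v_0, v_1, ...`. -/
abbrev cn {j k : ℕ} (f : Fin k → ℤ) (v : Fin j → Fin k → ℤ) : Fin (j + 1) → Fin k → ℤ :=
  (Fin.cons f v : Fin (j + 1) → Fin k → ℤ)

/-- The first matrix (variable `t`, `θ = 2 + t^2`): rows `Z^n/N^n ev_{a0}` and
`N^n / (Z N^(2 i)) e_i`, `0 ≤ i < n`, `e_i` the Taylor coefficients at `-θ`. -/
noncomputable def h1 (n : ℕ) (N Z : ℝ) : Matrix (Fin (n + 1)) (Fin (n + 1)) ℝ[X] :=
  Matrix.of fun i l =>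
    (Fin.cons (C (Z ^ n / N ^ n * a0 n ^ (l : ℕ)))
      (fun i : Fin n => C (N ^ n / (Z * N ^ (2 * (i : ℕ))) * ((l : ℕ).choose (i : ℕ) : ℝ)) *
        (-(2 + X ^ 2)) ^ ((l : ℕ) - (i : ℕ))) : Fin (n + 1) → ℝ[X]) i

/-- The second matrix, for polynomials of degree at most `m` (modulo `T^(m+1) - 2`; `n = m + 1`): rows
`Z^m ev_{a0}` and `N^n / (Z N^(2 i)) (e_0(F0) e_i - e_i(F0) e_0)`, `1 ≤ i ≤ m`. -/
noncomputable def h2 (m : ℕ) (N Z : ℝ) : Matrix (Fin (m + 1)) (Fin (m + 1)) ℝ[X] :=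
  Matrix.of fun i l => if (i : ℕ) = 0 then C (Z ^ m * a0 (m + 1) ^ (l : ℕ)) else
    C (N ^ (m + 1) / (Z * N ^ (2 * (i : ℕ)))) *
      (((-(2 + X ^ 2)) ^ (m + 1) - 2) * (C (((l : ℕ).choose (i : ℕ) : ℕ) : ℝ) *
          (-(2 + X ^ 2)) ^ ((l : ℕ) - (i : ℕ))) -
        C (((m + 1).choose (i : ℕ) : ℕ) : ℝ) * (-(2 + X ^ 2)) ^ (m + 1 - (i : ℕ)) *
          (-(2 + X ^ 2)) ^ (l : ℕ))

/-- Bad `θ`, first range (`Z ≤ N^n`). -/
def Bad1 (n : ℕ) (N Z ε : ℝ) : Set ℝ :=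
  {θ | ∃ w : Fin (n + 1) → ℤ, w ≠ 0 ∧ |tc (a0 n) (rv w) 0| ≤ ε * (N ^ n / Z ^ n) ∧
    ∀ i : ℕ, i ≤ n → |tc (-θ) (rv w) i| ≤ ε * (Z * N ^ (2 * i) / N ^ n)}

/-- Bad `θ`, second range (`N^n ≤ Z`). -/
def Bad2 (n : ℕ) (N Z ε : ℝ) : Set ℝ :=
  {θ | ∃ w : Fin (n + 1) → ℤ, ¬ Mul w (F0 n) ∧ |tc (a0 n) (rv w) 0| ≤ ε / Z ^ (n - 1) ∧
    ∀ i : ℕ, i ≤ n → |tc (-θ) (rv w) i| ≤ ε * (Z * N ^ (2 * i) / N ^ n)}

/-- All bad `θ` of size `N`: `Z = 2^t ≥ N^(1/(n+1)) / 8`. -/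
def BadN (n : ℕ) (N C δ : ℝ) : Set ℝ :=
  {θ | ∃ t : ℕ, N ^ (1 / ((n : ℝ) + 1)) / 8 ≤ (2 : ℝ) ^ t ∧
    (((2 : ℝ) ^ t ≤ N ^ n ∧ θ ∈ Bad1 n N (2 ^ t) (C * ((2 : ℝ) ^ t) ^ (-δ))) ∨
      (N ^ n ≤ (2 : ℝ) ^ t ∧ θ ∈ Bad2 n N (2 ^ t) (C * ((2 : ℝ) ^ t) ^ (-δ))))}

/-- The number `al n g` is as badly approximable by polynomials of degree at most `n` (which are not multiples of
its own one) as possible, up to `X^(-s)`. -/
def GoodA (n : ℕ) (s : ℝ) (g : Mo) : Prop :=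
  ∀ X : ℝ, (g.q : ℝ) ^ (1 / ((n : ℝ) + 1)) ≤ X → ∀ v : Fin (n + 1) → ℤ, ¬ Mul v (pk n g) →
    (∀ l, |(v l : ℝ)| ≤ X) →
      X ^ (-s) / X ^ (n - 1) * max (1 / X) (1 / (g.q : ℝ) ^ n) ≤ |tc (al n g) (rv v) 0|

/-- The full matrix near `a` (variable `y`): rows `Z^n ev_{a+y}` and `1/Z` times the Taylor coefficients at `a`. -/
noncomputable def hL (n : ℕ) (a Z : ℝ) : Matrix (Fin (n + 1)) (Fin (n + 1)) ℝ[X] :=
  Matrix.of fun i l => if (i : ℕ) = 0 then C (Z ^ n) * (C a + X) ^ (l : ℕ) else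
    C (1 / Z * (((l : ℕ).choose (i : ℕ) : ℕ) : ℝ) * a ^ ((l : ℕ) - (i : ℕ)))

/-- The polynomial with coefficient vector `v`. -/
noncomputable def poly {n : ℕ} (v : Fin (n + 1) → ℤ) : ℝ[X] :=
  ∑ l : Fin (n + 1), C (v l : ℝ) * X ^ (l : ℕ)

/-- The matrix of the quotient by `pk n g` near `al n g` (variable `y`), in the basis given by the columns
`1, ..., n` of `G`: rows `q^n Z^(n-1) b_0(y)` and `1/Z b_i`, `1 ≤ i < n`, where `b_i(v) = a_i(v) - v_n / pk_n a_i(pk)`,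
`a_i` the Taylor coefficients at `al n g`, and `b_0(y)` the same with the values at `al n g + y`. -/
noncomputable def hQ (n : ℕ) (g : Mo) (Z : ℝ) (G : Matrix (Fin (n + 1)) (Fin (n + 1)) ℤ) :
    Matrix (Fin n) (Fin n) ℝ[X] :=
  Matrix.of fun i s => if (i : ℕ) = 0 then
      C ((g.q : ℝ) ^ n * Z ^ (n - 1)) * ((poly (fun l => G l s.succ)).comp (C (al n g) + X) -
        C ((G (Fin.last n) s.succ : ℝ) / pk n g (Fin.last n)) *
          (poly (pk n g)).comp (C (al n g) + X))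
    else C (1 / Z * (tc (al n g) (rv fun l => G l s.succ) (i : ℕ) -
      (G (Fin.last n) s.succ : ℝ) / pk n g (Fin.last n) * tc (al n g) (rv (pk n g)) (i : ℕ)))

/-- The integer combination of the columns `1, ..., n` of `G`. -/
def VG {n : ℕ} (G : Matrix (Fin (n + 1)) (Fin (n + 1)) ℤ) (u : Fin n → ℤ) : Fin (n + 1) → ℤ :=
  fun l => ∑ s : Fin n, G l s.succ * u s

/-- The distance of the interval of the next stage from `al n g`. -/
noncomputable def Yy (n : ℕ) (w : ℝ) (g : Mo) : ℝ := (g.q : ℝ) ^ (-(n * w - n + 2))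

/-- The interval of the next stage. -/
noncomputable def Jj (n : ℕ) (w : ℝ) (g : Mo) : Set ℝ :=
  Icc (al n g + Yy n w g) (al n g + 2 * Yy n w g)

end Pool.Agent.Lib.H42V
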