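import Pool.Agent.Lib.H42V.PK1

/-!
# Chunk PK2 (M)
The values of `pk` near `al`. `κ = q a0 + q' ∈ [3 q, 5 q]`, `z = κ y`.

Proof. `pk(al + y) = κ^(-n) ((a0 + q' z)^n - 2 (1 - q z)^n)` (as `q' (al + y) - p' = (a0 + q' z)/κ`, `p - q (al + y) = (1 - q z)/κ`).
Lower bound (`5 q^2 y ≤ 1/2`, so `0 ≤ q z ≤ 1/2`): `(a0 + q' z)^n ≥ 2` and `(1 - q z)^n ≤ 1 - q z`, so the bracket is `≥ 2 q z`, and
`κ^(-n) 2 q κ y = 2 q y κ^(1-n) ≥ 2 q y (5 q)^(1-n) = 10 q^2 y (5 q)^(-n)`.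
Upper bound (`0 ≤ y ≤ 2/q^2`, so `0 ≤ q z ≤ 10`, `q' z ≤ 30`): `(a0 + q' z)^n - a0^n ≤ n 32^(n-1) q' z ≤ n 32^(n-1) 3 q z` and
`|1 - (1 - q z)^n| ≤ n 9^(n-1) q z`, so the absolute value of the bracket is `≤ n 5 * 32^(n-1) q z`, and `κ^(-n) q κ y ≤ q y (3 q)^(1-n) ≤ q^2 y / q^n`.
-/

open Polynomial MeasureTheory Set Filter

namespace Pool.Agent.Lib.H42V

theorem pK2_eval (n : ℕ) (g : Mo) (x : ℝ) :
    tc x (rv (pk n g)) 0 = ((g.q' : ℝ) * x - g.p') ^ n - 2 * ((g.p : ℝ) - g.q * x) ^ n := by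
  have h1 : ((g.q' : ℝ) * x - g.p') ^ n = ∑ l : Fin (n + 1), ((g.q' : ℝ) * x) ^ (l : ℕ) *
      (-(g.p' : ℝ)) ^ (n - (l : ℕ)) * (n.choose (l : ℕ) : ℝ) := by
    rw [sub_eq_add_neg, add_pow, Fin.sum_univ_eq_sum_range (fun l => ((g.q' : ℝ) * x) ^ l *
      (-(g.p' : ℝ)) ^ (n - l) * (n.choose l : ℝ)) (n + 1)]
  have h2 : ((g.p : ℝ) - g.q * x) ^ n = ∑ l : Fin (n + 1), (-(g.q : ℝ) * x) ^ (l : ℕ) *
      (g.p : ℝ) ^ (n - (l : ℕ)) * (n.choose (l : ℕ) : ℝ) := by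
    rw [show (g.p : ℝ) - g.q * x = -(g.q : ℝ) * x + g.p by ring, add_pow,
      Fin.sum_univ_eq_sum_range (fun l => (-(g.q : ℝ) * x) ^ l *
      (g.p : ℝ) ^ (n - l) * (n.choose l : ℝ)) (n + 1)]
  rw [h1, h2, Finset.mul_sum, ← Finset.sum_sub_distrib]
  unfold tc
  refine Finset.sum_congr rfl fun l _ => ?_
  simp only [rv, pk, Nat.choose_zero_right, Nat.sub_zero]
  push_cast
  rw [mul_pow, mul_pow]
  ring

theorem pK2_a0 (n : ℕ) (hn : 1 ≤ n) : 1 ≤ a0 n ∧ a0 n ≤ 2 ∧ a0 n ^ n = 2 := by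
  have hn' : (1 : ℝ) ≤ n := by exact_mod_cast hn
  refine ⟨?_, ?_, ?_⟩
  · exact Real.one_le_rpow (by norm_num) (by positivity)
  · have h1 : (1 : ℝ) / n ≤ 1 := by
      rw [div_le_one (by linarith)]
      exact hn'
    have := Real.rpow_le_rpow_of_exponent_le (by norm_num : (1 : ℝ) ≤ 2) h1
    rwa [Real.rpow_one] at this
  · unfold a0
    rw [← Real.rpow_natCast, ← Real.rpow_mul (by norm_num), one_div, inv_mul_cancel₀ (by positivity),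
      Real.rpow_one]

theorem pK2_form (n : ℕ) (hn : 1 ≤ n) (g : Mo) (hg : g.Ok) (y : ℝ) :
    ∃ κ : ℝ, 3 * (g.q : ℝ) ≤ κ ∧ κ ≤ 5 * g.q ∧
      κ ^ n * tc (al n g + y) (rv (pk n g)) 0 =
        (a0 n + g.q' * (κ * y)) ^ n - 2 * (1 - g.q * (κ * y)) ^ n := by
  obtain ⟨h1, h2, h3⟩ := pK2_a0 n hn
  have hq : (0 : ℝ) < g.q := by exact_mod_cast hg.qpos
  have hlo : 2 * (g.q : ℝ) ≤ g.q' := by exact_mod_cast hg.lo
  have hhi : (g.q' : ℝ) ≤ 3 * g.q := by exact_mod_cast hg.hi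
  have hdet : (g.p : ℝ) * g.q' - g.p' * g.q = 1 := by exact_mod_cast hg.det
  have hk1 : 3 * (g.q : ℝ) ≤ g.q * a0 n + g.q' := by nlinarith
  have hk2 : (g.q : ℝ) * a0 n + g.q' ≤ 5 * g.q := by nlinarith
  have hk0 : (g.q : ℝ) * a0 n + g.q' ≠ 0 := by
    have : 0 < (g.q : ℝ) * a0 n + g.q' := by linarith
    exact this.ne'
  refine ⟨g.q * a0 n + g.q', hk1, hk2, ?_⟩
  rw [pK2_eval]
  have e1 : ((g.q : ℝ) * a0 n + g.q') * ((g.q' : ℝ) * (al n g + y) - g.p') =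
      a0 n + g.q' * (((g.q : ℝ) * a0 n + g.q') * y) := by
    unfold al
    field_simp
    linear_combination (a0 n) * hdet
  have e2 : ((g.q : ℝ) * a0 n + g.q') * ((g.p : ℝ) - g.q * (al n g + y)) =
      1 - g.q * (((g.q : ℝ) * a0 n + g.q') * y) := by
    unfold al
    field_simp
    linear_combination hdet
  rw [← e1, ← e2, mul_pow, mul_pow]
  ring

theorem pk_low (n : ℕ) (hn : 1 ≤ n) (g : Mo) (hg : g.Ok) (y : ℝ) (hy : 0 ≤ y) (hy1 : 5 * (g.q : ℝ) ^ 2 * y ≤ 1 / 2) :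
    (g.q : ℝ) ^ 2 * y ≤ 5 ^ n * (g.q : ℝ) ^ n * tc (al n g + y) (rv (pk n g)) 0 := by
  obtain ⟨h1, h2, h3⟩ := pK2_a0 n hn
  obtain ⟨κ, hk1, hk2, hk⟩ := pK2_form n hn g hg y
  have hq : (0 : ℝ) < g.q := by exact_mod_cast hg.qpos
  have hlo : 2 * (g.q : ℝ) ≤ g.q' := by exact_mod_cast hg.lo
  have hk0 : 0 < κ := by linarith
  set t := tc (al n g + y) (rv (pk n g)) 0 with ht
  have hz0 : 0 ≤ (g.q : ℝ) * (κ * y) := by positivity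
  have hz1 : (g.q : ℝ) * (κ * y) ≤ 1 / 2 := by
    refine le_trans ?_ hy1
    have : κ * y ≤ 5 * g.q * y := mul_le_mul_of_nonneg_right hk2 hy
    nlinarith
  have hz2 : 3 * ((g.q : ℝ) ^ 2 * y) ≤ (g.q : ℝ) * (κ * y) := by
    have : 3 * g.q * y ≤ κ * y := mul_le_mul_of_nonneg_right hk1 hy
    nlinarith
  have hA : 2 ≤ (a0 n + g.q' * (κ * y)) ^ n := by
    rw [← h3]
    refine pow_le_pow_left₀ (by linarith) ?_ n
    have : 0 ≤ (g.q' : ℝ) * (κ * y) := mul_nonneg (by linarith) (by positivity)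
    linarith
  have hB : (1 - (g.q : ℝ) * (κ * y)) ^ n ≤ 1 - (g.q : ℝ) * (κ * y) := by
    refine (pow_le_of_le_one (by linarith) (by linarith) (by omega))
  have hbr : 6 * ((g.q : ℝ) ^ 2 * y) ≤ κ ^ n * t := by
    rw [hk]
    linarith
  have hy2 : 0 ≤ (g.q : ℝ) ^ 2 * y := by positivity
  have ht0 : 0 ≤ t := by
    have h5 : 0 ≤ κ ^ n * t := by linarith
    exact (mul_nonneg_iff_of_pos_left (by positivity)).1 h5
  have hkn : κ ^ n ≤ 5 ^ n * (g.q : ℝ) ^ n := by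
    rw [← mul_pow]
    exact pow_le_pow_left₀ hk0.le hk2 n
  have := mul_le_mul_of_nonneg_right hkn ht0
  linarith

theorem pk_up (n : ℕ) (hn : 1 ≤ n) (g : Mo) (hg : g.Ok) (y : ℝ) (hy : 0 ≤ y) (hy1 : y ≤ 2 / (g.q : ℝ) ^ 2) :
    (g.q : ℝ) ^ n * |tc (al n g + y) (rv (pk n g)) 0| ≤ n * 32 ^ n * ((g.q : ℝ) ^ 2 * y) := by
  obtain ⟨h1, h2, h3⟩ := pK2_a0 n hn
  obtain ⟨κ, hk1, hk2, hk⟩ := pK2_form n hn g hg y
  have hq : (0 : ℝ) < g.q := by exact_mod_cast hg.qpos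
  have hlo : 2 * (g.q : ℝ) ≤ g.q' := by exact_mod_cast hg.lo
  have hhi : (g.q' : ℝ) ≤ 3 * g.q := by exact_mod_cast hg.hi
  have hk0 : 0 < κ := by linarith
  set t := tc (al n g + y) (rv (pk n g)) 0 with ht
  have hy2 : 0 ≤ (g.q : ℝ) ^ 2 * y := by positivity
  have hy3 : (g.q : ℝ) ^ 2 * y ≤ 2 := by
    rw [le_div_iff₀ (by positivity)] at hy1
    linarith
  have hz0 : 0 ≤ (g.q : ℝ) * (κ * y) := by positivity
  have hz1 : (g.q : ℝ) * (κ * y) ≤ 5 * ((g.q : ℝ) ^ 2 * y) := by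
    have : κ * y ≤ 5 * g.q * y := mul_le_mul_of_nonneg_right hk2 hy
    nlinarith
  have hky : 0 ≤ κ * y := by positivity
  have hw0 : 0 ≤ (g.q' : ℝ) * (κ * y) := mul_nonneg (by linarith) hky
  have hw1 : (g.q' : ℝ) * (κ * y) ≤ 3 * ((g.q : ℝ) * (κ * y)) := by
    have := mul_le_mul_of_nonneg_right hhi hky
    linarith
  have hA : |(a0 n + g.q' * (κ * y)) ^ n - a0 n ^ n| ≤
      3 * ((g.q : ℝ) * (κ * y)) * n * 32 ^ (n - 1) := by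
    refine (abs_pow_sub_pow_le _ _ n).trans ?_
    rw [add_sub_cancel_left, abs_of_nonneg hw0, abs_of_nonneg (by linarith : 0 ≤ a0 n + g.q' * (κ * y)),
      abs_of_nonneg (by linarith : 0 ≤ a0 n)]
    have hm : max (a0 n + g.q' * (κ * y)) (a0 n) ≤ 32 := max_le (by linarith) (by linarith)
    gcongr
  have hB : |(1 : ℝ) ^ n - (1 - (g.q : ℝ) * (κ * y)) ^ n| ≤
      (g.q : ℝ) * (κ * y) * n * 32 ^ (n - 1) := by
    refine (abs_pow_sub_pow_le _ _ n).trans ?_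
    rw [sub_sub_cancel, abs_of_nonneg hz0, abs_one]
    have hm : max 1 |1 - (g.q : ℝ) * (κ * y)| ≤ 32 := by
      refine max_le (by norm_num) (abs_le.2 ⟨by linarith, by linarith⟩)
    have hm0 : (0 : ℝ) ≤ max 1 |1 - (g.q : ℝ) * (κ * y)| := le_max_of_le_left zero_le_one
    gcongr
  rw [one_pow] at hB
  rw [h3] at hA
  have hbr : |κ ^ n * t| ≤ 5 * ((g.q : ℝ) * (κ * y)) * n * 32 ^ (n - 1) := by
    rw [hk]
    have e : (a0 n + g.q' * (κ * y)) ^ n - 2 * (1 - g.q * (κ * y)) ^ n =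
      ((a0 n + g.q' * (κ * y)) ^ n - 2) + 2 * (1 - (1 - g.q * (κ * y)) ^ n) := by ring
    rw [e]
    refine (abs_add_le _ _).trans ?_
    rw [abs_mul, abs_two]
    linarith
  have hN : 0 ≤ (n : ℝ) * 32 ^ (n - 1) := by positivity
  have hbr2 : |κ ^ n * t| ≤ 25 * ((g.q : ℝ) ^ 2 * y) * (n * 32 ^ (n - 1)) := by
    refine hbr.trans ?_
    have := mul_le_mul_of_nonneg_right hz1 hN
    linarith
  have hqn : 3 ^ n * (g.q : ℝ) ^ n ≤ κ ^ n := by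
    rw [← mul_pow]
    exact pow_le_pow_left₀ (by positivity) hk1 n
  have h3n : (3 : ℝ) ≤ 3 ^ n := by
    calc (3 : ℝ) = 3 ^ 1 := (pow_one 3).symm
      _ ≤ 3 ^ n := pow_le_pow_right₀ (by norm_num) hn
  have hfin : 3 * ((g.q : ℝ) ^ n * |t|) ≤ |κ ^ n * t| := by
    rw [abs_mul, abs_of_pos (by positivity : 0 < κ ^ n)]
    calc 3 * ((g.q : ℝ) ^ n * |t|) ≤ 3 ^ n * ((g.q : ℝ) ^ n * |t|) := by gcongr
      _ = 3 ^ n * (g.q : ℝ) ^ n * |t| := by ring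
      _ ≤ κ ^ n * |t| := by gcongr
  have h32 : (32 : ℝ) ^ n = 32 * 32 ^ (n - 1) := by
    obtain ⟨m, rfl⟩ : ∃ m, n = m + 1 := ⟨n - 1, by omega⟩
    rw [Nat.add_sub_cancel, pow_succ]
    ring
  rw [h32]
  have hP : 0 ≤ ((g.q : ℝ) ^ 2 * y) * (n * 32 ^ (n - 1)) := by positivity
  nlinarith [hfin, hbr2, hP]

end Pool.Agent.Lib.H42V
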