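import Pool.Agent.Lib.H42V.SQ
import Pool.Agent.Lib.H42V.PK2
import Pool.Agent.Lib.H70X.QL5

/-!
# Chunk SCQ (M)
One scale, quotient matrix (middle scales `q^n ≤ Z`, `Z^n ≤ q^(n w0)`).

Proof. `H70X.complete n (pk n g)` (`pk_prim`) gives `G` unimodular with column 0 equal to `pk`. `c` of `sup_quot n`, `C0, α` of `H70X.qnd n n`, `ρ = c (Z^(-s))^(n+1) ≤ c (Z^(-s))^n`. Let `y` be in the set, with `v`; `v = m • pk + VG G u` (`VG_exists`), `u ≠ 0` (otherwise `v` is a multiple of `pk`). The functionals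
`β_i(v) = tc a v i - v_n/P_n tc a P i` and `β_0^y(v) = tc (a+y) v 0 - v_n/P_n tc (a+y) P 0` vanish on `P = pk`, so `ev (hQ) y u i` is `1/Z β_i(v)`, `q^n Z^(n-1) β_0^y(v)`. `|v_n/P_n| ≤ δ Z/(2 q^n)`, `|β_i(v)| ≤ (n+1) 6^n δ Z + δ Z/(2 q^n) (n+1) 4 * 36^n q^n ≤ κ δ Z` (`tc_le`, `pk_tc`), `κ = 3 (n+1) 36^n`.
`|tc (a+y) P 0| ≤ n 32^n q^2 y/q^n ≤ 2 n 32^n q^2 Y/q^n = 2 n 32^n q^(-n w0)` (`pk_up`, `y ≤ 2 Y ≤ 2/q^2` as `n w0 - n ≥ 0`). So `q^n Z^(n-1) |β_0^y(v)| ≤ q^n Z^(n-1) (δ/Z^n + δ Z/(2 q^n) 2 n 32^n q^(-n w0)) ≤ δ (1 + n 32^n)` (`q^n ≤ Z`, `Z^n ≤ q^(n w0)`).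
So `n ∑ |ev| < ε := 2 n^2 (κ + 1 + n 32^n) δ`; end as in `SCF`.
-/

open Polynomial MeasureTheory Set Filter

namespace Pool.Agent.Lib.H42V

/-- The reduced functional does not see multiples of `P`. -/
theorem scq_red {n : ℕ} (x : ℝ) (i : ℕ) (P v V : Fin (n + 1) → ℤ) (m : ℤ) (hv : v = m • P + V)
    (hP : (P (Fin.last n) : ℝ) ≠ 0) :
    tc x (rv V) i - (V (Fin.last n) : ℝ) / P (Fin.last n) * tc x (rv P) i =
      tc x (rv v) i - (v (Fin.last n) : ℝ) / P (Fin.last n) * tc x (rv P) i := by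
  have h1 : rv v = (m : ℝ) • rv P + rv V := by
    rw [hv]
    funext l
    simp [rv]
  have h2 : (v (Fin.last n) : ℝ) = m * (P (Fin.last n) : ℝ) + V (Fin.last n) := by
    rw [hv]
    simp
  rw [h1, tc_add, tc_smul, h2]
  field_simp
  ring

/-- The case `i = 0`. -/
theorem scq_zero (n : ℕ) (hn : 1 ≤ n) (g : Mo) (hg : g.Ok) (Z w0 δ y : ℝ) (hw0 : 1 ≤ w0)
    (hZ : (g.q : ℝ) ^ n ≤ Z) (hZ2 : Z ^ n ≤ (g.q : ℝ) ^ (n * w0)) (hδ : 0 < δ) (hy0 : 0 ≤ y)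
    (hy : y ≤ 2 * Yy n w0 g) (A V : ℝ) (hA : |A| ≤ δ / Z ^ n)
    (hV : |V| ≤ δ * Z / (2 * (g.q : ℝ) ^ n)) :
    |(g.q : ℝ) ^ n * Z ^ (n - 1) * (A - V * tc (al n g + y) (rv (pk n g)) 0)| ≤
      (1 + n * 32 ^ n) * δ := by
  obtain ⟨k, rfl⟩ : ∃ k, n = k + 1 := ⟨n - 1, by omega⟩
  have hq0 : (0 : ℝ) < g.q := by exact_mod_cast hg.qpos
  have hq1 : (1 : ℝ) ≤ g.q := by exact_mod_cast hg.qpos
  have hqn1 : (1 : ℝ) ≤ (g.q : ℝ) ^ (k + 1) := one_le_pow₀ hq1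
  have hqn0 : (0 : ℝ) < (g.q : ℝ) ^ (k + 1) := by linarith
  have hZ0 : 0 < Z := by linarith
  have hnR : (1 : ℝ) ≤ ((k + 1 : ℕ) : ℝ) := by exact_mod_cast hn
  obtain ⟨Y, hY⟩ : ∃ Y : ℝ, Y = Yy (k + 1) w0 g := ⟨_, rfl⟩
  have hYq : (g.q : ℝ) ^ 2 * Y = (g.q : ℝ) ^ (k + 1) * (g.q : ℝ) ^ (-(((k + 1 : ℕ) : ℝ) * w0)) := by
    rw [hY, Yy, ← Real.rpow_natCast (g.q : ℝ) 2, ← Real.rpow_natCast (g.q : ℝ) (k + 1),
      ← Real.rpow_add hq0, ← Real.rpow_add hq0]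
    congr 1
    push_cast
    ring
  have hY2 : (g.q : ℝ) ^ 2 * Y ≤ 1 := by
    rw [hYq, ← Real.rpow_natCast (g.q : ℝ) (k + 1), ← Real.rpow_add hq0]
    refine Real.rpow_le_one_of_one_le_of_nonpos hq1 ?_
    nlinarith
  rw [← hY] at hy
  have hy2 : y ≤ 2 / (g.q : ℝ) ^ 2 := by
    rw [le_div_iff₀ (by positivity)]
    nlinarith [sq_nonneg (g.q : ℝ)]
  have hup := pk_up (k + 1) hn g hg y hy0 hy2
  obtain ⟨T, hT⟩ : ∃ T : ℝ, T = |tc (al (k + 1) g + y) (rv (pk (k + 1) g)) 0| := ⟨_, rfl⟩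
  have hT0 : 0 ≤ T := by rw [hT]; exact abs_nonneg _
  obtain ⟨r, hr⟩ : ∃ r : ℝ, r = (g.q : ℝ) ^ (-(((k + 1 : ℕ) : ℝ) * w0)) := ⟨_, rfl⟩
  have hr0 : 0 < r := by rw [hr]; exact Real.rpow_pos_of_pos hq0 _
  have hrZ : Z ^ (k + 1) * r ≤ 1 := by
    have h1 : (g.q : ℝ) ^ (((k + 1 : ℕ) : ℝ) * w0) * r = 1 := by
      rw [hr, ← Real.rpow_add hq0, add_neg_cancel, Real.rpow_zero]
    rw [← h1]
    exact mul_le_mul_of_nonneg_right hZ2 hr0.le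
  obtain ⟨B, hB⟩ : ∃ B : ℝ, B = ((k + 1 : ℕ) : ℝ) * 32 ^ (k + 1) := ⟨_, rfl⟩
  have hB0 : 0 < B := by rw [hB]; positivity
  have hT1 : T ≤ 2 * B * r := by
    rw [← hT, ← hB] at hup
    have h1 : (g.q : ℝ) ^ (k + 1) * T ≤ (g.q : ℝ) ^ (k + 1) * (2 * B * r) := by
      refine hup.trans ?_
      have h2 : (g.q : ℝ) ^ 2 * y ≤ 2 * ((g.q : ℝ) ^ 2 * Y) := by
        nlinarith [sq_nonneg (g.q : ℝ)]
      calc B * ((g.q : ℝ) ^ 2 * y) ≤ B * (2 * ((g.q : ℝ) ^ 2 * Y)) :=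
            mul_le_mul_of_nonneg_left h2 hB0.le
        _ = (g.q : ℝ) ^ (k + 1) * (2 * B * r) := by
            rw [hYq, ← hr]
            ring
    exact le_of_mul_le_mul_left h1 hqn0
  rw [abs_mul, abs_of_nonneg (by positivity : (0 : ℝ) ≤ (g.q : ℝ) ^ (k + 1) * Z ^ (k + 1 - 1))]
  have h3 : |A - V * tc (al (k + 1) g + y) (rv (pk (k + 1) g)) 0| ≤ δ / Z ^ (k + 1) +
      δ * Z / (2 * (g.q : ℝ) ^ (k + 1)) * (2 * B * r) := by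
    refine (abs_sub _ _).trans (add_le_add hA ?_)
    rw [abs_mul, ← hT]
    exact mul_le_mul hV hT1 hT0 (by positivity)
  refine (mul_le_mul_of_nonneg_left h3 (by positivity)).trans ?_
  have h4 : (g.q : ℝ) ^ (k + 1) * Z ^ (k + 1 - 1) * (δ / Z ^ (k + 1) +
      δ * Z / (2 * (g.q : ℝ) ^ (k + 1)) * (2 * B * r)) =
      δ * ((g.q : ℝ) ^ (k + 1) / Z) + δ * B * (Z ^ (k + 1) * r) := by
    have h5 : k + 1 - 1 = k := by omega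
    rw [h5]
    field_simp
    ring
  rw [h4, ← hB]
  have h6 : (g.q : ℝ) ^ (k + 1) / Z ≤ 1 := (div_le_one hZ0).2 hZ
  have h7 : δ * ((g.q : ℝ) ^ (k + 1) / Z) ≤ δ * 1 := mul_le_mul_of_nonneg_left h6 hδ.le
  have h8 : δ * B * (Z ^ (k + 1) * r) ≤ δ * B * 1 := mul_le_mul_of_nonneg_left hrZ (by positivity)
  linarith

/-- The case `i ≥ 1`. -/
theorem scq_succ (n : ℕ) (hn : 1 ≤ n) (g : Mo) (hg : g.Ok) (Z δ : ℝ)
    (hZ : (g.q : ℝ) ^ n ≤ Z) (hδ : 0 < δ) (v : Fin (n + 1) → ℤ) (hv : ∀ l, |(v l : ℝ)| ≤ δ * Z)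
    (V : ℝ) (hV : |V| ≤ δ * Z / (2 * (g.q : ℝ) ^ n)) (i : ℕ) :
    |1 / Z * (tc (al n g) (rv v) i - V * tc (al n g) (rv (pk n g)) i)| ≤
      3 * (n + 1) * 36 ^ n * δ := by
  have hq0 : (0 : ℝ) < g.q := by exact_mod_cast hg.qpos
  have hq1 : (1 : ℝ) ≤ g.q := by exact_mod_cast hg.qpos
  have hqn1 : (1 : ℝ) ≤ (g.q : ℝ) ^ n := one_le_pow₀ hq1
  have hqn0 : (0 : ℝ) < (g.q : ℝ) ^ n := by linarith
  have hZ0 : 0 < Z := by linarith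
  have hal : |al n g| ≤ 3 := (al_le n hn g hg).trans (by norm_num)
  have h1 := tc_le (al n g) (δ * Z) hal (by positivity) (rv v) hv i
  have h2 := pk_tc n hn g hg i
  rw [abs_mul, abs_of_nonneg (by positivity : (0 : ℝ) ≤ 1 / Z)]
  have h3 : |tc (al n g) (rv v) i - V * tc (al n g) (rv (pk n g)) i| ≤ (n + 1) * 6 ^ n * (δ * Z) +
      δ * Z / (2 * (g.q : ℝ) ^ n) * ((n + 1) * (4 * 36 ^ n) * (g.q : ℝ) ^ n) := by
    refine (abs_sub _ _).trans (add_le_add h1 ?_)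
    rw [abs_mul]
    exact mul_le_mul hV h2 (abs_nonneg _) (by positivity)
  refine (mul_le_mul_of_nonneg_left h3 (by positivity)).trans ?_
  have h4 : 1 / Z * ((n + 1) * 6 ^ n * (δ * Z) +
      δ * Z / (2 * (g.q : ℝ) ^ n) * ((n + 1) * (4 * 36 ^ n) * (g.q : ℝ) ^ n)) =
      ((n : ℝ) + 1) * δ * (6 ^ n + 2 * 36 ^ n) := by
    field_simp
    ring
  rw [h4]
  have h5 : (6 : ℝ) ^ n ≤ 36 ^ n := pow_le_pow_left₀ (by norm_num) (by norm_num) n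
  have h6 : ((n : ℝ) + 1) * δ * (6 ^ n + 2 * 36 ^ n) ≤ ((n : ℝ) + 1) * δ * (3 * 36 ^ n) :=
    mul_le_mul_of_nonneg_left (by linarith) (by positivity)
  refine h6.trans (le_of_eq ?_)
  ring

theorem scale_quot (n : ℕ) (hn : 1 ≤ n) : ∃ C α : ℝ, 0 < C ∧ 0 < α ∧ ∀ (g : Mo) (s Z w0 δ : ℝ), g.Ok → 0 ≤ s → s ≤ 1 →
    GoodA n s g → 1 ≤ w0 → (g.q : ℝ) ^ n ≤ Z → Z ^ n ≤ (g.q : ℝ) ^ (n * w0) → 0 < δ →
    volume {y ∈ Icc (Yy n w0 g) (2 * Yy n w0 g) | ∃ v : Fin (n + 1) → ℤ, ¬ Mul v (pk n g) ∧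
      (∀ l, |(v l : ℝ)| ≤ δ * Z) ∧ |tc (al n g + y) (rv v) 0| ≤ δ / Z ^ n} ≤
      ENNReal.ofReal (C * (δ * (Z ^ s) ^ (n + 1)) ^ α * Yy n w0 g) := by
  obtain ⟨c, hc0, hcle, hsq⟩ := sup_quot n hn
  obtain ⟨C0, α, hC0, hα, hq⟩ := H70X.qnd n n
  have hnR : (1 : ℝ) ≤ n := by exact_mod_cast hn
  obtain ⟨κ, hκ⟩ : ∃ κ : ℝ, κ = 3 * (n + 1) * 36 ^ n + (1 + n * 32 ^ n) := ⟨_, rfl⟩
  have hκ0 : 0 < κ := by rw [hκ]; positivity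
  have hκa : 3 * ((n : ℝ) + 1) * 36 ^ n ≤ κ := by
    rw [hκ]
    have : (0 : ℝ) ≤ 1 + n * 32 ^ n := by positivity
    linarith
  have hκb : (1 + (n : ℝ) * 32 ^ n) ≤ κ := by
    rw [hκ]
    have : (0 : ℝ) ≤ 3 * (n + 1) * 36 ^ n := by positivity
    linarith
  set K : ℝ := 2 * (n : ℝ) ^ 2 * κ / c with hK
  have hK0 : 0 < K := by positivity
  refine ⟨max C0 1 * K ^ α, α, by positivity, hα, ?_⟩
  intro g s Z w0 δ hg hs hs' hgood hw0 hZ hZ2 hδ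
  have hq0 : (0 : ℝ) < g.q := by exact_mod_cast hg.qpos
  have hq1 : (1 : ℝ) ≤ g.q := by exact_mod_cast hg.qpos
  have hqn1 : (1 : ℝ) ≤ (g.q : ℝ) ^ n := one_le_pow₀ hq1
  have hZ1 : 1 ≤ Z := hqn1.trans hZ
  have hZ0 : 0 < Z := by linarith
  have hPb := pk_bd n hn g hg
  have hP0 : 0 < |(pk n g (Fin.last n) : ℝ)| := by
    have := hPb.2
    linarith
  have hPne : (pk n g (Fin.last n) : ℝ) ≠ 0 := abs_pos.mp hP0
  obtain ⟨G, hG, hG0⟩ := H70X.complete n (pk n g) (fun d h => pk_prim n hn g hg d h)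
  have hYpos : 0 < Yy n w0 g := Real.rpow_pos_of_pos hq0 _
  have hev : ∀ y ∈ Icc (Yy n w0 g) (2 * Yy n w0 g), ∀ (v : Fin (n + 1) → ℤ) (m : ℤ)
      (u : Fin n → ℤ), v = m • pk n g + VG G u → (∀ l, |(v l : ℝ)| ≤ δ * Z) →
      |tc (al n g + y) (rv v) 0| ≤ δ / Z ^ n → ∀ i, |H70X.ev (hQ n g Z G) y u i| ≤ κ * δ := by
    intro y hy v m u hv hvl hv0 i
    have hV : |(v (Fin.last n) : ℝ) / pk n g (Fin.last n)| ≤ δ * Z / (2 * (g.q : ℝ) ^ n) := by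
      rw [abs_div]
      exact div_le_div₀ (by positivity) (hvl _) (by positivity) hPb.2
    by_cases hi : (i : ℕ) = 0
    · rw [ev_hQ_zero n g Z y G u i hi, scq_red (al n g + y) 0 (pk n g) v (VG G u) m hv hPne]
      refine (scq_zero n hn g hg Z w0 δ y hw0 hZ hZ2 hδ (hYpos.le.trans hy.1) hy.2 _ _ hv0
        hV).trans ?_
      exact mul_le_mul_of_nonneg_right hκb hδ.le
    · rw [ev_hQ n g Z y G u i hi, scq_red (al n g) (i : ℕ) (pk n g) v (VG G u) m hv hPne]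
      refine (scq_succ n hn g hg Z δ hZ hδ v hvl _ hV (i : ℕ)).trans ?_
      exact mul_le_mul_of_nonneg_right hκa hδ.le
  obtain ⟨Y, hY⟩ : ∃ Y : ℝ, Y = Yy n w0 g := ⟨_, rfl⟩
  rw [← hY] at hev hYpos ⊢
  have hY0 : 0 < Y := hYpos
  have hζ0 : 0 < Z ^ (-s) := Real.rpow_pos_of_pos hZ0 _
  have hζ1 : Z ^ (-s) ≤ 1 := Real.rpow_le_one_of_one_le_of_nonpos hZ1 (by linarith)
  obtain ⟨ρ, hρ⟩ : ∃ ρ : ℝ, ρ = c * (Z ^ (-s)) ^ (n + 1) := ⟨_, rfl⟩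
  have hρ0 : 0 < ρ := by
    rw [hρ]
    positivity
  have hρ1 : ρ ≤ 1 := by
    rw [hρ]
    exact mul_le_one₀ hcle (by positivity) (pow_le_one₀ hζ0.le hζ1)
  have hsup : ∀ j : ℕ, 1 ≤ j → ∀ v : Fin j → Fin n → ℤ, LinearIndependent ℤ v →
      ∃ x ∈ Icc Y (2 * Y), ∃ S : Fin j → Fin n, ρ ≤ |H70X.mn (hQ n g Z G) x v S| := by
    intro j hj v hv
    obtain ⟨y, hy, S, hS⟩ := hsq g s Z Y G hg hs hs' hgood hZ hY0 hG hG0 j hj v hv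
    refine ⟨y, hy, S, le_trans ?_ hS⟩
    rw [hρ]
    exact mul_le_mul_of_nonneg_left (pow_le_pow_of_le_one hζ0.le hζ1 (Nat.le_succ n)) hc0.le
  obtain ⟨ε, hε⟩ : ∃ ε : ℝ, ε = 2 * (n : ℝ) ^ 2 * κ * δ := ⟨_, rfl⟩
  have hε0 : 0 < ε := by
    rw [hε]
    positivity
  have hsub : {y ∈ Icc Y (2 * Y) | ∃ v : Fin (n + 1) → ℤ, ¬ Mul v (pk n g) ∧
      (∀ l, |(v l : ℝ)| ≤ δ * Z) ∧ |tc (al n g + y) (rv v) 0| ≤ δ / Z ^ n} ⊆
      {x ∈ Icc Y (2 * Y) | ∃ u : Fin n → ℤ, u ≠ 0 ∧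
        (n : ℝ) * ∑ i, |H70X.ev (hQ n g Z G) x u i| < ε} := by
    rintro y ⟨hy, v, hv, hvl, hv0⟩
    obtain ⟨m, u, hmu⟩ := VG_exists G hG (pk n g) hG0 v
    refine ⟨hy, u, ?_, ?_⟩
    · rintro rfl
      refine hv ⟨m, ?_⟩
      rw [hmu]
      have h1 : VG G (0 : Fin n → ℤ) = 0 := by
        funext l
        simp [VG]
      rw [h1, add_zero]
    · have h1 := hev y hy v m u hmu hvl hv0
      have h2 : ∑ i, |H70X.ev (hQ n g Z G) y u i| ≤ (n : ℝ) * (κ * δ) := by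
        refine (Finset.sum_le_sum fun i _ => h1 i).trans (le_of_eq ?_)
        rw [Finset.sum_const, Finset.card_univ, Fintype.card_fin, nsmul_eq_mul]
      have h3 : (n : ℝ) * ∑ i, |H70X.ev (hQ n g Z G) y u i| ≤ (n : ℝ) * ((n : ℝ) * (κ * δ)) :=
        mul_le_mul_of_nonneg_left h2 (by positivity)
      refine lt_of_le_of_lt h3 ?_
      rw [hε]
      have h4 : 0 < (n : ℝ) ^ 2 * κ * δ := by positivity
      linarith
  have hratio : ε / ρ = K * (δ * (Z ^ s) ^ (n + 1)) := by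
    rw [hε, hρ, hK, Real.rpow_neg hZ0.le]
    have h1 : 0 < Z ^ s := Real.rpow_pos_of_pos hZ0 _
    field_simp
    rw [← mul_pow, one_div, inv_mul_cancel₀ h1.ne', one_pow]
  have hpos : 0 < δ * (Z ^ s) ^ (n + 1) := by
    have h1 : 0 < Z ^ s := Real.rpow_pos_of_pos hZ0 _
    positivity
  have hpow : (ε / ρ) ^ α = K ^ α * (δ * (Z ^ s) ^ (n + 1)) ^ α := by
    rw [hratio, Real.mul_rpow hK0.le hpos.le]
  by_cases hερ : ε ≤ ρ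
  · have h1 := hq (hQ n g Z G) Y (2 * Y) ρ ε (fun i l => hQ_deg n g Z G i l)
      (fun x => hQ_det n hn g hg Z x hZ0 G hG hG0) (by linarith) hε0 hερ hρ1 hsup
    refine (measure_mono hsub).trans (h1.trans (ENNReal.ofReal_le_ofReal ?_))
    rw [hpow]
    have h2 : 2 * Y - Y = Y := by ring
    rw [h2]
    refine mul_le_mul_of_nonneg_right ?_ hY0.le
    rw [← mul_assoc]
    refine mul_le_mul_of_nonneg_right ?_ (by positivity)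
    exact mul_le_mul_of_nonneg_right (le_max_left _ _) (by positivity)
  · push Not at hερ
    refine (measure_mono (fun y hy => hy.1 : _ ⊆ Icc Y (2 * Y))).trans ?_
    rw [Real.volume_Icc]
    refine ENNReal.ofReal_le_ofReal ?_
    have h1 : 1 ≤ (ε / ρ) ^ α := by
      refine Real.one_le_rpow ?_ hα.le
      rw [le_div_iff₀ hρ0]
      linarith
    rw [hpow] at h1
    have h2 : (1 : ℝ) ≤ max C0 1 * (K ^ α * (δ * (Z ^ s) ^ (n + 1)) ^ α) :=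
      one_le_mul_of_one_le_of_one_le (le_max_right _ _) h1
    have h3 : 1 * Y ≤ max C0 1 * (K ^ α * (δ * (Z ^ s) ^ (n + 1)) ^ α) * Y :=
      mul_le_mul_of_nonneg_right h2 hY0.le
    calc 2 * Y - Y = 1 * Y := by ring
      _ ≤ _ := h3
      _ = _ := by ring

end Pool.Agent.Lib.H42V
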