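import Pool.Agent.Lib.H42V.SCF
import Pool.Agent.Lib.H42V.SCQ

/-!
# Chunk FAR (M)
All scales. (Compare `H70X.far_measure`, J8, with the same summation.)

Proof. `s1 = ε/(n+1)`, `s = s1/(4 (n+1))`. Constants `C1, α1`, `C2, α2` of `scale_full`, `scale_quot`. `G_t = 2^t q^(1/(n+1))`, `t = 0, 1, ...`. Let `x = al + y` be in the set, with `X, v`; `X1 = X^(1+s1) ≥ X ≥ q^(1/(n+1)) ≥ 1`, `t` with `G = G_t ≤ X1 < 2 G`. `G ≤ X^2`, so `X^(-s1) ≤ G^(-s1/2)`, `X = X1 X^(-s1) ≤ 2 G G^(-s1/2)`, so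
`|v_l| ≤ δ G` with `δ = 2 G^(-s1/2)`; `|tc x v 0| ≤ X^(-n-ε) = X1^(-n) X^(n s1 - ε) ≤ G^(-n) X^(-s1) ≤ δ/G^n` (`ε - n s1 = s1`). Each `G_t` satisfies the hypotheses of `scale_full` or of `scale_quot` (`G ≤ q^n`, or `q^n ≤ G` and `G^n ≤ q^(n w0)`, or `q^n ≤ G` and `q^(n w0) ≤ G^n`). So the measure is
`≤ ∑_t ∑_{i=1,2} C_i (2 G_t^(-s1/2) G_t^(s (n+1)))^(α_i) Y = ∑_t ∑_i C_i 2^(α_i) G_t^(-s1 α_i/4) Y` (translate by `al`), and `∑_t G_t^(-β) = q^(-β/(n+1))/(1 - 2^(-β))`, which tends to 0 as `q → ∞`: `≤ Y/10` for `q ≥ Q0`.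
-/

open Polynomial MeasureTheory Set Filter

namespace Pool.Agent.Lib.H42V

open Topology in
/-- the geometric sum over the scales -/
theorem far_geo (n : ℕ) (D β : ℝ) (hD : 0 < D) (hβ : 0 < β) :
    ∃ Q : ℕ, ∀ q Y : ℝ, (Q : ℝ) ≤ q → 1 ≤ q → 0 ≤ Y →
      ∑' t : ℕ, ENNReal.ofReal (D * (2 ^ t * q ^ (1 / ((n : ℝ) + 1))) ^ (-β) * Y) ≤
        ENNReal.ofReal (Y / 20) := by
  set ρ : ℝ := (2 : ℝ) ^ (-β) with hρ
  have hρ0 : 0 < ρ := by positivity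
  have hρ1 : ρ < 1 := Real.rpow_lt_one_of_one_lt_of_neg (by norm_num) (by linarith)
  have hn1 : (0 : ℝ) < 1 / ((n : ℝ) + 1) := by positivity
  have htend : Tendsto (fun q : ℝ => D * (1 - ρ)⁻¹ * (q ^ (1 / ((n : ℝ) + 1))) ^ (-β)) atTop
      (𝓝 0) := by
    have h1 : Tendsto (fun q : ℝ => (q ^ (1 / ((n : ℝ) + 1))) ^ (-β)) atTop (𝓝 0) :=
      (tendsto_rpow_neg_atTop hβ).comp (tendsto_rpow_atTop hn1)
    simpa using h1.const_mul (D * (1 - ρ)⁻¹)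
  obtain ⟨a, ha⟩ := (htend.eventually_lt_const (by norm_num : (0 : ℝ) < 1 / 20)).exists_forall_of_atTop
  refine ⟨⌈a⌉₊, fun q Y hq hq1 hY => ?_⟩
  have hqa : a ≤ q := (Nat.le_ceil a).trans hq
  have h2 := ha q hqa
  have hg0 : 0 < q ^ (1 / ((n : ℝ) + 1)) := by
    have : 0 < q := by linarith
    positivity
  have e : ∀ t : ℕ, D * (2 ^ t * q ^ (1 / ((n : ℝ) + 1))) ^ (-β) * Y =
      D * (q ^ (1 / ((n : ℝ) + 1))) ^ (-β) * Y * ρ ^ t := by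
    intro t
    rw [Real.mul_rpow (by positivity) hg0.le]
    have : ((2 : ℝ) ^ t) ^ (-β) = ρ ^ t := by
      rw [hρ, ← Real.rpow_natCast, ← Real.rpow_natCast, ← Real.rpow_mul (by norm_num),
        ← Real.rpow_mul (by norm_num)]
      congr 1
      ring
    rw [this]
    ring
  calc ∑' t : ℕ, ENNReal.ofReal (D * (2 ^ t * q ^ (1 / ((n : ℝ) + 1))) ^ (-β) * Y)
      = ∑' t : ℕ, ENNReal.ofReal (D * (q ^ (1 / ((n : ℝ) + 1))) ^ (-β) * Y * ρ ^ t) := by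
        simp_rw [e]
    _ = ENNReal.ofReal (∑' t : ℕ, D * (q ^ (1 / ((n : ℝ) + 1))) ^ (-β) * Y * ρ ^ t) := by
        rw [ENNReal.ofReal_tsum_of_nonneg (fun t => by positivity)
          ((summable_geometric_of_lt_one hρ0.le hρ1).mul_left _)]
    _ = ENNReal.ofReal (D * (q ^ (1 / ((n : ℝ) + 1))) ^ (-β) * Y * (1 - ρ)⁻¹) := by
        rw [tsum_mul_left, tsum_geometric_of_lt_one hρ0.le hρ1]
    _ ≤ ENNReal.ofReal (Y / 20) := by
        refine ENNReal.ofReal_le_ofReal ?_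
        have : D * (q ^ (1 / ((n : ℝ) + 1))) ^ (-β) * Y * (1 - ρ)⁻¹ =
            (D * (1 - ρ)⁻¹ * (q ^ (1 / ((n : ℝ) + 1))) ^ (-β)) * Y := by ring
        rw [this]
        nlinarith

/-- the scale of `Z` -/
theorem far_exists (g Z : ℝ) (hg : 1 ≤ g) (h : g ≤ Z) :
    ∃ t : ℕ, 2 ^ t * g ≤ Z ∧ Z < 2 * (2 ^ t * g) := by
  classical
  have hex : ∃ t : ℕ, Z < 2 * (2 ^ t * g) := by
    obtain ⟨t, ht⟩ := pow_unbounded_of_one_lt Z (by norm_num : (1 : ℝ) < 2)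
    refine ⟨t, lt_of_lt_of_le ht ?_⟩
    have h1 : (1 : ℝ) ≤ 2 ^ t := one_le_pow₀ (by norm_num)
    nlinarith
  refine ⟨Nat.find hex, ?_, Nat.find_spec hex⟩
  rcases Nat.eq_zero_or_pos (Nat.find hex) with h0 | h0
  · rw [h0, pow_zero, one_mul]
    exact h
  · obtain ⟨t', ht'⟩ : ∃ t', Nat.find hex = t' + 1 := ⟨Nat.find hex - 1, by omega⟩
    have := Nat.find_min hex (m := t') (by omega)
    rw [ht']
    rw [not_lt] at this
    have e : (2 : ℝ) ^ (t' + 1) * g = 2 * (2 ^ t' * g) := by ring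
    rw [e]
    exact this

/-- arithmetic of one scale -/
theorem far_arith (n : ℕ) (s1 ε X G : ℝ) (hs : s1 * (n + 1) = ε) (hs0 : 0 < s1) (hs1 : s1 ≤ 1)
    (hX : 1 ≤ X) (hG : 1 ≤ G) (h1 : G ≤ X ^ (1 + s1)) (h2 : X ^ (1 + s1) < 2 * G) :
    X ≤ 2 * G ^ (-(s1 / 2)) * G ∧ X ^ (-(n + ε)) ≤ 2 * G ^ (-(s1 / 2)) / G ^ n := by
  have hX0 : 0 < X := by linarith
  have hG0 : 0 < G := by linarith
  have hX2 : G ≤ X ^ (2 : ℝ) :=
    h1.trans (Real.rpow_le_rpow_of_exponent_le hX (by linarith))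
  have hXs : X ^ (-s1) ≤ G ^ (-(s1 / 2)) := by
    have e : X ^ (-s1) = (X ^ (2 : ℝ)) ^ (-(s1 / 2)) := by
      rw [← Real.rpow_mul hX0.le]
      congr 1
      ring
    rw [e]
    exact Real.rpow_le_rpow_of_nonpos hG0 hX2 (by linarith)
  have hP : 0 < G ^ (-(s1 / 2)) := by positivity
  have hXs0 : 0 < X ^ (-s1) := by positivity
  constructor
  · have e : X = X ^ (1 + s1) * X ^ (-s1) := by
      rw [← Real.rpow_add hX0, add_neg_cancel_right, Real.rpow_one]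
    calc X = X ^ (1 + s1) * X ^ (-s1) := e
      _ ≤ 2 * G * G ^ (-(s1 / 2)) := mul_le_mul h2.le hXs hXs0.le (by linarith)
      _ = 2 * G ^ (-(s1 / 2)) * G := by ring
  · have e : X ^ (-(n + ε)) = X ^ (-s1) / (X ^ (1 + s1)) ^ n := by
      rw [← Real.rpow_natCast, ← Real.rpow_mul hX0.le, ← Real.rpow_sub hX0]
      congr 1
      rw [← hs]
      ring
    rw [e]
    have hGn : 0 < G ^ n := by positivity
    have h3 : G ^ n ≤ (X ^ (1 + s1)) ^ n := pow_le_pow_left₀ hG0.le h1 n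
    calc X ^ (-s1) / (X ^ (1 + s1)) ^ n ≤ X ^ (-s1) / G ^ n :=
          div_le_div_of_nonneg_left hXs0.le hGn h3
      _ ≤ 2 * G ^ (-(s1 / 2)) / G ^ n :=
          div_le_div_of_nonneg_right (by linarith) hGn.le

theorem far (n : ℕ) (hn : 1 ≤ n) (w0 : ℝ) (hw0 : 1 ≤ w0) (ε : ℝ) (hε : 0 < ε) (hε1 : ε ≤ 1) :
    ∃ s : ℝ, 0 < s ∧ s ≤ 1 ∧ ∃ Q0 : ℕ, ∀ g : Mo, g.Ok → (Q0 : ℤ) ≤ g.q → GoodA n s g →
      volume {x ∈ Jj n w0 g | ∃ X : ℝ, (g.q : ℝ) ^ (1 / ((n : ℝ) + 1)) ≤ X ∧ ∃ v : Fin (n + 1) → ℤ,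
        ¬ Mul v (pk n g) ∧ (∀ l, |(v l : ℝ)| ≤ X) ∧ |tc x (rv v) 0| ≤ X ^ (-(n + ε))} ≤
        ENNReal.ofReal (Yy n w0 g / 10) := by
  obtain ⟨C1, α1, hC1, hα1, hf⟩ := scale_full n hn
  obtain ⟨C2, α2, hC2, hα2, hq⟩ := scale_quot n hn
  have hnR : (1 : ℝ) ≤ n := by exact_mod_cast hn
  set s1 : ℝ := ε / (n + 1) with hs1
  have hs1n : s1 * (n + 1) = ε := by
    rw [hs1]
    field_simp
  have hs10 : 0 < s1 := by positivity
  have hs11 : s1 ≤ 1 := by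
    rw [hs1, div_le_one (by positivity)]
    linarith
  set s : ℝ := s1 / (4 * (n + 1)) with hs
  have hs0 : 0 < s := by positivity
  have hsle : s ≤ 1 := by
    rw [hs, div_le_one (by positivity)]
    linarith
  have hsn : s * (n + 1) = s1 / 4 := by
    rw [hs]
    field_simp
  obtain ⟨Q1, hQ1⟩ := far_geo n (C1 * 2 ^ α1) (s1 / 4 * α1) (by positivity) (by positivity)
  obtain ⟨Q2, hQ2⟩ := far_geo n (C2 * 2 ^ α2) (s1 / 4 * α2) (by positivity) (by positivity)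
  refine ⟨s, hs0, hsle, max Q1 Q2, fun g hg hQ hgood => ?_⟩
  have hqpos : (1 : ℤ) ≤ g.q := hg.qpos
  have hqR1 : (1 : ℝ) ≤ (g.q : ℝ) := by exact_mod_cast hqpos
  have hqR0 : (0 : ℝ) < (g.q : ℝ) := by linarith
  have hQ1' : (Q1 : ℝ) ≤ (g.q : ℝ) := by
    have : ((Q1 : ℕ) : ℤ) ≤ g.q := le_trans (by exact_mod_cast le_max_left Q1 Q2) hQ
    exact_mod_cast this
  have hQ2' : (Q2 : ℝ) ≤ (g.q : ℝ) := by
    have : ((Q2 : ℕ) : ℤ) ≤ g.q := le_trans (by exact_mod_cast le_max_right Q1 Q2) hQ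
    exact_mod_cast this
  set g0 : ℝ := (g.q : ℝ) ^ (1 / ((n : ℝ) + 1)) with hg0
  have hg01 : 1 ≤ g0 := Real.one_le_rpow hqR1 (by positivity)
  have hY0 : 0 < Yy n w0 g := by
    unfold Yy
    positivity
  set Y : ℝ := Yy n w0 g with hY
  set S : ℕ → Set ℝ := fun t => {x ∈ Jj n w0 g | ∃ v : Fin (n + 1) → ℤ, ¬ Mul v (pk n g) ∧
      (∀ l, |(v l : ℝ)| ≤ 2 * (2 ^ t * g0) ^ (-(s1 / 2)) * (2 ^ t * g0)) ∧
      |tc x (rv v) 0| ≤ 2 * (2 ^ t * g0) ^ (-(s1 / 2)) / (2 ^ t * g0) ^ n} with hS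
  have hsub : {x ∈ Jj n w0 g | ∃ X : ℝ, g0 ≤ X ∧ ∃ v : Fin (n + 1) → ℤ,
        ¬ Mul v (pk n g) ∧ (∀ l, |(v l : ℝ)| ≤ X) ∧ |tc x (rv v) 0| ≤ X ^ (-(n + ε))} ⊆
      ⋃ t, S t := by
    rintro x ⟨hx, X, hX, v, hv1, hv2, hv3⟩
    have hX1 : 1 ≤ X := hg01.trans hX
    have hXX : X ≤ X ^ (1 + s1) := by
      calc X = X ^ (1 : ℝ) := (Real.rpow_one _).symm
        _ ≤ X ^ (1 + s1) := Real.rpow_le_rpow_of_exponent_le hX1 (by linarith)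
    obtain ⟨t, ht1, ht2⟩ := far_exists g0 (X ^ (1 + s1)) hg01 (hX.trans hXX)
    have hG1 : 1 ≤ 2 ^ t * g0 := by
      have : (1 : ℝ) ≤ 2 ^ t := one_le_pow₀ (by norm_num)
      nlinarith
    obtain ⟨e1, e2⟩ := far_arith n s1 ε X (2 ^ t * g0) hs1n hs10 hs11 hX1 hG1 ht1 ht2
    exact Set.mem_iUnion.mpr ⟨t, hx, v, hv1, fun l => (hv2 l).trans e1, hv3.trans e2⟩
  have hSm : ∀ t, volume (S t) ≤
      ENNReal.ofReal (C1 * 2 ^ α1 * (2 ^ t * g0) ^ (-(s1 / 4 * α1)) * Y) +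
        ENNReal.ofReal (C2 * 2 ^ α2 * (2 ^ t * g0) ^ (-(s1 / 4 * α2)) * Y) := by
    intro t
    have hp1 : (1 : ℝ) ≤ 2 ^ t := one_le_pow₀ (by norm_num)
    have hG1 : 1 ≤ 2 ^ t * g0 := by nlinarith
    set G : ℝ := 2 ^ t * g0 with hG
    have hG0 : 0 < G := by linarith
    have hgG : g0 ≤ G := by
      rw [hG]
      nlinarith
    have hδ : 0 < 2 * G ^ (-(s1 / 2)) := by positivity
    have hvol : volume (S t) = volume {y ∈ Icc (Yy n w0 g) (2 * Yy n w0 g) |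
        ∃ v : Fin (n + 1) → ℤ, ¬ Mul v (pk n g) ∧
          (∀ l, |(v l : ℝ)| ≤ 2 * G ^ (-(s1 / 2)) * G) ∧
          |tc (al n g + y) (rv v) 0| ≤ 2 * G ^ (-(s1 / 2)) / G ^ n} := by
      rw [← measure_preimage_add volume (al n g) (S t)]
      congr 1
      ext y
      simp only [hS, Set.mem_preimage, Set.mem_ofPred_eq, Jj, Set.mem_Icc, add_le_add_iff_left]
      exact Iff.rfl
    rw [hvol]
    have key : ∀ C α : ℝ, 0 < C → 0 < α →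
        C * (2 * G ^ (-(s1 / 2)) * (G ^ s) ^ (n + 1)) ^ α * Yy n w0 g =
          C * 2 ^ α * G ^ (-(s1 / 4 * α)) * Y := by
      intro C α hC hα
      have e1 : G ^ (-(s1 / 2)) * (G ^ s) ^ (n + 1) = G ^ (-(s1 / 4)) := by
        rw [← Real.rpow_natCast (G ^ s), ← Real.rpow_mul hG0.le, ← Real.rpow_add hG0]
        congr 1
        push_cast
        rw [hsn]
        ring
      rw [mul_assoc 2, e1, Real.mul_rpow (by norm_num) (by positivity), ← Real.rpow_mul hG0.le]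
      rw [show -(s1 / 4) * α = -(s1 / 4 * α) by ring]
      ring
    rcases le_or_gt G ((g.q : ℝ) ^ n) with h1 | h1
    · refine (hf g s G w0 _ hg hs0.le hsle hgood hw0 hgG hδ (Or.inl h1)).trans ?_
      rw [key C1 α1 hC1 hα1]
      exact le_self_add
    · rcases le_or_gt (G ^ n) ((g.q : ℝ) ^ (n * w0)) with h2 | h2
      · refine (hq g s G w0 _ hg hs0.le hsle hgood hw0 h1.le h2 hδ).trans ?_
        rw [key C2 α2 hC2 hα2]
        exact le_add_self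
      · refine (hf g s G w0 _ hg hs0.le hsle hgood hw0 hgG hδ (Or.inr ⟨h1.le, h2.le⟩)).trans ?_
        rw [key C1 α1 hC1 hα1]
        exact le_self_add
  calc volume {x ∈ Jj n w0 g | ∃ X : ℝ, g0 ≤ X ∧ ∃ v : Fin (n + 1) → ℤ,
        ¬ Mul v (pk n g) ∧ (∀ l, |(v l : ℝ)| ≤ X) ∧ |tc x (rv v) 0| ≤ X ^ (-(n + ε))}
      ≤ volume (⋃ t, S t) := measure_mono hsub
    _ ≤ ∑' t, volume (S t) := measure_iUnion_le _
    _ ≤ ∑' t, (ENNReal.ofReal (C1 * 2 ^ α1 * (2 ^ t * g0) ^ (-(s1 / 4 * α1)) * Y) +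
        ENNReal.ofReal (C2 * 2 ^ α2 * (2 ^ t * g0) ^ (-(s1 / 4 * α2)) * Y)) :=
          ENNReal.tsum_le_tsum hSm
    _ = (∑' t, ENNReal.ofReal (C1 * 2 ^ α1 * (2 ^ t * g0) ^ (-(s1 / 4 * α1)) * Y)) +
        ∑' t, ENNReal.ofReal (C2 * 2 ^ α2 * (2 ^ t * g0) ^ (-(s1 / 4 * α2)) * Y) :=
          ENNReal.tsum_add
    _ ≤ ENNReal.ofReal (Y / 20) + ENNReal.ofReal (Y / 20) :=
          add_le_add (hQ1 g.q Y hQ1' hqR1 hY0.le) (hQ2 g.q Y hQ2' hqR1 hY0.le)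
    _ = ENNReal.ofReal (Y / 10) := by
          rw [← ENNReal.ofReal_add (by positivity) (by positivity)]
          congr 1
          ring

end Pool.Agent.Lib.H42V
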