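import Pool.Agent.Lib.H42V.VP

/-!
# Chunk FL (M)
The lower bound.

Proof. Let `d > 0` with `x + d ≤ ws k` for large `k`. `ExactSet`: for every `X0` we need `X ≥ X0` and `P`. Take `k` large, `C = 4 * 6^n`, `X = C q_k^n` (tends to infinity), `P` of `pkP_facts`: `height P ≤ X`, `0 < |P(ζ)|` and `|P(ζ)| ≤ 2 n 32^n q_k^(-n ws_k) ≤ 2 n 32^n q_k^(-n (x+d))` (`pk_two`), and `X^(-x) = C^(-x) q_k^(-n x)`, so it is enough that
`2 n 32^n C^x ≤ q_k^(n d)`, true for large `k` (`q_k ≥ k + 2`).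
-/

open Polynomial MeasureTheory Set Filter

namespace Pool.Agent.Lib.H42V

theorem lower (n : ℕ) (hn : 1 ≤ n) (ζ x d : ℝ) (hd : 0 < d) (ws : ℕ → ℝ) (hws : ∀ k, 1 ≤ ws k)
    (hlim : ∀ᶠ k in atTop, x + d ≤ ws k) (g : ℕ → Mo) (hg : ∀ k, (g k).Ok) (hq : ∀ k : ℕ, (k : ℤ) + 2 ≤ (g k).q)
    (hq20 : ∀ k, 20 ≤ ((g k).q : ℝ) ^ (n * (ws k - 1))) (hJ : ∀ k, ζ ∈ Jj n (ws k) (g k)) :
    x ∈ H70W.ExactSet n ζ := by
  have hnR : (1 : ℝ) ≤ n := by exact_mod_cast hn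
  have hqR : ∀ k : ℕ, (k : ℝ) + 2 ≤ ((g k).q : ℝ) := by
    intro k
    have := hq k
    exact_mod_cast this
  have hqT : Tendsto (fun k : ℕ => ((g k).q : ℝ)) atTop atTop := by
    refine tendsto_atTop_mono (fun k => ?_) tendsto_natCast_atTop_atTop
    linarith [hqR k]
  set C : ℝ := 4 * 6 ^ n with hC
  have hC1 : 1 ≤ C := by
    have h6 : (1 : ℝ) ≤ 6 ^ n := one_le_pow₀ (by norm_num)
    rw [hC]
    linarith
  have hC0 : 0 < C := lt_of_lt_of_le one_pos hC1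
  have hX : Tendsto (fun k : ℕ => C * ((g k).q : ℝ) ^ n) atTop atTop := by
    refine tendsto_atTop_mono (fun k => ?_) hqT
    have hq1 : (1 : ℝ) ≤ (g k).q := by
      have := hqR k
      have h0 : (0 : ℝ) ≤ k := Nat.cast_nonneg k
      linarith
    have h1 : ((g k).q : ℝ) ≤ ((g k).q : ℝ) ^ n := le_self_pow₀ hq1 (by omega)
    have h2 : (0 : ℝ) ≤ ((g k).q : ℝ) ^ n := by positivity
    nlinarith
  have hbig : ∀ᶠ k : ℕ in atTop, 2 * n * 32 ^ n * C ^ x ≤ ((g k).q : ℝ) ^ ((n : ℝ) * d) := by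
    have hT : Tendsto (fun k : ℕ => ((g k).q : ℝ) ^ ((n : ℝ) * d)) atTop atTop :=
      (tendsto_rpow_atTop (mul_pos (by linarith) hd)).comp hqT
    exact hT.eventually_ge_atTop _
  have hev : ∀ᶠ k : ℕ in atTop, ∃ P : ℤ[X], Irreducible P ∧ P.natDegree = n ∧
      (H70W.height P : ℝ) ≤ C * ((g k).q : ℝ) ^ n ∧ 0 < |aeval ζ P| ∧
        |aeval ζ P| ≤ (C * ((g k).q : ℝ) ^ n) ^ (-x) := by
    filter_upwards [hlim, hbig] with k hk hb
    obtain ⟨P, hirr, hdeg, hht, hval⟩ := pkP_facts n hn (g k) (hg k)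
    have h2 := pk_two n hn (g k) (hg k) (ws k) ζ (hws k) (hq20 k) (hJ k)
    have hq1 : (1 : ℝ) ≤ (g k).q := by
      have := hqR k
      have h0 : (0 : ℝ) ≤ k := Nat.cast_nonneg k
      linarith
    have hq0 : (0 : ℝ) < (g k).q := lt_of_lt_of_le one_pos hq1
    refine ⟨P, hirr, hdeg, hht, ?_, ?_⟩
    · rw [hval ζ]
      exact lt_of_lt_of_le (by positivity) h2.1
    · rw [hval ζ]
      refine h2.2.trans ?_
      have e1 : (C * ((g k).q : ℝ) ^ n) ^ (-x) = C ^ (-x) * ((g k).q : ℝ) ^ (-((n : ℝ) * x)) := by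
        rw [Real.mul_rpow hC0.le (by positivity), ← Real.rpow_natCast ((g k).q : ℝ) n,
          ← Real.rpow_mul hq0.le]
        congr 2
        ring
      rw [e1]
      have h3 : ((g k).q : ℝ) ^ (-((n : ℝ) * ws k)) ≤
          ((g k).q : ℝ) ^ (-((n : ℝ) * x)) * ((g k).q : ℝ) ^ (-((n : ℝ) * d)) := by
        rw [← Real.rpow_add hq0]
        apply Real.rpow_le_rpow_of_exponent_le hq1
        have h4 : (n : ℝ) * (x + d) ≤ n * ws k := mul_le_mul_of_nonneg_left hk (by linarith)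
        linarith
      have h5 : 2 * n * 32 ^ n * ((g k).q : ℝ) ^ (-((n : ℝ) * d)) ≤ C ^ (-x) := by
        rw [Real.rpow_neg hq0.le, Real.rpow_neg hC0.le]
        have ha : 0 < ((g k).q : ℝ) ^ ((n : ℝ) * d) := Real.rpow_pos_of_pos hq0 _
        have hb0 : 0 < C ^ x := Real.rpow_pos_of_pos hC0 _
        rw [← div_eq_mul_inv, div_le_iff₀ ha, inv_mul_eq_div, le_div_iff₀ hb0]
        exact hb
      have h6 : (0 : ℝ) ≤ 2 * n * 32 ^ n := by positivity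
      have h7 : (0 : ℝ) ≤ ((g k).q : ℝ) ^ (-((n : ℝ) * x)) := by positivity
      calc 2 * n * 32 ^ n * ((g k).q : ℝ) ^ (-((n : ℝ) * ws k))
          ≤ 2 * n * 32 ^ n * (((g k).q : ℝ) ^ (-((n : ℝ) * x)) * ((g k).q : ℝ) ^ (-((n : ℝ) * d))) :=
            mul_le_mul_of_nonneg_left h3 h6
        _ = (2 * n * 32 ^ n * ((g k).q : ℝ) ^ (-((n : ℝ) * d))) * ((g k).q : ℝ) ^ (-((n : ℝ) * x)) := by
            ring
        _ ≤ C ^ (-x) * ((g k).q : ℝ) ^ (-((n : ℝ) * x)) := mul_le_mul_of_nonneg_right h5 h7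
  exact hX.frequently hev.frequently

end Pool.Agent.Lib.H42V
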