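import Pool.Agent.Lib.H42V.NX

/-!
# Chunk ZT (M/L)
The number `ζ`. (Compare `H70X.exists_zeta`, S5: the same recursion.)

Proof. `ε_k = 1/(k+1)`; `s_k, Q_k` given by `next` for `w0 = ws k`, `ε_k`. Let `β_0, β_1, ...` be an enumeration of the real algebraic numbers (`Algebraic.countable`). States `x` at the stage `k`: `g` with `g.Ok`, `Q_k ≤ q`, `k + 2 ≤ q`, `Qs k ≤ q`, `GoodA n s_k g`, `0 < al + Yy`, `al + 2 Yy < 1` (with `w0 = ws k`). Start: `pick` on `[1/4, 3/4]` with `A = univ`, `q` large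
(`|al - p/q| ≤ 1/(3 q^2)`, `Yy ≤ 1/q^2`). Step: `next` with `w1 = ws (k+1)`, `s1 = s_(k+1)`, `β = β_k`, `Q1 = max ...` (also `> q`). The intervals `Jj` are nested; `ζ` in their intersection (`Monotone.ciSup_mem_iInter_Icc_of_antitone`).
-/

open Polynomial MeasureTheory Set Filter

namespace Pool.Agent.Lib.H42V

private theorem zt_yy_pos (n : ℕ) (w : ℝ) (g : Mo) (hg : g.Ok) : 0 < Yy n w g := by
  have h1 : (0 : ℝ) < g.q := by exact_mod_cast hg.qpos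
  exact Real.rpow_pos_of_pos h1 _

private theorem zt_yy_le (n : ℕ) (w : ℝ) (hw : 1 ≤ w) (g : Mo) (hg : g.Ok) :
    Yy n w g ≤ 1 / (g.q : ℝ) ^ 2 := by
  have h0 : (1 : ℤ) ≤ g.q := hg.qpos
  have h1 : (1 : ℝ) ≤ g.q := by exact_mod_cast h0
  have h4 : (0 : ℝ) ≤ n := Nat.cast_nonneg n
  have h2 : Yy n w g ≤ (g.q : ℝ) ^ (-(2 : ℝ)) := by
    unfold Yy
    refine Real.rpow_le_rpow_of_exponent_le h1 ?_
    nlinarith
  refine h2.trans (le_of_eq ?_)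
  rw [Real.rpow_neg (by linarith), one_div]
  norm_cast

theorem exists_zeta (n : ℕ) (hn : 1 ≤ n) (ws : ℕ → ℝ) (hws : ∀ k, 1 ≤ ws k) (Qs : ℕ → ℕ) :
    ∃ ζ : ℝ, 0 < ζ ∧ ζ < 1 ∧ Transcendental ℤ ζ ∧ ∃ g : ℕ → Mo, (∀ k, (g k).Ok) ∧ (∀ k : ℕ, (k : ℤ) + 2 ≤ (g k).q) ∧
      (∀ k, (Qs k : ℤ) ≤ (g k).q) ∧ (∀ k, (g k).q < (g (k + 1)).q) ∧ (∀ k, ζ ∈ Jj n (ws k) (g k)) ∧
      ∀ (k : ℕ) (X : ℝ), ((g k).q : ℝ) ^ (1 / ((n : ℝ) + 1)) ≤ X → X ≤ ((g (k + 1)).q : ℝ) ^ (1 / ((n : ℝ) + 1)) →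
        ∀ v : Fin (n + 1) → ℤ, ¬ Mul v (pk n (g k)) → (∀ l, |(v l : ℝ)| ≤ X) →
          X ^ (-(n + 1 / ((k : ℝ) + 1))) / 2 ≤ |tc ζ (rv v) 0| := by
  have hnR : (1 : ℝ) ≤ n := by exact_mod_cast hn
  have hpar : ∀ k : ℕ, ∃ s : ℝ, 0 < s ∧ s ≤ 1 ∧ ∃ Q0 : ℕ, ∀ g : Mo, g.Ok → (Q0 : ℤ) ≤ g.q →
      GoodA n s g → 0 < al n g + Yy n (ws k) g → al n g + 2 * Yy n (ws k) g < 1 →
      ∀ (w1 s1 β : ℝ) (Q1 : ℕ), 1 ≤ w1 → 0 < s1 → ∃ g1 : Mo, g1.Ok ∧ (Q1 : ℤ) ≤ g1.q ∧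
        GoodA n s1 g1 ∧ al n g + Yy n (ws k) g ≤ al n g1 + Yy n w1 g1 ∧
        al n g1 + 2 * Yy n w1 g1 ≤ al n g + 2 * Yy n (ws k) g ∧
        β ∉ Jj n w1 g1 ∧ ∀ x ∈ Jj n w1 g1, ∀ X : ℝ, (g.q : ℝ) ^ (1 / ((n : ℝ) + 1)) ≤ X →
          X ≤ (g1.q : ℝ) ^ (1 / ((n : ℝ) + 1)) → ∀ v : Fin (n + 1) → ℤ, ¬ Mul v (pk n g) →
            (∀ l, |(v l : ℝ)| ≤ X) →
              X ^ (-(n + 1 / ((k : ℝ) + 1))) / 2 ≤ |tc x (rv v) 0| := by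
    intro k
    have hk0 : (0 : ℝ) < 1 / ((k : ℝ) + 1) := by positivity
    have hk1 : (1 : ℝ) / ((k : ℝ) + 1) ≤ 1 := by
      rw [div_le_one (by positivity)]
      have : (0 : ℝ) ≤ k := Nat.cast_nonneg k
      linarith
    exact next n hn (ws k) (hws k) (1 / ((k : ℝ) + 1)) hk0 hk1
  choose s hs hs1 Q hnext using hpar
  obtain ⟨β, hβ⟩ : ∃ β : ℕ → ℝ, {x : ℝ | IsAlgebraic ℤ x} = range β :=
    (Algebraic.countable ℤ ℝ).exists_eq_range ⟨0, isAlgebraic_zero⟩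
  set P : ℕ → Mo → Prop := fun k g => g.Ok ∧ (Q k : ℤ) ≤ g.q ∧ (k : ℤ) + 2 ≤ g.q ∧
    (Qs k : ℤ) ≤ g.q ∧ GoodA n (s k) g ∧ 0 < al n g + Yy n (ws k) g ∧
    al n g + 2 * Yy n (ws k) g < 1 with hPdef
  set R : ℕ → Mo → Mo → Prop := fun k x y => x.q < y.q ∧
    al n x + Yy n (ws k) x ≤ al n y + Yy n (ws (k + 1)) y ∧
    al n y + 2 * Yy n (ws (k + 1)) y ≤ al n x + 2 * Yy n (ws k) x ∧
    β k ∉ Jj n (ws (k + 1)) y ∧
    ∀ t ∈ Jj n (ws (k + 1)) y, ∀ X : ℝ, (x.q : ℝ) ^ (1 / ((n : ℝ) + 1)) ≤ X →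
      X ≤ (y.q : ℝ) ^ (1 / ((n : ℝ) + 1)) → ∀ v : Fin (n + 1) → ℤ, ¬ Mul v (pk n x) →
        (∀ l, |(v l : ℝ)| ≤ X) →
          X ^ (-(n + 1 / ((k : ℝ) + 1))) / 2 ≤ |tc t (rv v) 0| with hRdef
  have hstart : ∃ x, P 0 x := by
    obtain ⟨x, hx, g, hg, hQ, hgood, hxp⟩ := pick n hn (1 / 4) (3 / 4) (by norm_num)
      (by norm_num) (by norm_num) (s 0) (hs 0) univ (by simp) (max (Q 0) (max (Qs 0) 16))
    have hQ1 : (Q 0 : ℤ) ≤ g.q :=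
      le_trans (by exact_mod_cast le_max_left _ _) hQ
    have hQ2 : (Qs 0 : ℤ) ≤ g.q :=
      le_trans (by exact_mod_cast (le_max_left _ _).trans (le_max_right _ _)) hQ
    have hQ3 : ((16 : ℕ) : ℤ) ≤ g.q :=
      le_trans (by exact_mod_cast (le_max_right _ _).trans (le_max_right _ _)) hQ
    have hq16 : (16 : ℝ) ≤ g.q := by exact_mod_cast hQ3
    have h1 := zt_yy_le n (ws 0) (hws 0) g hg
    have h2 := zt_yy_pos n (ws 0) g hg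
    have h3 := abs_le.1 hxp
    have h4 := abs_le.1 (al_near n hn g hg)
    have h5 : 4 / (g.q : ℝ) ^ 2 = 4 * (1 / (g.q : ℝ) ^ 2) := by ring
    have h6 : 1 / (3 * (g.q : ℝ) ^ 2) = 1 / 3 * (1 / (g.q : ℝ) ^ 2) := by
      rw [one_div, one_div, mul_inv]
      ring
    have h7 : 1 / (g.q : ℝ) ^ 2 ≤ 1 / 256 := by
      apply one_div_le_one_div_of_le (by norm_num)
      nlinarith
    rw [h5] at h3
    rw [h6] at h4
    have h8 := hx.2.1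
    have h9 := hx.2.2
    refine ⟨g, hg, hQ1, by push_cast at hQ3 ⊢; omega, hQ2, hgood, ?_, ?_⟩
    · linarith [h3.1, h3.2, h4.1, h4.2]
    · linarith [h3.1, h3.2, h4.1, h4.2]
  have hstep : ∀ (k : ℕ) (x : {x : Mo // P k x}), ∃ y : {y : Mo // P (k + 1) y},
      R k x.1 y.1 := by
    rintro k ⟨x, hx1, hx2, hx3, hx4, hx5, hx6, hx7⟩
    obtain ⟨y, h1, h2, h3, h4, h5, h6, h7⟩ := hnext k x hx1 hx2 hx5 hx6 hx7 (ws (k + 1))
      (s (k + 1)) (β k) (max (Q (k + 1)) (max (Qs (k + 1)) (x.q.toNat + k + 3))) (hws _) (hs _)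
    have hQ1 : (Q (k + 1) : ℤ) ≤ y.q :=
      le_trans (by exact_mod_cast le_max_left _ _) h2
    have hQ2 : (Qs (k + 1) : ℤ) ≤ y.q :=
      le_trans (by exact_mod_cast (le_max_left _ _).trans (le_max_right _ _)) h2
    have hQ3 : ((x.q.toNat + k + 3 : ℕ) : ℤ) ≤ y.q :=
      le_trans (by exact_mod_cast (le_max_right _ _).trans (le_max_right _ _)) h2
    have hxq : 0 < x.q := hx1.qpos
    push_cast at hQ3
    rw [Int.toNat_of_nonneg hxq.le] at hQ3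
    refine ⟨⟨y, h1, hQ1, by push_cast; omega, hQ2, h3, lt_of_lt_of_le hx6 h4,
      lt_of_le_of_lt h5 hx7⟩, by simp only; omega, h4, h5, h6, h7⟩
  obtain ⟨x0, hx0⟩ := hstart
  choose f hf using hstep
  set u : ∀ k : ℕ, {x : Mo // P k x} := fun k => Nat.rec ⟨x0, hx0⟩ (fun k u => f k u) k
    with hu
  have huR : ∀ k, R k (u k).1 (u (k + 1)).1 := fun k => hf k (u k)
  have huP : ∀ k, P k (u k).1 := fun k => (u k).2
  have hYpos : ∀ k, 0 < Yy n (ws k) (u k).1 := fun k => zt_yy_pos n _ _ (huP k).1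
  have hfm : Monotone fun k => al n (u k).1 + Yy n (ws k) (u k).1 :=
    monotone_nat_of_le_succ fun k => (huR k).2.1
  have hgm : Antitone fun k => al n (u k).1 + 2 * Yy n (ws k) (u k).1 :=
    antitone_nat_of_succ_le fun k => (huR k).2.2.1
  have hfg : (fun k => al n (u k).1 + Yy n (ws k) (u k).1) ≤
      fun k => al n (u k).1 + 2 * Yy n (ws k) (u k).1 := by
    intro k
    have h2 := hYpos k
    simp only
    linarith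
  have hmem := Monotone.ciSup_mem_iInter_Icc_of_antitone hfm hgm hfg
  set ζ := ⨆ k, (al n (u k).1 + Yy n (ws k) (u k).1) with hζ
  have hζk : ∀ k, ζ ∈ Icc (al n (u k).1 + Yy n (ws k) (u k).1)
      (al n (u k).1 + 2 * Yy n (ws k) (u k).1) := fun k => mem_iInter.1 hmem k
  refine ⟨ζ, lt_of_lt_of_le (huP 0).2.2.2.2.2.1 (hζk 0).1,
    lt_of_le_of_lt (hζk 0).2 (huP 0).2.2.2.2.2.2, ?_, fun k => (u k).1, fun k => (huP k).1,
    fun k => (huP k).2.2.1, fun k => (huP k).2.2.2.1, fun k => (huR k).1, hζk, ?_⟩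
  · intro halg
    have h1 : ζ ∈ range β := by rw [← hβ]; exact halg
    obtain ⟨k, hk⟩ := h1
    apply (huR k).2.2.2.1
    rw [hk]
    exact hζk (k + 1)
  · intro k X hX1 hX2 v hv hvX
    exact (huR k).2.2.2.2 ζ (hζk (k + 1)) X hX1 hX2 v hv hvX

end Pool.Agent.Lib.H42V
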