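import Pool.Agent.Lib.H42V.VP
import Pool.Agent.Lib.H42V.ZT

/-!
# Chunk FU (M)
The upper bound. `g, ζ` as in `exists_zeta`; `ws k → w`, `n ≤ w`.

Proof. Let `x ∈ ExactSet n ζ`, suppose `w < x`; let `d = (x - w)/3 > 0`. There are arbitrarily large `X` with an irreducible `P` of degree `n`, `height P ≤ X`, `0 < |P(ζ)| ≤ X^(-x)`. As `q_k → ∞` strictly there is, for `X ≥ q_0^(1/(n+1))`, a `k` with `q_k^(1/(n+1)) ≤ X ≤ q_(k+1)^(1/(n+1))`, and `k → ∞` as `X → ∞`. `v` = the coefficient vector of `P`, `|v_l| ≤ X`,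
`tc ζ v 0 = P(ζ)`. If `v` is not a multiple of `pk_k`: `X^(-(n + 1/(k+1)))/2 ≤ X^(-x)`, so `X^(x - n - 1/(k+1)) ≤ 2`, false for large `X` (`x - n ≥ 3 d`, `1/(k+1) ≤ d`). If it is one: `X ≥ 2 q_k^n ≥ q_k^n` and `|P(ζ)| ≥ |pk_k(ζ)| ≥ q_k^(-n ws_k)/5^n ≥ X^(-ws_k)/5^n` (`mul_pk`, `pk_two`; `ws_k ≥ 0`), so `X^(x - ws_k) ≤ 5^n`, false for
large `X` (`ws_k ≤ w + d` for large `k`).
-/

open Polynomial MeasureTheory Set Filter

namespace Pool.Agent.Lib.H42V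

/-- A real number above `f K` lies between two consecutive values of `f` with index at least `K`. -/
theorem FU_between {f : ℕ → ℝ} (hf : Tendsto f atTop atTop) (K : ℕ) {X : ℝ} (hX : f K ≤ X) :
    ∃ k, K ≤ k ∧ f k ≤ X ∧ X ≤ f (k + 1) := by
  have h1 : ∃ j, X < f (K + j) := by
    obtain ⟨N, hN⟩ := (hf.eventually_gt_atTop X).exists_forall_of_atTop
    exact ⟨N, hN (K + N) (Nat.le_add_left _ _)⟩
  classical
  have h2 := Nat.find_spec h1
  have h3 : Nat.find h1 ≠ 0 := by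
    intro h0
    rw [h0, Nat.add_zero] at h2
    exact absurd hX (not_le.mpr h2)
  obtain ⟨m, hm⟩ := Nat.exists_eq_succ_of_ne_zero h3
  have h4 : ¬ X < f (K + m) := Nat.find_min h1 (by rw [hm]; exact Nat.lt_succ_self m)
  refine ⟨K + m, Nat.le_add_right _ _, not_lt.mp h4, ?_⟩
  rw [hm] at h2
  exact h2.le

/-- `q ^ (1 / (n + 1))` tends to infinity. -/
theorem FU_tendsto (n : ℕ) (g : ℕ → Mo) (hq : ∀ k : ℕ, (k : ℤ) + 2 ≤ (g k).q) :
    Tendsto (fun k => ((g k).q : ℝ) ^ (1 / ((n : ℝ) + 1))) atTop atTop := by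
  have h1 : Tendsto (fun k => ((g k).q : ℝ)) atTop atTop := by
    refine tendsto_atTop_mono (fun k => ?_) tendsto_natCast_atTop_atTop
    have h2 : ((k : ℤ) : ℝ) + 2 ≤ ((g k).q : ℝ) := by exact_mod_cast hq k
    have h3 : ((k : ℤ) : ℝ) = (k : ℝ) := by norm_cast
    linarith
  exact (tendsto_rpow_atTop (by positivity)).comp h1

theorem upper (n : ℕ) (hn : 1 ≤ n) (ζ w : ℝ) (hw : n ≤ w) (ws : ℕ → ℝ) (hws : ∀ k, 1 ≤ ws k)
    (hlim : Tendsto ws atTop (nhds w)) (g : ℕ → Mo) (hg : ∀ k, (g k).Ok) (hq : ∀ k : ℕ, (k : ℤ) + 2 ≤ (g k).q)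
    (hq20 : ∀ k, 20 ≤ ((g k).q : ℝ) ^ (n * (ws k - 1))) (hmono : ∀ k, (g k).q < (g (k + 1)).q)
    (hJ : ∀ k, ζ ∈ Jj n (ws k) (g k))
    (hmain : ∀ (k : ℕ) (X : ℝ), ((g k).q : ℝ) ^ (1 / ((n : ℝ) + 1)) ≤ X →
      X ≤ ((g (k + 1)).q : ℝ) ^ (1 / ((n : ℝ) + 1)) → ∀ v : Fin (n + 1) → ℤ, ¬ Mul v (pk n (g k)) →
        (∀ l, |(v l : ℝ)| ≤ X) → X ^ (-(n + 1 / ((k : ℝ) + 1))) / 2 ≤ |tc ζ (rv v) 0|) (x : ℝ)
    (hx : x ∈ H70W.ExactSet n ζ) : x ≤ w := by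
  by_contra hcon
  push Not at hcon
  obtain ⟨d, hd⟩ : ∃ d, d = (x - w) / 3 := ⟨_, rfl⟩
  have hd0 : 0 < d := by rw [hd]; linarith
  have hxw : x = w + 3 * d := by rw [hd]; ring
  -- large indices
  have e1 : ∀ᶠ k in atTop, ws k < w + d := hlim.eventually_lt_const (by linarith)
  have e2 : ∀ᶠ k : ℕ in atTop, 1 / ((k : ℝ) + 1) < d :=
    tendsto_one_div_add_atTop_nhds_zero_nat.eventually_lt_const hd0
  obtain ⟨K, hK⟩ := (e1.and e2).exists_forall_of_atTop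
  -- large numbers
  have e3 : ∀ᶠ X : ℝ in atTop, 2 * 5 ^ n < X ^ d :=
    (tendsto_rpow_atTop hd0).eventually_gt_atTop _
  have e4 : ∀ᶠ X : ℝ in atTop, 1 ≤ X ∧ ((g K).q : ℝ) ^ (1 / ((n : ℝ) + 1)) ≤ X :=
    (eventually_ge_atTop 1).and (eventually_ge_atTop _)
  obtain ⟨X, ⟨P, hPi, hPn, hPh, hP0, hPx⟩, hX3, hX1, hXK⟩ :=
    (hx.and_eventually (e3.and e4)).exists
  have hX0 : 0 < X := lt_of_lt_of_le one_pos hX1
  obtain ⟨k, hKk, hk1, hk2⟩ := FU_between (FU_tendsto n g hq) K hXK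
  obtain ⟨hws1, hk3⟩ := hK k hKk
  obtain ⟨v, hv⟩ : ∃ v : Fin (n + 1) → ℤ, v = fun l : Fin (n + 1) => P.coeff (l : ℕ) :=
    ⟨_, rfl⟩
  have hval : tc ζ (rv v) 0 = aeval ζ P := by rw [hv]; exact vec_eval P hPn.le ζ
  have hvX : ∀ l, |(v l : ℝ)| ≤ X := by
    intro l
    rw [hv]
    exact (coeff_le_height P l).trans hPh
  have h5 : (1 : ℝ) ≤ 5 ^ n := one_le_pow₀ (by norm_num)
  have h2d : X ^ d ≤ X ^ (2 * d) := Real.rpow_le_rpow_of_exponent_le hX1 (by linarith)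
  by_cases hM : Mul v (pk n (g k))
  · have hv0 : v ≠ 0 := by
      intro h0
      have h1 := congrFun h0 (Fin.last n)
      rw [hv] at h1
      simp only [Fin.val_last, Pi.zero_apply] at h1
      rw [← hPn] at h1
      exact hPi.ne_zero (Polynomial.leadingCoeff_eq_zero.mp h1)
    obtain ⟨h1, h2⟩ := mul_pk n hn (g k) (hg k) v hv0 hM ζ
    obtain ⟨h3, _⟩ := pk_two n hn (g k) (hg k) (ws k) ζ (hws k) (hq20 k) (hJ k)
    have hq0 : (0 : ℝ) < ((g k).q : ℝ) := by exact_mod_cast (hg k).qpos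
    have hqn : ((g k).q : ℝ) ^ n ≤ X := by
      have h4 := hvX (Fin.last n)
      have h6 : 0 < ((g k).q : ℝ) ^ n := pow_pos hq0 n
      linarith
    have hws0 : 0 ≤ ws k := zero_le_one.trans (hws k)
    have h7 : X ^ (-ws k) ≤ ((g k).q : ℝ) ^ (-(n * ws k)) := by
      have h8 : ((g k).q : ℝ) ^ (-((n : ℝ) * ws k)) = (((g k).q : ℝ) ^ n) ^ (-ws k) := by
        rw [← Real.rpow_natCast, ← Real.rpow_mul hq0.le]
        congr 1
        ring
      rw [h8]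
      exact Real.rpow_le_rpow_of_nonpos (pow_pos hq0 n) hqn (by linarith)
    have h9 : X ^ (-ws k) / 5 ^ n ≤ X ^ (-x) := by
      rw [hval] at h2
      refine le_trans ?_ (h3.trans (h2.trans hPx))
      gcongr
    have h10 : X ^ (x - ws k) ≤ 5 ^ n := by
      have h11 : X ^ (-ws k) ≤ X ^ (-x) * 5 ^ n := by
        rwa [div_le_iff₀ (by positivity)] at h9
      have h12 : X ^ (x - ws k) = X ^ x * X ^ (-ws k) := by
        rw [← Real.rpow_add hX0]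
        congr 1
      rw [h12]
      calc X ^ x * X ^ (-ws k) ≤ X ^ x * (X ^ (-x) * 5 ^ n) := by gcongr
        _ = 5 ^ n := by
          rw [← mul_assoc, ← Real.rpow_add hX0, add_neg_cancel, Real.rpow_zero, one_mul]
    have h13 : X ^ (2 * d) ≤ X ^ (x - ws k) :=
      Real.rpow_le_rpow_of_exponent_le hX1 (by linarith)
    linarith
  · have h1 := hmain k X hk1 hk2 v hM hvX
    rw [hval] at h1
    have h2 : X ^ (-((n : ℝ) + 1 / ((k : ℝ) + 1))) ≤ X ^ (-x) * 2 := by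
      have := h1.trans hPx
      rwa [div_le_iff₀ (by norm_num)] at this
    have h10 : X ^ (x - (n + 1 / ((k : ℝ) + 1))) ≤ 2 := by
      have h12 : X ^ (x - ((n : ℝ) + 1 / ((k : ℝ) + 1))) = X ^ x * X ^ (-((n : ℝ) + 1 / ((k : ℝ) + 1))) := by
        rw [← Real.rpow_add hX0]
        congr 1
      rw [h12]
      calc X ^ x * X ^ (-((n : ℝ) + 1 / ((k : ℝ) + 1))) ≤ X ^ x * (X ^ (-x) * 2) := by gcongr
        _ = 2 := by
          rw [← mul_assoc, ← Real.rpow_add hX0, add_neg_cancel, Real.rpow_zero, one_mul]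
    have h13 : X ^ (2 * d) ≤ X ^ (x - (n + 1 / ((k : ℝ) + 1))) :=
      Real.rpow_le_rpow_of_exponent_le hX1 (by linarith)
    linarith

end Pool.Agent.Lib.H42V
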