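import Pool.Agent.Lib.H42V.FU
import Pool.Agent.Lib.H42V.FL
import Pool.Agent.Lib.H70W.Fin

/-!
# Chunk Fin (M)
The main theorem.

Proof. Case `w = ⊤`: `ws k = n + 1 + k`, `Qs k` with `20 ≤ Q^(n (ws k - 1))` for `Q ≥ Qs k` (e.g. `Qs k = 20`: `n (ws k - 1) ≥ 1`). `exists_zeta`; `lower` for every real `x` (`d = 1`), so the supremum is `⊤`. Case `w` real, `w ≥ n ≥ 1`: `ws k = w + 1/(k+1) > 1`, `Qs k` such that `Q^(n (ws k - 1)) ≥ 20` for all `Q ≥ Qs k` (`n (ws k - 1) ≥ 1/(k+1) > 0`, e.g. `Qs k = 20^(k+1)`).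
`exists_zeta`, `lower` for `x < w` (`d = w - x`), `upper`. (`sSup` of the image in `EReal`: compare `H70X.U.sSup_eq_of`.) `spectrum`: with `H70W.main`.
-/

open Polynomial MeasureTheory Set Filter

namespace Pool.Agent.Lib.H42V

theorem fin_sSup_eq (S : Set ℝ) (τ : ℝ) (h1 : ∀ w, w < τ → w ∈ S) (h2 : ∀ w ∈ S, w ≤ τ) :
    sSup ((fun w : ℝ => (w : EReal)) '' S) = (τ : EReal) := by
  apply le_antisymm
  · apply sSup_le
    rintro _ ⟨w, hw, rfl⟩
    exact EReal.coe_le_coe_iff.2 (h2 w hw)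
  · apply le_of_forall_lt
    intro c hc
    obtain ⟨w, hw1, hw2⟩ := EReal.lt_iff_exists_real_btwn.1 hc
    have hw3 : w < τ := by exact_mod_cast hw2
    exact lt_of_lt_of_le hw1 (le_sSup ⟨w, h1 w hw3, rfl⟩)

theorem exists_exact (n : ℕ) (hn : 1 ≤ n) (w : EReal) (hw : (n : EReal) ≤ w) :
    ∃ ζ : ℝ, Transcendental ℤ ζ ∧ H70W.exactExp n ζ = w := by
  have hn1 : (1 : ℝ) ≤ n := by exact_mod_cast hn
  induction w using EReal.rec with
  | bot =>
    exact absurd hw (not_le.2 (EReal.bot_lt_coe (n : ℝ)))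
  | coe w =>
    have hw' : (n : ℝ) ≤ w := by exact_mod_cast hw
    have hpos : ∀ k : ℕ, (0 : ℝ) < 1 / ((k : ℝ) + 1) := fun k => Nat.one_div_pos_of_nat
    have hws : ∀ k : ℕ, 1 ≤ (fun k : ℕ => w + 1 / ((k : ℝ) + 1)) k := by
      intro k
      have := hpos k
      show 1 ≤ w + 1 / ((k : ℝ) + 1)
      linarith
    obtain ⟨ζ, -, -, ht, g, hg, hq, hQ, hmono, hJ, hmain⟩ :=
      exists_zeta n hn (fun k : ℕ => w + 1 / ((k : ℝ) + 1)) hws (fun k => 20 ^ (k + 1))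
    have hq20 : ∀ k : ℕ,
        20 ≤ ((g k).q : ℝ) ^ (n * ((fun k : ℕ => w + 1 / ((k : ℝ) + 1)) k - 1)) := by
      intro k
      have h2 : (20 : ℝ) ^ (k + 1) ≤ (g k).q := by
        have := hQ k
        push_cast at this
        exact_mod_cast this
      have h3 : (1 : ℝ) / ((k : ℝ) + 1) ≤ n * (w + 1 / ((k : ℝ) + 1) - 1) := by
        have h4 := hpos k
        have h5 : (1 : ℝ) / ((k : ℝ) + 1) ≤ w + 1 / ((k : ℝ) + 1) - 1 := by linarith
        nlinarith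
      have h6 : (1 : ℝ) ≤ (g k).q := (one_le_pow₀ (by norm_num)).trans h2
      calc (20 : ℝ) = ((20 : ℝ) ^ (k + 1)) ^ (1 / ((k : ℝ) + 1)) := by
            rw [← Real.rpow_natCast, ← Real.rpow_mul (by norm_num)]
            push_cast
            rw [mul_one_div_cancel (by positivity), Real.rpow_one]
        _ ≤ ((g k).q : ℝ) ^ (1 / ((k : ℝ) + 1)) :=
            Real.rpow_le_rpow (by positivity) h2 (hpos k).le
        _ ≤ ((g k).q : ℝ) ^ (n * (w + 1 / ((k : ℝ) + 1) - 1)) :=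
            Real.rpow_le_rpow_of_exponent_le h6 h3
    have hlim : Tendsto (fun k : ℕ => w + 1 / ((k : ℝ) + 1)) atTop (nhds w) := by
      have := (tendsto_one_div_add_atTop_nhds_zero_nat (𝕜 := ℝ)).const_add w
      rwa [add_zero] at this
    refine ⟨ζ, ht, ?_⟩
    apply fin_sSup_eq
    · intro x hx
      refine lower n hn ζ x (w - x) (by linarith) _ hws (Eventually.of_forall fun k => ?_) g hg hq
        hq20 hJ
      have := hpos k
      show x + (w - x) ≤ w + 1 / ((k : ℝ) + 1)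
      linarith
    · intro x hx
      exact upper n hn ζ w hw' _ hws hlim g hg hq hq20 hmono hJ hmain x hx
  | top =>
    have hws : ∀ k : ℕ, 1 ≤ (fun k : ℕ => (n : ℝ) + 1 + k) k := by
      intro k
      have : (0 : ℝ) ≤ k := Nat.cast_nonneg k
      show (1 : ℝ) ≤ n + 1 + k
      linarith
    obtain ⟨ζ, -, -, ht, g, hg, hq, hQ, hmono, hJ, hmain⟩ :=
      exists_zeta n hn (fun k : ℕ => (n : ℝ) + 1 + k) hws (fun _ => 20)
    have hq20 : ∀ k : ℕ, 20 ≤ ((g k).q : ℝ) ^ (n * ((fun k : ℕ => (n : ℝ) + 1 + k) k - 1)) := by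
      intro k
      have h2 : (20 : ℝ) ≤ (g k).q := by
        have := hQ k
        exact_mod_cast this
      have h3 : (1 : ℝ) ≤ n * ((n : ℝ) + 1 + k - 1) := by
        have : (0 : ℝ) ≤ k := Nat.cast_nonneg k
        nlinarith
      calc (20 : ℝ) ≤ (g k).q := h2
        _ = ((g k).q : ℝ) ^ (1 : ℝ) := (Real.rpow_one _).symm
        _ ≤ ((g k).q : ℝ) ^ (n * ((n : ℝ) + 1 + k - 1)) :=
            Real.rpow_le_rpow_of_exponent_le (by linarith) h3
    refine ⟨ζ, ht, ?_⟩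
    have key : ∀ x : ℝ, x ∈ H70W.ExactSet n ζ := by
      intro x
      refine lower n hn ζ x 1 one_pos _ hws ?_ g hg hq hq20 hJ
      filter_upwards [eventually_ge_atTop ⌈x⌉₊] with k hk
      have h2 : x ≤ k := (Nat.le_ceil x).trans (by exact_mod_cast hk)
      show x + 1 ≤ (n : ℝ) + 1 + k
      linarith
    show sSup ((fun w : ℝ => (w : EReal)) '' H70W.ExactSet n ζ) = ⊤
    rw [EReal.eq_top_iff_forall_lt]
    intro y
    have h3 : ((y + 1 : ℝ) : EReal) ≤ sSup ((fun w : ℝ => (w : EReal)) '' H70W.ExactSet n ζ) :=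
      le_sSup ⟨y + 1, key _, rfl⟩
    exact lt_of_lt_of_le (EReal.coe_lt_coe_iff.2 (by linarith)) h3

theorem spectrum (n : ℕ) (hn : 1 ≤ n) :
    {w : EReal | ∃ ζ : ℝ, Transcendental ℤ ζ ∧ H70W.exactExp n ζ = w} = Icc (n : EReal) ⊤ := by
  ext w
  constructor
  · rintro ⟨ζ, hζ, rfl⟩
    exact ⟨(H70W.main n hn ζ hζ).1.trans (H70W.main n hn ζ hζ).2, le_top⟩
  · intro hw
    exact exists_exact n hn w hw.1

end Pool.Agent.Lib.H42V
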