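import Pool.Agent.Lib.H42V.Defs

/-!
# Chunk LIP (S)
Pure Mathlib. The map `t ↦ 2 + t^2` is Lipschitz with constant 2 on `[0,1]`: `LipschitzOnWith.hausdorffMeasure_image_le` with `d = 1` and `MeasureTheory.hausdorffMeasure_real`. Second claim: `θ = 2 + t^2` with `t = √(θ-2)`.
-/

open Polynomial MeasureTheory Set Filter

namespace Pool.Agent.Lib.H42V

theorem image_sq (T : Set ℝ) (hT : T ⊆ Icc 0 1) : volume ((fun t : ℝ => 2 + t ^ 2) '' T) ≤ 2 * volume T := by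
  have hL : LipschitzOnWith 2 (fun t : ℝ => 2 + t ^ 2) T := by
    refine LipschitzOnWith.of_dist_le_mul fun x hx y hy => ?_
    have hx' := hT hx
    have hy' := hT hy
    rw [Real.dist_eq, Real.dist_eq]
    have h1 : 2 + x ^ 2 - (2 + y ^ 2) = (x + y) * (x - y) := by ring
    have h2 : |x + y| ≤ 2 := by
      rw [abs_of_nonneg (add_nonneg hx'.1 hy'.1)]
      linarith [hx'.2, hy'.2]
    rw [h1, abs_mul]
    exact mul_le_mul_of_nonneg_right (by simpa using h2) (abs_nonneg _)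
  have h := hL.hausdorffMeasure_image_le (d := 1) zero_le_one
  rw [hausdorffMeasure_real, ENNReal.rpow_one] at h
  simpa using h

theorem sub_image_sq (A : Set ℝ) : A ∩ Icc 2 3 ⊆ (fun t : ℝ => 2 + t ^ 2) '' {t ∈ Icc (0 : ℝ) 1 | 2 + t ^ 2 ∈ A} := by
  rintro θ ⟨hA, h2, h3⟩
  have h0 : 0 ≤ θ - 2 := by linarith
  have hs : √(θ - 2) ^ 2 = θ - 2 := Real.sq_sqrt h0
  have he : 2 + √(θ - 2) ^ 2 = θ := by rw [hs]; ring
  refine ⟨√(θ - 2), ⟨⟨Real.sqrt_nonneg _, ?_⟩, ?_⟩, he⟩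
  · rw [Real.sqrt_le_one]
    linarith
  · show 2 + √(θ - 2) ^ 2 ∈ A
    rw [he]
    exact hA

end Pool.Agent.Lib.H42V
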