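import Pool.Agent.Lib.H42V.U2
import Pool.Agent.Lib.H42V.LIP
import Pool.Agent.Lib.H70X.QL5

/-!
# Chunk QD2 (M)
The measure of the bad `θ`, second range.

Proof. `n = m + 1` (`Nat.exists_eq_succ_of_ne_zero`). Constants `c` of `sup2 m`, `C0, α` of `H70X.qnd (m+1) (4*(m+1))`. Let `θ = 2 + t^2 ∈ Bad2 n N Z ε` with `w`, `t ∈ [0,1]`. Put `r = w - w_n F0`, restricted to the coordinates `0..m` (its last coordinate is 0: `w - w_n • F0 = Fin.snoc r 0`);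
`r ≠ 0` because `w` is not a multiple of `F0`. The functionals `ev_{a0}` and `e''_i = E_0 e_i - E_i e_0` vanish on `F0`, so their values at `r` are those at `w` (`tc_snoc`): `|Z^m tc a0 r 0| ≤ ε`, and for `1 ≤ i ≤ m`
`N^n/(Z N^(2i)) |e''_i(w)| ≤ N^n/(Z N^(2i)) (|E_0| ε Z N^(2i)/N^n + |E_i| ε Z/N^n) ≤ K ε`, `K = 3^n + 2 + 6^n` (`|E_i| ≤ 2^n 3^n`, `N ≥ 1`). So `(m+1) ∑ |ev| ≤ (m+1)^2 (K+1) ε < ε' := 2 (m+1)^2 (K+1) ε`; end as in `QD1`.
-/

open Polynomial MeasureTheory Set Filter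

namespace Pool.Agent.Lib.H42V

theorem QD2_tc_sub (m : ℕ) (x : ℝ) (w : Fin (m + 2) → ℤ) (k : ℤ) (r : Fin (m + 1) → ℤ)
    (hr : (Fin.snoc r 0 : Fin (m + 2) → ℤ) = w - k • F0 (m + 1)) (i : ℕ) :
    tc x (rv r) i = tc x (rv w) i - (k : ℝ) * tc x (rv (F0 (m + 1))) i := by
  rw [← tc_snoc, hr, rv_sub, rv_smul]
  have h1 : rv w - (k : ℝ) • rv (F0 (m + 1)) = rv w + (-(k : ℝ)) • rv (F0 (m + 1)) := by
    rw [neg_smul, sub_eq_add_neg]
  rw [h1, tc_add, tc_smul]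
  ring

theorem QD2_Ei (m : ℕ) (t : ℝ) (ht : t ∈ Icc (0 : ℝ) 1) (i : ℕ) (hi : i ≠ 0) :
    |tc (-(2 + t ^ 2)) (rv (F0 (m + 1))) i| ≤ 6 ^ (m + 1) := by
  rw [tc_F0_pos _ _ _ hi, abs_mul, abs_pow, abs_neg, abs_of_nonneg (by positivity : (0 : ℝ) ≤ 2 + t ^ 2),
    abs_of_nonneg (by positivity : (0 : ℝ) ≤ ((m + 1).choose i : ℝ))]
  have h3 : 2 + t ^ 2 ≤ 3 := by nlinarith [ht.1, ht.2]
  have h1 : ((m + 1).choose i : ℝ) ≤ 2 ^ (m + 1) := by
    exact_mod_cast Nat.choose_le_two_pow (m + 1) i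
  have h2 : (2 + t ^ 2) ^ (m + 1 - i) ≤ 3 ^ (m + 1) :=
    (pow_le_pow_left₀ (by positivity) h3 _).trans (pow_le_pow_right₀ (by norm_num) (Nat.sub_le _ _))
  calc ((m + 1).choose i : ℝ) * (2 + t ^ 2) ^ (m + 1 - i) ≤ 2 ^ (m + 1) * 3 ^ (m + 1) :=
        mul_le_mul h1 h2 (by positivity) (by positivity)
    _ = 6 ^ (m + 1) := by rw [← mul_pow]; norm_num

theorem QD2_ev (m : ℕ) (N Z ε t : ℝ) (hN : 1 ≤ N) (hZ : 1 ≤ Z) (hε : 0 < ε) (ht : t ∈ Icc (0 : ℝ) 1)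
    (hbad : 2 + t ^ 2 ∈ Bad2 (m + 1) N Z ε) :
    ∃ u : Fin (m + 1) → ℤ, u ≠ 0 ∧ ((m + 1 : ℕ) : ℝ) * ∑ i, |H70X.ev (h2 m N Z) t u i| <
      2 * ((m : ℝ) + 1) ^ 2 * (3 ^ (m + 1) + 2 + 6 ^ (m + 1) + 1) * ε := by
  obtain ⟨w, hw, h0, hi⟩ := hbad
  have hN0 : 0 < N := by linarith
  have hZ0 : 0 < Z := by linarith
  set k : ℤ := w (Fin.last (m + 1)) with hk
  set r : Fin (m + 1) → ℤ := fun l => w l.castSucc - k * F0 (m + 1) l.castSucc with hr
  have hsn : (Fin.snoc r 0 : Fin (m + 2) → ℤ) = w - k • F0 (m + 1) := by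
    funext l
    refine Fin.lastCases ?_ (fun l => ?_) l
    · rw [Fin.snoc_last, Pi.sub_apply, Pi.smul_apply, H2A_F0_last m _ (Fin.val_last _), smul_eq_mul, mul_one,
        ← hk, sub_self]
    · rw [Fin.snoc_castSucc, Pi.sub_apply, Pi.smul_apply, smul_eq_mul]
  have htc := QD2_tc_sub m
  have hr0 : r ≠ 0 := by
    intro h
    apply hw
    refine ⟨k, ?_⟩
    have h1 : w - k • F0 (m + 1) = 0 := by
      rw [← hsn, h]
      funext l
      refine Fin.lastCases ?_ (fun l => ?_) l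
      · rw [Fin.snoc_last]
        rfl
      · rw [Fin.snoc_castSucc]
        rfl
    exact sub_eq_zero.1 h1
  refine ⟨r, hr0, ?_⟩
  set x : ℝ := -(2 + t ^ 2) with hx
  set K : ℝ := 3 ^ (m + 1) + 2 + 6 ^ (m + 1) with hK
  have hK0 : 0 < K := by positivity
  have hE0 : |tc x (rv (F0 (m + 1))) 0| ≤ 3 ^ (m + 1) + 2 := (E0_bd m t).2 ht
  have hbound : ∀ i, |H70X.ev (h2 m N Z) t r i| ≤ (K + 1) * ε := by
    intro i
    by_cases hi0 : i = 0
    · rw [hi0, ev_h2_zero, htc (a0 (m + 1)) w k r hsn 0, tc_F0_zero, (a0_props (m + 1) (by omega)).1,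
        sub_self, mul_zero, sub_zero, abs_mul, abs_of_pos (by positivity : (0 : ℝ) < Z ^ m)]
      have h1 : Z ^ m * |tc (a0 (m + 1)) (rv w) 0| ≤ Z ^ m * (ε / Z ^ (m + 1 - 1)) :=
        mul_le_mul_of_nonneg_left h0 (by positivity)
      rw [Nat.add_sub_cancel, mul_div_cancel₀ _ (by positivity : (Z ^ m : ℝ) ≠ 0)] at h1
      refine h1.trans ?_
      nlinarith [mul_pos hK0 hε]
    · have hi0' : (i : ℕ) ≠ 0 := fun h => hi0 (Fin.ext (by rw [h, Fin.val_zero]))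
      rw [ev_h2 m N Z t r i hi0, ← hx, htc x w k r hsn (i : ℕ), htc x w k r hsn 0]
      have h1 := hi (i : ℕ) (by have := i.2; omega)
      have h2 := hi 0 (by omega)
      have h3 := QD2_Ei m t ht (i : ℕ) hi0'
      rw [← hx] at h3
      set E0 := tc x (rv (F0 (m + 1))) 0 with hE0d
      set Ei := tc x (rv (F0 (m + 1))) (i : ℕ) with hEid
      set w0 := tc x (rv w) 0 with hw0
      set wi := tc x (rv w) (i : ℕ) with hwi
      have e1 : E0 * (wi - (k : ℝ) * Ei) - Ei * (w0 - (k : ℝ) * E0) = E0 * wi - Ei * w0 := by ring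
      rw [e1, abs_mul, abs_of_pos (by positivity : 0 < N ^ (m + 1) / (Z * N ^ (2 * (i : ℕ))))]
      have h4 : |E0 * wi - Ei * w0| ≤ (3 ^ (m + 1) + 2) * (ε * (Z * N ^ (2 * (i : ℕ)) / N ^ (m + 1))) +
          6 ^ (m + 1) * (ε * (Z * N ^ (2 * (i : ℕ)) / N ^ (m + 1))) := by
        refine (abs_sub _ _).trans ?_
        rw [abs_mul, abs_mul]
        have hN1 : (1 : ℝ) ≤ N ^ (2 * (i : ℕ)) := one_le_pow₀ hN
        have h5 : |w0| ≤ ε * (Z * N ^ (2 * (i : ℕ)) / N ^ (m + 1)) := by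
          refine h2.trans ?_
          rw [Nat.mul_zero, pow_zero]
          refine mul_le_mul_of_nonneg_left ?_ hε.le
          refine div_le_div_of_nonneg_right ?_ (by positivity)
          exact mul_le_mul_of_nonneg_left hN1 hZ0.le
        exact add_le_add (mul_le_mul hE0 h1 (abs_nonneg _) (by positivity))
          (mul_le_mul h3 h5 (abs_nonneg _) (by positivity))
      have h6 : N ^ (m + 1) / (Z * N ^ (2 * (i : ℕ))) * |E0 * wi - Ei * w0| ≤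
          N ^ (m + 1) / (Z * N ^ (2 * (i : ℕ))) * ((3 ^ (m + 1) + 2) *
            (ε * (Z * N ^ (2 * (i : ℕ)) / N ^ (m + 1))) +
          6 ^ (m + 1) * (ε * (Z * N ^ (2 * (i : ℕ)) / N ^ (m + 1)))) :=
        mul_le_mul_of_nonneg_left h4 (by positivity)
      refine h6.trans ?_
      have h7 : N ^ (m + 1) / (Z * N ^ (2 * (i : ℕ))) * ((3 ^ (m + 1) + 2) *
            (ε * (Z * N ^ (2 * (i : ℕ)) / N ^ (m + 1))) +
          6 ^ (m + 1) * (ε * (Z * N ^ (2 * (i : ℕ)) / N ^ (m + 1)))) = K * ε := by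
        rw [hK]
        have hz1 : N ^ (m + 1) / (Z * N ^ (2 * (i : ℕ))) * (Z * N ^ (2 * (i : ℕ)) / N ^ (m + 1)) = 1 := by
          field_simp
        linear_combination ((3 ^ (m + 1) + 2 + 6 ^ (m + 1)) * ε) * hz1
      rw [h7]
      nlinarith
  have hs : ∑ i, |H70X.ev (h2 m N Z) t r i| ≤ ((m : ℝ) + 1) * ((K + 1) * ε) := by
    refine (Finset.sum_le_sum fun i _ => hbound i).trans (le_of_eq ?_)
    rw [Finset.sum_const, Finset.card_univ, Fintype.card_fin, nsmul_eq_mul]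
    push_cast
    ring
  have h3 : ((m + 1 : ℕ) : ℝ) * ∑ i, |H70X.ev (h2 m N Z) t r i| ≤
      ((m : ℝ) + 1) * (((m : ℝ) + 1) * ((K + 1) * ε)) := by
    push_cast
    exact mul_le_mul_of_nonneg_left hs (by positivity)
  refine lt_of_le_of_lt h3 ?_
  have h4 : 0 < ((m : ℝ) + 1) ^ 2 * (K + 1) * ε := by positivity
  nlinarith

theorem bad2_measure (n : ℕ) (hn : 1 ≤ n) : ∃ C α : ℝ, 0 < C ∧ 0 < α ∧ ∀ N Z ε : ℝ, 1 ≤ N → 1 ≤ Z → N ^ n ≤ Z →
    0 < ε → volume (Bad2 n N Z ε ∩ Icc 2 3) ≤ ENNReal.ofReal (C * ε ^ α) := by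
  obtain ⟨m, rfl⟩ : ∃ m, n = m + 1 := ⟨n - 1, by omega⟩
  obtain ⟨c, hc, hc1, hsup⟩ := sup2 m
  obtain ⟨C0, α, hC0, hα, hq⟩ := H70X.qnd (m + 1) (4 * (m + 1))
  set L : ℝ := 2 * ((m : ℝ) + 1) ^ 2 * (3 ^ (m + 1) + 2 + 6 ^ (m + 1) + 1) with hL
  have hL0 : 0 < L := by positivity
  refine ⟨2 * (max C0 1 * (L / c) ^ α), α, by positivity, hα, ?_⟩
  intro N Z ε hN hZ hNZ hε
  have hZ0 : 0 < Z := by linarith
  have hN0 : 0 < N := by linarith
  set T : Set ℝ := {t ∈ Icc (0 : ℝ) 1 | 2 + t ^ 2 ∈ Bad2 (m + 1) N Z ε} with hT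
  have hmain : volume T ≤ ENNReal.ofReal (max C0 1 * (L / c) ^ α * ε ^ α) := by
    have hpow : (L * ε / c) ^ α = (L / c) ^ α * ε ^ α := by
      rw [← Real.mul_rpow (by positivity) hε.le]
      congr 1
      ring
    by_cases hεc : L * ε ≤ c
    · have h1 := hq (h2 m N Z) 0 1 c (L * ε) (fun i j => h2_deg m N Z i j)
        (fun x => h2_det m N Z x hN0 hZ0) one_pos (by positivity) hεc hc1 (hsup N Z hN hZ0)
      have hsub : T ⊆ {x ∈ Icc (0 : ℝ) 1 | ∃ u : Fin (m + 1) → ℤ, u ≠ 0 ∧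
          ((m + 1 : ℕ) : ℝ) * ∑ i, |H70X.ev (h2 m N Z) x u i| < L * ε} := by
        intro t ht
        exact ⟨ht.1, QD2_ev m N Z ε t hN hZ hε ht.1 ht.2⟩
      refine (measure_mono hsub).trans (h1.trans (ENNReal.ofReal_le_ofReal ?_))
      rw [hpow, sub_zero, mul_one, ← mul_assoc]
      refine mul_le_mul_of_nonneg_right ?_ (by positivity)
      exact mul_le_mul_of_nonneg_right (le_max_left _ _) (by positivity)
    · push Not at hεc
      have h1 : volume T ≤ volume (Icc (0 : ℝ) 1) := measure_mono (fun t ht => ht.1)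
      refine h1.trans ?_
      rw [Real.volume_Icc, sub_zero]
      refine ENNReal.ofReal_le_ofReal ?_
      rw [mul_assoc, ← hpow]
      have h2 : 1 ≤ (L * ε / c) ^ α := Real.one_le_rpow ((one_le_div hc).2 hεc.le) hα.le
      have h3 : 1 ≤ max C0 1 := le_max_right _ _
      nlinarith
  calc volume (Bad2 (m + 1) N Z ε ∩ Icc 2 3) ≤ volume ((fun t : ℝ => 2 + t ^ 2) '' T) :=
        measure_mono (sub_image_sq _)
    _ ≤ 2 * volume T := image_sq T (fun t ht => ht.1)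
    _ ≤ 2 * ENNReal.ofReal (max C0 1 * (L / c) ^ α * ε ^ α) := by gcongr
    _ = ENNReal.ofReal (2 * (max C0 1 * (L / c) ^ α) * ε ^ α) := by
        rw [← ENNReal.ofReal_ofNat 2, ← ENNReal.ofReal_mul (by norm_num)]
        congr 1
        ring

end Pool.Agent.Lib.H42V
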