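import Pool.Agent.Lib.H42V.QD1
import Pool.Agent.Lib.H42V.QD2

/-!
# Chunk GB1 (M)
Sum over the scales.

Proof. `C1, α1`, `C2, α2` of `bad1_measure`, `bad2_measure`. `BadN n N C δ ∩ [2,3]` is contained in the union over the `t : ℕ` with `2^t ≥ N^(1/(n+1))/8` of `Bad1 n N (2^t) (C 2^(-t δ)) ∩ [2,3]` (if `2^t ≤ N^n`) and `Bad2 ...` (if `N^n ≤ 2^t`), so its measure is
`≤ ∑_t (C1 C^α1 2^(-t δ α1) + C2 C^α2 2^(-t δ α2))` (sum over these `t`), and `∑_{t ≥ t0} x^t = x^(t0)/(1-x)` for `x = 2^(-δ α) < 1`, where `2^(t0) ≥ N^(1/(n+1))/8` (`t0` the least such `t`): `x^(t0) = (2^(t0))^(-δ α) ≤ 8^(δ α) N^(-δ α/(n+1))`. Put `δ' = δ min(α1, α2)/(n+1)`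
(`N ≥ 1`). (`measure_iUnion_le`, `ENNReal.tsum` of `ofReal`; `ENNReal.ofReal_tsum_of_nonneg`.)
-/

open Polynomial MeasureTheory Set Filter

namespace Pool.Agent.Lib.H42V

theorem gb1_tsum (c r : ℝ) (hc : 0 ≤ c) (hr0 : 0 ≤ r) (hr : r < 1) :
    ∑' t : ℕ, ENNReal.ofReal (c * r ^ t) = ENNReal.ofReal (c / (1 - r)) := by
  rw [← ENNReal.ofReal_tsum_of_nonneg (fun t => mul_nonneg hc (pow_nonneg hr0 t))
    ((summable_geometric_of_lt_one hr0 hr).mul_left c), tsum_mul_left,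
    tsum_geometric_of_lt_one hr0 hr]
  rfl

theorem gb1_piece (C1 C δ α M : ℝ) (t : ℕ) (hC1 : 0 < C1) (hC : 1 ≤ C) (hδ : 0 < δ) (hα : 0 < α)
    (hM : 0 < M) (ht : M ≤ (2 : ℝ) ^ t) :
    C1 * (C * ((2 : ℝ) ^ t) ^ (-δ)) ^ α ≤
      C1 * C ^ α * M ^ (-(δ * α / 2)) * ((2 : ℝ) ^ (-(δ * α / 2))) ^ t := by
  have h2 : (0 : ℝ) < (2 : ℝ) ^ t := by positivity
  have hC0 : 0 < C := by linarith
  have h3 : (C * ((2 : ℝ) ^ t) ^ (-δ)) ^ α = C ^ α * (((2 : ℝ) ^ t) ^ (-(δ * α / 2)) *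
      ((2 : ℝ) ^ t) ^ (-(δ * α / 2))) := by
    rw [Real.mul_rpow hC0.le (Real.rpow_nonneg h2.le _), ← Real.rpow_mul h2.le,
      ← Real.rpow_add h2]
    congr 2
    ring
  have h4 : ((2 : ℝ) ^ t) ^ (-(δ * α / 2)) ≤ M ^ (-(δ * α / 2)) :=
    Real.rpow_le_rpow_of_nonpos hM ht (by have := mul_pos hδ hα; linarith)
  have h5 : ((2 : ℝ) ^ t) ^ (-(δ * α / 2)) = ((2 : ℝ) ^ (-(δ * α / 2))) ^ t := by
    rw [← Real.rpow_natCast 2 t, ← Real.rpow_mul (by norm_num), mul_comm,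
      Real.rpow_mul (by norm_num), Real.rpow_natCast]
  have h6 : 0 ≤ ((2 : ℝ) ^ t) ^ (-(δ * α / 2)) := Real.rpow_nonneg h2.le _
  rw [h3]
  calc C1 * (C ^ α * (((2 : ℝ) ^ t) ^ (-(δ * α / 2)) * ((2 : ℝ) ^ t) ^ (-(δ * α / 2))))
      ≤ C1 * (C ^ α * (M ^ (-(δ * α / 2)) * ((2 : ℝ) ^ t) ^ (-(δ * α / 2)))) := by
        apply mul_le_mul_of_nonneg_left _ hC1.le
        apply mul_le_mul_of_nonneg_left _ (Real.rpow_nonneg hC0.le _)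
        exact mul_le_mul_of_nonneg_right h4 h6
    _ = C1 * C ^ α * M ^ (-(δ * α / 2)) * ((2 : ℝ) ^ (-(δ * α / 2))) ^ t := by
        rw [h5]; ring

theorem gb1_M (n : ℕ) (N s : ℝ) (hN : 1 ≤ N) :
    (N ^ (1 / ((n : ℝ) + 1)) / 8) ^ (-s) = 8 ^ s * N ^ (-(s / ((n : ℝ) + 1))) := by
  have hN0 : 0 ≤ N := by linarith
  rw [Real.div_rpow (Real.rpow_nonneg hN0 _) (by norm_num), ← Real.rpow_mul hN0,
    Real.rpow_neg (by norm_num : (0 : ℝ) ≤ 8), div_inv_eq_mul, mul_comm]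
  congr 2
  ring

theorem badN_measure (n : ℕ) (hn : 1 ≤ n) (C δ : ℝ) (hC : 1 ≤ C) (hδ : 0 < δ) : ∃ C' δ' : ℝ, 0 < C' ∧ 0 < δ' ∧
    ∀ N : ℝ, 1 ≤ N → volume (BadN n N C δ ∩ Icc 2 3) ≤ ENNReal.ofReal (C' * N ^ (-δ')) := by
  obtain ⟨C1, α1, hC1, hα1, hb1⟩ := bad1_measure n hn
  obtain ⟨C2, α2, hC2, hα2, hb2⟩ := bad2_measure n hn
  have hC0 : 0 < C := by linarith
  have hs1 : 0 < δ * α1 / 2 := by positivity
  have hs2 : 0 < δ * α2 / 2 := by positivity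
  have hn1 : (0 : ℝ) < (n : ℝ) + 1 := by positivity
  have hr1 : (2 : ℝ) ^ (-(δ * α1 / 2)) < 1 :=
    Real.rpow_lt_one_of_one_lt_of_neg (by norm_num) (by linarith)
  have hr2 : (2 : ℝ) ^ (-(δ * α2 / 2)) < 1 :=
    Real.rpow_lt_one_of_one_lt_of_neg (by norm_num) (by linarith)
  have hr1' : 0 < 1 - (2 : ℝ) ^ (-(δ * α1 / 2)) := by linarith
  have hr2' : 0 < 1 - (2 : ℝ) ^ (-(δ * α2 / 2)) := by linarith
  refine ⟨C1 * C ^ α1 * 8 ^ (δ * α1 / 2) / (1 - (2 : ℝ) ^ (-(δ * α1 / 2))) +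
    C2 * C ^ α2 * 8 ^ (δ * α2 / 2) / (1 - (2 : ℝ) ^ (-(δ * α2 / 2))),
    min (δ * α1 / 2) (δ * α2 / 2) / ((n : ℝ) + 1), by positivity,
    div_pos (lt_min hs1 hs2) hn1, ?_⟩
  intro N hN
  have hN0 : 0 < N := by linarith
  set M : ℝ := N ^ (1 / ((n : ℝ) + 1)) / 8 with hMdef
  have hM : 0 < M := by rw [hMdef]; positivity
  let A1 : ℕ → Set ℝ := fun t => {θ | M ≤ (2 : ℝ) ^ t ∧ (2 : ℝ) ^ t ≤ N ^ n ∧
    θ ∈ Bad1 n N (2 ^ t) (C * ((2 : ℝ) ^ t) ^ (-δ)) ∩ Icc 2 3}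
  let A2 : ℕ → Set ℝ := fun t => {θ | M ≤ (2 : ℝ) ^ t ∧ N ^ n ≤ (2 : ℝ) ^ t ∧
    θ ∈ Bad2 n N (2 ^ t) (C * ((2 : ℝ) ^ t) ^ (-δ)) ∩ Icc 2 3}
  have hsub : BadN n N C δ ∩ Icc 2 3 ⊆ (⋃ t, A1 t) ∪ (⋃ t, A2 t) := by
    rintro θ ⟨⟨t, ht, h⟩, hI⟩
    rcases h with ⟨h1, h2⟩ | ⟨h1, h2⟩
    · exact Or.inl (mem_iUnion.2 ⟨t, ht, h1, h2, hI⟩)
    · exact Or.inr (mem_iUnion.2 ⟨t, ht, h1, h2, hI⟩)
  have hA1 : ∀ t, volume (A1 t) ≤ ENNReal.ofReal (C1 * C ^ α1 * M ^ (-(δ * α1 / 2)) *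
      ((2 : ℝ) ^ (-(δ * α1 / 2))) ^ t) := by
    intro t
    by_cases h : M ≤ (2 : ℝ) ^ t ∧ (2 : ℝ) ^ t ≤ N ^ n
    · have h1 : A1 t ⊆ Bad1 n N (2 ^ t) (C * ((2 : ℝ) ^ t) ^ (-δ)) ∩ Icc 2 3 :=
        fun θ hθ => hθ.2.2
      refine (measure_mono h1).trans ((hb1 N (2 ^ t) _ hN (one_le_pow₀ (by norm_num)) h.2
        (by positivity)).trans ?_)
      exact ENNReal.ofReal_le_ofReal (gb1_piece C1 C δ α1 M t hC1 hC hδ hα1 hM h.1)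
    · have h1 : A1 t = ∅ := by
        ext θ
        simp only [mem_empty_iff_false, iff_false]
        exact fun hθ => h ⟨hθ.1, hθ.2.1⟩
      rw [h1, measure_empty]
      exact zero_le
  have hA2 : ∀ t, volume (A2 t) ≤ ENNReal.ofReal (C2 * C ^ α2 * M ^ (-(δ * α2 / 2)) *
      ((2 : ℝ) ^ (-(δ * α2 / 2))) ^ t) := by
    intro t
    by_cases h : M ≤ (2 : ℝ) ^ t ∧ N ^ n ≤ (2 : ℝ) ^ t
    · have h1 : A2 t ⊆ Bad2 n N (2 ^ t) (C * ((2 : ℝ) ^ t) ^ (-δ)) ∩ Icc 2 3 :=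
        fun θ hθ => hθ.2.2
      refine (measure_mono h1).trans ((hb2 N (2 ^ t) _ hN (one_le_pow₀ (by norm_num)) h.2
        (by positivity)).trans ?_)
      exact ENNReal.ofReal_le_ofReal (gb1_piece C2 C δ α2 M t hC2 hC hδ hα2 hM h.1)
    · have h1 : A2 t = ∅ := by
        ext θ
        simp only [mem_empty_iff_false, iff_false]
        exact fun hθ => h ⟨hθ.1, hθ.2.1⟩
      rw [h1, measure_empty]
      exact zero_le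
  have hS1 : volume (⋃ t, A1 t) ≤ ENNReal.ofReal (C1 * C ^ α1 * M ^ (-(δ * α1 / 2)) /
      (1 - (2 : ℝ) ^ (-(δ * α1 / 2)))) := by
    refine (measure_iUnion_le A1).trans ((ENNReal.tsum_le_tsum hA1).trans ?_)
    rw [gb1_tsum _ _ (by positivity) (by positivity) hr1]
  have hS2 : volume (⋃ t, A2 t) ≤ ENNReal.ofReal (C2 * C ^ α2 * M ^ (-(δ * α2 / 2)) /
      (1 - (2 : ℝ) ^ (-(δ * α2 / 2)))) := by
    refine (measure_iUnion_le A2).trans ((ENNReal.tsum_le_tsum hA2).trans ?_)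
    rw [gb1_tsum _ _ (by positivity) (by positivity) hr2]
  refine (measure_mono hsub).trans ((measure_union_le _ _).trans ((add_le_add hS1 hS2).trans ?_))
  rw [← ENNReal.ofReal_add (by positivity) (by positivity)]
  apply ENNReal.ofReal_le_ofReal
  rw [hMdef, gb1_M n N _ hN, gb1_M n N _ hN, add_mul]
  have hp1 : N ^ (-(δ * α1 / 2 / ((n : ℝ) + 1))) ≤
      N ^ (-(min (δ * α1 / 2) (δ * α2 / 2) / ((n : ℝ) + 1))) := by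
    apply Real.rpow_le_rpow_of_exponent_le hN
    have := div_le_div_of_nonneg_right (min_le_left (δ * α1 / 2) (δ * α2 / 2)) hn1.le
    linarith
  have hp2 : N ^ (-(δ * α2 / 2 / ((n : ℝ) + 1))) ≤
      N ^ (-(min (δ * α1 / 2) (δ * α2 / 2) / ((n : ℝ) + 1))) := by
    apply Real.rpow_le_rpow_of_exponent_le hN
    have := div_le_div_of_nonneg_right (min_le_right (δ * α1 / 2) (δ * α2 / 2)) hn1.le
    linarith
  apply add_le_add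
  · calc C1 * C ^ α1 * (8 ^ (δ * α1 / 2) * N ^ (-(δ * α1 / 2 / ((n : ℝ) + 1)))) /
          (1 - (2 : ℝ) ^ (-(δ * α1 / 2)))
        = C1 * C ^ α1 * 8 ^ (δ * α1 / 2) / (1 - (2 : ℝ) ^ (-(δ * α1 / 2))) *
          N ^ (-(δ * α1 / 2 / ((n : ℝ) + 1))) := by ring
      _ ≤ _ := mul_le_mul_of_nonneg_left hp1 (by positivity)
  · calc C2 * C ^ α2 * (8 ^ (δ * α2 / 2) * N ^ (-(δ * α2 / 2 / ((n : ℝ) + 1)))) /
          (1 - (2 : ℝ) ^ (-(δ * α2 / 2)))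
        = C2 * C ^ α2 * 8 ^ (δ * α2 / 2) / (1 - (2 : ℝ) ^ (-(δ * α2 / 2))) *
          N ^ (-(δ * α2 / 2 / ((n : ℝ) + 1))) := by ring
      _ ≤ _ := mul_le_mul_of_nonneg_left hp2 (by positivity)

end Pool.Agent.Lib.H42V
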