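import Pool.Agent.Lib.H42V.TRF

/-!
# Chunk GB2 (M)
A bad number `al n g` gives an interval of bad `θ`.

Proof. Let `δ0 = s/(n+1) ≤ 1`, `δ = δ0/2`, `C1` the constant of `transfer`. `GoodA` fails: there are `X ≥ q^(1/(n+1)) ≥ 1` and `v`, not a multiple of `pk`, `|v_l| ≤ X`, `|P_v(al)| < X^(-s)/X^(n-1) max(1/X, 1/q^n)`. Let `X1 = X^(1+δ0)` and `t` with `G = 2^t ≤ X1 < 2 G` (`X1 ≥ 1`).
Then `G ≥ X/2 ≥ q^(1/(n+1))/2 ≥ N^(1/(n+1))/8`; `G ≤ X^2`, so `X^(-δ0) ≤ G^(-δ)`; `X/G ≤ 2 X/X1 = 2 X^(-δ0) ≤ 2 G^(-δ)`; `G^n ≤ X^(n(1+δ0))`. Let `w = gm g v`. By `transfer`, `|e_i(-θ)| ≤ C1 X N^(2i)/N^n ≤ 2 C1 G^(-δ) G N^(2i)/N^n`.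
CASE `G ≤ N^n`: `w ≠ 0` (`gm_inj`, `v ≠ 0`). `X ≤ X1 < 2 G ≤ 2 N^n ≤ 2 * 4^n q^n`, so `max(1/X, 1/q^n) ≤ 2 * 4^n/X`, and `|ev| ≤ C1 N^n 2 * 4^n X^(-s-n) ≤ 2 * 4^n C1 G^(-δ) N^n/G^n`, because `G^n X^(-s-n) ≤ X^(n δ0 - s) = X^(-δ0) ≤ G^(-δ)`.
CASE `N^n < G`: `w` is not a multiple of `F0` (`gm_mul`). `|ev| G^(n-1) ≤ C1 X^(-s) (G/X)^(n-1) max(N^n/X, N^n/q^n) ≤ C1 X^(-s+(n-1)δ0) 4^n X^(δ0) = 4^n C1 X^(-δ0) ≤ 4^n C1 G^(-δ)` (`N^n/X ≤ G/X ≤ X^(δ0)`, `N^n/q^n ≤ 4^n`, `G/X ≤ X^(δ0)`).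
So `C = 2 * 4^n C1`.
-/

open Polynomial MeasureTheory Set Filter

namespace Pool.Agent.Lib.H42V

/-- The choice of the scale. -/
theorem gb2_scale (n : ℕ) (hn : 1 ≤ n) (s X : ℝ) (hs : 0 < s) (hs1 : s ≤ 1) (hX : 1 ≤ X) :
    ∃ (a : ℝ) (t : ℕ), 1 ≤ a ∧ X ^ (-s) * a ^ (n + 1) = 1 ∧ (2 : ℝ) ^ t ≤ X * a ∧ X * a < 2 * 2 ^ t ∧
      a⁻¹ ≤ ((2 : ℝ) ^ t) ^ (-(s / (n + 1) / 2)) := by
  have hn1 : (0 : ℝ) < (n : ℝ) + 1 := by positivity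
  have hX0 : 0 < X := by linarith
  have hδ : 0 < s / ((n : ℝ) + 1) := div_pos hs hn1
  have hδ1 : s / ((n : ℝ) + 1) ≤ 1 := by
    rw [div_le_one hn1]
    have : (0 : ℝ) ≤ n := Nat.cast_nonneg n
    linarith
  have ha1 : 1 ≤ X ^ (s / ((n : ℝ) + 1)) := Real.one_le_rpow hX hδ.le
  have haX : X ^ (s / ((n : ℝ) + 1)) ≤ X := by
    calc X ^ (s / ((n : ℝ) + 1)) ≤ X ^ (1 : ℝ) := Real.rpow_le_rpow_of_exponent_le hX hδ1
      _ = X := Real.rpow_one X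
  obtain ⟨t, ht1, ht2⟩ := exists_nat_pow_near (x := X * X ^ (s / ((n : ℝ) + 1))) (y := (2 : ℝ))
    (by nlinarith) (by norm_num)
  refine ⟨X ^ (s / ((n : ℝ) + 1)), t, ha1, ?_, ht1, ?_, ?_⟩
  · rw [← Real.rpow_natCast, ← Real.rpow_mul hX0.le, ← Real.rpow_add hX0]
    have : -s + s / ((n : ℝ) + 1) * ((n + 1 : ℕ) : ℝ) = 0 := by
      push_cast
      field_simp
      ring
    rw [this, Real.rpow_zero]
  · rw [pow_succ] at ht2
    linarith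
  · have hG : (0 : ℝ) < 2 ^ t := by positivity
    have hGX : (2 : ℝ) ^ t ≤ X ^ 2 := by
      calc (2 : ℝ) ^ t ≤ X * X ^ (s / ((n : ℝ) + 1)) := ht1
        _ ≤ X * X := by gcongr
        _ = X ^ 2 := by ring
    have h1 : (X ^ 2) ^ (-(s / ((n : ℝ) + 1) / 2)) ≤ ((2 : ℝ) ^ t) ^ (-(s / ((n : ℝ) + 1) / 2)) :=
      Real.rpow_le_rpow_of_nonpos hG hGX (by linarith)
    have h2 : (X ^ 2) ^ (-(s / ((n : ℝ) + 1) / 2)) = (X ^ (s / ((n : ℝ) + 1)))⁻¹ := by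
      rw [← Real.rpow_neg hX0.le, ← Real.rpow_natCast X 2, ← Real.rpow_mul hX0.le]
      congr 1
      push_cast
      ring
    rw [← h2]
    exact h1

theorem bad_of_not_good (n : ℕ) (hn : 1 ≤ n) (s : ℝ) (hs : 0 < s) (hs1 : s ≤ 1) : ∃ C δ : ℝ, 1 ≤ C ∧ 0 < δ ∧
    ∀ (g : Mo) (N θ : ℝ), g.Ok → N < 4 * g.q → (g.q : ℝ) ≤ N → ¬ GoodA n s g → |θ - (g.q' : ℝ) / g.q| ≤ 1 / N ^ 2 →
      θ ∈ BadN n N C δ := by
  obtain ⟨C1, hC1, htr⟩ := transfer n hn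
  have hn1 : (0 : ℝ) < (n : ℝ) + 1 := by positivity
  have h4n : (1 : ℝ) ≤ 4 ^ n := one_le_pow₀ (by norm_num)
  refine ⟨2 * 4 ^ n * C1, s / (n + 1) / 2, by nlinarith, by positivity, ?_⟩
  intro g N θ hg hN1 hN2 hbad hθ
  have hq1 : (1 : ℝ) ≤ (g.q : ℝ) := by exact_mod_cast hg.qpos
  have hq0 : (0 : ℝ) < (g.q : ℝ) := by linarith
  have hN0 : 0 < N := by linarith
  simp only [GoodA] at hbad
  push Not at hbad
  obtain ⟨X, hqX, v, hv, hvX, hval⟩ := hbad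
  have hX1 : 1 ≤ X := (Real.one_le_rpow hq1 (by positivity)).trans hqX
  have hX0 : 0 < X := by linarith
  obtain ⟨a, t, ha1, hba, hG1, hG2, hc⟩ := gb2_scale n hn s X hs hs1 hX1
  have ha0 : 0 < a := by linarith
  have hG0 : (0 : ℝ) < 2 ^ t := by positivity
  obtain ⟨htr1, htr2⟩ := htr g N X θ v hg hN1 hN2 hX0.le hvX hθ
  set G : ℝ := (2 : ℝ) ^ t with hGdef
  set c : ℝ := G ^ (-(s / ((n : ℝ) + 1) / 2)) with hcdef
  have hc0 : 0 < c := Real.rpow_pos_of_pos hG0 _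
  have hb : X ^ (-s) = a⁻¹ * (a⁻¹) ^ n := by
    have h1 : a ^ (n + 1) ≠ 0 := by positivity
    rw [← pow_succ', inv_pow]
    exact eq_inv_of_mul_eq_one_left hba
  have hXc : X ≤ 2 * c * G := by
    have h1 : X = X * a * a⁻¹ := by field_simp
    rw [h1]
    calc X * a * a⁻¹ ≤ 2 * G * c := by
          apply mul_le_mul hG2.le hc (by positivity) (by positivity)
      _ = 2 * c * G := by ring
  -- the Taylor coefficients
  have hT : ∀ i : ℕ, i ≤ n → |tc (-θ) (rv (gm g v)) i| ≤ 2 * 4 ^ n * C1 * c * (G * N ^ (2 * i) / N ^ n) := by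
    intro i hi
    refine (htr1 i hi).trans ?_
    have h1 : 0 ≤ N ^ (2 * i) / N ^ n := by positivity
    calc C1 * X * (N ^ (2 * i) / N ^ n) ≤ C1 * (2 * c * G) * (N ^ (2 * i) / N ^ n) := by gcongr
      _ = 1 * (2 * C1 * c * G * (N ^ (2 * i) / N ^ n)) := by ring
      _ ≤ 4 ^ n * (2 * C1 * c * G * (N ^ (2 * i) / N ^ n)) := by gcongr
      _ = 2 * 4 ^ n * C1 * c * (G * N ^ (2 * i) / N ^ n) := by ring
  have hlow : N ^ (1 / ((n : ℝ) + 1)) / 8 ≤ G := by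
    have h1 : N ^ (1 / ((n : ℝ) + 1)) ≤ (4 * g.q : ℝ) ^ (1 / ((n : ℝ) + 1)) :=
      Real.rpow_le_rpow hN0.le hN1.le (by positivity)
    have h2 : (4 * g.q : ℝ) ^ (1 / ((n : ℝ) + 1)) = 4 ^ (1 / ((n : ℝ) + 1)) * (g.q : ℝ) ^ (1 / ((n : ℝ) + 1)) :=
      Real.mul_rpow (by norm_num) hq0.le
    have h3 : (4 : ℝ) ^ (1 / ((n : ℝ) + 1)) ≤ 4 := by
      calc (4 : ℝ) ^ (1 / ((n : ℝ) + 1)) ≤ 4 ^ (1 : ℝ) := by
            apply Real.rpow_le_rpow_of_exponent_le (by norm_num)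
            rw [div_le_one hn1]
            have : (0 : ℝ) ≤ n := Nat.cast_nonneg n
            linarith
        _ = 4 := Real.rpow_one 4
    have h4 : N ^ (1 / ((n : ℝ) + 1)) ≤ 4 * X := by
      calc N ^ (1 / ((n : ℝ) + 1)) ≤ 4 ^ (1 / ((n : ℝ) + 1)) * (g.q : ℝ) ^ (1 / ((n : ℝ) + 1)) := h2 ▸ h1
        _ ≤ 4 * X := mul_le_mul h3 hqX (by positivity) (by norm_num)
    have h5 : X ≤ X * a := le_mul_of_one_le_right hX0.le ha1
    linarith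
  refine ⟨t, hlow, ?_⟩
  have hNq : N ^ n ≤ 4 ^ n * (g.q : ℝ) ^ n := by
    rw [← mul_pow]
    exact pow_le_pow_left₀ hN0.le hN1.le n
  have hqn : (0 : ℝ) < (g.q : ℝ) ^ n := by positivity
  rcases le_or_gt G (N ^ n) with hGN | hGN
  · left
    refine ⟨hGN, gm g v, ?_, ?_, hT⟩
    · intro h0
      have h1 : gm g v = gm g ((0 : ℤ) • v) := by rw [gm_smul, h0, smul_zero]
      have h2 := gm_inj g hg v _ h1
      exact hv ⟨0, by rw [h2, zero_smul, zero_smul]⟩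
    · have hmax : max (1 / X) (1 / (g.q : ℝ) ^ n) ≤ 2 * 4 ^ n / X := by
        refine max_le ?_ ?_
        · gcongr
          linarith
        · rw [div_le_div_iff₀ hqn hX0]
          have h5 : X ≤ X * a := le_mul_of_one_le_right hX0.le ha1
          nlinarith
      have hkey : X ^ (-s) / X ^ n ≤ c / G ^ n := by
        have h1 : X ^ (-s) / X ^ n = a⁻¹ / (X * a) ^ n := by
          rw [hb, inv_pow, mul_pow]
          field_simp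
        rw [h1]
        gcongr
      have hXn : X ^ n = X ^ (n - 1) * X := by
        rw [← pow_succ, Nat.sub_add_cancel hn]
      have hval' : |tc (al n g) (rv v) 0| ≤ 2 * 4 ^ n * (c / G ^ n) := by
        calc |tc (al n g) (rv v) 0| ≤ X ^ (-s) / X ^ (n - 1) * max (1 / X) (1 / (g.q : ℝ) ^ n) := hval.le
          _ ≤ X ^ (-s) / X ^ (n - 1) * (2 * 4 ^ n / X) := by gcongr
          _ = 2 * 4 ^ n * (X ^ (-s) / X ^ n) := by
            rw [hXn]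
            field_simp
          _ ≤ 2 * 4 ^ n * (c / G ^ n) := by gcongr
      refine htr2.trans ?_
      calc C1 * N ^ n * |tc (al n g) (rv v) 0| ≤ C1 * N ^ n * (2 * 4 ^ n * (c / G ^ n)) := by gcongr
        _ = 2 * 4 ^ n * C1 * c * (N ^ n / G ^ n) := by ring
  · right
    refine ⟨hGN.le, gm g v, fun h => hv (gm_mul n hn g hg v h), ?_, hT⟩
    have hmax : N ^ n * max (1 / X) (1 / (g.q : ℝ) ^ n) ≤ 4 ^ n * a := by
      rw [mul_max_of_nonneg _ _ (by positivity)]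
      refine max_le ?_ ?_
      · calc N ^ n * (1 / X) ≤ (X * a) * (1 / X) := by gcongr; linarith
          _ = 1 * a := by field_simp
          _ ≤ 4 ^ n * a := by gcongr
      · calc N ^ n * (1 / (g.q : ℝ) ^ n) ≤ (4 ^ n * (g.q : ℝ) ^ n) * (1 / (g.q : ℝ) ^ n) := by gcongr
          _ = 4 ^ n * 1 := by field_simp
          _ ≤ 4 ^ n * a := by gcongr
    have hkey : X ^ (-s) / X ^ (n - 1) ≤ a⁻¹ * (a⁻¹ * (1 / G ^ (n - 1))) := by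
      have h1 : X ^ (-s) / X ^ (n - 1) = a⁻¹ * (a⁻¹ * (1 / (X * a) ^ (n - 1))) := by
        have han : (a⁻¹) ^ n = (a⁻¹) ^ (n - 1) * a⁻¹ := by
          rw [← pow_succ, Nat.sub_add_cancel hn]
        rw [hb, han, inv_pow, mul_pow]
        field_simp
      rw [h1]
      gcongr
    refine htr2.trans ?_
    calc C1 * N ^ n * |tc (al n g) (rv v) 0|
        ≤ C1 * N ^ n * (X ^ (-s) / X ^ (n - 1) * max (1 / X) (1 / (g.q : ℝ) ^ n)) := by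
          gcongr
      _ = C1 * (X ^ (-s) / X ^ (n - 1)) * (N ^ n * max (1 / X) (1 / (g.q : ℝ) ^ n)) := by ring
      _ ≤ C1 * (a⁻¹ * (a⁻¹ * (1 / G ^ (n - 1)))) * (4 ^ n * a) := by gcongr
      _ = 4 ^ n * C1 * a⁻¹ * (1 / G ^ (n - 1)) := by field_simp
      _ ≤ 4 ^ n * C1 * c * (1 / G ^ (n - 1)) := by gcongr
      _ = 1 * (4 ^ n * C1 * c * (1 / G ^ (n - 1))) := by ring
      _ ≤ 2 * (4 ^ n * C1 * c * (1 / G ^ (n - 1))) := by gcongr; norm_num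
      _ = 2 * 4 ^ n * C1 * c / G ^ (n - 1) := by ring

end Pool.Agent.Lib.H42V
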