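import Pool.Agent.Lib.H42V.GB1
import Pool.Agent.Lib.H42V.GB2

/-!
# Chunk GB3 (M)
Few rational numbers are bad. (Compare `H70X.bad_measure`, G4.)

Proof. Let `C0, δ0` be given by `bad_of_not_good`, `C', δ'` by `badN_measure`. Let `Bad` be the set of the pairs `(p, q)` such that there is `g` with `g.p = p`, `g.q = q`, `g.Ok`, `N < 4 q ≤ 4 N`, not `GoodA`; it is finite (`0 ≤ p ≤ q ≤ N`); choose such a `g` for every pair. The open interval with centre
`q'/q ∈ [2,3]` and radius `1/(2 N^2)` is contained in `BadN`, and its intersection with `[2,3]` has measure `≥ 1/(2 N^2)`. For different pairs these intervals are disjoint: if `q'/q = q1'/q1` then, both fractions being reduced (`det`), `q = q1`, `q' = q1'`, and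
`p q' ≡ 1 ≡ p1 q' mod q` gives `p ≡ p1 mod q`, so `p = p1` (`q ≥ 2` since `4 q > N ≥ 8`; so `0 < p, p1 < q`); otherwise `|q'/q - q1'/q1| ≥ 1/(q q1) ≥ 1/N^2`. So `#Bad/(2 N^2) ≤ volume (BadN ∩ [2,3])`, and the set in the statement is covered by the intervals of length
`8/N^2` around the `p/q`: measure `≤ 16 volume (BadN ∩ [2,3])`. Take `C = 16 C'`.
-/

open Polynomial MeasureTheory Set Filter

namespace Pool.Agent.Lib.H42V

private theorem gb3_lt (g : Mo) (hg : g.Ok) (hgq : 2 ≤ g.q) : g.p < g.q := by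
  rcases lt_or_eq_of_le hg.p1 with h | h
  · exact h
  · exfalso
    have h1 := hg.det
    rw [h] at h1
    have h2 : g.q ∣ 1 := ⟨g.q' - g.p', by linear_combination -h1⟩
    have h3 := Int.le_of_dvd one_pos h2
    omega

private theorem gb3_inj (g h : Mo) (hg : g.Ok) (hh : h.Ok) (hgq : 2 ≤ g.q) (hhq : 2 ≤ h.q)
    (he : g.q' * h.q = h.q' * g.q) : g.p = h.p ∧ g.q = h.q := by
  have hca : IsCoprime g.q' g.q := ⟨g.p, -g.p', by linear_combination hg.det⟩
  have hca' : IsCoprime h.q' h.q := ⟨h.p, -h.p', by linear_combination hh.det⟩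
  have d1 : g.q ∣ h.q := by
    refine hca.symm.dvd_of_dvd_mul_left ?_
    rw [he]
    exact Dvd.intro_left _ rfl
  have d2 : h.q ∣ g.q := by
    refine hca'.symm.dvd_of_dvd_mul_left ?_
    rw [← he]
    exact Dvd.intro_left _ rfl
  have hqq : g.q = h.q := Int.dvd_antisymm (by omega) (by omega) d1 d2
  have hq0 : (0 : ℤ) < g.q := hg.qpos
  have haa : g.q' = h.q' := by
    rw [← hqq] at he
    exact mul_right_cancel₀ hq0.ne' he
  refine ⟨?_, hqq⟩
  have d3 : g.q ∣ g.p - h.p := by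
    have h1 : g.q ∣ g.q' * (g.p - h.p) := by
      refine ⟨g.p' - h.p', ?_⟩
      have e1 := hg.det
      have e2 := hh.det
      rw [← hqq, ← haa] at e2
      linear_combination e1 - e2
    exact hca.symm.dvd_of_dvd_mul_left h1
  have g1 := gb3_lt g hg hgq
  have g2 := gb3_lt h hh hhq
  have g3 := hg.p0
  have g4 := hh.p0
  rw [← hqq] at g2
  obtain ⟨k, hk⟩ := d3
  have hk0 : k = 0 := by
    by_contra hcon
    rcases lt_or_gt_of_ne hcon with h4 | h4
    · nlinarith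
    · nlinarith
  rw [hk0, mul_zero] at hk
  omega

theorem bad_meas (n : ℕ) (hn : 1 ≤ n) (s : ℝ) (hs : 0 < s) (hs1 : s ≤ 1) : ∃ C δ : ℝ, 0 < C ∧ 0 < δ ∧ ∀ N : ℕ, 8 ≤ N →
    volume {x : ℝ | ∃ g : Mo, g.Ok ∧ (N : ℝ) < 4 * g.q ∧ (g.q : ℝ) ≤ N ∧ ¬ GoodA n s g ∧
      |x - (g.p : ℝ) / g.q| ≤ 4 / (N : ℝ) ^ 2} ≤ ENNReal.ofReal (C * (N : ℝ) ^ (-δ)) := by
  classical
  obtain ⟨C0, δ0, hC0, hδ0, hbad⟩ := bad_of_not_good n hn s hs hs1
  obtain ⟨C', δ', hC', hδ', hmeas⟩ := badN_measure n hn C0 δ0 hC0 hδ0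
  refine ⟨16 * C', δ', by positivity, hδ', fun N hN => ?_⟩
  have hN8 : (8 : ℝ) ≤ N := by exact_mod_cast hN
  have hN0 : (0 : ℝ) < N := by linarith
  have hN1 : (1 : ℝ) ≤ N := by linarith
  set r : ℝ := 1 / (2 * (N : ℝ) ^ 2) with hr
  have hr0 : 0 < r := by positivity
  have hr1 : r ≤ 1 / 2 := by
    rw [hr]
    have h1 : (1 : ℝ) ≤ (N : ℝ) ^ 2 := one_le_pow₀ hN1
    rw [div_le_div_iff₀ (by positivity) (by norm_num)]
    linarith
  have hr2 : 1 / (N : ℝ) ^ 2 = 2 * r := by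
    rw [hr]
    field_simp
  set B : Set ℝ := BadN n N C0 δ0 ∩ Icc 2 3 with hB
  set Bad : Finset (ℤ × ℤ) := (Finset.Icc (0 : ℤ) N ×ˢ Finset.Icc (0 : ℤ) N).filter fun x =>
    ∃ g : Mo, g.p = x.1 ∧ g.q = x.2 ∧ g.Ok ∧ (N : ℝ) < 4 * g.q ∧ (g.q : ℝ) ≤ N ∧ ¬ GoodA n s g with hBad
  have hch : ∀ x : ℤ × ℤ, ∃ g : Mo, x ∈ Bad → g.p = x.1 ∧ g.q = x.2 ∧ g.Ok ∧ (N : ℝ) < 4 * g.q ∧ (g.q : ℝ) ≤ N ∧
      ¬ GoodA n s g := by
    intro x
    by_cases hx : x ∈ Bad
    · obtain ⟨g, hg⟩ := (Finset.mem_filter.1 hx).2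
      exact ⟨g, fun _ => hg⟩
    · exact ⟨⟨0, 0, 0, 0⟩, fun h => absurd h hx⟩
  choose G hG using hch
  set c : ℤ × ℤ → ℝ := fun x => ((G x).q' : ℝ) / (G x).q with hc
  set m : ℤ × ℤ → ℝ := fun x => if c x ≤ 5 / 2 then c x else c x - r with hm
  set I : ℤ × ℤ → Set ℝ := fun x => Ioo (m x) (m x + r) with hI
  have hq2 : ∀ x ∈ Bad, 2 ≤ (G x).q := by
    intro x hx
    obtain ⟨-, -, -, h4, -, -⟩ := hG x hx
    have h5 : (2 : ℝ) < (G x).q := by linarith
    have h6 : (2 : ℤ) < (G x).q := by exact_mod_cast h5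
    omega
  have hc23 : ∀ x ∈ Bad, 2 ≤ c x ∧ c x ≤ 3 := by
    intro x hx
    obtain ⟨-, -, hok, -, -, -⟩ := hG x hx
    have hq : (0 : ℝ) < (G x).q := by exact_mod_cast hok.qpos
    have hlo : 2 * ((G x).q : ℝ) ≤ (G x).q' := by exact_mod_cast hok.lo
    have hhi : ((G x).q' : ℝ) ≤ 3 * (G x).q := by exact_mod_cast hok.hi
    constructor
    · rw [hc]
      change 2 ≤ ((G x).q' : ℝ) / (G x).q
      rw [le_div_iff₀ hq]
      exact hlo
    · rw [hc]
      change ((G x).q' : ℝ) / (G x).q ≤ 3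
      rw [div_le_iff₀ hq]
      exact hhi
  have hnear : ∀ x, ∀ θ ∈ I x, |θ - c x| < r := by
    intro x θ hθ
    obtain ⟨h1, h2⟩ := hθ
    rw [abs_lt]
    by_cases hcx : c x ≤ 5 / 2
    · have e : m x = c x := if_pos hcx
      rw [e] at h1 h2
      constructor <;> linarith
    · have e : m x = c x - r := if_neg hcx
      rw [e] at h1 h2
      constructor <;> linarith
  have hI23 : ∀ x ∈ Bad, I x ⊆ Icc 2 3 := by
    intro x hx θ hθ
    obtain ⟨h1, h2⟩ := hθ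
    obtain ⟨h3, h4⟩ := hc23 x hx
    by_cases hcx : c x ≤ 5 / 2
    · have e : m x = c x := if_pos hcx
      rw [e] at h1 h2
      constructor <;> linarith
    · have e : m x = c x - r := if_neg hcx
      rw [e] at h1 h2
      rw [not_le] at hcx
      constructor <;> linarith
  have hIB : ∀ x ∈ Bad, I x ⊆ B := by
    intro x hx θ hθ
    obtain ⟨h1, h2, h3, h4, h5, h6⟩ := hG x hx
    refine ⟨hbad (G x) N θ h3 h4 h5 h6 ?_, hI23 x hx hθ⟩
    have h7 := hnear x θ hθ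
    rw [hr2]
    have h8 : |θ - ((G x).q' : ℝ) / (G x).q| < r := h7
    linarith
  have hdisj : (Bad : Set (ℤ × ℤ)).PairwiseDisjoint I := by
    intro x hx y hy hxy
    rw [Function.onFun, Set.disjoint_left]
    intro θ hθx hθy
    obtain ⟨x1, x2, x3, x4, x5, x6⟩ := hG x hx
    obtain ⟨y1, y2, y3, y4, y5, y6⟩ := hG y hy
    have hqx' : (0 : ℝ) < (G x).q := by exact_mod_cast x3.qpos
    have hqy' : (0 : ℝ) < (G y).q := by exact_mod_cast y3.qpos
    have hne : (G x).q' * (G y).q ≠ (G y).q' * (G x).q := by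
      intro hcon
      obtain ⟨g1, g2⟩ := gb3_inj (G x) (G y) x3 y3 (hq2 x hx) (hq2 y hy) hcon
      exact hxy (Prod.ext (by rw [← x1, ← y1, g1]) (by rw [← x2, ← y2, g2]))
    have habs : (1 : ℝ) ≤ |((G x).q' : ℝ) * (G y).q - (G y).q' * (G x).q| := by
      have := Int.one_le_abs (sub_ne_zero.2 hne)
      exact_mod_cast this
    have e1 : c x - c y = (((G x).q' : ℝ) * (G y).q - (G y).q' * (G x).q) / ((G x).q * (G y).q) := by
      rw [hc]
      field_simp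
    have hlow : 1 / (N : ℝ) ^ 2 ≤ |c x - c y| := by
      rw [e1, abs_div, abs_of_pos (mul_pos hqx' hqy'), div_le_div_iff₀ (by positivity) (by positivity)]
      have g3 : ((G x).q : ℝ) * (G y).q ≤ (N : ℝ) ^ 2 := by
        rw [pow_two]
        exact mul_le_mul x5 y5 hqy'.le hN0.le
      have g4 : 0 ≤ (N : ℝ) ^ 2 := by positivity
      nlinarith
    have g1 := abs_lt.1 (hnear x θ hθx)
    have g2 := abs_lt.1 (hnear y θ hθy)
    have hlt : |c x - c y| < 1 / (N : ℝ) ^ 2 := by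
      rw [abs_lt, hr2]
      constructor <;> linarith [g1.1, g1.2, g2.1, g2.2]
    linarith
  have hcard : (Bad.card : ENNReal) * ENNReal.ofReal r ≤ volume B := by
    have h1 : volume (⋃ x ∈ Bad, I x) = ∑ x ∈ Bad, volume (I x) :=
      measure_biUnion_finset hdisj fun x _ => measurableSet_Ioo
    have h2 : ∀ x ∈ Bad, volume (I x) = ENNReal.ofReal r := by
      intro x _
      rw [hI, Real.volume_Ioo]
      congr 1
      ring
    rw [Finset.sum_congr rfl h2, Finset.sum_const, nsmul_eq_mul] at h1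
    rw [← h1]
    exact measure_mono (iUnion₂_subset hIB)
  have hcov : {x : ℝ | ∃ g : Mo, g.Ok ∧ (N : ℝ) < 4 * g.q ∧ (g.q : ℝ) ≤ N ∧ ¬ GoodA n s g ∧
      |x - (g.p : ℝ) / g.q| ≤ 4 / (N : ℝ) ^ 2} ⊆
      ⋃ x ∈ Bad, Icc ((x.1 : ℝ) / x.2 - 4 / (N : ℝ) ^ 2) ((x.1 : ℝ) / x.2 + 4 / (N : ℝ) ^ 2) := by
    rintro θ ⟨g, h1, h2, h3, h4, h5⟩
    rw [mem_iUnion₂]
    have hqN : g.q ≤ (N : ℤ) := by exact_mod_cast h3
    refine ⟨(g.p, g.q), ?_, ?_⟩
    · rw [hBad, Finset.mem_filter, Finset.mem_product, Finset.mem_Icc, Finset.mem_Icc]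
      exact ⟨⟨⟨h1.p0, h1.p1.trans hqN⟩, ⟨h1.qpos.le, hqN⟩⟩, g, rfl, rfl, h1, h2, h3, h4⟩
    · have := abs_le.1 h5
      constructor
      · change (g.p : ℝ) / g.q - 4 / (N : ℝ) ^ 2 ≤ θ
        linarith
      · change θ ≤ (g.p : ℝ) / g.q + 4 / (N : ℝ) ^ 2
        linarith
  refine (measure_mono hcov).trans ((measure_biUnion_finset_le _ _).trans ?_)
  have h2 : ∀ x ∈ Bad, volume (Icc ((x.1 : ℝ) / x.2 - 4 / (N : ℝ) ^ 2) ((x.1 : ℝ) / x.2 + 4 / (N : ℝ) ^ 2)) =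
      ENNReal.ofReal 16 * ENNReal.ofReal r := by
    intro x _
    rw [Real.volume_Icc, ← ENNReal.ofReal_mul (by norm_num)]
    congr 1
    rw [hr]
    field_simp
    ring
  rw [Finset.sum_congr rfl h2, Finset.sum_const, nsmul_eq_mul]
  calc (Bad.card : ENNReal) * (ENNReal.ofReal 16 * ENNReal.ofReal r) =
        ENNReal.ofReal 16 * ((Bad.card : ENNReal) * ENNReal.ofReal r) := by ring
    _ ≤ ENNReal.ofReal 16 * ENNReal.ofReal (C' * (N : ℝ) ^ (-δ')) := by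
        gcongr
        exact hcard.trans (hmeas N hN1)
    _ = ENNReal.ofReal (16 * C' * (N : ℝ) ^ (-δ')) := by
        rw [← ENNReal.ofReal_mul (by norm_num)]
        congr 1
        ring

end Pool.Agent.Lib.H42V
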