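import Pool.Agent.Lib.H42V.TC

/-!
# Chunk GM1 (M/L)
The Moebius transformation and Taylor coefficients. `Q = gm g v`, `P = v`: `Q(T) = (q T + q')^n P((p T + p')/(q T + q'))`.

Proof. Work with polynomials over `ℝ` (map). Let `a_m = tc (p/q) (rv v) m`: `∑ v_l x^l y^(n-l) = ∑_m a_m (x - (p/q) y)^m y^(n-m)` (homogeneous form of the
Taylor expansion: by `tc_inv` at `x = p/q`, or: `v_l = ∑_m choose m l (-p/q)^(m-l) a_m` and the binomial theorem). With `x = p T + p'`, `y = q T + q'`: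
`x - (p/q) y = p' - p q'/q = -1/q` (`det`). So `Q(T) = ∑_m a_m (-1/q)^m q^(n-m) (T + q'/q)^(n-m)`, and its Taylor coefficient `i` at `-q'/q` is
`(-1)^(n-i) a_(n-i) q^i / q^(n-i)` (`m = n - i`), so `|e_i| q^n = q^(2i) |a_(n-i)|`. (Numerically checked. The Taylor coefficient of `(T + c)^k` at `-c` is
`δ_(i,k)`.) Recommended: first prove the identity of real polynomials
`(poly (gm g v)) = ∑_m C (a_m (-1/q)^m q^(n-m)) * (X + C (q'/q))^(n-m)` and then take `tc (-q'/q)` of both sides with a lemma saying that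
`tc x (coefficients of R) i` is the `i`-th coefficient of `R.comp (X + C x)` for `natDegree R ≤ n` (`Polynomial.taylor`).
`gm_lin`: coefficients are linear in `v`.
-/

open Polynomial MeasureTheory Set Filter

namespace Pool.Agent.Lib.H42V

theorem gm1_apply {n : ℕ} (g : Mo) (v : Fin (n + 1) → ℤ) (i : Fin (n + 1)) :
    gm g v i = ∑ l : Fin (n + 1), v l * ((C g.p * X + C g.p') ^ (l : ℕ) *
      (C g.q * X + C g.q') ^ (n - (l : ℕ)) : ℤ[X]).coeff (i : ℕ) := by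
  unfold gm
  rw [Polynomial.finsetSum_coeff]
  refine Finset.sum_congr rfl fun l _ => ?_
  rw [mul_assoc, Polynomial.coeff_C_mul]

theorem gm1_tc_comp {n : ℕ} (R : ℝ[X]) (hR : R.natDegree ≤ n) (x : ℝ) (i : ℕ) :
    tc x (fun l : Fin (n + 1) => R.coeff (l : ℕ)) i = (R.comp (X + C x)).coeff i := by
  have h1 : (R.comp (X + C x)).coeff i = (Polynomial.hasseDeriv i R).eval x := by
    rw [← Polynomial.taylor_apply, Polynomial.taylor_coeff]
  rw [h1, Polynomial.hasseDeriv_apply,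
    Polynomial.sum_over_range' _ (by simp) (n + 1) (by omega), Polynomial.eval_finsetSum,
    ← Fin.sum_univ_eq_sum_range
      (fun l => Polynomial.eval x (Polynomial.monomial (l - i) ((l.choose i : ℝ) * R.coeff l)))]
  unfold tc
  refine Finset.sum_congr rfl fun l _ => ?_
  rw [Polynomial.eval_monomial]
  ring

theorem gm1_hom {A : Type*} [CommRing A] [Algebra ℝ A] {n : ℕ} (t : ℝ) (v : Fin (n + 1) → ℝ) (x y : A) :
    ∑ l : Fin (n + 1), algebraMap ℝ A (v l) * x ^ (l : ℕ) * y ^ (n - (l : ℕ)) =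
      ∑ m : Fin (n + 1), algebraMap ℝ A (tc t v (m : ℕ)) * (x - algebraMap ℝ A t * y) ^ (m : ℕ) *
        y ^ (n - (m : ℕ)) := by
  have h1 : ∀ l : Fin (n + 1), algebraMap ℝ A (v l) * x ^ (l : ℕ) * y ^ (n - (l : ℕ)) =
      ∑ m : Fin (n + 1), algebraMap ℝ A (tc t v (m : ℕ)) *
        (((m : ℕ).choose (l : ℕ) : A) * (-(algebraMap ℝ A t)) ^ ((m : ℕ) - (l : ℕ)) * x ^ (l : ℕ) *
          y ^ (n - (l : ℕ))) := by
    intro l
    conv_lhs => rw [tc_inv t v l]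
    rw [map_sum, Finset.sum_mul, Finset.sum_mul]
    refine Finset.sum_congr rfl fun m _ => ?_
    simp only [map_mul, map_pow, map_neg, map_natCast]
    ring
  rw [Finset.sum_congr rfl fun l _ => h1 l, Finset.sum_comm]
  refine Finset.sum_congr rfl fun m _ => ?_
  rw [← Finset.mul_sum, mul_assoc]
  congr 1
  have h2 : ∀ l : Fin (n + 1), ((m : ℕ).choose (l : ℕ) : A) * (-(algebraMap ℝ A t)) ^ ((m : ℕ) - (l : ℕ)) *
      x ^ (l : ℕ) * y ^ (n - (l : ℕ)) =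
      (x ^ (l : ℕ) * (-(algebraMap ℝ A t * y)) ^ ((m : ℕ) - (l : ℕ)) * ((m : ℕ).choose (l : ℕ) : A)) *
        y ^ (n - (m : ℕ)) := by
    intro l
    rcases le_or_gt (l : ℕ) (m : ℕ) with h | h
    · have e : n - (l : ℕ) = ((m : ℕ) - (l : ℕ)) + (n - (m : ℕ)) := by
        have := m.2
        omega
      rw [e, pow_add, neg_mul_eq_neg_mul, mul_pow]
      ring
    · rw [Nat.choose_eq_zero_of_lt h]
      simp
  rw [Finset.sum_congr rfl fun l _ => h2 l, ← Finset.sum_mul]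
  congr 1
  rw [Fin.sum_univ_eq_sum_range (fun l => x ^ l * (-(algebraMap ℝ A t * y)) ^ ((m : ℕ) - l) *
    ((m : ℕ).choose l : A)) (n + 1), sub_eq_add_neg, add_pow]
  symm
  refine Finset.sum_subset (Finset.range_mono (by have := m.2; omega)) fun l _ hl => ?_
  rw [Finset.mem_range, not_lt] at hl
  rw [Nat.choose_eq_zero_of_lt (by omega)]
  simp

theorem gm1_rv {n : ℕ} (g : Mo) (v : Fin (n + 1) → ℤ) :
    rv (gm g v) = fun i : Fin (n + 1) => (∑ l : Fin (n + 1), C (v l : ℝ) * (C (g.p : ℝ) * X + C (g.p' : ℝ)) ^ (l : ℕ) *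
      (C (g.q : ℝ) * X + C (g.q' : ℝ)) ^ (n - (l : ℕ)) : ℝ[X]).coeff (i : ℕ) := by
  funext i
  unfold rv gm
  rw [← eq_intCast (Int.castRingHom ℝ), ← Polynomial.coeff_map]
  congr 1
  rw [Polynomial.map_sum]
  refine Finset.sum_congr rfl fun l _ => ?_
  simp

theorem gm1_deg {n : ℕ} (g : Mo) (v : Fin (n + 1) → ℤ) :
    (∑ l : Fin (n + 1), C (v l : ℝ) * (C (g.p : ℝ) * X + C (g.p' : ℝ)) ^ (l : ℕ) *
      (C (g.q : ℝ) * X + C (g.q' : ℝ)) ^ (n - (l : ℕ)) : ℝ[X]).natDegree ≤ n := by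
  refine Polynomial.natDegree_sum_le_of_forall_le _ _ fun l _ => ?_
  have h1 : ((C (g.p : ℝ) * X + C (g.p' : ℝ)) ^ (l : ℕ) : ℝ[X]).natDegree ≤ (l : ℕ) := by
    refine (Polynomial.natDegree_pow_le).trans ?_
    calc _ ≤ (l : ℕ) * 1 := Nat.mul_le_mul_left _ Polynomial.natDegree_linear_le
      _ = _ := mul_one _
  have h2 : ((C (g.q : ℝ) * X + C (g.q' : ℝ)) ^ (n - (l : ℕ)) : ℝ[X]).natDegree ≤ n - (l : ℕ) := by
    refine (Polynomial.natDegree_pow_le).trans ?_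
    calc _ ≤ (n - (l : ℕ)) * 1 := Nat.mul_le_mul_left _ Polynomial.natDegree_linear_le
      _ = _ := mul_one _
  rw [mul_assoc]
  refine (Polynomial.natDegree_C_mul_le _ _).trans ?_
  refine (Polynomial.natDegree_mul_le).trans ?_
  have := l.2
  omega

theorem gm_lin {n j : ℕ} (g : Mo) (z : Fin j → ℤ) (v : Fin j → Fin (n + 1) → ℤ) :
    gm g (∑ s, z s • v s) = ∑ s, z s • gm g (v s) := by
  funext i
  rw [gm1_apply, Finset.sum_apply]
  simp only [Finset.sum_apply, Pi.smul_apply, smul_eq_mul, gm1_apply, Finset.sum_mul,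
    Finset.mul_sum]
  rw [Finset.sum_comm]
  refine Finset.sum_congr rfl fun s _ => Finset.sum_congr rfl fun l _ => ?_
  ring

theorem gm_smul {n : ℕ} (g : Mo) (m : ℤ) (v : Fin (n + 1) → ℤ) : gm g (m • v) = m • gm g v := by
  funext i
  simp only [Pi.smul_apply, smul_eq_mul, gm1_apply, Finset.mul_sum]
  refine Finset.sum_congr rfl fun l _ => ?_
  ring

theorem gm_sub {n : ℕ} (g : Mo) (v w : Fin (n + 1) → ℤ) : gm g (v - w) = gm g v - gm g w := by
  funext i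
  simp only [Pi.sub_apply, gm1_apply]
  rw [← Finset.sum_sub_distrib]
  refine Finset.sum_congr rfl fun l _ => ?_
  ring

theorem gm_tc {n : ℕ} (g : Mo) (hg : g.Ok) (v : Fin (n + 1) → ℤ) (i : ℕ) (hi : i ≤ n) :
    |tc (-((g.q' : ℝ) / g.q)) (rv (gm g v)) i| * (g.q : ℝ) ^ n =
      (g.q : ℝ) ^ (2 * i) * |tc ((g.p : ℝ) / g.q) (rv v) (n - i)| := by
  have hq0 : (g.q : ℝ) ≠ 0 := by
    have := hg.qpos
    exact_mod_cast this.ne'
  have hqp : (0 : ℝ) < g.q := by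
    have := hg.qpos
    exact_mod_cast this
  have hdet : (g.p : ℝ) * g.q' - g.p' * g.q = 1 := by exact_mod_cast hg.det
  rw [gm1_rv, gm1_tc_comp _ (gm1_deg g v)]
  set a : ℕ → ℝ := fun m => tc ((g.p : ℝ) / g.q) (rv v) m with ha
  have h1 : (∑ l : Fin (n + 1), C (v l : ℝ) * (C (g.p : ℝ) * X + C (g.p' : ℝ)) ^ (l : ℕ) *
      (C (g.q : ℝ) * X + C (g.q' : ℝ)) ^ (n - (l : ℕ)) : ℝ[X]) =
      ∑ m : Fin (n + 1), C (a (m : ℕ)) * (C (-1 / (g.q : ℝ))) ^ (m : ℕ) *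
        (C (g.q : ℝ) * X + C (g.q' : ℝ)) ^ (n - (m : ℕ)) := by
    have h := gm1_hom (A := ℝ[X]) ((g.p : ℝ) / g.q) (rv v) (C (g.p : ℝ) * X + C (g.p' : ℝ))
      (C (g.q : ℝ) * X + C (g.q' : ℝ))
    have e : (C (g.p : ℝ) * X + C (g.p' : ℝ) : ℝ[X]) - C ((g.p : ℝ) / g.q) *
        (C (g.q : ℝ) * X + C (g.q' : ℝ)) = C (-1 / (g.q : ℝ)) := by
      have e1 : (C (g.p : ℝ) : ℝ[X]) = C ((g.p : ℝ) / g.q) * C (g.q : ℝ) := by
        rw [← C_mul]
        congr 1
        field_simp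
      have e2 : (C (-1 / (g.q : ℝ)) : ℝ[X]) = C (g.p' : ℝ) - C ((g.p : ℝ) / g.q) * C (g.q' : ℝ) := by
        rw [← C_mul, ← C_sub]
        congr 1
        field_simp
        linarith
      rw [e2, e1]
      ring
    have e3 : ∀ r : ℝ, algebraMap ℝ ℝ[X] r = C r := fun r => rfl
    simp only [e3] at h
    rw [e] at h
    exact h
  rw [h1]
  have h2 : (∑ m : Fin (n + 1), C (a (m : ℕ)) * (C (-1 / (g.q : ℝ))) ^ (m : ℕ) *
        (C (g.q : ℝ) * X + C (g.q' : ℝ)) ^ (n - (m : ℕ)) : ℝ[X]).comp (X + C (-((g.q' : ℝ) / g.q))) =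
      ∑ m : Fin (n + 1), C (a (m : ℕ) * (-1 / (g.q : ℝ)) ^ (m : ℕ) * (g.q : ℝ) ^ (n - (m : ℕ))) *
        X ^ (n - (m : ℕ)) := by
    rw [Polynomial.sum_comp]
    refine Finset.sum_congr rfl fun m _ => ?_
    have e4 : (C (g.q : ℝ) * (X + C (-((g.q' : ℝ) / g.q))) + C (g.q' : ℝ) : ℝ[X]) = C (g.q : ℝ) * X := by
      have e5 : (C (g.q' : ℝ) : ℝ[X]) = C (g.q : ℝ) * C ((g.q' : ℝ) / g.q) := by
        rw [← C_mul]
        congr 1
        field_simp
      rw [C_neg]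
      conv_lhs => rw [e5]
      ring
    simp only [mul_comp, pow_comp, add_comp, C_comp, X_comp, e4, C_mul, C_pow, mul_pow]
    ring
  rw [h2, Polynomial.finsetSum_coeff]
  have h3 : ∀ m : Fin (n + 1), (C (a (m : ℕ) * (-1 / (g.q : ℝ)) ^ (m : ℕ) * (g.q : ℝ) ^ (n - (m : ℕ))) *
        X ^ (n - (m : ℕ)) : ℝ[X]).coeff i = if m = ⟨n - i, by omega⟩ then
          a (n - i) * (-1 / (g.q : ℝ)) ^ (n - i) * (g.q : ℝ) ^ i else 0 := by
    intro m
    rw [Polynomial.coeff_C_mul_X_pow]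
    have hm := m.2
    by_cases h : m = ⟨n - i, by omega⟩
    · rw [if_pos h]
      have hv : (m : ℕ) = n - i := by rw [h]
      have hi' : n - (n - i) = i := by omega
      rw [hv, hi', if_pos rfl]
    · rw [if_neg h, if_neg]
      intro hc
      apply h
      apply Fin.ext
      show (m : ℕ) = n - i
      omega
  rw [Finset.sum_congr rfl fun m _ => h3 m, Finset.sum_ite_eq' Finset.univ, if_pos (Finset.mem_univ _)]
  rw [abs_mul, abs_mul, abs_pow, abs_pow, abs_div, abs_neg, abs_one, abs_of_pos hqp]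
  have h4 : (g.q : ℝ) ^ n = (g.q : ℝ) ^ (n - i) * (g.q : ℝ) ^ i := by
    rw [← pow_add]
    congr 1
    omega
  rw [h4, div_pow, one_pow, two_mul, pow_add]
  have h5 : (g.q : ℝ) ^ (n - i) ≠ 0 := pow_ne_zero _ hq0
  field_simp
  rfl

end Pool.Agent.Lib.H42V
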