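import Pool.Agent.Lib.H42V.GM1

/-!
# Chunk GM2 (M)
Further facts on `gm`.

Proofs. `a0_props`: real powers (`a0^n = 2`; `1 < a0 ≤ 2` as `0 < 1/n ≤ 1`). `gm_eval`: evaluate the polynomial in the definition of `gm` (degree `≤ n`, so the vector of the coefficients
`0..n` determines it: `∑_i coeff i * x^i`) at `a0`: `∑ v_l (p a0 + p')^l (q a0 + q')^(n-l)`, and `p a0 + p' = al * (q a0 + q')` (`q a0 + q' > 0`).
`gm_inj`: if `gm g v = 0` then all `tc (p/q) (rv v) m = 0` by `gm_tc` (`q ≠ 0`), so `v = 0` by `tc_inv`; apply to `v - v'` (`gm_sub`).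
`gm_pk`: `pk` is the coefficient vector of `(q' T - p')^n - 2 (p - q T)^n` (binomial theorem), and for homogeneous forms
`gm` substitutes `T ↦ p T + p'`, `1 ↦ q T + q'`: `∑_l choose n l a^l b^(n-l) x^l y^(n-l) = (a x + b y)^n`, with
`q' x - p' y = (p q' - p' q) T = T`, `p y - q x = p q' - q p' = 1`. So the result is `T^n - 2`. `gm_mul`: if `gm g v = m • F0 = m • gm g (pk) = gm g (m • pk)`,
then `v = m • pk` by injectivity.
-/

open Polynomial MeasureTheory Set Filter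

namespace Pool.Agent.Lib.H42V

/-- the polynomial whose coefficients define `gm` -/
noncomputable def GM2_P {n : ℕ} (g : Mo) (v : Fin (n + 1) → ℤ) : ℤ[X] :=
  ∑ l : Fin (n + 1), C (v l) * (C g.p * X + C g.p') ^ (l : ℕ) * (C g.q * X + C g.q') ^ (n - (l : ℕ))

theorem GM2_deg {n : ℕ} (g : Mo) (v : Fin (n + 1) → ℤ) : (GM2_P g v).natDegree ≤ n := by
  unfold GM2_P
  refine natDegree_sum_le_of_forall_le _ _ fun l _ => ?_
  have hl : (l : ℕ) ≤ n := Nat.lt_succ_iff.1 l.2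
  refine natDegree_mul_le.trans ?_
  have h1 : (C (v l) * (C g.p * X + C g.p') ^ (l : ℕ)).natDegree ≤ (l : ℕ) := by
    refine (natDegree_C_mul_le _ _).trans (natDegree_pow_le.trans ?_)
    exact (Nat.mul_le_mul_left _ natDegree_linear_le).trans (le_of_eq (mul_one _))
  have h2 : ((C g.q * X + C g.q') ^ (n - (l : ℕ))).natDegree ≤ n - (l : ℕ) := by
    refine natDegree_pow_le.trans ?_
    exact (Nat.mul_le_mul_left _ natDegree_linear_le).trans (le_of_eq (mul_one _))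
  omega

theorem GM2_coeff {n : ℕ} (g : Mo) (v : Fin (n + 1) → ℤ) (i : Fin (n + 1)) :
    gm g v i = (GM2_P g v).coeff (i : ℕ) := rfl

theorem GM2_tc {n : ℕ} (g : Mo) (v : Fin (n + 1) → ℤ) (x : ℝ) :
    tc x (rv (gm g v)) 0 = ∑ l : Fin (n + 1), (v l : ℝ) * (g.p * x + g.p') ^ (l : ℕ) *
      (g.q * x + g.q') ^ (n - (l : ℕ)) := by
  have h1 : aeval x (GM2_P g v) = ∑ l : Fin (n + 1), (v l : ℝ) * (g.p * x + g.p') ^ (l : ℕ) *
      (g.q * x + g.q') ^ (n - (l : ℕ)) := by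
    unfold GM2_P
    rw [map_sum]
    refine Finset.sum_congr rfl fun l _ => ?_
    simp only [map_mul, map_pow, map_add, aeval_X, eq_intCast, map_intCast]
  rw [← h1, aeval_eq_sum_range' (Nat.lt_succ_iff.2 (GM2_deg g v)), tc_val,
    ← Fin.sum_univ_eq_sum_range (fun i => (GM2_P g v).coeff i • x ^ i) (n + 1)]
  refine Finset.sum_congr rfl fun i _ => ?_
  rw [zsmul_eq_mul, mul_comm]
  rfl

theorem a0_props (n : ℕ) (hn : 1 ≤ n) : a0 n ^ n = 2 ∧ 1 < a0 n ∧ a0 n ≤ 2 := by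
  have hn0 : n ≠ 0 := by omega
  have h1 : a0 n ^ n = 2 := by
    unfold a0
    rw [one_div]
    exact Real.rpow_inv_natCast_pow (by norm_num) hn0
  have hnpos : (0 : ℝ) < n := by exact_mod_cast hn
  refine ⟨h1, ?_, ?_⟩
  · unfold a0
    exact Real.one_lt_rpow (by norm_num) (by positivity)
  · unfold a0
    have h2 : (2 : ℝ) ^ (1 / (n : ℝ)) ≤ (2 : ℝ) ^ (1 : ℝ) := by
      refine Real.rpow_le_rpow_of_exponent_le (by norm_num) ?_
      rw [div_le_one hnpos]
      exact_mod_cast hn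
    rwa [Real.rpow_one] at h2

theorem gm_eval (n : ℕ) (hn : 1 ≤ n) (g : Mo) (hg : g.Ok) (v : Fin (n + 1) → ℤ) :
    tc (a0 n) (rv (gm g v)) 0 = (g.q * a0 n + g.q') ^ n * tc (al n g) (rv v) 0 := by
  have ha := a0_props n hn
  have hq : (0 : ℝ) < g.q := by exact_mod_cast hg.qpos
  have hq' : (0 : ℝ) < g.q' := by
    have := hg.lo
    have h2 := hg.qpos
    have h3 : 0 < g.q' := by omega
    exact_mod_cast h3
  have hk : 0 < g.q * a0 n + g.q' := by
    have : 0 < a0 n := lt_trans one_pos ha.2.1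
    positivity
  rw [GM2_tc, tc_val, Finset.mul_sum]
  refine Finset.sum_congr rfl fun l _ => ?_
  have hl : (l : ℕ) ≤ n := Nat.lt_succ_iff.1 l.2
  have e1 : (g.p * a0 n + g.p') = al n g * (g.q * a0 n + g.q') := by
    unfold al
    rw [div_mul_cancel₀ _ hk.ne']
  have e2 : (g.q * a0 n + g.q') ^ n = (g.q * a0 n + g.q') ^ (l : ℕ) *
      (g.q * a0 n + g.q') ^ (n - (l : ℕ)) := by
    rw [← pow_add, Nat.add_sub_cancel' hl]
  rw [e1, e2, mul_pow]
  unfold rv
  ring

theorem gm_inj {n : ℕ} (g : Mo) (hg : g.Ok) (v w : Fin (n + 1) → ℤ) (h : gm g v = gm g w) : v = w := by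
  have h0 : gm g (v - w) = 0 := by rw [gm_sub, h, sub_self]
  have hq : (0 : ℝ) < g.q := by exact_mod_cast hg.qpos
  have hz : ∀ m ≤ n, tc ((g.p : ℝ) / g.q) (rv (v - w)) m = 0 := by
    intro m hm
    have h1 := gm_tc g hg (v - w) (n - m) (Nat.sub_le _ _)
    rw [h0, Nat.sub_sub_self hm] at h1
    have h2 : tc (-((g.q' : ℝ) / g.q)) (rv (0 : Fin (n + 1) → ℤ)) (n - m) = 0 := by
      unfold tc rv
      simp
    rw [h2, abs_zero, zero_mul] at h1
    have h3 := (mul_eq_zero.1 h1.symm).resolve_left (pow_ne_zero _ hq.ne')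
    exact abs_eq_zero.1 h3
  have hall : ∀ m, (rv (v - w)) m = 0 := by
    intro m
    rw [tc_inv ((g.p : ℝ) / g.q) (rv (v - w)) m]
    refine Finset.sum_eq_zero fun l _ => ?_
    rw [hz l (Nat.lt_succ_iff.1 l.2), mul_zero]
  funext m
  have h4 := hall m
  have h5 : ((v m - w m : ℤ) : ℝ) = 0 := h4
  have h6 : v m - w m = 0 := by exact_mod_cast h5
  exact sub_eq_zero.1 h6

theorem gm_pk (n : ℕ) (hn : 1 ≤ n) (g : Mo) (hg : g.Ok) : gm g (pk n g) = F0 n := by
  have hdet := hg.det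
  have key : GM2_P g (pk n g) = X ^ n - C 2 := by
    have e1 : (C g.q' * (C g.p * X + C g.p') + C (-g.p') * (C g.q * X + C g.q') : ℤ[X]) = X := by
      have : (C g.q' * (C g.p * X + C g.p') + C (-g.p') * (C g.q * X + C g.q') : ℤ[X]) =
          C (g.p * g.q' - g.p' * g.q) * X := by
        simp only [map_sub, map_mul, map_neg]
        ring
      rw [this, hdet, map_one, one_mul]
    have e2 : (C (-g.q) * (C g.p * X + C g.p') + C g.p * (C g.q * X + C g.q') : ℤ[X]) = 1 := by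
      have : (C (-g.q) * (C g.p * X + C g.p') + C g.p * (C g.q * X + C g.q') : ℤ[X]) =
          C (g.p * g.q' - g.p' * g.q) := by
        simp only [map_sub, map_mul, map_neg]
        ring
      rw [this, hdet, map_one]
    have f1 := add_pow (C g.q' * (C g.p * X + C g.p') : ℤ[X]) (C (-g.p') * (C g.q * X + C g.q')) n
    have f2 := add_pow (C (-g.q) * (C g.p * X + C g.p') : ℤ[X]) (C g.p * (C g.q * X + C g.q')) n
    rw [e1] at f1
    rw [e2, one_pow] at f2
    have f3 : (X ^ n - C 2 : ℤ[X]) = X ^ n - C 2 * 1 := by rw [mul_one]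
    rw [f3, f1, f2, Finset.mul_sum, ← Finset.sum_sub_distrib,
      ← Fin.sum_univ_eq_sum_range (fun m => (C g.q' * (C g.p * X + C g.p')) ^ m *
        (C (-g.p') * (C g.q * X + C g.q')) ^ (n - m) * ((n.choose m : ℕ) : ℤ[X]) -
        C 2 * ((C (-g.q) * (C g.p * X + C g.p')) ^ m * (C g.p * (C g.q * X + C g.q')) ^ (n - m) *
          ((n.choose m : ℕ) : ℤ[X]))) (n + 1)]
    unfold GM2_P
    refine Finset.sum_congr rfl fun l _ => ?_
    have e3 : (((n.choose (l : ℕ) : ℕ) : ℤ[X])) = C ((n.choose (l : ℕ) : ℕ) : ℤ) := by simp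
    unfold pk
    rw [e3]
    simp only [map_mul, map_sub, map_pow, mul_pow]
    ring
  funext i
  rw [GM2_coeff, key, coeff_sub, coeff_X_pow, coeff_C]
  unfold F0
  by_cases h1 : (i : ℕ) = n
  · have h2 : (i : ℕ) ≠ 0 := by omega
    rw [if_pos h1, if_neg h2, if_pos h1, sub_zero]
  · by_cases h2 : (i : ℕ) = 0
    · rw [if_neg h1, if_pos h2, if_neg h1, if_pos h2]
      norm_num
    · rw [if_neg h1, if_neg h2, if_neg h1, if_neg h2, sub_zero]

theorem gm_mul (n : ℕ) (hn : 1 ≤ n) (g : Mo) (hg : g.Ok) (v : Fin (n + 1) → ℤ) (h : Mul (gm g v) (F0 n)) :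
    Mul v (pk n g) := by
  obtain ⟨m, hm⟩ := h
  refine ⟨m, gm_inj g hg _ _ ?_⟩
  rw [gm_smul, gm_pk n hn g hg, hm]

end Pool.Agent.Lib.H42V
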