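import Pool.Agent.Lib.H42V.TC
import Pool.Agent.Lib.H42V.GM2

/-!
# Chunk H1A (M)
The matrix `h1`. `θ = 2 + t^2`.

Proofs. The formulas for `ev` are the definitions (`H70X.ev`, `tc`, `Fin.cons_zero`, `Fin.cons_succ`; `tc_val`). Degree: `X^2` to the power `l - i ≤ n`. Determinant: let `T i l = choose l i * (-θ)^(l-i)` (`i, l ≤ n`), upper triangular with
diagonal 1. `∑_l a^l v_l = ∑_i (a + θ)^i e_i(v)` (`tc_shift` at `-θ + (a + θ)`), so the matrix with the rows `ev_a, e_0, ..., e_{n-1}` is `B * T`, where `B` has the first row `((a+θ)^i)_i` and the rows `δ_(i, .)`, `i < n`, after it: `det B = ± (a+θ)^n` (expansion along the last column).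
The product of the row factors is `Z^n/N^n * ∏_{i<n} N^n/(Z N^(2 i)) = N^(-n) N^(n^2) N^(-n(n-1)) = 1`. So `|det| = (a0 + 2 + t^2)^n ≥ 1`.
-/

open Polynomial MeasureTheory Set Filter

namespace Pool.Agent.Lib.H42V

theorem h1a_eval_zero (n : ℕ) (N Z t : ℝ) (l : Fin (n + 1)) :
    (h1 n N Z 0 l).eval t = Z ^ n / N ^ n * a0 n ^ (l : ℕ) := by
  unfold h1
  rw [Matrix.of_apply, Fin.cons_zero, Polynomial.eval_C]

theorem h1a_eval_succ (n : ℕ) (N Z t : ℝ) (i : Fin n) (l : Fin (n + 1)) :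
    (h1 n N Z i.succ l).eval t = N ^ n / (Z * N ^ (2 * (i : ℕ))) * (((l : ℕ).choose (i : ℕ) : ℝ) *
      (-(2 + t ^ 2)) ^ ((l : ℕ) - (i : ℕ))) := by
  unfold h1
  rw [Matrix.of_apply, Fin.cons_succ, Polynomial.eval_mul, Polynomial.eval_C, Polynomial.eval_pow,
    Polynomial.eval_neg, Polynomial.eval_add, Polynomial.eval_pow, Polynomial.eval_X,
    Polynomial.eval_ofNat, mul_assoc]

theorem ev_h1_zero (n : ℕ) (N Z t : ℝ) (u : Fin (n + 1) → ℤ) :
    H70X.ev (h1 n N Z) t u 0 = Z ^ n / N ^ n * tc (a0 n) (rv u) 0 := by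
  unfold H70X.ev
  rw [tc_val, Finset.mul_sum]
  refine Finset.sum_congr rfl fun l _ => ?_
  rw [h1a_eval_zero]
  unfold rv
  ring

theorem ev_h1_succ (n : ℕ) (N Z t : ℝ) (u : Fin (n + 1) → ℤ) (i : Fin n) :
    H70X.ev (h1 n N Z) t u i.succ = N ^ n / (Z * N ^ (2 * (i : ℕ))) * tc (-(2 + t ^ 2)) (rv u) (i : ℕ) := by
  unfold H70X.ev tc
  rw [Finset.mul_sum]
  refine Finset.sum_congr rfl fun l _ => ?_
  rw [h1a_eval_succ]
  unfold rv
  ring

theorem h1_deg (n : ℕ) (N Z : ℝ) (i l : Fin (n + 1)) : (h1 n N Z i l).natDegree ≤ 2 * n := by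
  refine Fin.cases ?_ (fun i => ?_) i
  · unfold h1
    rw [Matrix.of_apply, Fin.cons_zero, Polynomial.natDegree_C]
    exact Nat.zero_le _
  · unfold h1
    rw [Matrix.of_apply, Fin.cons_succ]
    have h2 : (-(2 + X ^ 2) : ℝ[X]).natDegree ≤ 2 := by
      rw [Polynomial.natDegree_neg]
      refine (Polynomial.natDegree_add_le _ _).trans (max_le ?_ ?_)
      · exact (Polynomial.natDegree_ofNat 2).le.trans (Nat.zero_le _)
      · exact Polynomial.natDegree_X_pow_le 2
    refine (Polynomial.natDegree_C_mul_le _ _).trans (Polynomial.natDegree_pow_le.trans ?_)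
    have h3 : (l : ℕ) - (i : ℕ) ≤ n := by omega
    calc ((l : ℕ) - (i : ℕ)) * (-(2 + X ^ 2) : ℝ[X]).natDegree ≤ n * 2 := Nat.mul_le_mul h3 h2
      _ = 2 * n := mul_comm _ _

theorem h1a_prod (n j : ℕ) (N Z : ℝ) (hN : 0 < N) (hZ : 0 < Z) :
    ∏ i : Fin j, N ^ n / (Z * N ^ (2 * (i : ℕ))) = N ^ (n * j + j) / (Z ^ j * N ^ (j * j)) := by
  rw [Fin.prod_univ_eq_prod_range (fun i => N ^ n / (Z * N ^ (2 * i))) j]
  induction j with
  | zero => simp
  | succ j ih =>
    rw [Finset.prod_range_succ, ih, div_mul_div_comm, div_eq_div_iff (by positivity) (by positivity)]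
    ring

/-- The triangular matrix. -/
noncomputable def h1aT (n : ℕ) (θ : ℝ) : Matrix (Fin (n + 1)) (Fin (n + 1)) ℝ :=
  Matrix.of fun i l => ((l : ℕ).choose (i : ℕ) : ℝ) * (-θ) ^ ((l : ℕ) - (i : ℕ))

theorem h1aT_det (n : ℕ) (θ : ℝ) : (h1aT n θ).det = 1 := by
  have h1 : (h1aT n θ).BlockTriangular id := by
    intro i l hil
    unfold h1aT
    have h2 : (l : ℕ) < (i : ℕ) := hil
    rw [Matrix.of_apply, Nat.choose_eq_zero_of_lt h2, Nat.cast_zero, zero_mul]
  rw [Matrix.det_of_upperTriangular h1]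
  refine Finset.prod_eq_one fun i _ => ?_
  unfold h1aT
  rw [Matrix.of_apply, Nat.choose_self, Nat.sub_self, pow_zero, Nat.cast_one, mul_one]

/-- The companion matrix. -/
noncomputable def h1aB (n : ℕ) (b : Fin (n + 1) → ℝ) : Matrix (Fin (n + 1)) (Fin (n + 1)) ℝ :=
  Matrix.of fun i l => (Fin.cons (b l) (fun i : Fin n => if i.castSucc = l then 1 else 0) :
    Fin (n + 1) → ℝ) i

theorem h1aB_det (n : ℕ) (b : Fin (n + 1) → ℝ) : |(h1aB n b).det| = |b (Fin.last n)| := by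
  rw [Matrix.det_succ_row_zero, Finset.sum_eq_single (Fin.last n)]
  · have h1 : (h1aB n b).submatrix Fin.succ (Fin.last n).succAbove = 1 := by
      ext i k
      unfold h1aB
      rw [Matrix.submatrix_apply, Matrix.of_apply, Fin.cons_succ, Fin.succAbove_last,
        Matrix.one_apply]
      simp only [Fin.castSucc_inj]
    have h2 : h1aB n b 0 (Fin.last n) = b (Fin.last n) := by
      unfold h1aB
      rw [Matrix.of_apply, Fin.cons_zero]
    rw [h1, Matrix.det_one, mul_one, h2, abs_mul, abs_pow, abs_neg, abs_one, one_pow, one_mul]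
  · intro j _ hj
    have h1 : ((h1aB n b).submatrix Fin.succ j.succAbove).det = 0 := by
      obtain ⟨i, hi⟩ := Fin.exists_castSucc_eq.2 hj
      apply Matrix.det_eq_zero_of_row_eq_zero i
      intro k
      unfold h1aB
      rw [Matrix.submatrix_apply, Matrix.of_apply, Fin.cons_succ, hi, if_neg]
      exact fun h => Fin.succAbove_ne j k h.symm
    rw [h1, mul_zero]
  · intro h
    exact absurd (Finset.mem_univ _) h

theorem h1a_mul (n : ℕ) (a θ : ℝ) :
    h1aB n (fun i => (a + θ) ^ (i : ℕ)) * h1aT n θ =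
      Matrix.of fun i l : Fin (n + 1) => (Fin.cons (a ^ (l : ℕ))
        (fun i : Fin n => ((l : ℕ).choose (i : ℕ) : ℝ) * (-θ) ^ ((l : ℕ) - (i : ℕ))) :
          Fin (n + 1) → ℝ) i := by
  ext i l
  rw [Matrix.mul_apply, Matrix.of_apply]
  refine Fin.cases ?_ (fun i => ?_) i
  · rw [Fin.cons_zero]
    have h1 : ∀ k : Fin (n + 1), h1aB n (fun i => (a + θ) ^ (i : ℕ)) 0 k * h1aT n θ k l =
        (a + θ) ^ (k : ℕ) * (((l : ℕ).choose (k : ℕ) : ℝ) * (-θ) ^ ((l : ℕ) - (k : ℕ))) := by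
      intro k
      unfold h1aB h1aT
      rw [Matrix.of_apply, Fin.cons_zero, Matrix.of_apply]
    rw [Finset.sum_congr rfl fun k _ => h1 k,
      Fin.sum_univ_eq_sum_range (fun k => (a + θ) ^ k * (((l : ℕ).choose k : ℝ) *
        (-θ) ^ ((l : ℕ) - k))) (n + 1)]
    have h2 : a ^ (l : ℕ) = ((a + θ) + (-θ)) ^ (l : ℕ) := by ring
    rw [h2, add_pow]
    have h3 : Finset.range ((l : ℕ) + 1) ⊆ Finset.range (n + 1) := by
      intro k hk
      rw [Finset.mem_range] at hk ⊢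
      omega
    rw [← Finset.sum_subset h3 fun k _ hk => by
      rw [Finset.mem_range] at hk
      rw [Nat.choose_eq_zero_of_lt (by omega), Nat.cast_zero, zero_mul, mul_zero]]
    refine Finset.sum_congr rfl fun k _ => by ring
  · rw [Fin.cons_succ, Finset.sum_eq_single i.castSucc]
    · unfold h1aB h1aT
      rw [Matrix.of_apply, Fin.cons_succ, if_pos rfl, one_mul, Matrix.of_apply, Fin.val_castSucc]
    · intro k _ hk
      unfold h1aB
      rw [Matrix.of_apply, Fin.cons_succ, if_neg (Ne.symm hk), zero_mul]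
    · intro h
      exact absurd (Finset.mem_univ _) h

theorem h1_det (n : ℕ) (hn : 1 ≤ n) (N Z t : ℝ) (hN : 0 < N) (hZ : 0 < Z) :
    1 ≤ |((h1 n N Z).map (Polynomial.eval t)).det| := by
  have h1 : (h1 n N Z).map (Polynomial.eval t) = Matrix.of fun i l : Fin (n + 1) =>
      (Fin.cons (Z ^ n / N ^ n) (fun i : Fin n => N ^ n / (Z * N ^ (2 * (i : ℕ)))) :
        Fin (n + 1) → ℝ) i *
      (h1aB n (fun i => (a0 n + (2 + t ^ 2)) ^ (i : ℕ)) * h1aT n (2 + t ^ 2)) i l := by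
    ext i l
    rw [h1a_mul, Matrix.map_apply, Matrix.of_apply, Matrix.of_apply]
    refine Fin.cases ?_ (fun i => ?_) i
    · rw [h1a_eval_zero, Fin.cons_zero, Fin.cons_zero]
    · rw [h1a_eval_succ, Fin.cons_succ, Fin.cons_succ]
  have h2 : ∏ i : Fin (n + 1), (Fin.cons (Z ^ n / N ^ n)
      (fun i : Fin n => N ^ n / (Z * N ^ (2 * (i : ℕ)))) : Fin (n + 1) → ℝ) i = 1 := by
    rw [Fin.prod_univ_succ, Fin.cons_zero]
    simp only [Fin.cons_succ]
    rw [h1a_prod n n N Z hN hZ, div_mul_div_comm, pow_add]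
    rw [div_eq_one_iff_eq (by positivity)]
    ring
  rw [h1, Matrix.det_mul_column, h2, one_mul, Matrix.det_mul, h1aT_det, mul_one, h1aB_det,
    Fin.val_last]
  have h3 : 0 < a0 n := Real.rpow_pos_of_pos (by norm_num) _
  have h4 : 1 ≤ a0 n + (2 + t ^ 2) := by nlinarith [sq_nonneg t]
  exact (one_le_pow₀ h4).trans (le_abs_self _)

end Pool.Agent.Lib.H42V
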