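import Pool.Agent.Lib.H42V.H1A

/-!
# Chunk H1B (S/M)
Minors of `h1`.

Proofs. `mn` is the determinant of `ev (v s) (S t)`; take the row factors out (`Matrix.det_mul_column` or `det_mul_row`; the column `t` of the matrix has the factor `N^n/(Z N^(2t))`) and compare with `wr`, `wr2` (`⟨t+1, _⟩ = Fin.succ ⟨t, _⟩`). `prod_h1`: induction on `j`
(`∏ = N^(n j) / (Z^j N^(j (j-1)))`), or logarithms; `n + 1 - j` is truncated, `j ≤ n + 1`.
-/

open Polynomial MeasureTheory Set Filter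

namespace Pool.Agent.Lib.H42V

theorem mn_h1_one (n j : ℕ) (hj : j ≤ n) (N Z t : ℝ) (v : Fin j → Fin (n + 1) → ℤ) :
    H70X.mn (h1 n N Z) t v (fun s => ⟨(s : ℕ) + 1, by omega⟩) =
      (∏ i : Fin j, N ^ n / (Z * N ^ (2 * (i : ℕ)))) * wr (2 + t ^ 2) (fun s => rv (v s)) := by
  unfold H70X.mn wr
  rw [← Matrix.det_mul_row]
  congr 1
  ext s i
  rw [Matrix.of_apply, Matrix.of_apply, Matrix.of_apply]
  exact ev_h1_succ n N Z t (v s) ⟨(i : ℕ), by omega⟩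

theorem mn_h1_two (n j : ℕ) (hj : j ≤ n) (N Z t : ℝ) (v : Fin (j + 1) → Fin (n + 1) → ℤ) :
    H70X.mn (h1 n N Z) t v (fun s => ⟨(s : ℕ), by omega⟩) =
      Z ^ n / N ^ n * (∏ i : Fin j, N ^ n / (Z * N ^ (2 * (i : ℕ)))) * wr2 (a0 n) (2 + t ^ 2) (fun s => rv (v s)) := by
  have h1 : Z ^ n / N ^ n * (∏ i : Fin j, N ^ n / (Z * N ^ (2 * (i : ℕ)))) =
      ∏ i : Fin (j + 1), (Fin.cons (Z ^ n / N ^ n)
        (fun i : Fin j => N ^ n / (Z * N ^ (2 * (i : ℕ)))) : Fin (j + 1) → ℝ) i := by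
    rw [Fin.prod_univ_succ, Fin.cons_zero]
    simp only [Fin.cons_succ]
  rw [h1]
  unfold H70X.mn wr2
  rw [← Matrix.det_mul_row]
  congr 1
  ext s i
  rw [Matrix.of_apply, Matrix.of_apply, Matrix.of_apply]
  refine Fin.cases ?_ (fun i => ?_) i
  · rw [Fin.cons_zero, Fin.cons_zero]
    exact ev_h1_zero n N Z t (v s)
  · rw [Fin.cons_succ, Fin.cons_succ]
    exact ev_h1_succ n N Z t (v s) ⟨(i : ℕ), by omega⟩

theorem prod_h1 (n j : ℕ) (hj : j ≤ n + 1) (N Z : ℝ) (hN : 0 < N) (hZ : 0 < Z) :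
    ∏ i : Fin j, N ^ n / (Z * N ^ (2 * (i : ℕ))) = (N ^ (n + 1 - j) / Z) ^ j := by
  obtain ⟨m, hm⟩ := Nat.exists_eq_add_of_le hj
  rw [h1a_prod n j N Z hN hZ, div_pow, ← pow_mul, div_eq_div_iff (by positivity) (by positivity)]
  have h1 : n + 1 - j = m := by omega
  have h2 : n * j + j = m * j + j * j := by
    have : n * j + j = (n + 1) * j := by ring
    rw [this, hm]
    ring
  rw [h1, h2, pow_add]
  ring

end Pool.Agent.Lib.H42V
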