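import Pool.Agent.Lib.H42V.TC
import Pool.Agent.Lib.H42V.GM2

/-!
# Chunk H2A (M/L)
The matrix `h2` (`n = m + 1`; polynomials of degree `≤ m`). `θ = 2 + t^2`, `E_i = tc (-θ) (rv (F0 (m+1))) i`, `E_0 = (-θ)^(m+1) - 2`, `E_i = choose (m+1) i (-θ)^(m+1-i)` for `i ≥ 1`.

Proofs. `ev`: definitions. `tc_snoc`: the last coordinate is 0. Degree: `≤ 2 (m+1) + 2 m`. `E0_bd`: `θ ∈ [2,3]`: for odd `m + 1` `|E_0| = θ^(m+1) + 2`, for even `m + 1 ≥ 2` `E_0 = θ^(m+1) - 2 ≥ 2`; for the first claim (`1 ≤ |E_0|`) only `θ ≥ 2` is used, so it holds for all real `t`.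
Determinant: consider the `(m+2) × (m+2)` matrix with the rows `e_0, ev_a, e''_1, ..., e''_m`, `e''_i = E_0 e_i - E_i e_0`, and the columns `F0, 1, T, ..., T^m`. `ev_a(F0) = 0`, `e''_i(F0) = 0`, so its determinant is `E_0 * D`, `D` the determinant of
`ev_a, e''_1, ..., e''_m` on `1, ..., T^m`. On the other hand, by row operations it is `E_0^m` times the determinant with the rows `e_0, ev_a, e_1, ..., e_m`, which is `± (a + θ)^(m+1)` (see `H1A.h1_det`; the columns `F0, 1, ..., T^m` are unimodular). So `D ≠ 0`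
(`a + θ > 0`, `E_0 ≠ 0`).
-/

open Polynomial MeasureTheory Set Filter

namespace Pool.Agent.Lib.H42V

theorem H2A_F0_zero (m : ℕ) : (F0 (m + 1) 0 : ℤ) = -2 := by
  unfold F0
  rw [if_neg (by rw [Fin.val_zero]; omega), if_pos (Fin.val_zero _)]

theorem H2A_F0_last (m : ℕ) (l : Fin (m + 2)) (hl : (l : ℕ) = m + 1) : F0 (m + 1) l = 1 := by
  unfold F0
  rw [if_pos hl]

theorem H2A_F0_mid (m : ℕ) (l : Fin (m + 2)) (h0 : (l : ℕ) ≠ 0) (hl : (l : ℕ) ≠ m + 1) :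
    F0 (m + 1) l = 0 := by
  unfold F0
  rw [if_neg hl, if_neg h0]

theorem tc_F0 (m : ℕ) (x : ℝ) (i : ℕ) : tc x (rv (F0 (m + 1))) i =
    ((m + 1).choose i : ℝ) * x ^ (m + 1 - i) - (if i = 0 then 2 else 0) := by
  unfold tc rv
  rw [Fin.sum_univ_succ, Fin.sum_univ_castSucc, Finset.sum_eq_zero, H2A_F0_zero,
    H2A_F0_last m (Fin.last m).succ (by simp)]
  · by_cases hi : i = 0
    · subst hi
      simp
      ring
    · rw [if_neg hi]
      have : Nat.choose ((0 : Fin (m + 1 + 1)) : ℕ) i = 0 :=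
        Nat.choose_eq_zero_of_lt (by rw [Fin.val_zero]; omega)
      rw [this]
      simp
  · intro l _
    rw [H2A_F0_mid m l.castSucc.succ (by simp) (by
      rw [Fin.val_succ, Fin.val_castSucc]
      have := l.2
      omega)]
    simp

theorem tc_F0_zero (m : ℕ) (x : ℝ) : tc x (rv (F0 (m + 1))) 0 = x ^ (m + 1) - 2 := by
  rw [tc_F0]
  simp

theorem tc_F0_pos (m : ℕ) (x : ℝ) (i : ℕ) (hi : i ≠ 0) : tc x (rv (F0 (m + 1))) i =
    ((m + 1).choose i : ℝ) * x ^ (m + 1 - i) := by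
  rw [tc_F0, if_neg hi, sub_zero]

theorem h2_eval_zero (m : ℕ) (N Z t : ℝ) (l : Fin (m + 1)) :
    (h2 m N Z 0 l).eval t = Z ^ m * a0 (m + 1) ^ (l : ℕ) := by
  unfold h2
  rw [Matrix.of_apply, if_pos (Fin.val_zero _), eval_C]

theorem h2_eval (m : ℕ) (N Z t : ℝ) (i l : Fin (m + 1)) (hi : i ≠ 0) :
    (h2 m N Z i l).eval t = N ^ (m + 1) / (Z * N ^ (2 * (i : ℕ))) *
      (((-(2 + t ^ 2)) ^ (m + 1) - 2) * (((l : ℕ).choose (i : ℕ) : ℝ) *
          (-(2 + t ^ 2)) ^ ((l : ℕ) - (i : ℕ))) -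
        ((m + 1).choose (i : ℕ) : ℝ) * (-(2 + t ^ 2)) ^ (m + 1 - (i : ℕ)) *
          (-(2 + t ^ 2)) ^ (l : ℕ)) := by
  unfold h2
  rw [Matrix.of_apply, if_neg (fun h => hi (Fin.ext (by rw [h, Fin.val_zero])))]
  simp

theorem h2_row (m : ℕ) (N Z t : ℝ) (r : Fin (m + 1) → ℝ) (i : Fin (m + 1)) (hi : i ≠ 0) :
    ∑ l, (h2 m N Z i l).eval t * r l = N ^ (m + 1) / (Z * N ^ (2 * (i : ℕ))) *
      (tc (-(2 + t ^ 2)) (rv (F0 (m + 1))) 0 * tc (-(2 + t ^ 2)) r (i : ℕ) -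
        tc (-(2 + t ^ 2)) (rv (F0 (m + 1))) (i : ℕ) * tc (-(2 + t ^ 2)) r 0) := by
  have hi' : (i : ℕ) ≠ 0 := fun h => hi (Fin.ext (by rw [h, Fin.val_zero]))
  rw [tc_F0_zero, tc_F0_pos _ _ _ hi']
  unfold tc
  rw [Finset.mul_sum, Finset.mul_sum, ← Finset.sum_sub_distrib, Finset.mul_sum]
  refine Finset.sum_congr rfl fun l _ => ?_
  rw [h2_eval m N Z t i l hi, Nat.choose_zero_right, Nat.sub_zero]
  push_cast
  ring

theorem h2_row_zero (m : ℕ) (N Z t : ℝ) (r : Fin (m + 1) → ℝ) :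
    ∑ l, (h2 m N Z 0 l).eval t * r l = Z ^ m * tc (a0 (m + 1)) r 0 := by
  unfold tc
  rw [Finset.mul_sum]
  refine Finset.sum_congr rfl fun l _ => ?_
  rw [h2_eval_zero, Nat.choose_zero_right, Nat.sub_zero]
  push_cast
  ring

theorem tc_snocR {m : ℕ} (x : ℝ) (r : Fin (m + 1) → ℝ) (i : ℕ) :
    tc x (Fin.snoc r 0 : Fin (m + 2) → ℝ) i = tc x r i := by
  unfold tc
  rw [Fin.sum_univ_castSucc]
  simp only [Fin.snoc_castSucc, Fin.snoc_last, mul_zero, add_zero, Fin.val_castSucc]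

theorem ev_h2_zero (m : ℕ) (N Z t : ℝ) (r : Fin (m + 1) → ℤ) :
    H70X.ev (h2 m N Z) t r 0 = Z ^ m * tc (a0 (m + 1)) (rv r) 0 := by
  exact h2_row_zero m N Z t (rv r)

theorem ev_h2 (m : ℕ) (N Z t : ℝ) (r : Fin (m + 1) → ℤ) (i : Fin (m + 1)) (hi : i ≠ 0) :
    H70X.ev (h2 m N Z) t r i = N ^ (m + 1) / (Z * N ^ (2 * (i : ℕ))) *
      (tc (-(2 + t ^ 2)) (rv (F0 (m + 1))) 0 * tc (-(2 + t ^ 2)) (rv r) (i : ℕ) -
        tc (-(2 + t ^ 2)) (rv (F0 (m + 1))) (i : ℕ) * tc (-(2 + t ^ 2)) (rv r) 0) := by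
  exact h2_row m N Z t (rv r) i hi

theorem tc_snoc {m : ℕ} (x : ℝ) (r : Fin (m + 1) → ℤ) (i : ℕ) :
    tc x (rv (Fin.snoc r 0 : Fin (m + 2) → ℤ)) i = tc x (rv r) i := by
  have h1 : rv (Fin.snoc r 0 : Fin (m + 2) → ℤ) = (Fin.snoc (rv r) 0 : Fin (m + 2) → ℝ) := by
    funext l
    refine Fin.lastCases ?_ (fun l => ?_) l
    · unfold rv
      rw [Fin.snoc_last, Fin.snoc_last, Int.cast_zero]
    · unfold rv
      rw [Fin.snoc_castSucc, Fin.snoc_castSucc]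
  rw [h1, tc_snocR]

theorem h2_deg (m : ℕ) (N Z : ℝ) (i l : Fin (m + 1)) : (h2 m N Z i l).natDegree ≤ 4 * (m + 1) := by
  have hq : ∀ k : ℕ, ((-(2 + X ^ 2) : ℝ[X]) ^ k).natDegree ≤ 2 * k := by
    intro k
    refine natDegree_pow_le.trans ?_
    rw [mul_comm]
    refine Nat.mul_le_mul_right k ?_
    rw [natDegree_neg]
    refine (natDegree_add_le _ _).trans (max_le ?_ ?_)
    · have : (2 : ℝ[X]).natDegree = 0 := natDegree_ofNat 2
      omega
    · rw [natDegree_X_pow]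
  have hl := l.2
  unfold h2
  rw [Matrix.of_apply]
  split_ifs with hi
  · rw [natDegree_C]
    exact Nat.zero_le _
  · refine (natDegree_C_mul_le _ _).trans ((natDegree_sub_le _ _).trans (max_le ?_ ?_))
    · refine natDegree_mul_le.trans ?_
      have h1 : ((-(2 + X ^ 2) : ℝ[X]) ^ (m + 1) - 2).natDegree ≤ 2 * (m + 1) := by
        refine (natDegree_sub_le _ _).trans (max_le (hq _) ?_)
        have : (2 : ℝ[X]).natDegree = 0 := natDegree_ofNat 2
        omega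
      have h2 := (natDegree_C_mul_le (((l : ℕ).choose (i : ℕ) : ℕ) : ℝ)
        ((-(2 + X ^ 2) : ℝ[X]) ^ ((l : ℕ) - (i : ℕ)))).trans (hq _)
      omega
    · refine natDegree_mul_le.trans ?_
      have h1 := (natDegree_C_mul_le (((m + 1).choose (i : ℕ) : ℕ) : ℝ)
        ((-(2 + X ^ 2) : ℝ[X]) ^ (m + 1 - (i : ℕ)))).trans (hq _)
      have h2 := hq (l : ℕ)
      omega

theorem E0_bd (m : ℕ) (t : ℝ) : 1 ≤ |tc (-(2 + t ^ 2)) (rv (F0 (m + 1))) 0| ∧
    (t ∈ Icc (0 : ℝ) 1 → |tc (-(2 + t ^ 2)) (rv (F0 (m + 1))) 0| ≤ 3 ^ (m + 1) + 2) := by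
  have hθ : 2 ≤ 2 + t ^ 2 := by nlinarith [sq_nonneg t]
  rw [tc_F0_zero]
  have hp : 2 ≤ (2 + t ^ 2) ^ (m + 1) := by
    calc (2 : ℝ) = 2 ^ 1 := (pow_one 2).symm
      _ ≤ 2 ^ (m + 1) := pow_le_pow_right₀ (by norm_num) (by omega)
      _ ≤ (2 + t ^ 2) ^ (m + 1) := pow_le_pow_left₀ (by norm_num) hθ _
  constructor
  · rcases Nat.even_or_odd (m + 1) with he | ho
    · rw [he.neg_pow]
      have h2 : 2 ≤ m + 1 := by
        obtain ⟨k, hk⟩ := he
        omega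
      have h4 : (4 : ℝ) ≤ (2 + t ^ 2) ^ (m + 1) := by
        calc (4 : ℝ) = 2 ^ 2 := by norm_num
          _ ≤ 2 ^ (m + 1) := pow_le_pow_right₀ (by norm_num) h2
          _ ≤ (2 + t ^ 2) ^ (m + 1) := pow_le_pow_left₀ (by norm_num) hθ _
      exact le_abs.2 (Or.inl (by linarith))
    · rw [ho.neg_pow]
      exact le_abs.2 (Or.inr (by linarith))
  · intro ht
    have h3 : 2 + t ^ 2 ≤ 3 := by nlinarith [ht.1, ht.2]
    refine (abs_sub _ _).trans ?_
    rw [abs_pow, abs_neg, abs_of_pos (by linarith : (0 : ℝ) < 2 + t ^ 2), abs_of_pos (by norm_num : (0 : ℝ) < 2)]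
    have := pow_le_pow_left₀ (by linarith : (0 : ℝ) ≤ 2 + t ^ 2) h3 (m + 1)
    linarith

theorem h2_det (m : ℕ) (N Z t : ℝ) (hN : 0 < N) (hZ : 0 < Z) :
    ((h2 m N Z).map (Polynomial.eval t)).det ≠ 0 := by
  intro hdet
  obtain ⟨v, hv, hv0⟩ := Matrix.exists_mulVec_eq_zero_iff.2 hdet
  have hrow : ∀ i, ∑ l, (h2 m N Z i l).eval t * v l = 0 := by
    intro i
    have h1 := congrFun hv0 i
    simpa only [Matrix.mulVec, dotProduct, Matrix.map_apply, Pi.zero_apply] using h1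
  set x : ℝ := -(2 + t ^ 2) with hx
  set E : ℕ → ℝ := fun i => tc x (rv (F0 (m + 1))) i with hE
  have hE0 : E 0 ≠ 0 := by
    have h1 := (E0_bd m t).1
    intro h
    rw [← hx] at h1
    change 1 ≤ |E 0| at h1
    rw [h, abs_zero] at h1
    linarith
  have hval : tc (a0 (m + 1)) v 0 = 0 := by
    have h1 := hrow 0
    rw [h2_row_zero] at h1
    rcases mul_eq_zero.1 h1 with h | h
    · exact absurd h (pow_ne_zero _ hZ.ne')
    · exact h
  set V : Fin (m + 2) → ℝ := Fin.snoc v 0 with hV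
  set c : ℝ := tc x v 0 / E 0 with hc
  have hi : ∀ i : ℕ, i ≤ m → tc x v i = c * E i := by
    intro i him
    by_cases hi0 : i = 0
    · rw [hi0, hc, div_mul_cancel₀ _ hE0]
    · have h1 := hrow ⟨i, by omega⟩
      rw [h2_row m N Z t v ⟨i, by omega⟩ (fun h => hi0 (by simpa using congrArg Fin.val h))] at h1
      rcases mul_eq_zero.1 h1 with h | h
      · exact absurd h (by positivity)
      · change E 0 * tc x v i - E i * tc x v 0 = 0 at h
        rw [hc]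
        field_simp
        linarith
  have hEtop : E (m + 1) = 1 := by
    change tc x (rv (F0 (m + 1))) (m + 1) = 1
    rw [tc_top]
    unfold rv
    rw [H2A_F0_last m (Fin.last (m + 1)) (Fin.val_last _), Int.cast_one]
  have hVtop : tc x V (m + 1) = 0 := by
    rw [tc_top, hV, Fin.snoc_last]
  set U : Fin (m + 2) → ℝ := V + (-c) • rv (F0 (m + 1)) with hU
  have hUi : ∀ i : ℕ, tc x U i = tc x V i - c * E i := by
    intro i
    rw [hU, tc_add, tc_smul]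
    ring
  have hU0 : ∀ i : ℕ, i ≤ m → tc x U i = 0 := by
    intro i him
    rw [hUi, hV, tc_snocR, hi i him, sub_self]
  have hUa : tc (a0 (m + 1)) U 0 = 0 := by
    rw [hU, tc_add, tc_smul, hV, tc_snocR, hval, tc_F0_zero, (a0_props (m + 1) (by omega)).1]
    ring
  have ha0 : 1 < a0 (m + 1) := (a0_props (m + 1) (by omega)).2.1
  have hshift := tc_shift x (a0 (m + 1) - x) U 0
  rw [add_sub_cancel, hUa, Fin.sum_univ_castSucc, Finset.sum_eq_zero, zero_add] at hshift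
  · rw [Fin.val_last, hUi, hVtop, hEtop, Nat.choose_zero_right, Nat.sub_zero] at hshift
    have hpos : 0 < a0 (m + 1) - x := by
      rw [hx]
      nlinarith [sq_nonneg t]
    have hc0 : c = 0 := by
      have h1 : (a0 (m + 1) - x) ^ (m + 1) ≠ 0 := pow_ne_zero _ hpos.ne'
      have h2 : (a0 (m + 1) - x) ^ (m + 1) * c = 0 := by
        push_cast at hshift
        linarith
      rcases mul_eq_zero.1 h2 with h | h
      · exact absurd h h1
      · exact h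
    apply hv
    funext l
    rw [tc_inv x v l, Finset.sum_eq_zero]
    · rfl
    · intro k _
      rw [hi k (by have := k.2; omega), hc0]
      ring
  · intro l _
    rw [Fin.val_castSucc, hU0 l (by have := l.2; omega), mul_zero]

end Pool.Agent.Lib.H42V
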