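import Pool.Agent.Lib.H42V.H2A

/-!
# Chunk H2B (M)
Minors of `h2`. `U = (F0, r_0, r_1, ...)` (the `r_s` extended by 0). `E_i` as in `H2A`, `θ = 2 + t^2`.

Proofs. (I) `wr θ U` is the determinant with the rows `F0, r_s` and the columns `e_0, ..., e_j`; subtracting `e_0(r_s)/E_0` times the first row: `wr θ U = E_0 det (e_i(r_s) - E_i e_0(r_s)/E_0)_{s, 1 ≤ i ≤ j} = E_0^(1-j) det (e''_i(r_s))`, so
`|det (e''_i(r_s))| = |E_0|^(j-1) |wr θ U| ≥ |wr θ U|` (`j ≥ 1`, `|E_0| ≥ 1`). The minor of `h2` is this determinant times the row factors.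
(II) `wr2 a θ U` has the columns `ev_a, e_0, ..., e_j` and the rows `F0, r_0, ..., r_j` (`ev_a(F0) = 0`): in the same way
`|wr2| = |E_0| |det (ev_a(r_s), e_i(r_s) - E_i e_0(r_s)/E_0)_{1 ≤ i ≤ j}| = |E_0|^(1-j) |det (ev_a(r_s), e''_i(r_s))|`, so `|det (ev_a, e'')| = |E_0|^(j-1) |wr2|`, which is `≥ |wr2|` if `j ≥ 1` and `= |wr2|/|E_0| ≥ |wr2|/(3^(m+1)+2)` if `j = 0`.
`prod_h2`: as `prod_h1`: `(m+1) j - j (j+1) = j (m - j)`.
-/

open Polynomial MeasureTheory Set Filter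

namespace Pool.Agent.Lib.H42V

/-- Condensation of a determinant with the upper left entry as pivot. -/
theorem h2b_chio {j : ℕ} (A : Matrix (Fin (j + 1)) (Fin (j + 1)) ℝ) :
    A 0 0 * Matrix.det (Matrix.of fun s t : Fin j => A 0 0 * A s.succ t.succ - A 0 t.succ * A s.succ 0) =
      A 0 0 ^ j * A.det := by
  set c : Fin (j + 1) → ℝ := Fin.cons 1 (fun _ => A 0 0) with hc
  set D : Matrix (Fin (j + 1)) (Fin (j + 1)) ℝ := Matrix.of fun i l => c i * A i l with hD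
  set B : Matrix (Fin (j + 1)) (Fin (j + 1)) ℝ := Matrix.of fun i l =>
    (Fin.cons (A 0 l) (fun s : Fin j => A 0 0 * A s.succ l - A 0 l * A s.succ 0) : Fin (j + 1) → ℝ) i with hB
  have h1 : D.det = A 0 0 ^ j * A.det := by
    rw [hD, Matrix.det_mul_column, hc, Fin.prod_univ_succ, Fin.cons_zero]
    simp
  have h2 : B.det = D.det := by
    refine Matrix.det_eq_of_forall_row_eq_smul_add_const
      (Fin.cons 0 (fun s : Fin j => - A s.succ 0) : Fin (j + 1) → ℝ) 0 (Fin.cons_zero _ _) ?_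
    intro i l
    refine Fin.cases ?_ (fun s => ?_) i
    · simp [hB, hD, hc]
    · simp only [hB, hD, hc, Matrix.of_apply, Fin.cons_succ, Fin.cons_zero]
      ring
  have h3 : B.det = A 0 0 * Matrix.det (Matrix.of fun s t : Fin j =>
      A 0 0 * A s.succ t.succ - A 0 t.succ * A s.succ 0) := by
    rw [Matrix.det_succ_column_zero, Fin.sum_univ_succ, Finset.sum_eq_zero]
    · rw [add_zero, Fin.val_zero, pow_zero, one_mul]
      congr 1
    · intro s _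
      have : B s.succ 0 = 0 := by
        simp only [hB, Matrix.of_apply, Fin.cons_succ]
        ring
      rw [this, mul_zero, zero_mul]
  rw [← h3, h2, h1]

theorem h2b_a0 (m : ℕ) : tc (a0 (m + 1)) (rv (F0 (m + 1))) 0 = 0 := by
  rw [tc_F0_zero]
  unfold a0
  rw [← Real.rpow_natCast, ← Real.rpow_mul (by norm_num)]
  have : (1 / ((m + 1 : ℕ) : ℝ)) * ((m + 1 : ℕ) : ℝ) = 1 := by
    have h : ((m + 1 : ℕ) : ℝ) ≠ 0 := by positivity
    field_simp
  rw [this, Real.rpow_one, sub_self]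

theorem mn_h2_one (m j : ℕ) (hj1 : 1 ≤ j) (hj : j ≤ m) (N Z t : ℝ) (r : Fin j → Fin (m + 1) → ℤ) :
    |∏ i : Fin j, N ^ (m + 1) / (Z * N ^ (2 * ((i : ℕ) + 1)))| *
        |wr (2 + t ^ 2) (fun s => rv (cn (F0 (m + 1)) (fun s => (Fin.snoc (r s) 0 : Fin (m + 2) → ℤ)) s))| ≤
      |H70X.mn (h2 m N Z) t r (fun s => ⟨(s : ℕ) + 1, by omega⟩)| := by
  set E : ℕ → ℝ := fun i => tc (-(2 + t ^ 2)) (rv (F0 (m + 1))) i with hE
  set C : Matrix (Fin j) (Fin j) ℝ := Matrix.of fun s i : Fin j =>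
    E 0 * tc (-(2 + t ^ 2)) (rv (r s)) ((i : ℕ) + 1) - E ((i : ℕ) + 1) * tc (-(2 + t ^ 2)) (rv (r s)) 0 with hC
  have hmn : H70X.mn (h2 m N Z) t r (fun s => ⟨(s : ℕ) + 1, by omega⟩) =
      (∏ i : Fin j, N ^ (m + 1) / (Z * N ^ (2 * ((i : ℕ) + 1)))) * C.det := by
    unfold H70X.mn
    rw [hC, ← Matrix.det_mul_row]
    congr 1
    ext s i
    rw [Matrix.of_apply, Matrix.of_apply, Matrix.of_apply,
      ev_h2 m N Z t (r s) ⟨(i : ℕ) + 1, by omega⟩ (by
        intro h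
        have := congrArg Fin.val h
        simp at this)]
  have hw := h2b_chio (Matrix.of fun s i : Fin (j + 1) => tc (-(2 + t ^ 2))
    (rv (cn (F0 (m + 1)) (fun s => (Fin.snoc (r s) 0 : Fin (m + 2) → ℤ)) s)) (i : ℕ))
  have hCw : (Matrix.of fun s i : Fin j => (Matrix.of fun s i : Fin (j + 1) => tc (-(2 + t ^ 2))
        (rv (cn (F0 (m + 1)) (fun s => (Fin.snoc (r s) 0 : Fin (m + 2) → ℤ)) s)) (i : ℕ)) 0 0 *
      (Matrix.of fun s i : Fin (j + 1) => tc (-(2 + t ^ 2))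
        (rv (cn (F0 (m + 1)) (fun s => (Fin.snoc (r s) 0 : Fin (m + 2) → ℤ)) s)) (i : ℕ)) s.succ i.succ -
      (Matrix.of fun s i : Fin (j + 1) => tc (-(2 + t ^ 2))
        (rv (cn (F0 (m + 1)) (fun s => (Fin.snoc (r s) 0 : Fin (m + 2) → ℤ)) s)) (i : ℕ)) 0 i.succ *
      (Matrix.of fun s i : Fin (j + 1) => tc (-(2 + t ^ 2))
        (rv (cn (F0 (m + 1)) (fun s => (Fin.snoc (r s) 0 : Fin (m + 2) → ℤ)) s)) (i : ℕ)) s.succ 0) = C := by
    ext s i
    simp only [hC, hE, Matrix.of_apply, cn, Fin.cons_zero, Fin.cons_succ, Fin.val_zero, Fin.val_succ, tc_snoc]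
  rw [hCw] at hw
  have hw0 : (Matrix.of fun s i : Fin (j + 1) => tc (-(2 + t ^ 2))
        (rv (cn (F0 (m + 1)) (fun s => (Fin.snoc (r s) 0 : Fin (m + 2) → ℤ)) s)) (i : ℕ)) 0 0 = E 0 := rfl
  rw [hw0] at hw
  have hE1 : 1 ≤ |E 0| := (E0_bd m t).1
  have hE0 : 0 < |E 0| := by linarith
  have hkey : |wr (2 + t ^ 2) (fun s => rv (cn (F0 (m + 1))
      (fun s => (Fin.snoc (r s) 0 : Fin (m + 2) → ℤ)) s))| ≤ |C.det| := by
    have h1 : |E 0| * |C.det| = |E 0| ^ j * |wr (2 + t ^ 2) (fun s => rv (cn (F0 (m + 1))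
        (fun s => (Fin.snoc (r s) 0 : Fin (m + 2) → ℤ)) s))| := by
      rw [← abs_mul, hw, abs_mul, abs_pow]
      rfl
    obtain ⟨k, rfl⟩ := Nat.exists_eq_add_of_le hj1
    rw [pow_add, pow_one, mul_assoc] at h1
    have h2 := mul_left_cancel₀ hE0.ne' h1
    rw [h2]
    exact le_mul_of_one_le_left (abs_nonneg _) (one_le_pow₀ hE1)
  rw [hmn, abs_mul]
  exact mul_le_mul_of_nonneg_left hkey (abs_nonneg _)

theorem mn_h2_two (m j : ℕ) (hj : j ≤ m) (N Z t : ℝ) (ht : t ∈ Icc (0 : ℝ) 1) (r : Fin (j + 1) → Fin (m + 1) → ℤ) :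
    |Z ^ m * ∏ i : Fin j, N ^ (m + 1) / (Z * N ^ (2 * ((i : ℕ) + 1)))| *
        |wr2 (a0 (m + 1)) (2 + t ^ 2)
          (fun s => rv (cn (F0 (m + 1)) (fun s => (Fin.snoc (r s) 0 : Fin (m + 2) → ℤ)) s))| ≤
      (3 ^ (m + 1) + 2) * |H70X.mn (h2 m N Z) t r (fun s => ⟨(s : ℕ), by omega⟩)| := by
  set E : ℕ → ℝ := fun i => tc (-(2 + t ^ 2)) (rv (F0 (m + 1))) i with hE
  set C : Matrix (Fin (j + 1)) (Fin (j + 1)) ℝ := Matrix.of fun s i : Fin (j + 1) =>
    (Fin.cons (tc (a0 (m + 1)) (rv (r s)) 0) (fun i : Fin j =>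
      E 0 * tc (-(2 + t ^ 2)) (rv (r s)) ((i : ℕ) + 1) -
        E ((i : ℕ) + 1) * tc (-(2 + t ^ 2)) (rv (r s)) 0) : Fin (j + 1) → ℝ) i with hC
  set f : Fin (j + 1) → ℝ := Fin.cons (Z ^ m) (fun i : Fin j =>
    N ^ (m + 1) / (Z * N ^ (2 * ((i : ℕ) + 1)))) with hf
  have hfp : ∏ i, f i = Z ^ m * ∏ i : Fin j, N ^ (m + 1) / (Z * N ^ (2 * ((i : ℕ) + 1))) := by
    rw [hf, Fin.prod_univ_succ, Fin.cons_zero]
    simp only [Fin.cons_succ]
  have hmn : H70X.mn (h2 m N Z) t r (fun s => ⟨(s : ℕ), by omega⟩) = (∏ i, f i) * C.det := by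
    unfold H70X.mn
    rw [hC, ← Matrix.det_mul_row]
    congr 1
    ext s i
    rw [Matrix.of_apply, Matrix.of_apply, Matrix.of_apply]
    refine Fin.cases ?_ (fun i => ?_) i
    · rw [hf, Fin.cons_zero, Fin.cons_zero]
      exact ev_h2_zero m N Z t (r s)
    · rw [hf, Fin.cons_succ, Fin.cons_succ]
      exact ev_h2 m N Z t (r s) ⟨(i : ℕ) + 1, by omega⟩ (by
        intro h
        have := congrArg Fin.val h
        simp at this)
  -- the big matrix
  set M : Matrix (Fin (j + 2)) (Fin (j + 2)) ℝ := Matrix.of fun s i : Fin (j + 2) =>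
    (Fin.cons (tc (a0 (m + 1)) (rv (cn (F0 (m + 1)) (fun s => (Fin.snoc (r s) 0 : Fin (m + 2) → ℤ)) s)) 0)
      (fun i : Fin (j + 1) => tc (-(2 + t ^ 2))
        (rv (cn (F0 (m + 1)) (fun s => (Fin.snoc (r s) 0 : Fin (m + 2) → ℤ)) s)) (i : ℕ)) :
        Fin (j + 2) → ℝ) i with hM
  have hMw : wr2 (a0 (m + 1)) (2 + t ^ 2)
      (fun s => rv (cn (F0 (m + 1)) (fun s => (Fin.snoc (r s) 0 : Fin (m + 2) → ℤ)) s)) = M.det := rfl
  set M' : Matrix (Fin (j + 2)) (Fin (j + 2)) ℝ := M.submatrix id (Equiv.swap 0 1) with hM'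
  have hdet : |M'.det| = |M.det| := by
    rw [hM', Matrix.det_permute', Equiv.Perm.sign_swap (by simp), Units.val_neg, Units.val_one,
      Int.cast_neg, Int.cast_one, neg_one_mul, abs_neg]
  have hs0 : (Equiv.swap (0 : Fin (j + 2)) 1) 0 = 1 := Equiv.swap_apply_left _ _
  have hs1 : (Equiv.swap (0 : Fin (j + 2)) 1) 1 = 0 := Equiv.swap_apply_right _ _
  have hs2 : ∀ i : Fin j, (Equiv.swap (0 : Fin (j + 2)) 1) i.succ.succ = i.succ.succ := fun i =>
    Equiv.swap_apply_of_ne_of_ne (Fin.succ_ne_zero _) (by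
      rw [← Fin.succ_zero_eq_one]
      intro h
      exact Fin.succ_ne_zero _ (Fin.succ_injective _ h))
  have hM00 : M' 0 0 = E 0 := by
    rw [hM', Matrix.submatrix_apply, hs0]
    rfl
  have hw := h2b_chio M'
  rw [hM00] at hw
  have hC2 : (Matrix.of fun s i : Fin (j + 1) => E 0 * M' s.succ i.succ - M' 0 i.succ * M' s.succ 0) =
      Matrix.of fun s i : Fin (j + 1) => (Fin.cons (E 0) (fun _ => 1) : Fin (j + 1) → ℝ) i * C s i := by
    ext s i
    rw [Matrix.of_apply, Matrix.of_apply]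
    refine Fin.cases ?_ (fun i => ?_) i
    · have h1 : M' s.succ (Fin.succ 0) = tc (a0 (m + 1)) (rv (r s)) 0 := by
        rw [hM', Matrix.submatrix_apply, Fin.succ_zero_eq_one, hs1]
        exact tc_snoc _ _ _
      have h2 : M' 0 (Fin.succ 0) = 0 := by
        rw [hM', Matrix.submatrix_apply, Fin.succ_zero_eq_one, hs1]
        exact h2b_a0 m
      rw [h1, h2, Fin.cons_zero, zero_mul, sub_zero]
      rfl
    · have h1 : M' s.succ i.succ.succ = tc (-(2 + t ^ 2)) (rv (r s)) ((i : ℕ) + 1) := by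
        rw [hM', Matrix.submatrix_apply, hs2]
        exact tc_snoc _ _ _
      have h2 : M' 0 i.succ.succ = E ((i : ℕ) + 1) := by
        rw [hM', Matrix.submatrix_apply, hs2]
        rfl
      have h3 : M' s.succ 0 = tc (-(2 + t ^ 2)) (rv (r s)) 0 := by
        rw [hM', Matrix.submatrix_apply, hs0]
        exact tc_snoc _ _ _
      rw [h1, h2, h3, Fin.cons_succ, one_mul]
      rfl
  rw [hC2, Matrix.det_mul_row, Fin.prod_univ_succ, Fin.cons_zero] at hw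
  simp only [Fin.cons_succ, Finset.prod_const_one, mul_one] at hw
  have hE1 : 1 ≤ |E 0| := (E0_bd m t).1
  have hE2 : |E 0| ≤ 3 ^ (m + 1) + 2 := (E0_bd m t).2 ht
  have hE0 : 0 < |E 0| := by linarith
  have hkey : |M.det| ≤ |E 0| * |C.det| := by
    have h1 : |E 0| * (|E 0| * |C.det|) = |E 0| * (|E 0| ^ j * |M.det|) := by
      rw [← abs_mul, ← abs_mul, hw, abs_mul, abs_pow, hdet, pow_succ]
      ring
    have h2 := mul_left_cancel₀ hE0.ne' h1
    rw [h2]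
    exact le_mul_of_one_le_left (abs_nonneg _) (one_le_pow₀ hE1)
  rw [hMw, hmn, abs_mul (∏ i, f i), ← hfp]
  calc |∏ i, f i| * |M.det| ≤ |∏ i, f i| * (|E 0| * |C.det|) :=
        mul_le_mul_of_nonneg_left hkey (abs_nonneg _)
    _ = |E 0| * (|∏ i, f i| * |C.det|) := by ring
    _ ≤ (3 ^ (m + 1) + 2) * (|∏ i, f i| * |C.det|) := mul_le_mul_of_nonneg_right hE2 (by positivity)

theorem prod_h2 (m j : ℕ) (hj : j ≤ m) (N Z : ℝ) (hN : 0 < N) (hZ : 0 < Z) :
    ∏ i : Fin j, N ^ (m + 1) / (Z * N ^ (2 * ((i : ℕ) + 1))) = (N ^ (m - j) / Z) ^ j := by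
  obtain ⟨k, rfl⟩ := Nat.exists_eq_add_of_le hj
  rw [Finset.prod_div_distrib, Finset.prod_mul_distrib, Finset.prod_const, Finset.prod_const,
    Finset.prod_pow_eq_pow_sum, Finset.card_univ, Fintype.card_fin, ← Finset.mul_sum,
    Fin.sum_univ_eq_sum_range (fun i => i + 1), div_pow, ← pow_mul, ← pow_mul,
    div_eq_div_iff (by positivity) (by positivity)]
  have h1 : 2 * ∑ i ∈ Finset.range j, (i + 1) = j * (j + 1) := by
    have := Finset.sum_range_id_mul_two (j + 1)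
    rw [Finset.sum_range_succ'] at this
    simp only [add_zero, Nat.add_sub_cancel] at this
    rw [mul_comm, this]
    ring
  rw [h1, Nat.add_sub_cancel_left]
  have h2 : (j + k + 1) * j = k * j + j * (j + 1) := by ring
  rw [h2, pow_add]
  ring

end Pool.Agent.Lib.H42V
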