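import Pool.Agent.Lib.H42V.TC

/-!
# Chunk HL (S/M)
The full matrix `hL`.

Proofs. `ev`: definitions, `tc_val`. Degree: `(C a + X)^l`, `l ≤ n`. Determinant: the row 0 at `y` is `Z^n ∑_i y^i * (choose l i a^(l-i))` (binomial theorem), i.e. the row 0 at `y = 0` plus multiples of the other rows; at `y = 0` the matrix is upper triangular with the diagonal
`Z^n, 1/Z, ..., 1/Z`. `mn_hL_zero`: take the factors out of the columns of the minor.
-/

open Polynomial MeasureTheory Set Filter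

namespace Pool.Agent.Lib.H42V

theorem ev_hL_zero (n : ℕ) (a Z y : ℝ) (u : Fin (n + 1) → ℤ) :
    H70X.ev (hL n a Z) y u 0 = Z ^ n * tc (a + y) (rv u) 0 := by
  rw [tc_val, H70X.ev, Finset.mul_sum]
  refine Finset.sum_congr rfl fun l _ => ?_
  simp [hL, rv, mul_assoc]

theorem ev_hL (n : ℕ) (a Z y : ℝ) (u : Fin (n + 1) → ℤ) (i : Fin (n + 1)) (hi : i ≠ 0) :
    H70X.ev (hL n a Z) y u i = 1 / Z * tc a (rv u) (i : ℕ) := by
  have hi' : (i : ℕ) ≠ 0 := fun h => hi (Fin.ext h)
  rw [tc, H70X.ev, Finset.mul_sum]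
  refine Finset.sum_congr rfl fun l _ => ?_
  simp only [hL, Matrix.of_apply, if_neg hi', eval_C, rv]
  ring

theorem hL_deg (n : ℕ) (a Z : ℝ) (i l : Fin (n + 1)) : (hL n a Z i l).natDegree ≤ n := by
  simp only [hL, Matrix.of_apply]
  split_ifs with h
  · refine (natDegree_C_mul_le _ _).trans ?_
    refine (natDegree_pow_le).trans ?_
    have h1 : (C a + X : ℝ[X]).natDegree ≤ 1 := by
      rw [add_comm, natDegree_X_add_C]
    have h2 := l.2
    calc (l : ℕ) * (C a + X : ℝ[X]).natDegree ≤ (l : ℕ) * 1 := Nat.mul_le_mul_left _ h1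
      _ ≤ n := by omega
  · rw [natDegree_C]
    exact Nat.zero_le _

theorem hL_det (n : ℕ) (a Z y : ℝ) (hZ : Z ≠ 0) : ((hL n a Z).map (Polynomial.eval y)).det = 1 := by
  have hb : ∀ l : Fin (n + 1), (a + y) ^ (l : ℕ) =
      ∑ k : Fin (n + 1), y ^ (k : ℕ) * (((l : ℕ).choose (k : ℕ) : ℝ) * a ^ ((l : ℕ) - (k : ℕ))) := by
    intro l
    have h1 := tc_shift a y (Pi.single l (1 : ℝ)) 0
    have h2 : ∀ (x : ℝ) (i : ℕ), tc x (Pi.single l (1 : ℝ)) i =
        ((l : ℕ).choose i : ℝ) * x ^ ((l : ℕ) - i) := by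
      intro x i
      rw [tc, Finset.sum_eq_single l]
      · simp
      · intro b _ hb
        simp [Pi.single_eq_of_ne hb]
      · intro h
        exact absurd (Finset.mem_univ _) h
    simp only [h2] at h1
    simpa using h1
  have hM : (hL n a Z).map (Polynomial.eval y) =
      (Matrix.of fun i k : Fin (n + 1) => if (i : ℕ) = 0 then Z ^ n * y ^ (k : ℕ) else
        if i = k then 1 / Z else 0) *
      (Matrix.of fun k l : Fin (n + 1) => ((l : ℕ).choose (k : ℕ) : ℝ) * a ^ ((l : ℕ) - (k : ℕ))) := by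
    ext i l
    rw [Matrix.mul_apply]
    simp only [Matrix.map_apply, hL, Matrix.of_apply]
    by_cases hi : (i : ℕ) = 0
    · simp only [if_pos hi]
      rw [eval_mul, eval_C, eval_pow, eval_add, eval_C, eval_X, hb l, Finset.mul_sum]
      refine Finset.sum_congr rfl fun k _ => ?_
      ring
    · simp only [if_neg hi]
      rw [eval_C, Finset.sum_eq_single i]
      · rw [if_pos rfl, mul_assoc]
      · intro k _ hk
        rw [if_neg (Ne.symm hk), zero_mul]
      · intro h
        exact absurd (Finset.mem_univ _) h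
  rw [hM, Matrix.det_mul, Matrix.det_of_isUpperTriangular, Matrix.det_of_isUpperTriangular]
  · have h1 : ∏ i : Fin (n + 1), (Matrix.of fun i k : Fin (n + 1) => if (i : ℕ) = 0 then Z ^ n * y ^ (k : ℕ) else
        if i = k then 1 / Z else 0) i i = 1 := by
      rw [Fin.prod_univ_succ]
      simp [hZ]
    have h2 : ∏ i : Fin (n + 1), (Matrix.of fun k l : Fin (n + 1) =>
        ((l : ℕ).choose (k : ℕ) : ℝ) * a ^ ((l : ℕ) - (k : ℕ))) i i = 1 := by
      simp
    rw [h1, h2, one_mul]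
  · intro k l hkl
    simp only [id] at hkl
    simp [Nat.choose_eq_zero_of_lt (show (l : ℕ) < (k : ℕ) from hkl)]
  · intro i k hik
    simp only [id] at hik
    have h1 : (i : ℕ) ≠ 0 := fun h => by
      have : (k : ℕ) < (i : ℕ) := hik
      omega
    simp only [Matrix.of_apply, if_neg h1, if_neg (ne_of_gt hik)]

theorem mn_hL_zero {n j : ℕ} (a Z : ℝ) (v : Fin j → Fin (n + 1) → ℤ) (S : Fin j → Fin (n + 1)) :
    H70X.mn (hL n a Z) 0 v S = (∏ t, if S t = 0 then Z ^ n else 1 / Z) * Da a (fun s => rv (v s)) S := by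
  rw [H70X.mn, Da, ← Matrix.det_mul_row]
  congr 1
  ext s t
  simp only [Matrix.of_apply]
  by_cases h : S t = 0
  · rw [if_pos h, h, ev_hL_zero, add_zero]
    rfl
  · rw [if_neg h, ev_hL n a Z 0 (v s) (S t) h]

end Pool.Agent.Lib.H42V
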