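import Pool.Agent.Lib.H42V.Defs

/-!
# Chunk VB (S/M)
A unimodular matrix `G` whose column 0 is `f`. Pure linear algebra.

Proofs. `VG_exists`: `c = G⁻¹ v` (integer), `m = c 0`, `u s = c s.succ`. `VG_mul`: `VG G u = m • f` means `G (−m, u) = 0`, so `u = 0`. `VG_li`: `z_0 f + ∑ z_s VG G (u_s) = G (z_0, ∑ z_s u_s)`.
-/

open Polynomial MeasureTheory Set Filter

namespace Pool.Agent.Lib.H42V

lemma vb_mulVec_cons {n : ℕ} (G : Matrix (Fin (n + 1)) (Fin (n + 1)) ℤ) (f : Fin (n + 1) → ℤ)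
    (hf : ∀ i, G i 0 = f i) (m : ℤ) (u : Fin n → ℤ) :
    G.mulVec (Fin.cons m u : Fin (n + 1) → ℤ) = m • f + VG G u := by
  funext l
  rw [Matrix.mulVec, dotProduct, Fin.sum_univ_succ]
  simp only [Fin.cons_zero, Fin.cons_succ, Pi.add_apply, Pi.smul_apply, smul_eq_mul, VG]
  rw [hf l, mul_comm]

lemma vb_eq_zero {n : ℕ} (G : Matrix (Fin (n + 1)) (Fin (n + 1)) ℤ) (hG : IsUnit G.det)
    (c : Fin (n + 1) → ℤ) (h : G.mulVec c = 0) : c = 0 := by
  have h1 : G⁻¹.mulVec (G.mulVec c) = c := by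
    rw [Matrix.mulVec_mulVec, Matrix.nonsing_inv_mul G hG, Matrix.one_mulVec]
  rw [← h1, h, Matrix.mulVec_zero]

theorem VG_exists {n : ℕ} (G : Matrix (Fin (n + 1)) (Fin (n + 1)) ℤ) (hG : IsUnit G.det) (f : Fin (n + 1) → ℤ)
    (hf : ∀ i, G i 0 = f i) (v : Fin (n + 1) → ℤ) : ∃ (m : ℤ) (u : Fin n → ℤ), v = m • f + VG G u := by
  refine ⟨(G⁻¹.mulVec v) 0, fun s => (G⁻¹.mulVec v) s.succ, ?_⟩
  rw [← vb_mulVec_cons G f hf]
  have h1 : (Fin.cons ((G⁻¹.mulVec v) 0) (fun s : Fin n => (G⁻¹.mulVec v) s.succ) :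
      Fin (n + 1) → ℤ) = G⁻¹.mulVec v := Fin.cons_self_tail (G⁻¹.mulVec v)
  rw [h1, Matrix.mulVec_mulVec, Matrix.mul_nonsing_inv G hG, Matrix.one_mulVec]

theorem VG_mul {n : ℕ} (G : Matrix (Fin (n + 1)) (Fin (n + 1)) ℤ) (hG : IsUnit G.det) (f : Fin (n + 1) → ℤ)
    (hf : ∀ i, G i 0 = f i) (u : Fin n → ℤ) (h : Mul (VG G u) f) : u = 0 := by
  obtain ⟨m, hm⟩ := h
  have h1 : G.mulVec (Fin.cons (-m) u : Fin (n + 1) → ℤ) = 0 := by
    rw [vb_mulVec_cons G f hf, hm, neg_smul, neg_add_cancel]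
  have h2 := vb_eq_zero G hG _ h1
  funext s
  have := congrFun h2 s.succ
  simpa using this

theorem VG_li {n j : ℕ} (G : Matrix (Fin (n + 1)) (Fin (n + 1)) ℤ) (hG : IsUnit G.det) (f : Fin (n + 1) → ℤ)
    (hf : ∀ i, G i 0 = f i) (u : Fin j → Fin n → ℤ) (hu : LinearIndependent ℤ u) :
    LinearIndependent ℤ (cn f (fun s => VG G (u s))) := by
  rw [Fintype.linearIndependent_iff] at hu ⊢
  intro g hg
  rw [Fin.sum_univ_succ] at hg
  simp only [cn, Fin.cons_zero, Fin.cons_succ] at hg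
  have h1 : G.mulVec (Fin.cons (g 0) (∑ s : Fin j, g s.succ • u s) : Fin (n + 1) → ℤ) = 0 := by
    rw [vb_mulVec_cons G f hf, ← hg]
    congr 1
    funext l
    simp only [VG, Finset.sum_apply, Pi.smul_apply, smul_eq_mul, Finset.mul_sum]
    rw [Finset.sum_comm]
    refine Finset.sum_congr rfl fun s _ => Finset.sum_congr rfl fun t _ => ?_
    ring
  have h2 := vb_eq_zero G hG _ h1
  have h3 : g 0 = 0 := by
    have := congrFun h2 0
    simpa using this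
  have h4 : ∑ s : Fin j, g s.succ • u s = 0 := by
    funext t
    have := congrFun h2 t.succ
    simpa using this
  have h5 := hu (fun s => g s.succ) h4
  intro i
  refine Fin.cases h3 (fun s => h5 s) i

end Pool.Agent.Lib.H42V
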