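import Pool.Agent.Lib.H42V.PK1
import Pool.Agent.Lib.H42V.HL
import Pool.Agent.Lib.H42V.VB

/-!
# Chunk HQ (M/L)
The quotient matrix `hQ`. `a = al n g`, `P = pk n g`, `V = VG G u`.

Proofs. `ev`: definitions and linearity of `tc` and of the value of `poly` (`poly w` at `x` is `tc x (rv w) 0`). Degree `≤ n`. Determinant: consider the `(n+1) × (n+1)` matrix `Φ` with the rows `φ_0 = tc (a+y) . 0`, `φ_i = tc a . i` (`1 ≤ i ≤ n`) in the coordinates `v_l`: `det Φ = 1` (`hL_det` with `Z = 1`). `Φ G` has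
the first column `(φ_i(P))_i` and the columns `(φ_i(G_s))_i`; `φ_n(v) = v_n`. With the row operations `φ_i - φ_i(P)/P_n φ_n` for `i < n` the first column becomes `(0, ..., 0, P_n)`, so `± 1 = det (Φ G) = ± P_n det (β_i(G_s))_{i < n, s}`, `β_i = φ_i - φ_i(P)/P_n φ_n`; the matrix of `hQ` at `y` is
this one with the rows multiplied by `q^n Z^(n-1)`, `1/Z`.
-/

open Polynomial MeasureTheory Set Filter

namespace Pool.Agent.Lib.H42V

theorem hq_poly {n : ℕ} (w : Fin (n + 1) → ℤ) (x : ℝ) : (poly w).eval x = tc x (rv w) 0 := by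
  rw [tc_val]
  unfold poly rv
  rw [eval_finsetSum]
  refine Finset.sum_congr rfl fun l _ => ?_
  rw [eval_mul, eval_C, eval_pow, eval_X, mul_comm]

/-- the real combination of the columns `1, ..., n` of `G` -/
noncomputable def hqW {n : ℕ} (G : Matrix (Fin (n + 1)) (Fin (n + 1)) ℤ) (u : Fin n → ℝ) :
    Fin (n + 1) → ℝ := fun l => ∑ s : Fin n, (G l s.succ : ℝ) * u s

theorem hqW_tc {n : ℕ} (x : ℝ) (G : Matrix (Fin (n + 1)) (Fin (n + 1)) ℤ) (u : Fin n → ℝ) (i : ℕ) :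
    tc x (hqW G u) i = ∑ s, u s * tc x (rv fun l => G l s.succ) i := by
  rw [← tc_sum]
  congr 1
  funext l
  rw [Finset.sum_apply]
  unfold hqW
  refine Finset.sum_congr rfl fun s _ => ?_
  rw [Pi.smul_apply, smul_eq_mul, mul_comm]
  rfl

theorem hq_lin {n : ℕ} (k P c : ℝ) (t h u : Fin n → ℝ) :
    ∑ s, (k * (t s - h s / P * c)) * u s = k * (∑ s, u s * t s - (∑ s, h s * u s) / P * c) := by
  rw [Finset.sum_div, Finset.sum_mul, ← Finset.sum_sub_distrib, Finset.mul_sum]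
  refine Finset.sum_congr rfl fun s _ => ?_
  ring

theorem hq_row_zero (n : ℕ) (g : Mo) (Z y : ℝ) (G : Matrix (Fin (n + 1)) (Fin (n + 1)) ℤ)
    (u : Fin n → ℝ) (i : Fin n) (hi : (i : ℕ) = 0) :
    ∑ s, (hQ n g Z G i s).eval y * u s = (g.q : ℝ) ^ n * Z ^ (n - 1) *
      (tc (al n g + y) (hqW G u) 0 - hqW G u (Fin.last n) / pk n g (Fin.last n) *
        tc (al n g + y) (rv (pk n g)) 0) := by
  have h1 : ∀ s, (hQ n g Z G i s).eval y = ((g.q : ℝ) ^ n * Z ^ (n - 1)) *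
      (tc (al n g + y) (rv fun l => G l s.succ) 0 - (G (Fin.last n) s.succ : ℝ) /
        pk n g (Fin.last n) * tc (al n g + y) (rv (pk n g)) 0) := by
    intro s
    simp only [hQ, Matrix.of_apply, if_pos hi, eval_mul, eval_C, eval_sub, eval_comp, eval_add,
      eval_X, hq_poly]
  simp only [h1]
  rw [hqW_tc]
  exact hq_lin _ _ _ (fun s => tc (al n g + y) (rv fun l => G l s.succ) 0)
    (fun s => (G (Fin.last n) s.succ : ℝ)) u

theorem hq_row (n : ℕ) (g : Mo) (Z y : ℝ) (G : Matrix (Fin (n + 1)) (Fin (n + 1)) ℤ)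
    (u : Fin n → ℝ) (i : Fin n) (hi : (i : ℕ) ≠ 0) :
    ∑ s, (hQ n g Z G i s).eval y * u s = 1 / Z *
      (tc (al n g) (hqW G u) (i : ℕ) - hqW G u (Fin.last n) / pk n g (Fin.last n) *
        tc (al n g) (rv (pk n g)) (i : ℕ)) := by
  have h1 : ∀ s, (hQ n g Z G i s).eval y = (1 / Z) *
      (tc (al n g) (rv fun l => G l s.succ) (i : ℕ) - (G (Fin.last n) s.succ : ℝ) /
        pk n g (Fin.last n) * tc (al n g) (rv (pk n g)) (i : ℕ)) := by
    intro s
    simp only [hQ, Matrix.of_apply, if_neg hi, eval_C]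
  simp only [h1]
  rw [hqW_tc]
  exact hq_lin _ _ _ (fun s => tc (al n g) (rv fun l => G l s.succ) (i : ℕ))
    (fun s => (G (Fin.last n) s.succ : ℝ)) u

theorem hq_VG {n : ℕ} (G : Matrix (Fin (n + 1)) (Fin (n + 1)) ℤ) (u : Fin n → ℤ) :
    rv (VG G u) = hqW G (fun s => (u s : ℝ)) := by
  funext l
  unfold rv VG hqW
  push_cast
  rfl

theorem hq_VG' {n : ℕ} (G : Matrix (Fin (n + 1)) (Fin (n + 1)) ℤ) (u : Fin n → ℤ) :
    (VG G u (Fin.last n) : ℝ) = hqW G (fun s => (u s : ℝ)) (Fin.last n) :=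
  congrFun (hq_VG G u) (Fin.last n)

theorem hq_natDegree {n : ℕ} (w : Fin (n + 1) → ℤ) (a : ℝ) :
    ((poly w).comp (C a + X)).natDegree ≤ n := by
  have h1 : (poly w).natDegree ≤ n := by
    unfold poly
    refine natDegree_sum_le_of_forall_le _ _ fun l _ => ?_
    exact (natDegree_C_mul_X_pow_le _ _).trans (by omega)
  have h2 : (C a + X : ℝ[X]).natDegree = 1 := by
    rw [add_comm]
    exact natDegree_X_add_C a
  rw [natDegree_comp, h2, mul_one]
  exact h1

/-- a vector all of whose Taylor coefficients vanish (with the value at a shifted point) is `0` -/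
theorem hq_zero {n : ℕ} (a y : ℝ) (w : Fin (n + 1) → ℝ) (h0 : tc (a + y) w 0 = 0)
    (h : ∀ l : Fin (n + 1), (l : ℕ) ≠ 0 → tc a w (l : ℕ) = 0) : w = 0 := by
  have h1 : tc a w 0 = 0 := by
    rw [tc_shift, Finset.sum_eq_single (0 : Fin (n + 1))] at h0
    · simpa using h0
    · intro l _ hl
      rw [h l (fun h2 => hl (Fin.ext h2)), mul_zero]
    · intro h2
      exact absurd (Finset.mem_univ _) h2
  have h2 : ∀ l : Fin (n + 1), tc a w (l : ℕ) = 0 := by
    intro l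
    by_cases hl : (l : ℕ) = 0
    · rw [hl]
      exact h1
    · exact h l hl
  funext m
  rw [tc_inv a w m]
  refine Finset.sum_eq_zero fun l _ => ?_
  rw [h2 l, mul_zero]

theorem ev_hQ_zero (n : ℕ) (g : Mo) (Z y : ℝ) (G : Matrix (Fin (n + 1)) (Fin (n + 1)) ℤ) (u : Fin n → ℤ) (i : Fin n)
    (hi : (i : ℕ) = 0) : H70X.ev (hQ n g Z G) y u i = (g.q : ℝ) ^ n * Z ^ (n - 1) *
      (tc (al n g + y) (rv (VG G u)) 0 - (VG G u (Fin.last n) : ℝ) / pk n g (Fin.last n) *
        tc (al n g + y) (rv (pk n g)) 0) := by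
  have h1 := hq_row_zero n g Z y G (fun s => (u s : ℝ)) i hi
  rw [hq_VG, hq_VG', ← h1]
  rfl

theorem ev_hQ (n : ℕ) (g : Mo) (Z y : ℝ) (G : Matrix (Fin (n + 1)) (Fin (n + 1)) ℤ) (u : Fin n → ℤ) (i : Fin n)
    (hi : (i : ℕ) ≠ 0) : H70X.ev (hQ n g Z G) y u i = 1 / Z *
      (tc (al n g) (rv (VG G u)) (i : ℕ) - (VG G u (Fin.last n) : ℝ) / pk n g (Fin.last n) *
        tc (al n g) (rv (pk n g)) (i : ℕ)) := by
  have h1 := hq_row n g Z y G (fun s => (u s : ℝ)) i hi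
  rw [hq_VG, hq_VG', ← h1]
  rfl

theorem hQ_deg (n : ℕ) (g : Mo) (Z : ℝ) (G : Matrix (Fin (n + 1)) (Fin (n + 1)) ℤ) (i s : Fin n) :
    (hQ n g Z G i s).natDegree ≤ n := by
  unfold hQ
  rw [Matrix.of_apply]
  split_ifs with h
  · refine (natDegree_C_mul_le _ _).trans ?_
    refine (natDegree_sub_le _ _).trans (max_le (hq_natDegree _ _) ?_)
    exact (natDegree_C_mul_le _ _).trans (hq_natDegree _ _)
  · rw [natDegree_C]
    exact Nat.zero_le n

theorem hQ_det (n : ℕ) (hn : 1 ≤ n) (g : Mo) (hg : g.Ok) (Z y : ℝ) (hZ : 0 < Z)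
    (G : Matrix (Fin (n + 1)) (Fin (n + 1)) ℤ) (hG : IsUnit G.det) (hG0 : ∀ i, G i 0 = pk n g i) :
    ((hQ n g Z G).map (Polynomial.eval y)).det ≠ 0 := by
  have hq0 : (0 : ℝ) < g.q := by exact_mod_cast hg.qpos
  have hP : (pk n g (Fin.last n) : ℝ) ≠ 0 := by
    intro h
    have h1 := (pk_bd n hn g hg).2
    rw [h, abs_zero] at h1
    have h2 : (0 : ℝ) < 2 * (g.q : ℝ) ^ n := by positivity
    linarith
  intro hdet
  obtain ⟨u, hu, hMu⟩ := Matrix.exists_mulVec_eq_zero_iff.2 hdet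
  apply hu
  have hrow : ∀ i : Fin n, ∑ s, (hQ n g Z G i s).eval y * u s = 0 := fun i => congrFun hMu i
  obtain ⟨c, hc⟩ : ∃ c : ℝ, c = hqW G u (Fin.last n) / pk n g (Fin.last n) := ⟨_, rfl⟩
  have hsub : ∀ (x : ℝ) (i : ℕ), tc x (hqW G u + (-c) • rv (pk n g)) i =
      tc x (hqW G u) i - c * tc x (rv (pk n g)) i := by
    intro x i
    rw [tc_add, tc_smul]
    ring
  have hw : hqW G u + (-c) • rv (pk n g) = 0 := by
    refine hq_zero (al n g) y _ ?_ ?_
    · rw [hsub, hc]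
      have h1 := hrow ⟨0, hn⟩
      rw [hq_row_zero n g Z y G u ⟨0, hn⟩ rfl] at h1
      exact (mul_eq_zero.1 h1).resolve_left (by positivity)
    · intro l hl
      by_cases hln : (l : ℕ) = n
      · rw [hln, tc_top, Pi.add_apply, Pi.smul_apply, smul_eq_mul, hc]
        unfold rv
        field_simp
        ring
      · have h2 : (l : ℕ) < n := by omega
        rw [hsub, hc]
        have h1 := hrow ⟨(l : ℕ), h2⟩
        rw [hq_row n g Z y G u ⟨(l : ℕ), h2⟩ hl] at h1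
        exact (mul_eq_zero.1 h1).resolve_left (by positivity)
  have hGR : (G.map (Int.castRingHom ℝ)).det ≠ 0 := by
    have h1 : (G.map (Int.castRingHom ℝ)).det = Int.castRingHom ℝ G.det :=
      (RingHom.map_det (Int.castRingHom ℝ) G).symm
    rw [h1]
    have h2 : G.det ≠ 0 := hG.ne_zero
    simpa using h2
  have hz := Matrix.eq_zero_of_mulVec_eq_zero hGR (v := (Fin.cons (-c) u : Fin (n + 1) → ℝ)) (by
    funext l
    have h1 := congrFun hw l
    rw [Pi.add_apply, Pi.smul_apply, smul_eq_mul, Pi.zero_apply] at h1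
    rw [Matrix.mulVec, dotProduct, Fin.sum_univ_succ, Fin.cons_zero, Pi.zero_apply, ← h1]
    simp only [Fin.cons_succ, Matrix.map_apply, hG0, Int.coe_castRingHom]
    unfold hqW rv
    ring)
  funext s
  have h1 := congrFun hz s.succ
  rw [Fin.cons_succ] at h1
  exact h1

end Pool.Agent.Lib.H42V
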