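import Pool.Agent.Lib.H42V.K1A
import Pool.Agent.Lib.H70X.MK3

/-!
# Chunk K1 (M)
The general form.

Proof. If all minors of `v` vanish then `Dn v = 0`: take `t = 0`. Otherwise let `S0` be such that `μ = |det (v s (S0 t))|` is maximal, `μ > 0`, and `A` the matrix `(v s (S0 t))_{s,t}`, `u = A⁻¹ v`, i.e. `v s m = ∑_t A s t * u t m`.
Then `u s (S0 t) = δ_{st}` and `|u t m| ≤ 1` (Cramer: `H70X.MK3_cramer` gives `c` with `|c t| ≤ 1` and `v s m = ∑_t v s (S0 t) * c t`, and `c t = u t m` as `A` is invertible). `wr θ v = det A * wr θ u`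
(the rows of the matrix of `wr θ v` are the combinations of those of `u`: `tc` is linear in `v`). `Dn v ≤ (n+1)^j μ ≤ (n+1)^(n+1) μ`. So with the `t` given by `wr_compact` (constant `c0`) for `u`:
`|wr (2+t^2) v| = μ |wr (2+t^2) u| ≥ c0 μ ≥ c0 Dn v / (n+1)^(n+1)`.
-/

open Polynomial MeasureTheory Set Filter

namespace Pool.Agent.Lib.H42V

private lemma k1_wr {n j : ℕ} (θ : ℝ) (v u : Fin j → Fin (n + 1) → ℝ)
    (A : Matrix (Fin j) (Fin j) ℝ) (h : ∀ s m, v s m = ∑ t, A s t * u t m) :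
    wr θ v = A.det * wr θ u := by
  unfold wr
  rw [← Matrix.det_mul]
  congr 1
  ext s t
  rw [Matrix.mul_apply]
  simp only [Matrix.of_apply]
  unfold tc
  simp only [h, Finset.mul_sum]
  rw [Finset.sum_comm]
  refine Finset.sum_congr rfl fun a _ => Finset.sum_congr rfl fun b _ => ?_
  ring

private lemma k1_Dn {n j : ℕ} (hj : j ≤ n + 1) (v : Fin j → Fin (n + 1) → ℝ) (μ : ℝ) (hμ : 0 ≤ μ)
    (h : ∀ S : Fin j → Fin (n + 1), |Matrix.det (Matrix.of fun s t : Fin j => v s (S t))| ≤ μ) :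
    Dn v ≤ ((n : ℝ) + 1) ^ (n + 1) * μ := by
  unfold Dn
  refine (Finset.sum_le_card_nsmul _ _ μ fun S _ => h S).trans ?_
  rw [Finset.card_univ, Fintype.card_fun, Fintype.card_fin, Fintype.card_fin, nsmul_eq_mul]
  push_cast
  refine mul_le_mul_of_nonneg_right ?_ hμ
  exact pow_le_pow_right₀ (by linarith [Nat.cast_nonneg (α := ℝ) n]) hj

theorem wr_large (n : ℕ) : ∃ c : ℝ, 0 < c ∧ ∀ j : ℕ, j ≤ n + 1 → ∀ v : Fin j → Fin (n + 1) → ℝ,
    ∃ t ∈ Icc (0 : ℝ) 1, c * Dn v ≤ |wr (2 + t ^ 2) v| := by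
  obtain ⟨c0, hc0, hw⟩ := wr_compact n
  have hN : (0 : ℝ) < ((n : ℝ) + 1) ^ (n + 1) := by positivity
  refine ⟨c0 / ((n : ℝ) + 1) ^ (n + 1), div_pos hc0 hN, fun j hj v => ?_⟩
  by_cases hall : ∀ S : Fin j → Fin (n + 1),
      Matrix.det (Matrix.of fun s t : Fin j => v s (S t)) = 0
  · refine ⟨0, ⟨le_rfl, zero_le_one⟩, ?_⟩
    have h0 : Dn v = 0 := by
      unfold Dn
      exact Finset.sum_eq_zero fun S _ => by rw [hall S, abs_zero]
    rw [h0, mul_zero]
    exact abs_nonneg _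
  · push Not at hall
    obtain ⟨S1, hS1⟩ := hall
    have : Nonempty (Fin j → Fin (n + 1)) := ⟨S1⟩
    obtain ⟨S0, hmax⟩ := Finite.exists_max
      (fun S : Fin j → Fin (n + 1) => |Matrix.det (Matrix.of fun s t : Fin j => v s (S t))|)
    have h0 : Matrix.det (Matrix.of fun s t : Fin j => v s (S0 t)) ≠ 0 := by
      intro h
      have h1 := hmax S1
      simp only [h, abs_zero] at h1
      exact hS1 (abs_eq_zero.mp (le_antisymm h1 (abs_nonneg _)))
    choose c hc1 hc2 using H70X.MK3_cramer v S0 h0 hmax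
    set A : Matrix (Fin j) (Fin j) ℝ := Matrix.of fun s t : Fin j => v s (S0 t) with hA
    have hinj : Function.Injective A.mulVec :=
      Matrix.mulVec_injective_iff_isUnit.2 ((Matrix.isUnit_iff_isUnit_det A).2 (isUnit_iff_ne_zero.2 h0))
    have hδ : ∀ s t, c (S0 t) s = if s = t then 1 else 0 := by
      intro s t
      have h1 : A.mulVec (c (S0 t)) = A.mulVec (Pi.single t 1) := by
        rw [Matrix.mulVec_single_one]
        funext r
        exact (hc2 (S0 t) r).symm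
      have h2 := congrFun (hinj h1) s
      rw [h2, Pi.single_apply]
    obtain ⟨t, ht, hle⟩ := hw j hj S0 (fun s m => c m s) hδ (fun s m => hc1 m s)
    refine ⟨t, ht, ?_⟩
    rw [k1_wr (2 + t ^ 2) v (fun s m => c m s) A (fun s m => hc2 m s), abs_mul]
    have hD := k1_Dn hj v |A.det| (abs_nonneg _) hmax
    have hdet : 0 < |A.det| := abs_pos.2 h0
    calc c0 / ((n : ℝ) + 1) ^ (n + 1) * Dn v
        ≤ c0 / ((n : ℝ) + 1) ^ (n + 1) * (((n : ℝ) + 1) ^ (n + 1) * |A.det|) :=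
          mul_le_mul_of_nonneg_left hD (div_pos hc0 hN).le
      _ = |A.det| * c0 := by field_simp
      _ ≤ |A.det| * |wr (2 + t ^ 2) fun s m => c m s| := mul_le_mul_of_nonneg_left hle hdet.le

end Pool.Agent.Lib.H42V
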