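import Pool.Agent.Lib.H42V.W3

/-!
# Chunk K1A (M)
Compactness.

Proof. Fix `j ≤ n + 1` and `S0 : Fin j → Fin (n+1)` (finitely many). The set `K` of the `u : Fin j → Fin (n+1) → ℝ` with `u s (S0 t) = if s = t then 1 else 0` and `|u s m| ≤ 1` is compact
(closed and bounded in a finite dimensional space). If it is empty there is nothing to prove. Every `u ∈ K` is linearly independent (the coordinates `S0 t`). The function
`Φ u = ∑_{i ≤ D} |wr (2 + (i/(D+1))^2) u|`, `D = 2 (n+1)^2`, is continuous and positive on `K` (`wr_ne`), so `Φ ≥ c0 > 0` on `K`, and one of its `D + 1` terms is `≥ c0/(D+1)`; the point `t = i/(D+1) ∈ [0,1]`.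
Take the minimum over the finitely many pairs `(j, S0)`.
-/

open Polynomial MeasureTheory Set Filter

namespace Pool.Agent.Lib.H42V

private lemma k1a_cont {n j : ℕ} (θ : ℝ) :
    Continuous fun u : Fin j → Fin (n + 1) → ℝ => wr θ u := by
  unfold wr
  apply Continuous.matrix_det
  apply continuous_matrix
  intro s t
  simp only [Matrix.of_apply]
  unfold tc
  fun_prop

private lemma k1a_indep {n j : ℕ} (S0 : Fin j → Fin (n + 1)) (u : Fin j → Fin (n + 1) → ℝ)
    (hu : ∀ s t, u s (S0 t) = if s = t then 1 else 0) : LinearIndependent ℝ u := by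
  rw [Fintype.linearIndependent_iff]
  intro g hg i
  have h := congrFun hg (S0 i)
  simp only [Finset.sum_apply, Pi.smul_apply, smul_eq_mul, hu, mul_ite, mul_one, mul_zero,
    Finset.sum_ite_eq', Finset.mem_univ, if_true, Pi.zero_apply] at h
  exact h

private lemma k1a_one (n j : ℕ) (S0 : Fin j → Fin (n + 1)) : ∃ c : ℝ, 0 < c ∧
    ∀ u : Fin j → Fin (n + 1) → ℝ, (∀ s t, u s (S0 t) = if s = t then 1 else 0) →
      (∀ s m, |u s m| ≤ 1) → ∃ t ∈ Icc (0 : ℝ) 1, c ≤ |wr (2 + t ^ 2) u| := by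
  set D : ℕ := 2 * (n + 1) ^ 2 with hD
  set Φ : (Fin j → Fin (n + 1) → ℝ) → ℝ := fun u =>
    ∑ i ∈ Finset.range (D + 1), |wr (2 + ((i : ℝ) / ((D : ℝ) + 1)) ^ 2) u| with hΦ
  have hΦc : Continuous Φ := by
    rw [hΦ]
    exact continuous_finsetSum _ fun i _ => (k1a_cont _).abs
  set K : Set (Fin j → Fin (n + 1) → ℝ) :=
    {u | (∀ s t, u s (S0 t) = if s = t then 1 else 0) ∧ ∀ s m, |u s m| ≤ 1} with hK
  have hKc : IsCompact K := by
    refine (isCompact_univ_pi fun _ : Fin j => isCompact_univ_pi fun _ : Fin (n + 1) =>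
      isCompact_Icc (a := (-1 : ℝ)) (b := 1)).of_isClosed_subset ?_ ?_
    · have h1 : K = (⋂ s : Fin j, ⋂ t : Fin j, {u | u s (S0 t) = if s = t then 1 else 0}) ∩
          ⋂ s : Fin j, ⋂ m : Fin (n + 1), {u | |u s m| ≤ 1} := by
        ext u
        simp [hK]
      rw [h1]
      refine IsClosed.inter ?_ ?_
      · exact isClosed_iInter fun s => isClosed_iInter fun t =>
          isClosed_eq (by fun_prop) continuous_const
      · exact isClosed_iInter fun s => isClosed_iInter fun m =>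
          isClosed_le (by fun_prop) continuous_const
    · intro u hu
      simp only [Set.mem_pi, Set.mem_univ, true_imp_iff]
      intro s m
      exact abs_le.1 (hu.2 s m)
  rcases K.eq_empty_or_nonempty with hE | hne
  · refine ⟨1, one_pos, fun u h1 h2 => ?_⟩
    have : u ∈ K := ⟨h1, h2⟩
    rw [hE] at this
    exact this.elim
  · obtain ⟨u0, hu0, hmin⟩ := hKc.exists_isMinOn hne hΦc.continuousOn
    have hD1 : (0 : ℝ) < (D : ℝ) + 1 := by positivity
    have hpos : 0 < Φ u0 := by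
      obtain ⟨i, hi, hne0⟩ := wr_ne u0 (k1a_indep S0 u0 hu0.1)
      have h1 : |wr (2 + ((i : ℝ) / ((D : ℝ) + 1)) ^ 2) u0| ≤ Φ u0 :=
        Finset.single_le_sum (f := fun i : ℕ => |wr (2 + ((i : ℝ) / ((D : ℝ) + 1)) ^ 2) u0|)
          (fun _ _ => abs_nonneg _) (Finset.mem_range.2 (by omega))
      refine lt_of_lt_of_le (abs_pos.2 ?_) h1
      have h2 : ((D : ℝ) + 1) = 2 * ((n : ℝ) + 1) ^ 2 + 1 := by
        rw [hD]
        push_cast
        ring
      rw [h2]
      exact hne0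
    refine ⟨Φ u0 / ((D : ℝ) + 1), div_pos hpos hD1, fun u h1 h2 => ?_⟩
    have hle : Φ u0 ≤ Φ u := hmin (show u ∈ K from ⟨h1, h2⟩)
    by_contra hcon
    push Not at hcon
    have hlt : Φ u < Φ u0 := by
      calc Φ u < ∑ _i ∈ Finset.range (D + 1), Φ u0 / ((D : ℝ) + 1) := by
            refine Finset.sum_lt_sum_of_nonempty ⟨0, Finset.mem_range.2 (Nat.succ_pos _)⟩ ?_
            intro i hi
            refine hcon _ ⟨by positivity, ?_⟩
            rw [div_le_one hD1]
            have : (i : ℝ) < ((D + 1 : ℕ) : ℝ) := by exact_mod_cast Finset.mem_range.1 hi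
            push_cast at this
            exact this.le
        _ = Φ u0 := by
            rw [Finset.sum_const, Finset.card_range, nsmul_eq_mul]
            push_cast
            field_simp
    exact absurd hle (not_le.2 hlt)

theorem wr_compact (n : ℕ) : ∃ c : ℝ, 0 < c ∧ ∀ j : ℕ, j ≤ n + 1 → ∀ (S0 : Fin j → Fin (n + 1))
    (u : Fin j → Fin (n + 1) → ℝ), (∀ s t, u s (S0 t) = if s = t then 1 else 0) → (∀ s m, |u s m| ≤ 1) →
      ∃ t ∈ Icc (0 : ℝ) 1, c ≤ |wr (2 + t ^ 2) u| := by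
  choose cc hcc0 hcc using k1a_one n
  obtain ⟨p0, hp0⟩ := Finite.exists_min
    (fun p : (Σ j : Fin (n + 2), (Fin j → Fin (n + 1))) => cc p.1 p.2)
  refine ⟨cc p0.1 p0.2, hcc0 _ _, fun j hj S0 u h1 h2 => ?_⟩
  obtain ⟨t, ht, h⟩ := hcc j S0 u h1 h2
  exact ⟨t, ht, (hp0 ⟨⟨j, by omega⟩, S0⟩).trans h⟩

end Pool.Agent.Lib.H42V
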