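import Pool.Agent.Lib.H42V.Defs

/-!
# Chunk TC (M)
Taylor coefficients. Similar to `H70X.B0` (there for the dual coordinates).

Proofs. `tc_val`: `choose l 0 = 1`. `tc_zero`: only `l = i` contributes. `tc_top`: only `l = n`. `tc_shift`: exchange the sums and
`choose m l * choose l i = choose m i * choose (m-i) (l-i)` (`Nat.choose_mul`) with the binomial theorem for `(x+t)^(m-i)`.
`tc_inv`: `tc_shift` for `x + (-x) = 0` and `tc_zero`. `tc_add`, `tc_smul`, `tc_sum`: linearity. `tc_le`: `choose l i ≤ 2^n`, `|x|^(l-i) ≤ 3^n`.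
`le_tc`: `tc_inv`. `tc_lip`: `|x^l - y^l| ≤ n |x - y|` for `|x|, |y| ≤ 1`, `l ≤ n`.
-/

open Polynomial MeasureTheory Set Filter

namespace Pool.Agent.Lib.H42V

theorem tc_binom (x t : ℝ) (i m n : ℕ) (hm : m ≤ n) :
    ∑ l ∈ Finset.range (n + 1), (l.choose i : ℝ) * t ^ (l - i) * ((m.choose l : ℝ) * x ^ (m - l)) =
      (m.choose i : ℝ) * (x + t) ^ (m - i) := by
  rcases le_or_gt i m with him | him
  · obtain ⟨k, rfl⟩ := Nat.exists_eq_add_of_le him
    have h1 : ∑ l ∈ Finset.range (n + 1), (l.choose i : ℝ) * t ^ (l - i) *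
        (((i + k).choose l : ℝ) * x ^ (i + k - l)) =
        ∑ l ∈ Finset.Ico i (i + k + 1), (l.choose i : ℝ) * t ^ (l - i) *
        (((i + k).choose l : ℝ) * x ^ (i + k - l)) := by
      symm
      refine Finset.sum_subset (fun l hl => ?_) fun l _ hl => ?_
      · rw [Finset.mem_Ico] at hl
        rw [Finset.mem_range]
        omega
      · rw [Finset.mem_Ico] at hl
        rcases lt_or_ge l i with h2 | h2
        · rw [Nat.choose_eq_zero_of_lt h2]
          simp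
        · rw [Nat.choose_eq_zero_of_lt (show i + k < l by omega)]
          simp
    rw [h1, Finset.sum_Ico_eq_sum_range]
    have h2 : i + k + 1 - i = k + 1 := by omega
    have h3 : i + k - i = k := by omega
    rw [h2, h3, add_comm x t, add_pow, Finset.mul_sum]
    refine Finset.sum_congr rfl fun j hj => ?_
    rw [Finset.mem_range] at hj
    have h4 := Nat.choose_mul (n := i + k) (k := i + j) (s := i) (by omega)
    have h5 : i + j - i = j := by omega
    have h6 : i + k - (i + j) = k - j := by omega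
    rw [h3, h5] at h4
    have h7 : ((i + k).choose (i + j) : ℝ) * ((i + j).choose i : ℝ) =
        ((i + k).choose i : ℝ) * (k.choose j : ℝ) := by exact_mod_cast h4
    rw [h5, h6]
    linear_combination (t ^ j * x ^ (k - j)) * h7
  · rw [Nat.choose_eq_zero_of_lt him, Nat.cast_zero, zero_mul]
    refine Finset.sum_eq_zero fun l _ => ?_
    rcases lt_or_ge l i with h2 | h2
    · rw [Nat.choose_eq_zero_of_lt h2]
      simp
    · rw [Nat.choose_eq_zero_of_lt (show m < l by omega)]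
      simp

theorem tc_val {n : ℕ} (x : ℝ) (v : Fin (n + 1) → ℝ) : tc x v 0 = ∑ l : Fin (n + 1), x ^ (l : ℕ) * v l := by
  simp [tc]

theorem tc_zero {n : ℕ} (v : Fin (n + 1) → ℝ) (i : Fin (n + 1)) : tc 0 v (i : ℕ) = v i := by
  rw [tc, Finset.sum_eq_single i]
  · simp
  · intro l _ hl
    have hl' : (l : ℕ) ≠ (i : ℕ) := fun h => hl (Fin.ext h)
    rcases lt_or_gt_of_ne hl' with h2 | h2
    · rw [Nat.choose_eq_zero_of_lt h2]
      simp
    · rw [zero_pow (by omega)]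
      simp
  · intro h
    exact absurd (Finset.mem_univ _) h

theorem tc_top {n : ℕ} (x : ℝ) (v : Fin (n + 1) → ℝ) : tc x v n = v (Fin.last n) := by
  rw [tc, Finset.sum_eq_single (Fin.last n)]
  · simp
  · intro l _ hl
    have hl' : (l : ℕ) < n := by
      have h1 := l.2
      have h2 : (l : ℕ) ≠ n := fun h => hl (Fin.ext (by simpa using h))
      omega
    rw [Nat.choose_eq_zero_of_lt hl']
    simp
  · intro h
    exact absurd (Finset.mem_univ _) h

theorem tc_shift {n : ℕ} (x t : ℝ) (v : Fin (n + 1) → ℝ) (i : ℕ) :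
    tc (x + t) v i = ∑ l : Fin (n + 1), ((l : ℕ).choose i : ℝ) * t ^ ((l : ℕ) - i) * tc x v (l : ℕ) := by
  unfold tc
  simp only [Finset.mul_sum]
  rw [Finset.sum_comm]
  refine Finset.sum_congr rfl fun m _ => ?_
  rw [← tc_binom x t i (m : ℕ) n (Nat.le_of_lt_succ m.2), Finset.sum_mul,
    ← Fin.sum_univ_eq_sum_range (fun l => (l.choose i : ℝ) * t ^ (l - i) *
      (((m : ℕ).choose l : ℝ) * x ^ ((m : ℕ) - l)) * v m) (n + 1)]
  refine Finset.sum_congr rfl fun l _ => ?_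
  ring

theorem tc_inv {n : ℕ} (x : ℝ) (v : Fin (n + 1) → ℝ) (m : Fin (n + 1)) :
    v m = ∑ l : Fin (n + 1), ((l : ℕ).choose (m : ℕ) : ℝ) * (-x) ^ ((l : ℕ) - (m : ℕ)) * tc x v (l : ℕ) := by
  rw [← tc_shift x (-x) v (m : ℕ), add_neg_cancel, tc_zero]

theorem tc_add {n : ℕ} (x : ℝ) (v w : Fin (n + 1) → ℝ) (i : ℕ) : tc x (v + w) i = tc x v i + tc x w i := by
  unfold tc
  rw [← Finset.sum_add_distrib]
  refine Finset.sum_congr rfl fun l _ => ?_
  rw [Pi.add_apply]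
  ring

theorem tc_smul {n : ℕ} (x c : ℝ) (v : Fin (n + 1) → ℝ) (i : ℕ) : tc x (c • v) i = c * tc x v i := by
  unfold tc
  rw [Finset.mul_sum]
  refine Finset.sum_congr rfl fun l _ => ?_
  rw [Pi.smul_apply, smul_eq_mul]
  ring

theorem tc_sum {n j : ℕ} (x : ℝ) (c : Fin j → ℝ) (v : Fin j → Fin (n + 1) → ℝ) (i : ℕ) :
    tc x (∑ s, c s • v s) i = ∑ s, c s * tc x (v s) i := by
  unfold tc
  simp only [Finset.mul_sum]
  rw [Finset.sum_comm]
  refine Finset.sum_congr rfl fun l _ => ?_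
  rw [Finset.sum_apply, Finset.mul_sum]
  refine Finset.sum_congr rfl fun s _ => ?_
  rw [Pi.smul_apply, smul_eq_mul]
  ring

theorem rv_sum {k j : ℕ} (z : Fin j → ℤ) (v : Fin j → Fin k → ℤ) :
    rv (∑ s, z s • v s) = ∑ s, (z s : ℝ) • rv (v s) := by
  funext l
  simp [rv, Finset.sum_apply]

theorem rv_smul {k : ℕ} (m : ℤ) (v : Fin k → ℤ) : rv (m • v) = (m : ℝ) • rv v := by
  funext l
  simp [rv]

theorem rv_sub {k : ℕ} (v w : Fin k → ℤ) : rv (v - w) = rv v - rv w := by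
  funext l
  simp [rv]

theorem tc_bound {n : ℕ} (y B : ℝ) (hy : |y| ≤ 3) (hB : 0 ≤ B) (w : Fin (n + 1) → ℝ) (h : ∀ l, |w l| ≤ B)
    (i : ℕ) : |∑ l : Fin (n + 1), ((l : ℕ).choose i : ℝ) * y ^ ((l : ℕ) - i) * w l| ≤
      (n + 1) * 6 ^ n * B := by
  refine (Finset.abs_sum_le_sum_abs _ _).trans ?_
  have h1 : ∀ l : Fin (n + 1), |((l : ℕ).choose i : ℝ) * y ^ ((l : ℕ) - i) * w l| ≤ 6 ^ n * B := by
    intro l
    have hl : (l : ℕ) ≤ n := Nat.le_of_lt_succ l.2
    rw [abs_mul, abs_mul, abs_pow, Nat.abs_cast]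
    have h2 : ((l : ℕ).choose i : ℝ) ≤ 2 ^ n := by
      have h3 : (l : ℕ).choose i ≤ 2 ^ n :=
        (Nat.choose_le_two_pow _ _).trans (Nat.pow_le_pow_right (by norm_num) hl)
      exact_mod_cast h3
    have h3 : |y| ^ ((l : ℕ) - i) ≤ 3 ^ n :=
      (pow_le_pow_left₀ (abs_nonneg _) hy _).trans
        (pow_le_pow_right₀ (by norm_num) ((Nat.sub_le _ _).trans hl))
    calc ((l : ℕ).choose i : ℝ) * |y| ^ ((l : ℕ) - i) * |w l| ≤ 2 ^ n * 3 ^ n * B := by
          refine mul_le_mul ?_ (h l) (abs_nonneg _) (by positivity)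
          exact mul_le_mul h2 h3 (by positivity) (by positivity)
      _ = 6 ^ n * B := by
          rw [← mul_pow]
          norm_num
  calc ∑ l : Fin (n + 1), |((l : ℕ).choose i : ℝ) * y ^ ((l : ℕ) - i) * w l|
      ≤ ∑ l : Fin (n + 1), 6 ^ n * B := Finset.sum_le_sum fun l _ => h1 l
    _ = (n + 1) * 6 ^ n * B := by
        rw [Finset.sum_const, Finset.card_univ, Fintype.card_fin, nsmul_eq_mul]
        push_cast
        ring

theorem tc_le {n : ℕ} (x B : ℝ) (hx : |x| ≤ 3) (hB : 0 ≤ B) (v : Fin (n + 1) → ℝ) (h : ∀ l, |v l| ≤ B) (i : ℕ) :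
    |tc x v i| ≤ (n + 1) * 6 ^ n * B :=
  tc_bound x B hx hB v h i

theorem le_tc {n : ℕ} (x B : ℝ) (hx : |x| ≤ 3) (hB : 0 ≤ B) (v : Fin (n + 1) → ℝ)
    (h : ∀ l : Fin (n + 1), |tc x v (l : ℕ)| ≤ B) (m : Fin (n + 1)) : |v m| ≤ (n + 1) * 6 ^ n * B := by
  rw [tc_inv x v m]
  exact tc_bound (-x) B (by rwa [abs_neg]) hB (fun l => tc x v (l : ℕ)) h (m : ℕ)

theorem tc_pow_sub (x y : ℝ) (hx : |x| ≤ 1) (hy : |y| ≤ 1) (l : ℕ) :
    |x ^ l - y ^ l| ≤ l * |x - y| := by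
  induction l with
  | zero => simp
  | succ l ih =>
    have h1 : x ^ (l + 1) - y ^ (l + 1) = x * (x ^ l - y ^ l) + (x - y) * y ^ l := by ring
    rw [h1]
    refine (abs_add_le _ _).trans ?_
    rw [abs_mul, abs_mul, abs_pow]
    have h2 : |x| * |x ^ l - y ^ l| ≤ 1 * (l * |x - y|) :=
      mul_le_mul hx ih (abs_nonneg _) zero_le_one
    have h3 : |x - y| * |y| ^ l ≤ |x - y| * 1 :=
      mul_le_mul_of_nonneg_left (pow_le_one₀ (abs_nonneg _) hy) (abs_nonneg _)
    push_cast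
    linarith

theorem tc_lip {n : ℕ} (x y B : ℝ) (hx : |x| ≤ 1) (hy : |y| ≤ 1) (hB : 0 ≤ B) (v : Fin (n + 1) → ℝ)
    (h : ∀ l, |v l| ≤ B) : |tc x v 0 - tc y v 0| ≤ (n + 1) * n * B * |x - y| := by
  rw [tc_val, tc_val, ← Finset.sum_sub_distrib]
  refine (Finset.abs_sum_le_sum_abs _ _).trans ?_
  have h1 : ∀ l : Fin (n + 1), |x ^ (l : ℕ) * v l - y ^ (l : ℕ) * v l| ≤ n * |x - y| * B := by
    intro l
    have hl : ((l : ℕ) : ℝ) ≤ n := by exact_mod_cast Nat.le_of_lt_succ l.2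
    rw [← sub_mul, abs_mul]
    exact mul_le_mul ((tc_pow_sub x y hx hy l).trans
      (mul_le_mul_of_nonneg_right hl (abs_nonneg _))) (h l) (abs_nonneg _) (by positivity)
  calc ∑ l : Fin (n + 1), |x ^ (l : ℕ) * v l - y ^ (l : ℕ) * v l|
      ≤ ∑ l : Fin (n + 1), n * |x - y| * B := Finset.sum_le_sum fun l _ => h1 l
    _ = (n + 1) * n * B * |x - y| := by
        rw [Finset.sum_const, Finset.card_univ, Fintype.card_fin, nsmul_eq_mul]
        push_cast
        ring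

end Pool.Agent.Lib.H42V
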