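import Pool.Agent.Lib.H42V.K1
import Pool.Agent.Lib.H42V.TC

/-!
# Chunk K2 (M)
The form with the value at `a`.

Proof. If `tc a (v s) 0 = 0` for all `s`, then `Tn a v = 0` (first column zero): `t = 0`. Otherwise choose `s0` with `β = tc a (v s0) 0 ≠ 0` and put, for `s : Fin j`, `k s = v (s0.succAbove s) - (tc a (v (s0.succAbove s)) 0 / β) • v s0`,
so `tc a (k s) 0 = 0` (`tc_add`, `tc_smul`). For any functionals `φ_t` (`t : Fin j`) the `(j+1) × (j+1)` determinant with the columns `tc a . 0, φ_0, ..., φ_{j-1}` and the rows `v s` is, up to sign, the one with the rows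
`v s0, k_0, ..., k_{j-1}` (row operations), and the expansion along the first column gives `± β * det (φ_t (k s))`. With `φ_t = tc (-θ) . t`: `|wr2 a θ v| = |β| |wr θ k|`; with `φ_t` = the coordinate `S t`: `Tn a v = |β| Dn k`.
Apply `wr_large` to `k` (`j ≤ n + 1`).
-/

open Polynomial MeasureTheory Set Filter

namespace Pool.Agent.Lib.H42V

private lemma k2_det {j : ℕ} (x : Fin (j + 1) → ℝ) (y : Fin (j + 1) → Fin j → ℝ)
    (s0 : Fin (j + 1)) (h0 : x s0 ≠ 0) :
    |Matrix.det (Matrix.of fun s t : Fin (j + 1) =>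
      (Fin.cons (x s) (fun t : Fin j => y s t) : Fin (j + 1) → ℝ) t)| =
    |x s0| * |Matrix.det (Matrix.of fun s t : Fin j =>
      y (s0.succAbove s) t - x (s0.succAbove s) / x s0 * y s0 t)| := by
  classical
  set M : Matrix (Fin (j + 1)) (Fin (j + 1)) ℝ := Matrix.of fun s t : Fin (j + 1) =>
      (Fin.cons (x s) (fun t : Fin j => y s t) : Fin (j + 1) → ℝ) t with hM
  set c : Fin (j + 1) → ℝ := fun s => if s = s0 then 0 else x s / x s0 with hc
  set B : Matrix (Fin (j + 1)) (Fin (j + 1)) ℝ := Matrix.of fun s t =>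
    M s t - c s * M s0 t with hB
  have hc0 : c s0 = 0 := by simp [hc]
  have h1 : M.det = B.det := by
    refine Matrix.det_eq_of_forall_row_eq_smul_add_const c s0 hc0 ?_
    intro s t
    have h2 : B s0 t = M s0 t := by
      simp [hB, hc0]
    rw [h2]
    simp [hB]
  rw [h1, Matrix.det_succ_column_zero, Finset.sum_eq_single s0]
  · rw [abs_mul, abs_mul, abs_pow, abs_neg, abs_one, one_pow, one_mul]
    congr 1
    · congr 1
      simp [hB, hM, hc0]
    · congr 2
      ext s t
      simp only [Matrix.submatrix_apply, hB, hM, hc, Matrix.of_apply, Fin.cons_succ]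
      rw [if_neg (Fin.succAbove_ne s0 s)]
  · intro s _ hs
    have h2 : B s 0 = 0 := by
      simp only [hB, hM, hc, Matrix.of_apply, Fin.cons_zero]
      rw [if_neg hs]
      field_simp
      ring
    rw [h2]
    ring
  · intro h
    exact absurd (Finset.mem_univ _) h

theorem wr2_large (n : ℕ) : ∃ c : ℝ, 0 < c ∧ ∀ (a : ℝ) (j : ℕ), j ≤ n → ∀ v : Fin (j + 1) → Fin (n + 1) → ℝ,
    ∃ t ∈ Icc (0 : ℝ) 1, c * Tn a v ≤ |wr2 a (2 + t ^ 2) v| := by
  obtain ⟨c, hc, H⟩ := wr_large n
  refine ⟨c, hc, fun a j hj v => ?_⟩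
  by_cases hall : ∀ s, tc a (v s) 0 = 0
  · refine ⟨0, ⟨le_rfl, zero_le_one⟩, ?_⟩
    have h1 : Tn a v = 0 := by
      unfold Tn
      refine Finset.sum_eq_zero fun S _ => ?_
      rw [abs_eq_zero]
      refine Matrix.det_eq_zero_of_column_eq_zero 0 fun s => ?_
      simp [hall s]
    rw [h1, mul_zero]
    exact abs_nonneg _
  · push Not at hall
    obtain ⟨s0, hs0⟩ := hall
    set k : Fin j → Fin (n + 1) → ℝ := fun s =>
      v (s0.succAbove s) - (tc a (v (s0.succAbove s)) 0 / tc a (v s0) 0) • v s0 with hk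
    obtain ⟨t, ht, h⟩ := H j (by omega) k
    refine ⟨t, ht, ?_⟩
    have hT : Tn a v = |tc a (v s0) 0| * Dn k := by
      unfold Tn Dn
      rw [Finset.mul_sum]
      refine Finset.sum_congr rfl fun S _ => ?_
      rw [k2_det (fun s => tc a (v s) 0) (fun s t => v s (S t)) s0 hs0]
      congr 2
    have hW : |wr2 a (2 + t ^ 2) v| = |tc a (v s0) 0| * |wr (2 + t ^ 2) k| := by
      unfold wr2 wr
      rw [k2_det (fun s => tc a (v s) 0) (fun s i => tc (-(2 + t ^ 2)) (v s) (i : ℕ)) s0 hs0]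
      congr 3
      ext s i
      simp only [Matrix.of_apply, hk]
      rw [sub_eq_add_neg (v (s0.succAbove s)), ← neg_smul, tc_add, tc_smul]
      ring
    rw [hT, hW]
    calc c * (|tc a (v s0) 0| * Dn k) = |tc a (v s0) 0| * (c * Dn k) := by ring
      _ ≤ _ := mul_le_mul_of_nonneg_left h (abs_nonneg _)

end Pool.Agent.Lib.H42V
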