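import Pool.Agent.Lib.H42V.GM2

/-!
# Chunk L0 (M/L)
Liouville's inequality for `a0 = 2^(1/n)`.

Proof. Let `v` be not a multiple of `F0 = T^n - 2`, `P = ∑ v_l T^l`, `|v_l| ≤ X`, `X ≥ 1`. Let `K = ℚ(a0)`, of degree `n` over `ℚ` as `T^n - 2` is irreducible (Eisenstein at 2);
`x = P(a0) ∈ K` is integral, and not zero as otherwise `T^n - 2` divides `P`, and as `deg P ≤ n` and it is monic, `v` is an integer multiple of `F0`. So the norm of `x`
is a nonzero integer, and it is the product of the `n` conjugates `P(σ a0)`, of absolute value at most `2 (n + 1) X` (as `(σ a0)^n = 2`), one of which is `P(a0)`.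
So `1 ≤ |P(a0)| (2 (n+1) X)^(n-1)`.
-/

open Polynomial MeasureTheory Set Filter

namespace Pool.Agent.Lib.H42V

private lemma l0_irrZ (n : ℕ) (hn : 1 ≤ n) : Irreducible (X ^ n - C 2 : ℤ[X]) := by
  have hm : (X ^ n - C 2 : ℤ[X]).Monic := monic_X_pow_sub_C _ (by omega)
  have hd : degree (X ^ n - C 2 : ℤ[X]) = n := degree_X_pow_sub_C (by omega) _
  refine irreducible_of_eisenstein_criterion (P := Ideal.span {(2 : ℤ)}) ?_ ?_ ?_ ?_ ?_
    hm.isPrimitive
  · rw [Ideal.span_singleton_prime (by norm_num)]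
    exact Int.prime_two
  · rw [hm.leadingCoeff, Ideal.mem_span_singleton]
    norm_num
  · intro k hk
    rw [hd] at hk
    have hk' : k < n := by exact_mod_cast hk
    rw [Ideal.mem_span_singleton, coeff_sub, coeff_X_pow, if_neg (by omega), coeff_C]
    split_ifs <;> norm_num
  · rw [hd]
    exact_mod_cast hn
  · rw [coeff_sub, coeff_X_pow, if_neg (by omega), coeff_C_zero, Ideal.span_singleton_pow,
      Ideal.mem_span_singleton]
    norm_num

private lemma l0_irrQ (n : ℕ) (hn : 1 ≤ n) : Irreducible (X ^ n - C 2 : ℚ[X]) := by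
  have hm : (X ^ n - C 2 : ℤ[X]).Monic := monic_X_pow_sub_C _ (by omega)
  have h := (hm.irreducible_iff_irreducible_map_fraction_map (K := ℚ)).1 (l0_irrZ n hn)
  have h2 : (X ^ n - C 2 : ℤ[X]).map (algebraMap ℤ ℚ) = (X ^ n - C 2 : ℚ[X]) := by
    rw [Polynomial.map_sub, Polynomial.map_pow, map_X, map_C]
    norm_num
  rwa [h2] at h

private lemma l0_min (n : ℕ) (hn : 1 ≤ n) : minpoly ℚ (a0 n) = X ^ n - C 2 := by
  refine (minpoly.eq_of_irreducible_of_monic (l0_irrQ n hn) ?_ (monic_X_pow_sub_C _ (by omega))).symm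
  simp [(a0_props n hn).1]

private lemma l0_mul (n : ℕ) (hn : 1 ≤ n) (v : Fin (n + 1) → ℤ)
    (h : tc (a0 n) (rv v) 0 = 0) : Mul v (F0 n) := by
  set P : ℚ[X] := ∑ l : Fin (n + 1), C (v l : ℚ) * X ^ (l : ℕ) with hP
  have hev : aeval (a0 n) P = 0 := by
    rw [← h, tc_val, hP, map_sum]
    refine Finset.sum_congr rfl fun l _ => ?_
    simp [rv, mul_comm]
  have hcoef : ∀ l : Fin (n + 1), P.coeff (l : ℕ) = v l := by
    intro l
    rw [hP, finsetSum_coeff, Finset.sum_eq_single l]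
    · simp
    · intro m _ hm
      rw [coeff_C_mul, coeff_X_pow, if_neg, mul_zero]
      intro hh
      exact hm (Fin.ext hh.symm)
    · intro hh
      exact absurd (Finset.mem_univ _) hh
  have hdeg : P.natDegree ≤ n := by
    rw [hP]
    refine natDegree_sum_le_of_forall_le _ _ fun l _ => ?_
    refine (natDegree_C_mul_X_pow_le _ _).trans ?_
    omega
  obtain ⟨Q, hQ⟩ := minpoly.dvd ℚ (a0 n) hev
  rw [l0_min n hn] at hQ
  have hm : (X ^ n - C 2 : ℚ[X]).Monic := monic_X_pow_sub_C _ (by omega)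
  have hQC : ∃ c : ℚ, Q = C c := by
    by_cases hQ0 : Q = 0
    · exact ⟨0, by rw [hQ0, C_0]⟩
    · have h1 : P.natDegree = n + Q.natDegree := by
        rw [hQ, hm.natDegree_mul' hQ0, natDegree_X_pow_sub_C]
      exact ⟨Q.coeff 0, eq_C_of_natDegree_eq_zero (by omega)⟩
  obtain ⟨c, hc⟩ := hQC
  have hv : ∀ l : Fin (n + 1), (v l : ℚ) = ((if (l : ℕ) = n then 1 else 0) -
      (if (l : ℕ) = 0 then 2 else 0)) * c := by
    intro l
    rw [← hcoef l, hQ, hc, coeff_mul_C, coeff_sub, coeff_X_pow, coeff_C]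
  have hlast : (v (Fin.last n) : ℚ) = c := by
    have := hv (Fin.last n)
    rw [Fin.val_last, if_pos rfl, if_neg (by omega)] at this
    rw [this]
    ring
  refine ⟨v (Fin.last n), ?_⟩
  ext l
  rw [Pi.smul_apply, smul_eq_mul]
  have h3 : (v l : ℚ) = ((v (Fin.last n) * F0 n l : ℤ) : ℚ) := by
    rw [hv l, ← hlast]
    unfold F0
    push_cast
    by_cases h1 : (l : ℕ) = n
    · rw [if_pos h1, if_neg (by omega), if_pos h1]
      ring
    · rw [if_neg h1, if_neg h1]
      by_cases h2 : (l : ℕ) = 0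
      · rw [if_pos h2, if_pos h2]
        ring
      · rw [if_neg h2, if_neg h2]
        ring
  exact_mod_cast h3

theorem liou (n : ℕ) (hn : 1 ≤ n) : ∃ c : ℝ, 0 < c ∧ ∀ v : Fin (n + 1) → ℤ, ¬ Mul v (F0 n) → ∀ X : ℝ, 1 ≤ X →
    (∀ l, |(v l : ℝ)| ≤ X) → c ≤ |tc (a0 n) (rv v) 0| * X ^ (n - 1) := by
  classical
  have hn1 : (0 : ℝ) < (n : ℝ) + 1 := by positivity
  refine ⟨1 / (2 * ((n : ℝ) + 1)) ^ (n - 1), by positivity, fun v hv B hB hvB => ?_⟩
  have hint : IsIntegral ℚ (a0 n) := by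
    refine ⟨X ^ n - C 2, monic_X_pow_sub_C _ (by omega), ?_⟩
    simp [(a0_props n hn).1]
  have hfd : FiniteDimensional ℚ (IntermediateField.adjoin ℚ {a0 n}) :=
    IntermediateField.adjoin.finiteDimensional hint
  have hfin : Module.finrank ℚ (IntermediateField.adjoin ℚ {a0 n}) = n := by
    rw [IntermediateField.adjoin.finrank hint, l0_min n hn, natDegree_X_pow_sub_C]
  set K := IntermediateField.adjoin ℚ {a0 n} with hK
  set g : K := IntermediateField.AdjoinSimple.gen ℚ (a0 n) with hg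
  have hgc : (g : ℝ) = a0 n := IntermediateField.AdjoinSimple.coe_gen ℚ (a0 n)
  have hgn : g ^ n = 2 := by
    apply Subtype.ext
    push_cast
    rw [hgc]
    exact (a0_props n hn).1
  have hgi : IsIntegral ℤ g := by
    refine ⟨X ^ n - C 2, monic_X_pow_sub_C _ (by omega), ?_⟩
    simp [hgn]
  set x : K := ∑ l : Fin (n + 1), ((v l : ℤ) : K) * g ^ (l : ℕ) with hx
  have hxc : (x : ℝ) = tc (a0 n) (rv v) 0 := by
    rw [tc_val, hx]
    push_cast
    refine Finset.sum_congr rfl fun l _ => ?_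
    rw [hgc]
    simp [rv, mul_comm]
  have hx0 : x ≠ 0 := by
    intro h0
    apply hv
    apply l0_mul n hn
    rw [← hxc, h0]
    rfl
  have hxi : IsIntegral ℤ x := by
    rw [hx]
    refine IsIntegral.sum _ fun l _ => ?_
    refine IsIntegral.mul ?_ (hgi.pow _)
    exact isIntegral_algebraMap (R := ℤ) (x := v l)
  have hNi : IsIntegral ℤ (Algebra.norm ℚ x) := Algebra.isIntegral_norm ℚ hxi
  obtain ⟨z, hz⟩ := IsIntegrallyClosed.isIntegral_iff.1 hNi
  have hN0 : Algebra.norm ℚ x ≠ 0 := (Algebra.norm_ne_zero_iff (R := ℚ)).2 hx0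
  have hz0 : z ≠ 0 := by
    intro h
    apply hN0
    rw [← hz, h, map_zero]
  have hprod := Algebra.norm_eq_prod_embeddings ℚ ℂ x
  rw [← hz] at hprod
  have habs : (1 : ℝ) ≤ ∏ σ : K →ₐ[ℚ] ℂ, ‖σ x‖ := by
    rw [← norm_prod, ← hprod]
    have h1 : (algebraMap ℚ ℂ) ((algebraMap ℤ ℚ) z) = (z : ℂ) := by simp
    rw [h1, Complex.norm_intCast]
    have : (1 : ℤ) ≤ |z| := Int.one_le_abs hz0
    exact_mod_cast this
  -- the identity embedding
  set σ0 : K →ₐ[ℚ] ℂ := (IsScalarTower.toAlgHom ℚ ℝ ℂ).comp K.val with hσ0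
  have hσ0x : ‖σ0 x‖ = |tc (a0 n) (rv v) 0| := by
    have : σ0 x = ((x : ℝ) : ℂ) := rfl
    rw [this, hxc, Complex.norm_real, Real.norm_eq_abs]
  have hbd : ∀ σ : K →ₐ[ℚ] ℂ, ‖σ x‖ ≤ 2 * ((n : ℝ) + 1) * B := by
    intro σ
    have h1 : σ g ^ n = 2 := by
      rw [← map_pow, hgn]
      exact map_ofNat σ 2
    have h2 : ‖σ g‖ ^ n = 2 := by
      rw [← norm_pow, h1]
      simp
    have h3 : 1 ≤ ‖σ g‖ := by
      by_contra hlt
      push Not at hlt
      have := pow_le_one₀ (n := n) (norm_nonneg (σ g)) hlt.le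
      rw [h2] at this
      norm_num at this
    rw [hx, map_sum]
    refine (norm_sum_le _ _).trans ?_
    have h4 : ∀ l ∈ (Finset.univ : Finset (Fin (n + 1))),
        ‖σ (((v l : ℤ) : K) * g ^ (l : ℕ))‖ ≤ 2 * B := by
      intro l _
      rw [map_mul, map_intCast, map_pow, norm_mul, norm_pow, Complex.norm_intCast]
      have h5 : ‖σ g‖ ^ (l : ℕ) ≤ 2 := by
        rw [← h2]
        exact pow_le_pow_right₀ h3 (by omega)
      calc |(v l : ℝ)| * ‖σ g‖ ^ (l : ℕ) ≤ B * 2 :=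
            mul_le_mul (hvB l) h5 (by positivity) (by linarith)
        _ = 2 * B := by ring
    refine (Finset.sum_le_sum h4).trans ?_
    rw [Finset.sum_const, Finset.card_univ, Fintype.card_fin, nsmul_eq_mul]
    push_cast
    linarith
  have hcard : Fintype.card (K →ₐ[ℚ] ℂ) = n := by
    rw [AlgHom.card ℚ K ℂ, hfin]
  rw [← Finset.mul_prod_erase Finset.univ _ (Finset.mem_univ σ0), hσ0x] at habs
  have hrest : ∏ σ ∈ Finset.univ.erase σ0, ‖σ x‖ ≤ (2 * ((n : ℝ) + 1) * B) ^ (n - 1) := by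
    refine (Finset.prod_le_prod (fun σ _ => norm_nonneg _) (fun σ _ => hbd σ)).trans ?_
    rw [Finset.prod_const, Finset.card_erase_of_mem (Finset.mem_univ _), Finset.card_univ, hcard]
  have h6 : (1 : ℝ) ≤ |tc (a0 n) (rv v) 0| * (2 * ((n : ℝ) + 1) * B) ^ (n - 1) :=
    habs.trans (mul_le_mul_of_nonneg_left hrest (abs_nonneg _))
  rw [mul_pow] at h6
  rw [div_le_iff₀ (by positivity)]
  linarith

end Pool.Agent.Lib.H42V
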