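import Pool.Agent.Lib.H42V.TC
import Pool.Agent.Lib.H70X.J4

/-!
# Chunk LAP (M)
Minors of a longer tuple (Laplace expansion along the first row). Compare `H70X.mns_cons`.

Proof. `Matrix.det_succ_row_zero`: for `S : Fin (j+1) → Fin (n+1)` the minor of `(f, v)` is `∑_t ± f (S t) * (minor of v with columns S ∘ succAbove t)`; for every `t` the map `S ↦ (S t, S ∘ succAbove t)` is a bijection (`Fin.insertNthEquiv`), so
the sum over `S` is `≤ ∑_t (n+1) 2 Dn v`. Second claim: the first row is `0, f (S 0), ..., f (S j)` (`tc a f 0 = 0`), the minor of the column `t.succ` has the columns `tc a . 0`, `S ∘ succAbove t`; again `≤ 2 (j+1) (n+1) Tn a v`.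
`Dn_ge_one`: some minor is a nonzero integer (`H70X.J4_minorZ` or prove it directly).
-/

open Polynomial MeasureTheory Set Filter

namespace Pool.Agent.Lib.H42V

theorem lap_sum {m j : ℕ} (t : Fin (j + 1)) (g : (Fin j → Fin m) → ℝ) :
    ∑ S : Fin (j + 1) → Fin m, g (fun t' => S (t.succAbove t')) = m * ∑ S' : Fin j → Fin m, g S' := by
  rw [← (Fin.insertNthEquiv (fun _ => Fin m) t).sum_comp, Fintype.sum_prod_type]
  simp [Fin.insertNthEquiv, Fin.insertNth_apply_succAbove]

theorem Dn_cons {n j : ℕ} (f : Fin (n + 1) → ℝ) (hf : ∀ l, |f l| ≤ 2) (v : Fin j → Fin (n + 1) → ℝ) :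
    Dn (Fin.cons f v : Fin (j + 1) → Fin (n + 1) → ℝ) ≤ 2 * (j + 1) * (n + 1) * Dn v := by
  unfold Dn
  have h1 : ∀ S : Fin (j + 1) → Fin (n + 1),
      |Matrix.det (Matrix.of fun s t : Fin (j + 1) =>
        (Fin.cons f v : Fin (j + 1) → Fin (n + 1) → ℝ) s (S t))| ≤
      ∑ t : Fin (j + 1), 2 * |Matrix.det (Matrix.of fun s t' : Fin j => v s (S (t.succAbove t')))| := by
    intro S
    rw [Matrix.det_succ_row_zero]
    refine (Finset.abs_sum_le_sum_abs _ _).trans (Finset.sum_le_sum fun t _ => ?_)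
    rw [abs_mul, abs_mul, abs_pow, abs_neg, abs_one, one_pow, one_mul]
    exact mul_le_mul (hf _) le_rfl (abs_nonneg _) (by norm_num)
  refine (Finset.sum_le_sum fun S _ => h1 S).trans ?_
  rw [Finset.sum_comm]
  have h2 : ∀ t : Fin (j + 1), ∑ S : Fin (j + 1) → Fin (n + 1),
      2 * |Matrix.det (Matrix.of fun s t' : Fin j => v s (S (t.succAbove t')))| =
      2 * (((n + 1 : ℕ) : ℝ) * ∑ S : Fin j → Fin (n + 1),
        |Matrix.det (Matrix.of fun s t : Fin j => v s (S t))|) := by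
    intro t
    rw [← Finset.mul_sum]
    congr 1
    exact lap_sum t (fun S' => |Matrix.det (Matrix.of fun s t : Fin j => v s (S' t))|)
  rw [Finset.sum_congr rfl fun t _ => h2 t, Finset.sum_const, Finset.card_univ, Fintype.card_fin,
    nsmul_eq_mul]
  push_cast
  apply le_of_eq
  ring

theorem Tn_cons {n j : ℕ} (a : ℝ) (f : Fin (n + 1) → ℝ) (hf : ∀ l, |f l| ≤ 2) (hfa : tc a f 0 = 0)
    (v : Fin (j + 1) → Fin (n + 1) → ℝ) :
    Tn a (Fin.cons f v : Fin (j + 2) → Fin (n + 1) → ℝ) ≤ 2 * (j + 2) * (n + 1) * Tn a v := by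
  unfold Tn
  have h1 : ∀ S : Fin (j + 1) → Fin (n + 1),
      |Matrix.det (Matrix.of fun s t : Fin (j + 2) =>
        (Fin.cons (tc a ((Fin.cons f v : Fin (j + 2) → Fin (n + 1) → ℝ) s) 0)
          (fun t : Fin (j + 1) => (Fin.cons f v : Fin (j + 2) → Fin (n + 1) → ℝ) s (S t)) :
            Fin (j + 2) → ℝ) t)| ≤
      ∑ t : Fin (j + 1), 2 * |Matrix.det (Matrix.of fun s t' : Fin (j + 1) =>
        (Fin.cons (tc a (v s) 0) (fun t'' : Fin j => v s (S (t.succAbove t''))) :
          Fin (j + 1) → ℝ) t')| := by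
    intro S
    rw [Matrix.det_succ_row_zero, Fin.sum_univ_succ]
    have h0 : (Matrix.of fun s t : Fin (j + 2) =>
        (Fin.cons (tc a ((Fin.cons f v : Fin (j + 2) → Fin (n + 1) → ℝ) s) 0)
          (fun t : Fin (j + 1) => (Fin.cons f v : Fin (j + 2) → Fin (n + 1) → ℝ) s (S t)) :
            Fin (j + 2) → ℝ) t) 0 0 = 0 := by
      simp [hfa]
    rw [h0, mul_zero, zero_mul, zero_add]
    refine (Finset.abs_sum_le_sum_abs _ _).trans (Finset.sum_le_sum fun t _ => ?_)
    rw [abs_mul, abs_mul, abs_pow, abs_neg, abs_one, one_pow, one_mul]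
    refine mul_le_mul ?_ (le_of_eq ?_) (abs_nonneg _) (by norm_num)
    · simpa using hf (S t)
    · congr 2
      ext s c
      refine Fin.cases ?_ (fun c => ?_) c
      · simp
      · simp [Fin.succ_succAbove_succ]
  refine (Finset.sum_le_sum fun S _ => h1 S).trans ?_
  rw [Finset.sum_comm]
  have h2 : ∀ t : Fin (j + 1), ∑ S : Fin (j + 1) → Fin (n + 1),
      2 * |Matrix.det (Matrix.of fun s t' : Fin (j + 1) =>
        (Fin.cons (tc a (v s) 0) (fun t'' : Fin j => v s (S (t.succAbove t''))) :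
          Fin (j + 1) → ℝ) t')| =
      2 * (((n + 1 : ℕ) : ℝ) * ∑ S : Fin j → Fin (n + 1),
        |Matrix.det (Matrix.of fun s t : Fin (j + 1) =>
          (Fin.cons (tc a (v s) 0) (fun t : Fin j => v s (S t)) : Fin (j + 1) → ℝ) t)|) := by
    intro t
    rw [← Finset.mul_sum]
    congr 1
    exact lap_sum t (fun S' => |Matrix.det (Matrix.of fun s t : Fin (j + 1) =>
          (Fin.cons (tc a (v s) 0) (fun t : Fin j => v s (S' t)) : Fin (j + 1) → ℝ) t)|)
  rw [Finset.sum_congr rfl fun t _ => h2 t, Finset.sum_const, Finset.card_univ, Fintype.card_fin,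
    nsmul_eq_mul]
  have h3 : 0 ≤ ∑ S : Fin j → Fin (n + 1), |Matrix.det (Matrix.of fun s t : Fin (j + 1) =>
      (Fin.cons (tc a (v s) 0) (fun t : Fin j => v s (S t)) : Fin (j + 1) → ℝ) t)| :=
    Finset.sum_nonneg fun _ _ => abs_nonneg _
  push_cast
  have h4 : (0 : ℝ) ≤ (n : ℝ) + 1 := by positivity
  nlinarith [mul_nonneg h4 h3]

theorem Dn_ge_one {n j : ℕ} (v : Fin j → Fin (n + 1) → ℤ) (hv : LinearIndependent ℤ v) :
    1 ≤ Dn (fun s => rv (v s)) := by
  obtain ⟨T, hT⟩ := H70X.J4_minorZ v hv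
  have h1 : (Matrix.of fun s t : Fin j => rv (v s) (T t)) =
      (Int.castRingHom ℝ).mapMatrix (Matrix.of fun s t : Fin j => v s (T t)) := by
    ext s t
    simp [rv]
  have h2 : (1 : ℝ) ≤ |Matrix.det (Matrix.of fun s t : Fin j => rv (v s) (T t))| := by
    rw [h1, ← RingHom.map_det, Int.coe_castRingHom, ← Int.cast_abs]
    exact_mod_cast Int.one_le_abs hT
  refine h2.trans ?_
  exact Finset.single_le_sum (f := fun S : Fin j → Fin (n + 1) =>
    |Matrix.det (Matrix.of fun s t : Fin j => rv (v s) (S t))|)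
    (fun _ _ => abs_nonneg _) (Finset.mem_univ T)

end Pool.Agent.Lib.H42V
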