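import Pool.Agent.Lib.H42V.L0
import Pool.Agent.Lib.H70X.MK3
import Pool.Agent.Lib.H70X.J4

/-!
# Chunk ML (M/L)
Minkowski and Liouville: a lower bound for the minors of a tuple which contains `F0`.

Proof. Let `c_L` be the constant of `liou`, `r_s = w_s - (w_s)_n • F0` (an integer vector with last coordinate 0), `a = a0 n`, `tc a (rv F0) 0 = a^n - 2 = 0`, so `tc a (rv r_s) 0 = tc a (rv w_s) 0`.
Let `μ > 0` and `λ = 2/(c_L μ^(n-1))`. Consider the vectors `y_s ∈ ℝ^(n+1)` with the coordinates `y_s 0 = λ tc a (rv r_s) 0`, `y_s (m+1) = μ (r_s)_m`, `0 ≤ m < n` (`Fin.cons`). They are linearly independent over `ℝ` (the `r_s` are: `F0, w_0, ...`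
are independent, `H70X.J4_real`). Let `z ≠ 0` be an integer vector and `r = ∑ z_s r_s`: it is not zero, its last coordinate is 0, so it is not a multiple of `F0` (last coordinate 1). If all `|μ r_m| ≤ 1` then `|r_m| ≤ 1/μ`, and `1/μ ≥ 1` as some `|r_m| ≥ 1`;
`liou` with `X = 1/μ`: `|tc a r 0| ≥ c_L μ^(n-1)`, so the coordinate 0 is `≥ 2 > 1`. So some coordinate is `> 1`: `H70X.submink i (n+1)` with `η = 1` gives `S : Fin i → Fin (n+1)` and `c_i ≤ |det (y_s (S t))|`.
If no `S t` is 0: the determinant is `μ^i det ((r_s)_{S' t})`, and (row operations with the row `F0`, last coordinates 1) `det ((r_s)_{S' t}) = ± det` of the `(i+1) × (i+1)` minor of `F0, w_0, ...` with the columns `n, S' 0, ..., S' (i-1)`,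
so it is `≤ Dn` in absolute value. If exactly one `S t` is 0: it is `± λ μ^(i-1) det` of the matrix with the columns `tc a r_s 0`, `(r_s)_{S' t}` (`i - 1` columns), which is `±` the minor of `F0, w` with the columns `tc a . 0, n, S'`
(the row `F0` is `0, 1, ...`), so it is `≤ λ μ^(i-1) Tn`; `λ μ^(i-1) = (2/c_L) / μ^(n-i)` (`i ≤ n`, because `F0, w` are `i + 1` independent vectors of `ℤ^(n+1)`). If two `S t` are 0 the determinant vanishes. Constant: `c = min_i (c_i) * min 1 (c_L/2)`
over `1 ≤ i ≤ n`.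
-/

open Polynomial MeasureTheory Set Filter

namespace Pool.Agent.Lib.H42V

/-- The value at `a` as a linear functional. -/
noncomputable def mlT {n : ℕ} (a : ℝ) : (Fin (n + 1) → ℝ) →ₗ[ℝ] ℝ where
  toFun v := tc a v 0
  map_add' u v := by
    rw [tc_val, tc_val, tc_val, ← Finset.sum_add_distrib]
    refine Finset.sum_congr rfl fun l _ => ?_
    rw [Pi.add_apply]
    ring
  map_smul' c v := by
    rw [tc_val, tc_val, RingHom.id_apply, smul_eq_mul, Finset.mul_sum]
    refine Finset.sum_congr rfl fun l _ => ?_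
    rw [Pi.smul_apply, smul_eq_mul]
    ring

theorem mlT_apply {n : ℕ} (a : ℝ) (v : Fin (n + 1) → ℝ) : mlT a v = tc a v 0 := rfl

theorem ml_det {n i : ℕ} (ψ : (Fin (n + 1) → ℝ) →ₗ[ℝ] ℝ) (φ : Fin i → ((Fin (n + 1) → ℝ) →ₗ[ℝ] ℝ))
    (F : Fin (n + 1) → ℝ) (hF : ψ F = 1) (W : Fin i → Fin (n + 1) → ℝ)
    (V : Fin (i + 1) → Fin (n + 1) → ℝ) (hV0 : V 0 = F) (hVs : ∀ s : Fin i, V s.succ = W s) :
    Matrix.det (Matrix.of fun s t : Fin (i + 1) =>
      (Fin.cons (ψ (V s)) (fun t : Fin i => φ t (V s)) : Fin (i + 1) → ℝ) t) =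
      Matrix.det (Matrix.of fun s t : Fin i => φ t (W s - ψ (W s) • F)) := by
  set B : Matrix (Fin (i + 1)) (Fin (i + 1)) ℝ := Matrix.of fun s t : Fin (i + 1) =>
    (Fin.cons (Fin.cons 1 (fun t : Fin i => φ t F) : Fin (i + 1) → ℝ)
      (fun s : Fin i => (Fin.cons 0 (fun t : Fin i => φ t (W s - ψ (W s) • F)) : Fin (i + 1) → ℝ)) :
        Fin (i + 1) → Fin (i + 1) → ℝ) s t with hB
  rw [Matrix.det_eq_of_forall_row_eq_smul_add_const (B := B)
    (Fin.cons 0 (fun s : Fin i => ψ (W s)) : Fin (i + 1) → ℝ) 0 rfl ?_]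
  · rw [Matrix.det_succ_column_zero, Fin.sum_univ_succ, Finset.sum_eq_zero, add_zero]
    · have h1 : B 0 0 = 1 := rfl
      rw [h1, Fin.val_zero, pow_zero, one_mul, one_mul]
      rfl
    · intro s _
      have h1 : B s.succ 0 = 0 := rfl
      rw [h1, mul_zero, zero_mul]
  · intro s t
    refine Fin.cases ?_ (fun s => ?_) s
    · refine Fin.cases ?_ (fun t => ?_) t
      · show ψ (V 0) = 1 + 0 * 1
        rw [hV0, hF]
        ring
      · show φ t (V 0) = φ t F + 0 * φ t F
        rw [hV0]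
        ring
    · refine Fin.cases ?_ (fun t => ?_) t
      · show ψ (V s.succ) = 0 + ψ (W s) * 1
        rw [hVs]
        ring
      · show φ t (V s.succ) = φ t (W s - ψ (W s) • F) + ψ (W s) * φ t F
        rw [hVs, map_sub, map_smul, smul_eq_mul]
        ring

theorem ml_dn {n i : ℕ} (v : Fin i → Fin (n + 1) → ℝ) (S : Fin i → Fin (n + 1)) :
    |Matrix.det (Matrix.of fun s t : Fin i => v s (S t))| ≤ Dn v := by
  unfold Dn
  exact Finset.single_le_sum
    (f := fun S : Fin i → Fin (n + 1) => |Matrix.det (Matrix.of fun s t : Fin i => v s (S t))|)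
    (fun _ _ => abs_nonneg _) (Finset.mem_univ S)

theorem ml_tn {n i : ℕ} (a : ℝ) (v : Fin (i + 1) → Fin (n + 1) → ℝ) (S : Fin i → Fin (n + 1)) :
    |Matrix.det (Matrix.of fun s t : Fin (i + 1) =>
      (Fin.cons (tc a (v s) 0) (fun t : Fin i => v s (S t)) : Fin (i + 1) → ℝ) t)| ≤ Tn a v := by
  unfold Tn
  exact Finset.single_le_sum
    (f := fun S : Fin i → Fin (n + 1) => |Matrix.det (Matrix.of fun s t : Fin (i + 1) =>
      (Fin.cons (tc a (v s) 0) (fun t : Fin i => v s (S t)) : Fin (i + 1) → ℝ) t)|)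
    (fun _ _ => abs_nonneg _) (Finset.mem_univ S)

theorem ml_F0 (n : ℕ) (hn : 1 ≤ n) : tc (a0 n) (rv (F0 n)) 0 = 0 := by
  rw [tc_val, Fin.sum_univ_castSucc]
  obtain ⟨k, rfl⟩ : ∃ k, n = k + 1 := ⟨n - 1, by omega⟩
  rw [Fin.sum_univ_succ, Finset.sum_eq_zero]
  · have h1 : rv (F0 (k + 1)) (Fin.last (k + 1)) = 1 := by
      simp [rv, F0]
    have h2 : rv (F0 (k + 1)) (Fin.castSucc (0 : Fin (k + 1))) = -2 := by
      simp [rv, F0]
    rw [h1, h2, Fin.val_last, (a0_props (k + 1) hn).1]
    simp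
  · intro l _
    have h1 : rv (F0 (k + 1)) (Fin.castSucc l.succ) = 0 := by
      have h2 : ((Fin.castSucc l.succ : Fin (k + 1 + 1)) : ℕ) = (l : ℕ) + 1 := by simp
      have h3 := l.2
      unfold rv F0
      rw [h2, if_neg (by omega), if_neg (by omega), Int.cast_zero]
    rw [h1, mul_zero]

theorem minkliou (n : ℕ) (hn : 1 ≤ n) : ∃ c : ℝ, 0 < c ∧ ∀ i : ℕ, 1 ≤ i → ∀ w : Fin i → Fin (n + 1) → ℤ,
    LinearIndependent ℤ (cn (F0 n) w) → ∀ μ : ℝ, 0 < μ →
      c ≤ μ ^ i * Dn (fun s => rv (cn (F0 n) w s)) ∨ c * μ ^ (n - i) ≤ Tn (a0 n) (fun s => rv (cn (F0 n) w s)) := by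
  classical
  obtain ⟨cL, hcL, hliou⟩ := liou n hn
  choose cs hcs hsub using fun i : ℕ => H70X.submink i (n + 1)
  obtain ⟨i0, -, hi0⟩ := Finset.exists_min_image (Finset.range (n + 1)) cs ⟨0, by simp⟩
  refine ⟨cs i0 * min 1 (cL / 2), mul_pos (hcs i0) (lt_min one_pos (by positivity)), ?_⟩
  intro i hi w hw μ hμ
  set a : ℝ := a0 n with ha
  set F : Fin (n + 1) → ℤ := F0 n with hF
  have hFl : F (Fin.last n) = 1 := by simp [hF, F0]
  -- `i ≤ n`
  have hin : i ≤ n := by
    have h1 := hw.fintype_card_le_finrank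
    rw [Fintype.card_fin, Module.finrank_fintype_fun_eq_card, Fintype.card_fin] at h1
    omega
  have hci : cs i0 ≤ cs i := hi0 i (by rw [Finset.mem_range]; omega)
  -- the reduced vectors
  set r : Fin i → Fin (n + 1) → ℤ := fun s => w s - w s (Fin.last n) • F with hr
  have hrl : ∀ s, r s (Fin.last n) = 0 := by
    intro s
    show w s (Fin.last n) - w s (Fin.last n) * F (Fin.last n) = 0
    rw [hFl]
    ring
  have hrli : LinearIndependent ℤ r := by
    rw [Fintype.linearIndependent_iff] at hw ⊢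
    intro g hg s
    have h1 := hw (Fin.cons (-∑ s, g s * w s (Fin.last n)) g) (by
      rw [Fin.sum_univ_succ]
      simp only [Fin.cons_zero, Fin.cons_succ]
      have h2 : ∑ s, g s • r s = ∑ s, g s • w s - (∑ s, g s * w s (Fin.last n)) • F := by
        rw [Finset.sum_smul, ← Finset.sum_sub_distrib]
        refine Finset.sum_congr rfl fun s _ => ?_
        rw [hr]
        simp only
        rw [smul_sub, smul_smul]
      rw [hg] at h2
      rw [neg_smul, neg_add_eq_sub]
      exact h2.symm) s.succ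
    simpa using h1
  have hrR : LinearIndependent ℝ (fun s => rv (r s)) := H70X.J4_real r hrli
  have hTF : tc a (rv F) 0 = 0 := ml_F0 n hn
  set lam : ℝ := 2 / (cL * μ ^ (n - 1)) with hlam
  have hlam0 : 0 < lam := by positivity
  -- the real vectors
  set y : Fin i → Fin (n + 1) → ℝ := fun s =>
    (Fin.cons (lam * tc a (rv (r s)) 0) (fun m : Fin n => μ * rv (r s) (Fin.castSucc m)) :
      Fin (n + 1) → ℝ) with hy
  have hyli : LinearIndependent ℝ y := by
    rw [Fintype.linearIndependent_iff] at hrR ⊢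
    intro g hg
    refine hrR g ?_
    funext l
    rw [Finset.sum_apply, Pi.zero_apply]
    refine Fin.lastCases ?_ (fun m => ?_) l
    · refine Finset.sum_eq_zero fun s _ => ?_
      rw [Pi.smul_apply]
      have h1 : rv (r s) (Fin.last n) = 0 := by
        show ((r s (Fin.last n) : ℤ) : ℝ) = 0
        rw [hrl, Int.cast_zero]
      rw [h1, smul_zero]
    · have h1 := congrFun hg m.succ
      rw [Finset.sum_apply, Pi.zero_apply] at h1
      have h2 : ∑ s, (g s • y s) m.succ = μ * ∑ s, (g s • rv (r s)) (Fin.castSucc m) := by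
        rw [Finset.mul_sum]
        refine Finset.sum_congr rfl fun s _ => ?_
        show g s * (μ * rv (r s) (Fin.castSucc m)) = μ * (g s * rv (r s) (Fin.castSucc m))
        ring
      rw [h2] at h1
      exact (mul_eq_zero.mp h1).resolve_left hμ.ne'
  obtain ⟨S, hS⟩ := hsub i y hyli 1 one_pos (by
    intro z hz
    by_contra hcon
    push Not at hcon
    set R : Fin (n + 1) → ℤ := ∑ s, z s • r s with hR
    have hR0 : R ≠ 0 := by
      intro h0
      apply hz
      rw [Fintype.linearIndependent_iff] at hrli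
      funext s
      exact hrli z h0 s
    have hRl : R (Fin.last n) = 0 := by
      rw [hR, Finset.sum_apply]
      refine Finset.sum_eq_zero fun s _ => ?_
      rw [Pi.smul_apply, hrl, smul_zero]
    have hnm : ¬ Mul R F := by
      rintro ⟨m, hm⟩
      have h1 := congrFun hm (Fin.last n)
      rw [hRl, Pi.smul_apply, hFl, smul_eq_mul, mul_one] at h1
      apply hR0
      rw [hm, ← h1, zero_smul]
    have hrv : ∀ l, rv R l = ∑ s, (z s : ℝ) * rv (r s) l := by
      intro l
      show ((R l : ℤ) : ℝ) = _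
      rw [hR, Finset.sum_apply]
      push_cast
      refine Finset.sum_congr rfl fun s _ => ?_
      rw [Pi.smul_apply, smul_eq_mul]
      push_cast
      rfl
    have hc0 := hcon 0
    have hcm : ∀ m : Fin n, μ * |rv R (Fin.castSucc m)| ≤ 1 := by
      intro m
      have h1 := hcon m.succ
      have h2 : ∑ s, (z s : ℝ) * y s m.succ = μ * rv R (Fin.castSucc m) := by
        rw [hrv, Finset.mul_sum]
        refine Finset.sum_congr rfl fun s _ => ?_
        show (z s : ℝ) * (μ * rv (r s) (Fin.castSucc m)) = μ * ((z s : ℝ) * rv (r s) (Fin.castSucc m))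
        ring
      rw [h2, abs_mul, abs_of_pos hμ] at h1
      exact h1
    have h02 : ∑ s, (z s : ℝ) * y s 0 = lam * tc a (rv R) 0 := by
      have h3 : rv R = ∑ s, (z s : ℝ) • rv (r s) := by
        funext l
        rw [hrv, Finset.sum_apply]
        rfl
      have h4 : tc a (rv R) 0 = ∑ s, (z s : ℝ) * tc a (rv (r s)) 0 := by
        rw [← mlT_apply, h3, map_sum]
        refine Finset.sum_congr rfl fun s _ => ?_
        rw [map_smul, mlT_apply, smul_eq_mul]
      rw [h4, Finset.mul_sum]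
      refine Finset.sum_congr rfl fun s _ => ?_
      show (z s : ℝ) * (lam * tc a (rv (r s)) 0) = lam * ((z s : ℝ) * tc a (rv (r s)) 0)
      ring
    rw [h02, abs_mul, abs_of_pos hlam0] at hc0
    -- some coordinate is not zero
    obtain ⟨l, hl⟩ : ∃ l, R l ≠ 0 := by
      by_contra h
      push Not at h
      exact hR0 (funext h)
    have hX : ∀ l, |(R l : ℝ)| ≤ 1 / μ := by
      intro l
      refine Fin.lastCases ?_ (fun m => ?_) l
      · rw [hRl, Int.cast_zero, abs_zero]
        positivity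
      · rw [le_div_iff₀ hμ, mul_comm]
        exact hcm m
    have hX1 : 1 ≤ 1 / μ := by
      refine le_trans ?_ (hX l)
      have : (1 : ℤ) ≤ |R l| := Int.one_le_abs hl
      exact_mod_cast this
    have h5 := hliou R hnm (1 / μ) hX1 hX
    have h6 : cL * μ ^ (n - 1) ≤ |tc a (rv R) 0| := by
      have h7 : (1 / μ) ^ (n - 1) * μ ^ (n - 1) = 1 := by
        rw [← mul_pow, one_div_mul_cancel hμ.ne', one_pow]
      calc cL * μ ^ (n - 1) ≤ |tc a (rv R) 0| * (1 / μ) ^ (n - 1) * μ ^ (n - 1) :=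
            mul_le_mul_of_nonneg_right h5 (by positivity)
        _ = |tc a (rv R) 0| := by rw [mul_assoc, h7, mul_one]
    have h8 : 2 ≤ lam * |tc a (rv R) 0| := by
      rw [hlam, div_mul_eq_mul_div, le_div_iff₀ (by positivity)]
      linarith
    linarith)
  rw [one_pow, mul_one] at hS
  -- the functionals
  set ψ : (Fin (n + 1) → ℝ) →ₗ[ℝ] ℝ := LinearMap.proj (Fin.last n) with hψ
  have hψF : ψ (rv F) = 1 := by
    show ((F (Fin.last n) : ℤ) : ℝ) = 1
    rw [hFl, Int.cast_one]
  have hrvr : ∀ s, rv (r s) = rv (w s) - ψ (rv (w s)) • rv F := by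
    intro s
    funext l
    show ((r s l : ℤ) : ℝ) = ((w s l : ℤ) : ℝ) - ((w s (Fin.last n) : ℤ) : ℝ) * ((F l : ℤ) : ℝ)
    rw [hr]
    show ((w s l - w s (Fin.last n) * F l : ℤ) : ℝ) = _
    push_cast
    ring
  set V : Fin (i + 1) → Fin (n + 1) → ℝ := fun s => rv (cn F w s) with hV
  have hV0 : V 0 = rv F := rfl
  have hVs : ∀ s : Fin i, V s.succ = rv (w s) := fun s => rfl
  set φ : Fin i → ((Fin (n + 1) → ℝ) →ₗ[ℝ] ℝ) := fun t =>
    (Fin.cons (mlT a) (fun m : Fin n => LinearMap.proj (Fin.castSucc m)) :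
      Fin (n + 1) → ((Fin (n + 1) → ℝ) →ₗ[ℝ] ℝ)) (S t) with hφ
  set κ : Fin i → ℝ := fun t => (Fin.cons lam (fun _ : Fin n => μ) : Fin (n + 1) → ℝ) (S t) with hκ
  have hydet : Matrix.det (Matrix.of fun s t : Fin i => y s (S t)) =
      (∏ t, κ t) * Matrix.det (Matrix.of fun s t : Fin i => φ t (rv (w s) - ψ (rv (w s)) • rv F)) := by
    rw [← Matrix.det_mul_row]
    congr 1
    ext s t
    show y s (S t) = κ t * φ t (rv (w s) - ψ (rv (w s)) • rv F)
    rw [← hrvr, hκ, hφ, hy]
    simp only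
    refine Fin.cases ?_ (fun m => ?_) (S t)
    · rfl
    · rfl
  rw [hydet, abs_mul, ← ml_det ψ φ (rv F) hψF (fun s => rv (w s)) V hV0 hVs] at hS
  have hcmin : cs i0 * min 1 (cL / 2) ≤ cs i := by
    calc cs i0 * min 1 (cL / 2) ≤ cs i0 * 1 :=
          mul_le_mul_of_nonneg_left (min_le_left _ _) (hcs i0).le
      _ = cs i0 := mul_one _
      _ ≤ cs i := hci
  by_cases hA : ∃ t0, S t0 = 0
  · -- one column is the value at `a`
    obtain ⟨t0, ht0⟩ := hA
    right
    have huniq : ∀ t, t ≠ t0 → S t ≠ 0 := by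
      intro t ht h0
      have h1 : Matrix.det (Matrix.of fun s t : Fin i => y s (S t)) = 0 := by
        refine Matrix.det_zero_of_column_eq ht fun s => ?_
        show y s (S t) = y s (S t0)
        rw [h0, ht0]
      rw [ml_det ψ φ (rv F) hψF (fun s => rv (w s)) V hV0 hVs, ← abs_mul, ← hydet, h1, abs_zero] at hS
      exact absurd hS (not_le.mpr (hcs i))
    have hκ0 : κ t0 = lam := by
      rw [hκ]
      simp only
      rw [ht0]
      rfl
    have hκ1 : ∀ t, t ≠ t0 → κ t = μ := by
      intro t ht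
      obtain ⟨m, hm⟩ := Fin.exists_succ_eq.mpr (huniq t ht)
      rw [hκ]
      simp only
      rw [← hm]
      rfl
    have hprod : ∏ t, κ t = lam * μ ^ (i - 1) := by
      rw [← Finset.mul_prod_erase Finset.univ κ (Finset.mem_univ t0), hκ0,
        Finset.prod_congr rfl (fun t ht => hκ1 t (Finset.ne_of_mem_erase ht)), Finset.prod_const,
        Finset.card_erase_of_mem (Finset.mem_univ _), Finset.card_univ, Fintype.card_fin]
    -- the columns
    set S' : Fin i → Fin (n + 1) := fun t => if h : S t = 0 then Fin.last n else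
      Fin.castSucc ((S t).pred h) with hS'
    have hSt : ∀ t, t ≠ t0 → ∀ v : Fin (n + 1) → ℝ, φ t v = v (S' t) := by
      intro t ht v
      have h0 := huniq t ht
      obtain ⟨m, hm⟩ := Fin.exists_succ_eq.mpr h0
      have h1 : S' t = Fin.castSucc m := by
        rw [hS']
        simp only
        rw [dif_neg h0]
        congr 1
        rw [Fin.pred_eq_iff_eq_succ]
        exact hm.symm
      rw [h1, hφ]
      simp only
      rw [← hm]
      rfl
    have hSt0 : S' t0 = Fin.last n := by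
      rw [hS']
      simp only
      rw [dif_pos ht0]
    have hφ0 : ∀ v : Fin (n + 1) → ℝ, φ t0 v = tc a v 0 := by
      intro v
      rw [hφ]
      simp only
      rw [ht0]
      rfl
    have hdet := Matrix.abs_det_submatrix_equiv_equiv (Equiv.refl (Fin (i + 1)))
      (Equiv.swap 0 t0.succ) (Matrix.of fun s t : Fin (i + 1) =>
        (Fin.cons (ψ (V s)) (fun t : Fin i => φ t (V s)) : Fin (i + 1) → ℝ) t)
    have hsubm : (Matrix.of fun s t : Fin (i + 1) =>
        (Fin.cons (ψ (V s)) (fun t : Fin i => φ t (V s)) : Fin (i + 1) → ℝ) t).submatrix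
        (Equiv.refl (Fin (i + 1))) (Equiv.swap 0 t0.succ) = Matrix.of fun s t : Fin (i + 1) =>
        (Fin.cons (tc a (V s) 0) (fun t : Fin i => V s (S' t)) : Fin (i + 1) → ℝ) t := by
      ext s t
      rw [Matrix.submatrix_apply, Matrix.of_apply, Matrix.of_apply, Equiv.refl_apply]
      refine Fin.cases ?_ (fun t => ?_) t
      · rw [Equiv.swap_apply_left, Fin.cons_succ, Fin.cons_zero, hφ0]
      · rw [Fin.cons_succ]
        by_cases ht : t = t0
        · rw [ht, Equiv.swap_apply_right, Fin.cons_zero, hSt0]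
          rfl
        · rw [Equiv.swap_apply_of_ne_of_ne (Fin.succ_ne_zero t) (fun h => ht (Fin.succ_injective _ h)),
            Fin.cons_succ, hSt t ht]
    rw [← hdet, hsubm, hprod, abs_of_pos (by positivity)] at hS
    have h1 := ml_tn a V S'
    have h2 : cs i ≤ lam * μ ^ (i - 1) * Tn a V :=
      hS.trans (mul_le_mul_of_nonneg_left h1 (by positivity))
    have h3 : μ ^ (n - 1) = μ ^ (n - i) * μ ^ (i - 1) := by
      rw [← pow_add]
      congr 1
      omega
    have h4 : cs i * (cL / 2) * μ ^ (n - i) ≤ Tn a V := by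
      rw [hlam, h3, div_mul_eq_mul_div, div_mul_eq_mul_div, le_div_iff₀ (by positivity)] at h2
      have h5 : (0 : ℝ) < μ ^ (i - 1) := by positivity
      have h6 : μ ^ (i - 1) * (cs i * (cL / 2) * μ ^ (n - i)) ≤ μ ^ (i - 1) * Tn a V := by
        nlinarith
      exact le_of_mul_le_mul_left h6 h5
    refine le_trans ?_ h4
    refine mul_le_mul_of_nonneg_right ?_ (by positivity)
    calc cs i0 * min 1 (cL / 2) ≤ cs i0 * (cL / 2) :=
          mul_le_mul_of_nonneg_left (min_le_right _ _) (hcs i0).le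
      _ ≤ cs i * (cL / 2) := mul_le_mul_of_nonneg_right hci (by positivity)
  · push Not at hA
    left
    have hκ1 : ∀ t, κ t = μ := by
      intro t
      obtain ⟨m, hm⟩ := Fin.exists_succ_eq.mpr (hA t)
      rw [hκ]
      simp only
      rw [← hm]
      rfl
    have hprod : ∏ t, κ t = μ ^ i := by
      rw [Finset.prod_congr rfl (fun t _ => hκ1 t), Finset.prod_const, Finset.card_univ,
        Fintype.card_fin]
    choose m hm using fun t => Fin.exists_succ_eq.mpr (hA t)
    have hmat : (Matrix.of fun s t : Fin (i + 1) =>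
        (Fin.cons (ψ (V s)) (fun t : Fin i => φ t (V s)) : Fin (i + 1) → ℝ) t) =
        Matrix.of fun s t : Fin (i + 1) => V s ((Fin.cons (Fin.last n) (fun t => Fin.castSucc (m t)) :
          Fin (i + 1) → Fin (n + 1)) t) := by
      ext s t
      rw [Matrix.of_apply, Matrix.of_apply]
      refine Fin.cases ?_ (fun t => ?_) t
      · rfl
      · rw [Fin.cons_succ, Fin.cons_succ, hφ]
        simp only
        rw [← hm t]
        rfl
    rw [hprod, abs_of_pos (by positivity), hmat] at hS
    have h1 := ml_dn V (Fin.cons (Fin.last n) (fun t => Fin.castSucc (m t)) :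
          Fin (i + 1) → Fin (n + 1))
    refine hcmin.trans (hS.trans ?_)
    exact mul_le_mul_of_nonneg_left h1 (by positivity)

end Pool.Agent.Lib.H42V
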