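import Pool.Agent.Lib.H42V.Defs

/-!
# Chunk NUM (S/M)
Two inequalities between real numbers (write `j = i + 1`, `n = m + j`).

Proof. Let `B = Z^n/N^n * (N^(n+2-j)/Z)^(j-1) = Z^(m+1) N^((j-1)(m+2) - n)`. (a) `(N^(m+1)/Z)^m B = Z N^E`, `E = m(m+1) + (j-1)(m+2) - (m+j) = (m+1)(n-2) ≥ 0`, `n ≥ 2`. (b) With `A = (N^(m+1)/Z)^j`: `A^(m+1) B^(j-1) = N^F / Z^(m+1)`,
`F = j (m+1)^2 + (j-1)^2 (m+2) - (j-1) n`, and `Z^(m+1) ≤ N^(n(m+1))`, `F - n (m+1) = (j-1)(m^2 + m(j-1) + (j-2)) ≥ 0`. (Both are checked by expansion; to avoid negative exponents multiply by the denominators. It may be easiest to write `Z = N^z` with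
`0 ≤ z ≤ n` if `N > 1` (`z = log Z/log N`) and to compare real exponents, the case `N = 1` giving `Z = 1`.)
-/

open Polynomial MeasureTheory Set Filter

namespace Pool.Agent.Lib.H42V

theorem num_a (n j : ℕ) (hj : 2 ≤ j) (hjn : j ≤ n) (N Z : ℝ) (hN : 1 ≤ N) (hZ : 1 ≤ Z) :
    1 ≤ (N ^ (n + 1 - j) / Z) ^ (n - j) * (Z ^ n / N ^ n * (N ^ (n + 2 - j) / Z) ^ (j - 1)) := by
  obtain ⟨i, rfl⟩ : ∃ i, j = i + 2 := ⟨j - 2, by omega⟩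
  obtain ⟨m, rfl⟩ : ∃ m, n = m + (i + 2) := ⟨n - (i + 2), by omega⟩
  obtain ⟨a, ha, rfl⟩ : ∃ a : ℝ, 0 ≤ a ∧ Real.exp a = N :=
    ⟨Real.log N, Real.log_nonneg hN, Real.exp_log (by linarith)⟩
  obtain ⟨z, hz, rfl⟩ : ∃ a : ℝ, 0 ≤ a ∧ Real.exp a = Z :=
    ⟨Real.log Z, Real.log_nonneg hZ, Real.exp_log (by linarith)⟩
  have e1 : m + (i + 2) + 1 - (i + 2) = m + 1 := by omega
  have e2 : m + (i + 2) - (i + 2) = m := by omega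
  have e3 : m + (i + 2) + 2 - (i + 2) = m + 2 := by omega
  have e4 : i + 2 - 1 = i + 1 := by omega
  rw [e1, e2, e3, e4]
  simp only [← Real.exp_nat_mul, ← Real.exp_sub, ← Real.exp_add]
  apply Real.one_le_exp
  have key : (m : ℝ) * (((m + 1 : ℕ) : ℝ) * a - z) + (((m + (i + 2) : ℕ) : ℝ) * z -
      ((m + (i + 2) : ℕ) : ℝ) * a + ((i + 1 : ℕ) : ℝ) * (((m + 2 : ℕ) : ℝ) * a - z)) =
      z + ((m : ℝ) + 1) * (m + i) * a := by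
    push_cast
    ring
  rw [key]
  positivity

theorem num_b (n j : ℕ) (hj : 2 ≤ j) (hjn : j ≤ n) (N Z : ℝ) (hN : 1 ≤ N) (hZ : 1 ≤ Z) (hZN : Z ≤ N ^ n) :
    1 ≤ ((N ^ (n + 1 - j) / Z) ^ j) ^ (n + 1 - j) * (Z ^ n / N ^ n * (N ^ (n + 2 - j) / Z) ^ (j - 1)) ^ (j - 1) := by
  obtain ⟨i, rfl⟩ : ∃ i, j = i + 2 := ⟨j - 2, by omega⟩
  obtain ⟨m, rfl⟩ : ∃ m, n = m + (i + 2) := ⟨n - (i + 2), by omega⟩
  obtain ⟨a, ha, rfl⟩ : ∃ a : ℝ, 0 ≤ a ∧ Real.exp a = N :=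
    ⟨Real.log N, Real.log_nonneg hN, Real.exp_log (by linarith)⟩
  obtain ⟨z, hz, rfl⟩ : ∃ a : ℝ, 0 ≤ a ∧ Real.exp a = Z :=
    ⟨Real.log Z, Real.log_nonneg hZ, Real.exp_log (by linarith)⟩
  have e1 : m + (i + 2) + 1 - (i + 2) = m + 1 := by omega
  have e3 : m + (i + 2) + 2 - (i + 2) = m + 2 := by omega
  have e4 : i + 2 - 1 = i + 1 := by omega
  have hza : z ≤ ((m + (i + 2) : ℕ) : ℝ) * a := by
    rw [← Real.exp_nat_mul] at hZN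
    exact Real.exp_le_exp.mp hZN
  rw [e1, e3, e4]
  simp only [← Real.exp_nat_mul, ← Real.exp_sub, ← Real.exp_add]
  apply Real.one_le_exp
  have key : ((m + 1 : ℕ) : ℝ) * (((i + 2 : ℕ) : ℝ) * (((m + 1 : ℕ) : ℝ) * a - z)) +
      ((i + 1 : ℕ) : ℝ) * (((m + (i + 2) : ℕ) : ℝ) * z - ((m + (i + 2) : ℕ) : ℝ) * a +
        ((i + 1 : ℕ) : ℝ) * (((m + 2 : ℕ) : ℝ) * a - z)) =
      ((m : ℝ) + 1) * (((m + (i + 2) : ℕ) : ℝ) * a - z) +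
        ((i : ℝ) + 1) * ((m : ℝ) ^ 2 + m * (i + 1) + i) * a := by
    push_cast
    ring
  rw [key]
  have h0 : 0 ≤ ((m + (i + 2) : ℕ) : ℝ) * a - z := by linarith
  positivity

end Pool.Agent.Lib.H42V
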