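import Pool.Agent.Lib.H42V.GB3
import Pool.Agent.Lib.H70X.S1

/-!
# Chunk PC (M)
Choosing a good number. (Compare `H70X.pick`, S3.)

Proof. First: coprime `p, q` with `0 ≤ p ≤ q`, `q ≥ 1` extend to `g.Ok`: there is `b` with `p b ≡ 1 mod q`, `2 q ≤ b < 3 q`; `q' = b`, `p' = (p b - 1)/q`. Let `N` be large. `H70X.many_rationals`: the set `X1` of the `x ∈ [a,b]` which have coprime `p ≤ q`, `N < 4 q`, `q ≤ N`, `|x - p/q| ≤ 4/N^2`
has outer measure `≥ 3 (b-a)/10`. The set of `bad_meas` has measure `≤ C N^(-δ) < (b-a)/20` for large `N`, and `volume (Icc a b \ A) ≤ (b-a)/5`. So there is `x ∈ A ∩ [a,b]` in `X1` and not in the bad set (subadditivity); `4/N^2 ≤ 4/q^2`, `q > N/4 ≥ Q0`. We may assume `s ≤ 1`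
for `bad_meas` (`GoodA n (min s 1) g` implies `GoodA n s g`: `X ≥ 1`).
-/

open Polynomial MeasureTheory Set Filter

namespace Pool.Agent.Lib.H42V

theorem pC_mo (p q : ℕ) (hpq : p ≤ q) (hq : 0 < q) (hcop : p.Coprime q) :
    ∃ g : Mo, g.Ok ∧ g.p = p ∧ g.q = q := by
  have hc : IsCoprime (p : ℤ) (q : ℤ) := Nat.isCoprime_iff_coprime.2 hcop
  obtain ⟨u, v, huv⟩ := hc
  have hq' : (0 : ℤ) < q := by exact_mod_cast hq
  have h1 : u % q + q * (u / q) = u := Int.emod_add_mul_ediv u q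
  have h2 : 0 ≤ u % q := Int.emod_nonneg u hq'.ne'
  have h3 : u % q < q := Int.emod_lt_of_pos u hq'
  refine ⟨⟨p, 2 * p - p * (u / q) - v, q, u % q + 2 * q⟩, ⟨hq', ?_, ?_, ?_, ?_, ?_⟩, rfl, rfl⟩
  · show (p : ℤ) * (u % q + 2 * q) - (2 * p - p * (u / q) - v) * q = 1
    have h4 : (p : ℤ) * (u % q) + p * (q * (u / q)) = p * u := by rw [← mul_add, h1]
    linarith [huv, h4]
  · show 2 * (q : ℤ) ≤ u % q + 2 * q
    linarith
  · show u % q + 2 * q ≤ 3 * (q : ℤ)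
    linarith
  · show (0 : ℤ) ≤ p
    exact_mod_cast Nat.zero_le p
  · show (p : ℤ) ≤ q
    exact_mod_cast hpq

theorem pC_mono (n : ℕ) (s s' : ℝ) (hs : s' ≤ s) (g : Mo) (hg : g.Ok) (h : GoodA n s' g) :
    GoodA n s g := by
  intro X hX v hv hb
  refine le_trans ?_ (h X hX v hv hb)
  have hq1 : (1 : ℝ) ≤ g.q := by exact_mod_cast hg.qpos
  have hX1 : 1 ≤ X := (Real.one_le_rpow hq1 (by positivity)).trans hX
  have hX0 : 0 < X := by linarith
  have h1 : X ^ (-s) ≤ X ^ (-s') := Real.rpow_le_rpow_of_exponent_le hX1 (by linarith)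
  refine mul_le_mul_of_nonneg_right ?_ (le_max_of_le_left (by positivity))
  exact div_le_div_of_nonneg_right h1 (by positivity)

theorem pick (n : ℕ) (hn : 1 ≤ n) (a b : ℝ) (ha : 0 < a) (hab : a < b) (hb : b < 1) (s : ℝ) (hs : 0 < s)
    (A : Set ℝ) (hA : volume (Icc a b \ A) ≤ ENNReal.ofReal ((b - a) / 5)) (Q0 : ℕ) :
    ∃ x ∈ A ∩ Icc a b, ∃ g : Mo, g.Ok ∧ (Q0 : ℤ) ≤ g.q ∧ GoodA n s g ∧ |x - (g.p : ℝ) / g.q| ≤ 4 / (g.q : ℝ) ^ 2 := by
  obtain ⟨N0, hN0⟩ := H70X.many_rationals a b ha.le hab hb.le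
  obtain ⟨C, δ, hC, hδ, hbad⟩ := bad_meas n hn (min s 1) (lt_min hs one_pos) (min_le_right _ _)
  have hba : 0 < b - a := by linarith
  have hlim : Tendsto (fun N : ℕ => C * (N : ℝ) ^ (-δ)) atTop (nhds 0) := by
    have h1 : Tendsto (fun N : ℕ => (N : ℝ) ^ (-δ)) atTop (nhds 0) :=
      (tendsto_rpow_neg_atTop hδ).comp tendsto_natCast_atTop_atTop
    simpa using h1.const_mul C
  have hev1 : ∀ᶠ N : ℕ in atTop, C * (N : ℝ) ^ (-δ) < (b - a) / 20 :=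
    hlim.eventually_lt_const (by positivity)
  obtain ⟨N, ⟨h1, h4⟩, h5, h6⟩ := ((hev1.and (eventually_ge_atTop N0)).and
    ((eventually_ge_atTop 8).and (eventually_ge_atTop (4 * Q0)))).exists
  have hN8 : (8 : ℝ) ≤ N := by exact_mod_cast h5
  have hNpos : (0 : ℝ) < N := by linarith
  have hX1 := hN0 N h4
  have hX2 := hbad N h5
  have hex : ∃ x, x ∈ {x ∈ Icc a b | ∃ p q : ℕ, p ≤ q ∧
      N < 4 * q ∧ q ≤ N ∧ p.Coprime q ∧ |x - (p : ℝ) / q| ≤ 4 / (N : ℝ) ^ 2} ∧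
      x ∉ ({x : ℝ | ∃ g : Mo, g.Ok ∧ (N : ℝ) < 4 * g.q ∧ (g.q : ℝ) ≤ N ∧ ¬ GoodA n (min s 1) g ∧
      |x - (g.p : ℝ) / g.q| ≤ 4 / (N : ℝ) ^ 2} ∪ (Icc a b \ A)) := by
    by_contra hcon
    push Not at hcon
    have h7 := measure_mono (μ := volume) (fun x hx => hcon x hx)
    have h8 := hX1.trans (h7.trans ((measure_union_le _ _).trans (add_le_add hX2 hA)))
    rw [← ENNReal.ofReal_add (by positivity) (by positivity),
      ENNReal.ofReal_le_ofReal_iff (by positivity)] at h8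
    linarith
  obtain ⟨x, ⟨hxab, p, q, hpq, hNq, hqN, hcop, hxpq⟩, hx2⟩ := hex
  rw [Set.mem_union, not_or] at hx2
  have hxA : x ∈ A := by
    by_contra hxA
    exact hx2.2 ⟨hxab, hxA⟩
  have hqpos : 0 < q := by omega
  obtain ⟨g, hg, hgp, hgq⟩ := pC_mo p q hpq hqpos hcop
  have hgp' : (g.p : ℝ) = p := by rw [hgp]; simp
  have hgq' : (g.q : ℝ) = q := by rw [hgq]; simp
  have hq0 : (0 : ℝ) < q := by exact_mod_cast hqpos
  have hNq' : (N : ℝ) < 4 * q := by exact_mod_cast hNq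
  have hqN' : (q : ℝ) ≤ N := by exact_mod_cast hqN
  have hgood : GoodA n (min s 1) g := by
    by_contra hgg
    refine hx2.1 ⟨g, hg, ?_, ?_, hgg, ?_⟩
    · rw [hgq']; exact hNq'
    · rw [hgq']; exact hqN'
    · rw [hgp', hgq']; exact hxpq
  refine ⟨x, ⟨hxA, hxab⟩, g, hg, ?_, pC_mono n s (min s 1) (min_le_left _ _) g hg hgood, ?_⟩
  · rw [hgq]
    exact_mod_cast (by omega : Q0 ≤ q)
  · rw [hgp', hgq']
    refine hxpq.trans ?_
    exact div_le_div_of_nonneg_left (by norm_num) (by positivity)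
      (pow_le_pow_left₀ hq0.le hqN' 2)

end Pool.Agent.Lib.H42V
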