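import Pool.Agent.Lib.H42V.FAR
import Pool.Agent.Lib.H42V.PC

/-!
# Chunk NX (M/L)
The next stage. (Compare `H70X.next`, S4.)

Proof. `s, Q0` from `far`. Let `a = al n g`, `Y = Yy n w0 g ≤ 1/q^2`. Apply `pick` on `[a + 11Y/10, a + 19Y/10] ⊆ (0,1)` (length `4Y/5`) to `A` = the set of the `x` such that `X^(-(n+ε)) < |tc x v 0|` for all `X ≥ q^(1/(n+1))` and all `v`, not multiples of `pk`, `|v_l| ≤ X`, minus the open interval `(β - Y/100, β + Y/100)`: the complement in the interval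
has measure `≤ Y/10 + Y/50 ≤ (4Y/5)/5`. With `q1 ≥ Q2` very large: `x ∈ A`, `|x - p1/q1| ≤ 4/q1^2`, `|al1 - p1/q1| ≤ 1/(3 q1^2)` (`al_near`), `Y1 = Yy n w1 g1 ≤ 1/q1^2`, so every `x' ∈ Jj n w1 g1` has `|x' - x| ≤ 7/q1^2 ≤ Y/200`. This gives the inclusions and `β ∉ Jj n w1 g1` (`|x - β| ≥ Y/100`).
Let `X ≤ q1^(1/(n+1))`, `v` as in the statement: `|tc x' v 0 - tc x v 0| ≤ (n+1) n X 7/q1^2` (`tc_lip`, `x, x' ∈ [0,1]`), and this is `≤ X^(-(n+ε))/2`, because `X^(n+1+ε) ≤ q1^(3/2)` (`ε ≤ 1 ≤ n`, so `(n+1+ε)/(n+1) ≤ 3/2`) and `14 n (n+1) q1^(3/2) ≤ q1^2` for large `q1`.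
-/

open Polynomial MeasureTheory Set Filter

namespace Pool.Agent.Lib.H42V

/-- The good set for `pick`. -/
def nxA (n : ℕ) (ε : ℝ) (g : Mo) (β r : ℝ) : Set ℝ :=
  {x | ∀ X : ℝ, (g.q : ℝ) ^ (1 / ((n : ℝ) + 1)) ≤ X → ∀ v : Fin (n + 1) → ℤ, ¬ Mul v (pk n g) →
    (∀ l, |(v l : ℝ)| ≤ X) → X ^ (-(n + ε)) < |tc x (rv v) 0|} \ Ioo (β - r) (β + r)

theorem nx_meas (n : ℕ) (w0 ε : ℝ) (g : Mo) (β : ℝ) (hY : 0 < Yy n w0 g)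
    (h : volume {x ∈ Jj n w0 g | ∃ X : ℝ, (g.q : ℝ) ^ (1 / ((n : ℝ) + 1)) ≤ X ∧
        ∃ v : Fin (n + 1) → ℤ,
        ¬ Mul v (pk n g) ∧ (∀ l, |(v l : ℝ)| ≤ X) ∧ |tc x (rv v) 0| ≤ X ^ (-(n + ε))} ≤
        ENNReal.ofReal (Yy n w0 g / 10)) :
    volume (Icc (al n g + 11 * Yy n w0 g / 10) (al n g + 19 * Yy n w0 g / 10) \
      nxA n ε g β (Yy n w0 g / 100)) ≤
      ENNReal.ofReal ((al n g + 19 * Yy n w0 g / 10 - (al n g + 11 * Yy n w0 g / 10)) / 5) := by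
  have hsub : Icc (al n g + 11 * Yy n w0 g / 10) (al n g + 19 * Yy n w0 g / 10) \
      nxA n ε g β (Yy n w0 g / 100) ⊆
      {x ∈ Jj n w0 g | ∃ X : ℝ, (g.q : ℝ) ^ (1 / ((n : ℝ) + 1)) ≤ X ∧
        ∃ v : Fin (n + 1) → ℤ,
        ¬ Mul v (pk n g) ∧ (∀ l, |(v l : ℝ)| ≤ X) ∧ |tc x (rv v) 0| ≤ X ^ (-(n + ε))} ∪
      Ioo (β - Yy n w0 g / 100) (β + Yy n w0 g / 100) := by
    rintro x ⟨hx1, hx2⟩
    by_cases hx3 : x ∈ Ioo (β - Yy n w0 g / 100) (β + Yy n w0 g / 100)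
    · exact Or.inr hx3
    · left
      rw [mem_Icc] at hx1
      refine ⟨⟨by linarith [hx1.1], by linarith [hx1.2]⟩, ?_⟩
      by_contra hcon
      refine hx2 ⟨?_, hx3⟩
      intro X hX v hv hvX
      by_contra hcon2
      exact hcon ⟨X, hX, v, hv, hvX, not_lt.1 hcon2⟩
  refine (measure_mono hsub).trans ((measure_union_le _ _).trans ?_)
  rw [Real.volume_Ioo]
  refine (add_le_add h le_rfl).trans ?_
  rw [← ENNReal.ofReal_add (by positivity) (by linarith)]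
  refine ENNReal.ofReal_le_ofReal ?_
  linarith

theorem nx_pow (n : ℕ) (hn : 1 ≤ n) (ε X Q : ℝ) (hε : 0 < ε) (hε1 : ε ≤ 1) (hX : 1 ≤ X) (hQ : 1 ≤ Q)
    (h : X ≤ Q ^ (1 / ((n : ℝ) + 1))) (hQ2 : (14 * n * (n + 1)) ^ 2 ≤ Q) :
    ((n : ℝ) + 1) * n * X * (7 / Q ^ 2) ≤ X ^ (-(n + ε)) / 2 := by
  have hnR : (1 : ℝ) ≤ n := by exact_mod_cast hn
  have hX0 : 0 < X := by linarith
  have hQ0 : 0 < Q := by linarith
  have h1 : X ^ ((n : ℝ) + 1 + ε) ≤ Q ^ (3 / 2 : ℝ) := by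
    calc X ^ ((n : ℝ) + 1 + ε) ≤ (Q ^ (1 / ((n : ℝ) + 1))) ^ ((n : ℝ) + 1 + ε) :=
          Real.rpow_le_rpow hX0.le h (by positivity)
      _ = Q ^ (1 / ((n : ℝ) + 1) * ((n : ℝ) + 1 + ε)) := by rw [← Real.rpow_mul hQ0.le]
      _ ≤ Q ^ (3 / 2 : ℝ) := by
          refine Real.rpow_le_rpow_of_exponent_le hQ ?_
          rw [div_mul_eq_mul_div, one_mul, div_le_iff₀ (by positivity)]
          linarith
  have h2 : 14 * n * (n + 1) ≤ Q ^ (1 / 2 : ℝ) := by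
    rw [← Real.sqrt_eq_rpow]
    exact Real.le_sqrt_of_sq_le hQ2
  have h3 : Q ^ (3 / 2 : ℝ) * Q ^ (1 / 2 : ℝ) = Q ^ 2 := by
    rw [← Real.rpow_add hQ0, ← Real.rpow_natCast]
    norm_num
  have h4 : X ^ (-(n + ε)) * X ^ ((n : ℝ) + 1 + ε) = X := by
    rw [← Real.rpow_add hX0]
    have : -((n : ℝ) + ε) + (n + 1 + ε) = 1 := by ring
    rw [this, Real.rpow_one]
  have h5 : 0 < X ^ (-(n + ε)) := Real.rpow_pos_of_pos hX0 _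
  have h6 : 14 * (n : ℝ) * (n + 1) * X ^ ((n : ℝ) + 1 + ε) ≤ Q ^ 2 := by
    rw [← h3, mul_comm (Q ^ (3 / 2 : ℝ))]
    exact mul_le_mul h2 h1 (Real.rpow_nonneg hX0.le _) (Real.rpow_nonneg hQ0.le _)
  have h7 : ((n : ℝ) + 1) * n * X * (7 / Q ^ 2) = ((n : ℝ) + 1) * n * X * 7 / Q ^ 2 := by ring
  rw [h7, div_le_iff₀ (by positivity)]
  calc ((n : ℝ) + 1) * n * X * 7 = X ^ (-(n + ε)) / 2 * (14 * (n : ℝ) * (n + 1) *
        X ^ ((n : ℝ) + 1 + ε)) := by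
        rw [← h4]
        have h8 : X ^ (-(n + ε)) * X ^ ((n : ℝ) + 1 + ε) = X := h4
        rw [h4]
        linear_combination (-(7 * (n : ℝ) * (n + 1))) * h4
    _ ≤ X ^ (-(n + ε)) / 2 * Q ^ 2 := mul_le_mul_of_nonneg_left h6 (by positivity)

theorem next (n : ℕ) (hn : 1 ≤ n) (w0 : ℝ) (hw0 : 1 ≤ w0) (ε : ℝ) (hε : 0 < ε) (hε1 : ε ≤ 1) :
    ∃ s : ℝ, 0 < s ∧ s ≤ 1 ∧ ∃ Q0 : ℕ, ∀ g : Mo, g.Ok → (Q0 : ℤ) ≤ g.q → GoodA n s g →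
      0 < al n g + Yy n w0 g → al n g + 2 * Yy n w0 g < 1 →
      ∀ (w1 s1 β : ℝ) (Q1 : ℕ), 1 ≤ w1 → 0 < s1 → ∃ g1 : Mo, g1.Ok ∧ (Q1 : ℤ) ≤ g1.q ∧ GoodA n s1 g1 ∧
        al n g + Yy n w0 g ≤ al n g1 + Yy n w1 g1 ∧ al n g1 + 2 * Yy n w1 g1 ≤ al n g + 2 * Yy n w0 g ∧
        β ∉ Jj n w1 g1 ∧ ∀ x ∈ Jj n w1 g1, ∀ X : ℝ, (g.q : ℝ) ^ (1 / ((n : ℝ) + 1)) ≤ X →
          X ≤ (g1.q : ℝ) ^ (1 / ((n : ℝ) + 1)) → ∀ v : Fin (n + 1) → ℤ, ¬ Mul v (pk n g) →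
            (∀ l, |(v l : ℝ)| ≤ X) → X ^ (-(n + ε)) / 2 ≤ |tc x (rv v) 0| := by
  obtain ⟨s, hs, hs1, Q0, hfar⟩ := far n hn w0 hw0 ε hε hε1
  refine ⟨s, hs, hs1, Q0, ?_⟩
  intro g hg hgQ hgA hlo hhi w1 s1 β Q1 hw1 hs1'
  have hq1 : (1 : ℝ) ≤ g.q := by
    have := hg.qpos
    exact_mod_cast this
  have hq0 : (0 : ℝ) < g.q := by linarith
  obtain ⟨Y, hYe⟩ : ∃ Y : ℝ, Y = Yy n w0 g := ⟨_, rfl⟩
  have hY : 0 < Y := by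
    rw [hYe]
    exact Real.rpow_pos_of_pos hq0 _
  have hmeas := nx_meas n w0 ε g β (hYe ▸ hY) (hfar g hg hgQ hgA)
  obtain ⟨N, hN⟩ := exists_nat_ge (max (1400 / Y) ((14 * n * (n + 1)) ^ 2))
  rw [← hYe] at hmeas hlo hhi ⊢
  obtain ⟨x, ⟨hxA, hxI⟩, g1, hg1, hg1Q, hg1A, hx⟩ := pick n hn (al n g + 11 * Y / 10)
    (al n g + 19 * Y / 10) (by linarith) (by linarith) (by linarith) s1 hs1'
    (nxA n ε g β (Y / 100)) hmeas (max Q1 N)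
  have hQ1 : (Q1 : ℤ) ≤ g1.q := le_trans (by exact_mod_cast le_max_left Q1 N) hg1Q
  have hQN : (N : ℤ) ≤ g1.q := le_trans (by exact_mod_cast le_max_right Q1 N) hg1Q
  have hQNR : (N : ℝ) ≤ g1.q := by exact_mod_cast hQN
  have hr1 : (1 : ℝ) ≤ g1.q := by
    have := hg1.qpos
    exact_mod_cast this
  have hr0 : (0 : ℝ) < g1.q := by linarith
  have hA1 : 1400 / Y ≤ g1.q := (le_max_left _ _).trans (hN.trans hQNR)
  have hA2 : ((14 * n * (n + 1)) ^ 2 : ℝ) ≤ g1.q := (le_max_right _ _).trans (hN.trans hQNR)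
  have hsq : (g1.q : ℝ) ≤ (g1.q : ℝ) ^ 2 := by nlinarith
  have hA3 : 7 / (g1.q : ℝ) ^ 2 ≤ Y / 200 := by
    rw [div_le_iff₀ (by positivity)]
    have h1 : 1400 ≤ g1.q * Y := by
      rw [div_le_iff₀ hY] at hA1
      exact hA1
    nlinarith
  obtain ⟨Y1, hY1e⟩ : ∃ Y1 : ℝ, Y1 = Yy n w1 g1 := ⟨_, rfl⟩
  have hY1 : 0 < Y1 := by
    rw [hY1e]
    exact Real.rpow_pos_of_pos hr0 _
  have hnR : (1 : ℝ) ≤ n := by exact_mod_cast hn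
  have hY1' : Y1 ≤ 1 / (g1.q : ℝ) ^ 2 := by
    have h1 : (1 : ℝ) / (g1.q : ℝ) ^ 2 = (g1.q : ℝ) ^ (-2 : ℝ) := by
      rw [Real.rpow_neg hr0.le, one_div]
      norm_num
    rw [h1, hY1e, Yy]
    refine Real.rpow_le_rpow_of_exponent_le hr1 ?_
    nlinarith
  have hal := al_near n hn g1 hg1
  have hdist : ∀ x' ∈ Jj n w1 g1, |x' - x| ≤ 7 / (g1.q : ℝ) ^ 2 := by
    intro x' hx'
    rw [Jj, ← hY1e, mem_Icc] at hx'
    rw [abs_le] at hal hx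
    have e1 : (7 : ℝ) / (g1.q : ℝ) ^ 2 = 7 * (1 / (g1.q : ℝ) ^ 2) := by ring
    have e2 : (4 : ℝ) / (g1.q : ℝ) ^ 2 = 4 * (1 / (g1.q : ℝ) ^ 2) := by ring
    have e3 : (1 : ℝ) / (3 * (g1.q : ℝ) ^ 2) = 1 / 3 * (1 / (g1.q : ℝ) ^ 2) := by
      field_simp
    have e4 : 0 < 1 / (g1.q : ℝ) ^ 2 := by positivity
    rw [e3] at hal
    rw [e2] at hx
    rw [e1, abs_le]
    constructor
    · linarith [hal.1, hal.2, hx.1, hx.2, hx'.1, hx'.2]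
    · linarith [hal.1, hal.2, hx.1, hx.2, hx'.1, hx'.2]
  have hmemlo : al n g1 + Y1 ∈ Jj n w1 g1 := by
    rw [Jj, ← hY1e, mem_Icc]
    exact ⟨le_rfl, by linarith⟩
  have hmemhi : al n g1 + 2 * Y1 ∈ Jj n w1 g1 := by
    rw [Jj, ← hY1e, mem_Icc]
    exact ⟨by linarith, le_rfl⟩
  rw [mem_Icc] at hxI
  have hin : ∀ x' ∈ Jj n w1 g1, al n g + Y ≤ x' ∧ x' ≤ al n g + 2 * Y := by
    intro x' hx'
    have h1 := (hdist x' hx').trans hA3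
    rw [abs_le] at h1
    constructor
    · linarith [h1.1, h1.2, hxI.1, hxI.2]
    · linarith [h1.1, h1.2, hxI.1, hxI.2]
  refine ⟨g1, hg1, hQ1, hg1A, ?_, ?_, ?_, ?_⟩
  · rw [← hY1e]
    exact (hin _ hmemlo).1
  · rw [← hY1e]
    exact (hin _ hmemhi).2
  · intro hβ
    have h1 := (hdist β hβ).trans hA3
    rw [abs_le] at h1
    refine hxA.2 ⟨?_, ?_⟩
    · linarith [h1.1, h1.2]
    · linarith [h1.1, h1.2]
  · intro x' hx' X hX1 hX2 v hv hvX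
    have h1 : X ^ (-(n + ε)) < |tc x (rv v) 0| := hxA.1 X hX1 v hv hvX
    have hX : 1 ≤ X := (Real.one_le_rpow hq1 (by positivity)).trans hX1
    have h2 := nx_pow n hn ε X g1.q hε hε1 hX hr1 hX2 hA2
    have h3 := hin x' hx'
    have h4 : |tc x' (rv v) 0 - tc x (rv v) 0| ≤ (n + 1) * n * X * |x' - x| :=
      tc_lip x' x X (by rw [abs_le]; constructor <;> linarith [h3.1, h3.2])
        (by rw [abs_le]; constructor <;> linarith [hxI.1, hxI.2]) (by linarith) (rv v)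
        (fun l => hvX l)
    have h5 : ((n : ℝ) + 1) * n * X * |x' - x| ≤ ((n : ℝ) + 1) * n * X * (7 / (g1.q : ℝ) ^ 2) :=
      mul_le_mul_of_nonneg_left (hdist x' hx') (by positivity)
    have h6 : |tc x (rv v) 0| ≤ |tc x' (rv v) 0| + |tc x' (rv v) 0 - tc x (rv v) 0| := by
      have h7 : tc x (rv v) 0 = tc x' (rv v) 0 - (tc x' (rv v) 0 - tc x (rv v) 0) := by ring
      calc |tc x (rv v) 0| = |tc x' (rv v) 0 - (tc x' (rv v) 0 - tc x (rv v) 0)| := by rw [← h7]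
        _ ≤ _ := abs_sub _ _
    linarith

end Pool.Agent.Lib.H42V
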