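import Pool.Agent.Lib.H42V.PK1

/-!
# Chunk PI (M)
`pk n g` is irreducible of degree `n` over `ℤ`.

Proof. Degree: the leading coefficient `pk_last = q'^n - 2 (-q)^n` is not zero (`|.| ≥ 2 q^n`, see the proof of `PK1.pk_bd`; here prove it directly, `n = 1` is possible).
Primitive: as in `PK1.pk_prim`. Irreducible over `ℚ`: `al` is a root (see `PK1.pk_root`), `a0 = (q' al - p')/(p - q al)` and `al = (p a0 + p')/(q a0 + q')`, so
`ℚ⟮al⟯ = ℚ⟮a0⟯`, of degree `n` as `X^n - 2` is irreducible over `ℚ` (Eisenstein at 2, `X_pow_sub_C_irreducible_iff...`, or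
`Polynomial.IsEisensteinAt.irreducible`). So the minimal polynomial of `al` has degree `n` and divides the polynomial, which has degree `n`; a primitive integer polynomial which
is irreducible over `ℚ` is irreducible over `ℤ` (`Polynomial.IsPrimitive.Int.irreducible_iff_irreducible_map_cast`). Alternative without fields: if `pk = A B` with `deg A = a ≥ 1`, `deg B = b ≥ 1`, then
the homogeneous substitution `gm` is multiplicative (`gm_a A * gm_b B = gm_n (A B) = X^n - 2`), so (irreducible) one factor, say `gm_a A`, is a constant `± 1`; the inverse substitution gives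
`A = ± (p - q T)^a`, so `pk(p/q) = 0`; but `pk(p/q) = ((q' p - p' q)/q)^n = q^(-n)`.
-/

open Polynomial MeasureTheory Set Filter

namespace Pool.Agent.Lib.H42V

theorem PI_irrZ (n : ℕ) (hn : 1 ≤ n) : Irreducible (X ^ n - C 2 : ℤ[X]) := by
  have hm : (X ^ n - C 2 : ℤ[X]).Monic := monic_X_pow_sub_C _ (by omega)
  have hd : degree (X ^ n - C 2 : ℤ[X]) = n := degree_X_pow_sub_C (by omega) _
  refine irreducible_of_eisenstein_criterion (P := Ideal.span {(2 : ℤ)}) ?_ ?_ ?_ ?_ ?_
    hm.isPrimitive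
  · rw [Ideal.span_singleton_prime (by norm_num)]
    exact Int.prime_two
  · rw [hm.leadingCoeff, Ideal.mem_span_singleton]
    norm_num
  · intro k hk
    rw [hd] at hk
    have hk' : k < n := by exact_mod_cast hk
    rw [Ideal.mem_span_singleton, coeff_sub, coeff_X_pow, if_neg (by omega), coeff_C]
    split_ifs <;> norm_num
  · rw [hd]
    exact_mod_cast hn
  · rw [coeff_sub, coeff_X_pow, if_neg (by omega), coeff_C_zero, Ideal.span_singleton_pow,
      Ideal.mem_span_singleton]
    norm_num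

theorem PI_irrQ (n : ℕ) (hn : 1 ≤ n) : Irreducible (X ^ n - C 2 : ℚ[X]) := by
  have hm : (X ^ n - C 2 : ℤ[X]).Monic := monic_X_pow_sub_C _ (by omega)
  have h := (hm.irreducible_iff_irreducible_map_fraction_map (K := ℚ)).1 (PI_irrZ n hn)
  have h2 : (X ^ n - C 2 : ℤ[X]).map (algebraMap ℤ ℚ) = (X ^ n - C 2 : ℚ[X]) := by
    rw [Polynomial.map_sub, Polynomial.map_pow, map_X, map_C]
    norm_num
  rwa [h2] at h

theorem PI_int (n : ℕ) (hn : 1 ≤ n) : IsIntegral ℚ (a0 n) := by
  refine ⟨X ^ n - C 2, monic_X_pow_sub_C _ (by omega), ?_⟩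
  simp [(a0_props n hn).1]

theorem PI_min (n : ℕ) (hn : 1 ≤ n) : minpoly ℚ (a0 n) = X ^ n - C 2 := by
  refine (minpoly.eq_of_irreducible_of_monic (PI_irrQ n hn) ?_ (monic_X_pow_sub_C _ (by omega))).symm
  simp [(a0_props n hn).1]

theorem PI_adjoin (n : ℕ) (hn : 1 ≤ n) (g : Mo) (hg : g.Ok) :
    IntermediateField.adjoin ℚ {al n g} = IntermediateField.adjoin ℚ {a0 n} := by
  obtain ⟨_, _, hk⟩ := pk1_kap n hn g hg
  obtain ⟨h1, h2⟩ := pk1_alkap n hn g hg
  refine le_antisymm ?_ ?_
  · rw [IntermediateField.adjoin_simple_le_iff]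
    have ha : a0 n ∈ IntermediateField.adjoin ℚ {a0 n} := IntermediateField.mem_adjoin_simple_self ℚ _
    unfold al
    exact div_mem (add_mem (mul_mem (intCast_mem _ _) ha) (intCast_mem _ _))
      (add_mem (mul_mem (intCast_mem _ _) ha) (intCast_mem _ _))
  · rw [IntermediateField.adjoin_simple_le_iff]
    have ha : al n g ∈ IntermediateField.adjoin ℚ {al n g} := IntermediateField.mem_adjoin_simple_self ℚ _
    have e : a0 n = ((g.q' : ℝ) * al n g - g.p') / ((g.p : ℝ) - g.q * al n g) := by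
      rw [h1, h2, div_div_div_cancel_right₀ hk.ne', div_one]
    rw [e]
    exact div_mem (sub_mem (mul_mem (intCast_mem _ _) ha) (intCast_mem _ _))
      (sub_mem (intCast_mem _ _) (mul_mem (intCast_mem _ _) ha))

theorem PI_int_al (n : ℕ) (hn : 1 ≤ n) (g : Mo) (hg : g.Ok) : IsIntegral ℚ (al n g) := by
  have h1 : al n g ∈ IntermediateField.adjoin ℚ {a0 n} := by
    rw [← PI_adjoin n hn g hg]
    exact IntermediateField.mem_adjoin_simple_self ℚ _
  have : FiniteDimensional ℚ (IntermediateField.adjoin ℚ {a0 n}) :=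
    IntermediateField.adjoin.finiteDimensional (PI_int n hn)
  have h2 : IsIntegral ℚ (⟨al n g, h1⟩ : IntermediateField.adjoin ℚ {a0 n}) := IsIntegral.of_finite ℚ _
  exact h2.map (IntermediateField.adjoin ℚ {a0 n}).val

theorem PI_deg_min (n : ℕ) (hn : 1 ≤ n) (g : Mo) (hg : g.Ok) : (minpoly ℚ (al n g)).natDegree = n := by
  rw [← IntermediateField.adjoin.finrank (PI_int_al n hn g hg), PI_adjoin n hn g hg,
    IntermediateField.adjoin.finrank (PI_int n hn), PI_min n hn, natDegree_X_pow_sub_C]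

theorem PI_coeff (n : ℕ) (g : Mo) (l : Fin (n + 1)) :
    (∑ l : Fin (n + 1), C (pk n g l) * X ^ (l : ℕ) : ℤ[X]).coeff (l : ℕ) = pk n g l := by
  rw [finsetSum_coeff, Finset.sum_eq_single l]
  · simp
  · intro m _ hm
    rw [coeff_C_mul, coeff_X_pow, if_neg, mul_zero]
    intro hh
    exact hm (Fin.ext hh.symm)
  · intro hh
    exact absurd (Finset.mem_univ _) hh

theorem pk_irred (n : ℕ) (hn : 1 ≤ n) (g : Mo) (hg : g.Ok) :
    Irreducible (∑ l : Fin (n + 1), C (pk n g l) * X ^ (l : ℕ) : ℤ[X]) ∧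
      (∑ l : Fin (n + 1), C (pk n g l) * X ^ (l : ℕ) : ℤ[X]).natDegree = n := by
  set P : ℤ[X] := ∑ l : Fin (n + 1), C (pk n g l) * X ^ (l : ℕ) with hP
  have hcoef : ∀ l : Fin (n + 1), P.coeff (l : ℕ) = pk n g l := PI_coeff n g
  have hdeg : P.natDegree ≤ n := by
    rw [hP]
    refine natDegree_sum_le_of_forall_le _ _ fun l _ => ?_
    refine (natDegree_C_mul_X_pow_le _ _).trans ?_
    omega
  have hlast : P.coeff n ≠ 0 := by
    have h1 := hcoef (Fin.last n)
    rw [Fin.val_last] at h1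
    rw [h1]
    intro h0
    have h2 := (pk_bd n hn g hg).2
    rw [h0] at h2
    have hq : (0 : ℝ) < g.q := by exact_mod_cast hg.qpos
    have h3 : (0 : ℝ) < (g.q : ℝ) ^ n := pow_pos hq n
    simp at h2
    linarith
  have hnat : P.natDegree = n := le_antisymm hdeg (le_natDegree_of_ne_zero hlast)
  have hprim : P.IsPrimitive := by
    intro r hr
    rw [C_dvd_iff_dvd_coeff] at hr
    refine pk_prim n hn g hg r fun i => ?_
    rw [← hcoef i]
    exact hr _
  refine ⟨?_, hnat⟩
  rw [Polynomial.IsPrimitive.Int.irreducible_iff_irreducible_map_cast hprim]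
  have hev : aeval (al n g) (P.map (Int.castRingHom ℚ)) = 0 := by
    have h1 := pk_root n hn g hg
    rw [tc_val] at h1
    have h2 : aeval (al n g) P = 0 := by
      rw [hP, map_sum, ← h1]
      refine Finset.sum_congr rfl fun l _ => ?_
      rw [map_mul, map_pow, aeval_X, aeval_C]
      simp [rv, mul_comm]
    have h3 : aeval (al n g) (P.map (algebraMap ℤ ℚ)) = aeval (al n g) P := aeval_map_algebraMap ℚ _ _
    have h4 : (algebraMap ℤ ℚ) = Int.castRingHom ℚ := rfl
    rw [h4] at h3
    rw [h3, h2]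
  obtain ⟨Q, hQ⟩ := minpoly.dvd ℚ (al n g) hev
  have hmon := minpoly.monic (PI_int_al n hn g hg)
  have hPQ : (P.map (Int.castRingHom ℚ)).natDegree = n := by
    rw [natDegree_map_eq_of_injective (Int.cast_injective : Function.Injective (Int.castRingHom ℚ)), hnat]
  have hP0 : P.map (Int.castRingHom ℚ) ≠ 0 := by
    intro h0
    rw [h0, natDegree_zero] at hPQ
    omega
  have hQ0 : Q ≠ 0 := by
    intro h0
    rw [h0, mul_zero] at hQ
    exact hP0 hQ
  have h1 : (P.map (Int.castRingHom ℚ)).natDegree = n + Q.natDegree := by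
    rw [hQ, hmon.natDegree_mul' hQ0, PI_deg_min n hn g hg]
  have h2 : Q.natDegree = 0 := by omega
  have h3 : IsUnit Q := by
    rw [eq_C_of_natDegree_eq_zero h2]
    refine isUnit_C.2 (IsUnit.mk0 _ ?_)
    intro h4
    apply hQ0
    rw [eq_C_of_natDegree_eq_zero h2, h4, C_0]
  rw [hQ, irreducible_mul_isUnit h3]
  exact minpoly.irreducible (PI_int_al n hn g hg)

end Pool.Agent.Lib.H42V
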