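import Pool.Agent.Lib.H42V.GM2

/-!
# Chunk PK1 (M)
Facts on `pk n g` and `al n g`. Write `κ = q a0 + q' ∈ [3 q, 5 q]` (`1 < a0 ≤ 2`, `2 q ≤ q' ≤ 3 q`).

Proofs. `pk_prim`: if `d` divides all `pk_i` then `d` divides all coefficients of `gm g (pk) = F0` (`gm_smul`: `pk = d • v`), one of which is 1.
`pk_bd`: `p' = (p q' - 1)/q`, so `|p'| ≤ 3 q`; `|pk_l| ≤ 2^n (3^n q^n + 2 q^n) ≤ 4 * 6^n q^n`. `pk_last = q'^n - 2 (-q)^n`: for even `n` (so `n ≥ 2`)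
it is `≥ (2^n - 2) q^n ≥ 2 q^n`, for odd `n` it is `≥ 2 q^n`.
`al_near`: `al - p/q = (p' q - p q')/(q κ) = -1/(q κ)`. `al_le`: `0 ≤ p/q ≤ 1`, `1/(3 q^2) ≤ 1/3`.
`pk_root`: `pk(T) = (q' T - p')^n - 2 (p - q T)^n` and at `T = al`: `q' al - p' = a0/κ`, `p - q al = 1/κ`.
`pk_der`: the first Taylor coefficient is the derivative `n q' (q' T - p')^(n-1) + 2 n q (p - q T)^(n-1)` at `al`, i.e.
`κ^(1-n) n (q' a0^(n-1) + 2 q) ≥ (5 q)^(1-n) 4 q`; multiply by `q^n 5^n`: `≥ 20 q^2`. `pk_tc`: `tc_le` with `pk_bd` (`4 * 6^n (n+1) 6^n ≤ (n+1) 4 * 36^n`).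
-/

open Polynomial MeasureTheory Set Filter

namespace Pool.Agent.Lib.H42V

theorem pk1_real (g : Mo) (hg : g.Ok) : (0 : ℝ) < g.q ∧ (1 : ℝ) ≤ g.q ∧
    (g.p : ℝ) * g.q' - g.p' * g.q = 1 ∧ 2 * (g.q : ℝ) ≤ g.q' ∧ (g.q' : ℝ) ≤ 3 * g.q ∧
    (0 : ℝ) ≤ g.p ∧ (g.p : ℝ) ≤ g.q := by
  have h1 := hg.qpos
  have h2 := hg.det
  have h3 := hg.lo
  have h4 := hg.hi
  have h5 := hg.p0
  have h6 := hg.p1
  refine ⟨by exact_mod_cast h1, by exact_mod_cast h1, by exact_mod_cast h2, by exact_mod_cast h3,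
    by exact_mod_cast h4, by exact_mod_cast h5, by exact_mod_cast h6⟩

theorem pk1_kap (n : ℕ) (hn : 1 ≤ n) (g : Mo) (hg : g.Ok) :
    3 * (g.q : ℝ) ≤ g.q * a0 n + g.q' ∧ (g.q : ℝ) * a0 n + g.q' ≤ 5 * g.q ∧
      0 < (g.q : ℝ) * a0 n + g.q' := by
  obtain ⟨h1, h2, h3, h4, h5, h6, h7⟩ := pk1_real g hg
  obtain ⟨_, ha, hb⟩ := a0_props n hn
  refine ⟨by nlinarith, by nlinarith, by nlinarith⟩

theorem pk1_alkap (n : ℕ) (hn : 1 ≤ n) (g : Mo) (hg : g.Ok) :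
    g.q' * al n g - g.p' = a0 n / (g.q * a0 n + g.q') ∧
      g.p - g.q * al n g = 1 / (g.q * a0 n + g.q') := by
  obtain ⟨h1, h2, h3, h4, h5, h6, h7⟩ := pk1_real g hg
  obtain ⟨_, _, hk⟩ := pk1_kap n hn g hg
  have hk' := hk.ne'
  constructor
  · have e : (g.q' : ℝ) * al n g - g.p' = (g.q' * (g.p * a0 n + g.p') -
        g.p' * (g.q * a0 n + g.q')) / (g.q * a0 n + g.q') := by
      rw [al, sub_div, mul_div_assoc, mul_div_cancel_right₀ _ hk']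
    rw [e]
    congr 1
    linear_combination (a0 n) * h3
  · have e : (g.p : ℝ) - g.q * al n g = (g.p * (g.q * a0 n + g.q') -
        g.q * (g.p * a0 n + g.p')) / (g.q * a0 n + g.q') := by
      rw [al, sub_div, mul_div_cancel_right₀ _ hk', mul_div_assoc]
    rw [e]
    congr 1
    linear_combination h3

theorem pk1_alp (n : ℕ) (hn : 1 ≤ n) (g : Mo) (hg : g.Ok) :
    al n g = (g.p : ℝ) / g.q - 1 / (g.q * (g.q * a0 n + g.q')) := by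
  obtain ⟨h1, h2, h3, h4, h5, h6, h7⟩ := pk1_real g hg
  obtain ⟨_, _, hk⟩ := pk1_kap n hn g hg
  have hk' := hk.ne'
  have hq' := h1.ne'
  have h8 := (pk1_alkap n hn g hg).2
  have h9 : al n g = ((g.p : ℝ) - 1 / (g.q * a0 n + g.q')) / g.q := by
    rw [eq_div_iff hq']
    linarith
  rw [h9, sub_div, div_div, mul_comm (g.q * a0 n + g.q' : ℝ) (g.q : ℝ)]

theorem pk1_sum0 (n : ℕ) (x a b : ℝ) :
    ∑ l : Fin (n + 1), x ^ (l : ℕ) * ((n.choose (l : ℕ) : ℝ) * (a ^ (l : ℕ) * b ^ (n - (l : ℕ)))) =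
      (a * x + b) ^ n := by
  rw [add_pow, Fin.sum_univ_eq_sum_range
    (fun l => x ^ l * ((n.choose l : ℝ) * (a ^ l * b ^ (n - l)))) (n + 1)]
  refine Finset.sum_congr rfl fun l _ => ?_
  rw [mul_pow]
  ring

theorem pk1_sum1 (m : ℕ) (x a b : ℝ) :
    ∑ l : Fin (m + 1 + 1), ((l : ℕ).choose 1 : ℝ) * x ^ ((l : ℕ) - 1) *
      (((m + 1).choose (l : ℕ) : ℝ) * (a ^ (l : ℕ) * b ^ (m + 1 - (l : ℕ)))) =
      (m + 1) * a * (a * x + b) ^ m := by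
  rw [Fin.sum_univ_succ, ← pk1_sum0 m x a b, Finset.mul_sum]
  simp only [Fin.val_zero, Nat.choose_one_right, Nat.cast_zero, zero_mul, zero_add, Fin.val_succ]
  refine Finset.sum_congr rfl fun l _ => ?_
  have h1 : ((m + 1 : ℕ) : ℝ) * (m.choose (l : ℕ) : ℝ) =
      ((m + 1).choose ((l : ℕ) + 1) : ℝ) * (((l : ℕ) + 1 : ℕ) : ℝ) := by
    have := Nat.add_one_mul_choose_eq m (l : ℕ)
    exact_mod_cast this
  have h2 : m + 1 - ((l : ℕ) + 1) = m - (l : ℕ) := by omega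
  have h3 : (l : ℕ) + 1 - 1 = (l : ℕ) := by omega
  rw [h2, h3, pow_succ]
  push_cast at h1 ⊢
  linear_combination (-(x ^ (l : ℕ) * a ^ (l : ℕ) * a * b ^ (m - (l : ℕ)))) * h1

theorem pk1_rv (n : ℕ) (g : Mo) (l : Fin (n + 1)) :
    rv (pk n g) l = (n.choose (l : ℕ) : ℝ) * ((g.q' : ℝ) ^ (l : ℕ) * (-(g.p' : ℝ)) ^ (n - (l : ℕ))) -
      2 * ((n.choose (l : ℕ) : ℝ) * ((-(g.q : ℝ)) ^ (l : ℕ) * (g.p : ℝ) ^ (n - (l : ℕ)))) := by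
  rw [rv, pk]
  push_cast
  ring

theorem pk1_eval (n : ℕ) (g : Mo) (x : ℝ) : tc x (rv (pk n g)) 0 =
    ((g.q' : ℝ) * x - g.p') ^ n - 2 * (g.p - g.q * x) ^ n := by
  rw [tc_val]
  have h1 : ∀ l : Fin (n + 1), x ^ (l : ℕ) * rv (pk n g) l =
      x ^ (l : ℕ) * ((n.choose (l : ℕ) : ℝ) * ((g.q' : ℝ) ^ (l : ℕ) * (-(g.p' : ℝ)) ^ (n - (l : ℕ)))) -
      2 * (x ^ (l : ℕ) * ((n.choose (l : ℕ) : ℝ) *
        ((-(g.q : ℝ)) ^ (l : ℕ) * (g.p : ℝ) ^ (n - (l : ℕ))))) := by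
    intro l
    rw [pk1_rv]
    ring
  rw [Finset.sum_congr rfl fun l _ => h1 l, Finset.sum_sub_distrib, ← Finset.mul_sum, pk1_sum0,
    pk1_sum0]
  ring

theorem pk1_eval1 (m : ℕ) (g : Mo) (x : ℝ) : tc x (rv (pk (m + 1) g)) 1 =
    (m + 1) * g.q' * ((g.q' : ℝ) * x - g.p') ^ m + 2 * (m + 1) * g.q * (g.p - g.q * x) ^ m := by
  rw [tc]
  have h1 : ∀ l : Fin (m + 1 + 1), ((l : ℕ).choose 1 : ℝ) * x ^ ((l : ℕ) - 1) * rv (pk (m + 1) g) l =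
      ((l : ℕ).choose 1 : ℝ) * x ^ ((l : ℕ) - 1) * (((m + 1).choose (l : ℕ) : ℝ) *
        ((g.q' : ℝ) ^ (l : ℕ) * (-(g.p' : ℝ)) ^ (m + 1 - (l : ℕ)))) -
      2 * (((l : ℕ).choose 1 : ℝ) * x ^ ((l : ℕ) - 1) * (((m + 1).choose (l : ℕ) : ℝ) *
        ((-(g.q : ℝ)) ^ (l : ℕ) * (g.p : ℝ) ^ (m + 1 - (l : ℕ))))) := by
    intro l
    rw [pk1_rv]
    ring
  rw [Finset.sum_congr rfl fun l _ => h1 l, Finset.sum_sub_distrib, ← Finset.mul_sum, pk1_sum1,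
    pk1_sum1]
  ring

theorem pk_prim (n : ℕ) (hn : 1 ≤ n) (g : Mo) (hg : g.Ok) (d : ℤ) (h : ∀ i, d ∣ pk n g i) : IsUnit d := by
  have h1 : ∃ v : Fin (n + 1) → ℤ, pk n g = d • v := by
    choose v hv using h
    refine ⟨v, ?_⟩
    funext i
    rw [hv i]
    simp
  obtain ⟨v, hv⟩ := h1
  have h2 := gm_pk n hn g hg
  rw [hv, gm_smul] at h2
  have h3 := congrFun h2 (Fin.last n)
  rw [Pi.smul_apply, F0, smul_eq_mul] at h3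
  simp only [Fin.val_last, if_true] at h3
  exact IsUnit.of_mul_eq_one _ h3

theorem pk_bd (n : ℕ) (hn : 1 ≤ n) (g : Mo) (hg : g.Ok) :
    (∀ l, |(pk n g l : ℝ)| ≤ 4 * 6 ^ n * (g.q : ℝ) ^ n) ∧ 2 * (g.q : ℝ) ^ n ≤ |(pk n g (Fin.last n) : ℝ)| := by
  obtain ⟨h1, h2, h3, h4, h5, h6, h7⟩ := pk1_real g hg
  have hp' : |(g.p' : ℝ)| ≤ 3 * g.q := by
    rw [abs_le]
    constructor
    · by_contra hc
      push Not at hc
      nlinarith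
    · by_contra hc
      push Not at hc
      nlinarith
  have hqn : (0 : ℝ) < (g.q : ℝ) ^ n := by positivity
  constructor
  · intro l
    have hl : (l : ℕ) ≤ n := by omega
    have e1 : (pk n g l : ℝ) = rv (pk n g) l := rfl
    have hsplit : ∀ c : ℝ, c ^ (l : ℕ) * c ^ (n - (l : ℕ)) = c ^ n := by
      intro c
      rw [← pow_add, Nat.add_sub_cancel' hl]
    have hA : |(g.q' : ℝ) ^ (l : ℕ) * (-(g.p' : ℝ)) ^ (n - (l : ℕ))| ≤ 3 ^ n * (g.q : ℝ) ^ n := by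
      rw [abs_mul, abs_pow, abs_pow, abs_neg, ← mul_pow, ← hsplit (3 * (g.q : ℝ))]
      have hq' : |(g.q' : ℝ)| ≤ 3 * g.q := by
        rw [abs_le]; constructor <;> linarith
      gcongr
    have hB : |(-(g.q : ℝ)) ^ (l : ℕ) * (g.p : ℝ) ^ (n - (l : ℕ))| ≤ (g.q : ℝ) ^ n := by
      rw [abs_mul, abs_pow, abs_pow, abs_neg, abs_of_pos h1, abs_of_nonneg h6, ← hsplit (g.q : ℝ)]
      gcongr
    have hC : (n.choose (l : ℕ) : ℝ) ≤ 2 ^ n := by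
      exact_mod_cast Nat.choose_le_two_pow n l
    have h30 : (1 : ℝ) ≤ 3 ^ n := one_le_pow₀ (by norm_num)
    have e2 : rv (pk n g) l = (n.choose (l : ℕ) : ℝ) *
        ((g.q' : ℝ) ^ (l : ℕ) * (-(g.p' : ℝ)) ^ (n - (l : ℕ)) -
          2 * ((-(g.q : ℝ)) ^ (l : ℕ) * (g.p : ℝ) ^ (n - (l : ℕ)))) := by
      rw [pk1_rv]; ring
    rw [e1, e2, abs_mul, abs_of_nonneg (Nat.cast_nonneg _)]
    have hD : |(g.q' : ℝ) ^ (l : ℕ) * (-(g.p' : ℝ)) ^ (n - (l : ℕ)) -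
          2 * ((-(g.q : ℝ)) ^ (l : ℕ) * (g.p : ℝ) ^ (n - (l : ℕ)))| ≤
        3 ^ n * (g.q : ℝ) ^ n + 2 * (g.q : ℝ) ^ n := by
      refine (abs_sub _ _).trans ?_
      rw [abs_mul (2 : ℝ), abs_two]
      linarith
    calc (n.choose (l : ℕ) : ℝ) * _ ≤ 2 ^ n * (3 ^ n * (g.q : ℝ) ^ n + 2 * (g.q : ℝ) ^ n) := by
          gcongr
      _ ≤ 2 ^ n * (3 ^ n * (g.q : ℝ) ^ n + 3 * 3 ^ n * (g.q : ℝ) ^ n) := by
          gcongr
          linarith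
      _ = 4 * 6 ^ n * (g.q : ℝ) ^ n := by
          rw [show (6 : ℝ) = 2 * 3 by norm_num, mul_pow]
          ring
  · have e1 : (pk n g (Fin.last n) : ℝ) = (g.q' : ℝ) ^ n - 2 * (-(g.q : ℝ)) ^ n := by
      have := pk1_rv n g (Fin.last n)
      rw [rv] at this
      rw [this]
      simp
    rw [e1]
    have hq1 : (0 : ℝ) < g.q' := by linarith
    refine le_trans ?_ (le_abs_self _)
    rcases Nat.even_or_odd n with he | ho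
    · rw [he.neg_pow]
      have hn2 : 2 ≤ n := by
        obtain ⟨k, hk⟩ := he
        omega
      have h8 : (4 : ℝ) ≤ 2 ^ n := by
        calc (4 : ℝ) = 2 ^ 2 := by norm_num
          _ ≤ 2 ^ n := pow_le_pow_right₀ (by norm_num) hn2
      have h9 : (2 : ℝ) ^ n * (g.q : ℝ) ^ n ≤ (g.q' : ℝ) ^ n := by
        rw [← mul_pow]
        gcongr
      nlinarith
    · rw [ho.neg_pow]
      have h9 : (0 : ℝ) ≤ (g.q' : ℝ) ^ n := by positivity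
      linarith

theorem al_near (n : ℕ) (hn : 1 ≤ n) (g : Mo) (hg : g.Ok) :
    |al n g - (g.p : ℝ) / g.q| ≤ 1 / (3 * (g.q : ℝ) ^ 2) := by
  obtain ⟨h1, h2, h3, h4, h5, h6, h7⟩ := pk1_real g hg
  obtain ⟨hk1, _, hk⟩ := pk1_kap n hn g hg
  rw [pk1_alp n hn g hg, sub_sub_cancel_left, abs_neg, abs_of_pos (by positivity)]
  apply one_div_le_one_div_of_le (by positivity)
  nlinarith

theorem al_le (n : ℕ) (hn : 1 ≤ n) (g : Mo) (hg : g.Ok) : |al n g| ≤ 1 := by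
  obtain ⟨h1, h2, h3, h4, h5, h6, h7⟩ := pk1_real g hg
  obtain ⟨hk1, _, hk⟩ := pk1_kap n hn g hg
  have h8 : 0 ≤ (g.p : ℝ) / g.q := by positivity
  have h9 : (g.p : ℝ) / g.q ≤ 1 := (div_le_one h1).2 h7
  have h10 : 1 / (g.q * (g.q * a0 n + g.q')) ≤ (1 : ℝ) := by
    rw [div_le_one (by positivity)]
    nlinarith
  have h11 : 0 < 1 / (g.q * (g.q * a0 n + g.q')) := by positivity
  rw [pk1_alp n hn g hg, abs_le]
  constructor <;> linarith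

theorem pk_root (n : ℕ) (hn : 1 ≤ n) (g : Mo) (hg : g.Ok) : tc (al n g) (rv (pk n g)) 0 = 0 := by
  obtain ⟨h1, h2⟩ := pk1_alkap n hn g hg
  obtain ⟨_, _, hk⟩ := pk1_kap n hn g hg
  rw [pk1_eval, h1, h2, div_pow, div_pow, (a0_props n hn).1, one_pow]
  ring

theorem pk_der (n : ℕ) (hn : 1 ≤ n) (g : Mo) (hg : g.Ok) :
    (g.q : ℝ) ^ 2 ≤ 5 ^ n * (g.q : ℝ) ^ n * |tc (al n g) (rv (pk n g)) 1| := by
  obtain ⟨h1, h2, h3, h4, h5, h6, h7⟩ := pk1_real g hg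
  obtain ⟨_, hk1, hk⟩ := pk1_kap n hn g hg
  obtain ⟨ha, hb⟩ := pk1_alkap n hn g hg
  obtain ⟨_, ha1, ha2⟩ := a0_props n hn
  obtain ⟨m, rfl⟩ : ∃ m, n = m + 1 := ⟨n - 1, by omega⟩
  rw [pk1_eval1, ha, hb, div_pow, div_pow, one_pow]
  set κ : ℝ := g.q * a0 (m + 1) + g.q' with hκ
  have hκm : (0 : ℝ) < κ ^ m := by positivity
  have hκ5 : κ ^ m ≤ (5 * (g.q : ℝ)) ^ m := by gcongr
  have hA1 : (1 : ℝ) ≤ a0 (m + 1) ^ m := one_le_pow₀ ha1.le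
  have e1 : ((m : ℝ) + 1) * g.q' * (a0 (m + 1) ^ m / κ ^ m) + 2 * (m + 1) * g.q * (1 / κ ^ m) =
      ((m : ℝ) + 1) * (g.q' * a0 (m + 1) ^ m + 2 * g.q) / κ ^ m := by
    field_simp
  rw [e1]
  have hnum : 4 * (g.q : ℝ) ≤ ((m : ℝ) + 1) * (g.q' * a0 (m + 1) ^ m + 2 * g.q) := by
    have h8 : 4 * (g.q : ℝ) ≤ g.q' * a0 (m + 1) ^ m + 2 * g.q := by nlinarith
    have h9 : (0 : ℝ) ≤ m := Nat.cast_nonneg m
    nlinarith
  have hpos : 0 < ((m : ℝ) + 1) * (g.q' * a0 (m + 1) ^ m + 2 * g.q) / κ ^ m := by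
    apply div_pos _ hκm
    linarith
  rw [abs_of_pos hpos, ← mul_div_assoc, le_div_iff₀ hκm]
  have h10 : (5 * (g.q : ℝ)) ^ m * (5 * g.q) = 5 ^ (m + 1) * (g.q : ℝ) ^ (m + 1) := by
    rw [← pow_succ, mul_pow]
  rw [← h10]
  have h11 : (0 : ℝ) < (5 * (g.q : ℝ)) ^ m := by positivity
  calc (g.q : ℝ) ^ 2 * κ ^ m ≤ (g.q : ℝ) ^ 2 * (5 * (g.q : ℝ)) ^ m := by gcongr
    _ ≤ (5 * (g.q : ℝ)) ^ m * (5 * g.q) * (4 * g.q) := by nlinarith [mul_pos h11 (mul_pos h1 h1)]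
    _ ≤ (5 * (g.q : ℝ)) ^ m * (5 * g.q) * (((m : ℝ) + 1) * (g.q' * a0 (m + 1) ^ m + 2 * g.q)) := by
        gcongr

theorem pk_tc (n : ℕ) (hn : 1 ≤ n) (g : Mo) (hg : g.Ok) (i : ℕ) :
    |tc (al n g) (rv (pk n g)) i| ≤ (n + 1) * (4 * 36 ^ n) * (g.q : ℝ) ^ n := by
  have h1 := tc_le (al n g) (4 * 6 ^ n * (g.q : ℝ) ^ n) ((al_le n hn g hg).trans (by norm_num))
    (by have := (pk1_real g hg).1; positivity) (rv (pk n g)) (pk_bd n hn g hg).1 i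
  refine h1.trans (le_of_eq ?_)
  rw [show (36 : ℝ) = 6 * 6 by norm_num, mul_pow]
  ring

end Pool.Agent.Lib.H42V
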