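import Pool.Agent.Lib.H42V.Defs

/-!
# Chunk PLU (M)
A Pluecker relation. Pure linear algebra (`f = w 0`).

Proof. The `(i+2) × (i+2)` matrix with the rows `f, f, w_1, ..., w_i` and the columns `tc a . 1, tc a . n, tc a . (I 0), ..., tc a . (I (i-1))` has two equal rows. Laplace expansion along the first row: `tc a f 1 * Da w (last, I) - tc a f n * Da w (1, I) + ∑_t ± tc a f (I t) * Da w (1, last, I without t) = 0`,
where `(1, I)` are the columns `1, I 0, ...`. So `|tc a f 1| |Da w (last, I)| ≤ (i + 1) K max`, the maximum over the `i + 1` other minors, all of the form `Da w (1, J)`, with `J = I` or `J = (last, I without t)`; `J` has no value 0 (`last ≠ 0` as `n ≥ 1`).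
The index 1 is `⟨1, _⟩ : Fin (n+1)`.
-/

open Polynomial MeasureTheory Set Filter

namespace Pool.Agent.Lib.H42V

theorem pluecker {n i : ℕ} (hn : 1 ≤ n) (a K : ℝ) (w : Fin (i + 1) → Fin (n + 1) → ℝ) (hK : ∀ m : ℕ, |tc a (w 0) m| ≤ K)
    (I : Fin i → Fin (n + 1)) (hI : ∀ t, I t ≠ 0) : ∃ J : Fin i → Fin (n + 1), (∀ t, J t ≠ 0) ∧
      |tc a (w 0) 1| * |Da a w (Fin.cons (Fin.last n) I)| ≤
        (i + 1) * K * |Da a w (Fin.cons (⟨1, by omega⟩ : Fin (n + 1)) J)| := by
  have hK0 : 0 ≤ K := (abs_nonneg _).trans (hK 0)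
  set one : Fin (n + 1) := ⟨1, by omega⟩ with hone
  set L : Fin (i + 1) → Fin (n + 1) := Fin.cons (Fin.last n) I with hL
  have hL0 : ∀ k, L k ≠ 0 := by
    intro k
    refine Fin.cases ?_ (fun t => ?_) k
    · show Fin.last n ≠ 0
      intro h
      have h1 := congrArg Fin.val h
      rw [Fin.val_last, Fin.val_zero] at h1
      omega
    · exact hI t
  let J : Fin (i + 1) → Fin i → Fin (n + 1) := fun k t => L (k.succAbove t)
  let M : Matrix (Fin (i + 2)) (Fin (i + 2)) ℝ := Matrix.of fun s t =>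
    tc a ((Fin.cons (w 0) w : Fin (i + 2) → Fin (n + 1) → ℝ) s)
      ((Fin.cons one L : Fin (i + 2) → Fin (n + 1)) t : ℕ)
  have hdet : M.det = 0 := by
    refine Matrix.det_zero_of_row_eq (i := 0) (j := 1) ?_ rfl
    intro h
    have h1 := congrArg Fin.val h
    simp at h1
  have e0 : (M.submatrix Fin.succ (Fin.succAbove 0)).det = Da a w L := by
    unfold Da
    congr 1
  have ek : ∀ k : Fin (i + 1), (M.submatrix Fin.succ (Fin.succAbove k.succ)).det =
      Da a w (Fin.cons one (J k)) := by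
    intro k
    unfold Da
    congr 1
    ext s t
    refine Fin.cases ?_ (fun t => ?_) t
    · rw [Matrix.submatrix_apply, Fin.succ_succAbove_zero]
      rfl
    · rw [Matrix.submatrix_apply, Fin.succ_succAbove_succ]
      rfl
  rw [Matrix.det_succ_row_zero, Fin.sum_univ_succ, e0] at hdet
  simp only [ek] at hdet
  have hM00 : M 0 0 = tc a (w 0) 1 := rfl
  have hM0k : ∀ k : Fin (i + 1), M 0 k.succ = tc a (w 0) (L k : ℕ) := fun k => rfl
  simp only [hM00, hM0k] at hdet
  rw [Fin.val_zero, pow_zero, one_mul] at hdet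
  obtain ⟨k, hk⟩ := Finite.exists_max fun k : Fin (i + 1) => |Da a w (Fin.cons one (J k))|
  refine ⟨J k, fun t => hL0 _, ?_⟩
  rw [← abs_mul]
  have h1 : tc a (w 0) 1 * Da a w L = -∑ k : Fin (i + 1), (-1) ^ ((k.succ : Fin (i + 2)) : ℕ) *
      tc a (w 0) (L k : ℕ) * Da a w (Fin.cons one (J k)) := by linarith
  rw [h1, abs_neg]
  refine (Finset.abs_sum_le_sum_abs _ _).trans ?_
  calc ∑ k' : Fin (i + 1), |(-1) ^ ((k'.succ : Fin (i + 2)) : ℕ) *
      tc a (w 0) (L k' : ℕ) * Da a w (Fin.cons one (J k'))|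
      ≤ ∑ k' : Fin (i + 1), K * |Da a w (Fin.cons one (J k))| := by
        refine Finset.sum_le_sum fun k' _ => ?_
        rw [abs_mul, abs_mul, abs_pow, abs_neg, abs_one, one_pow, one_mul]
        exact mul_le_mul (hK _) (hk k') (abs_nonneg _) hK0
    _ = (i + 1) * K * |Da a w (Fin.cons one (J k))| := by
        rw [Finset.sum_const, Finset.card_univ, Fintype.card_fin, nsmul_eq_mul]
        push_cast
        ring

end Pool.Agent.Lib.H42V
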