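import Pool.Agent.Lib.H42V.U1
import Pool.Agent.Lib.H42V.LIP
import Pool.Agent.Lib.H70X.QL5

/-!
# Chunk QD1 (M)
The measure of the bad `θ`, first range.

Proof. Constants `c` of `sup1 n`, `C0, α` of `H70X.qnd (n+1) (2*n)`. Apply it to `h1 n N Z` on `[0,1]`, `ρ = c` (`h1_deg`, `h1_det`: the determinant is not 0). If `2 + t^2 ∈ Bad1 n N Z ε` with `w`, then `|ev t w 0| = Z^n/N^n |tc a0 w 0| ≤ ε` and
`|ev t w i.succ| ≤ ε` (`ev_h1_zero`, `ev_h1_succ`), so `(n+1) ∑ |ev| ≤ (n+1)^2 ε < ε' := 2 (n+1)^2 ε`. If `ε' ≤ c`: volume of these `t` is `≤ C0 (ε'/c)^α`; then `image_sq`, `sub_image_sq`: `volume (Bad1 ∩ [2,3]) ≤ 2 C0 (2 (n+1)^2/c)^α ε^α`. If `ε' > c` the volume is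
`≤ 1 ≤ (ε'/c)^α`.
-/

open Polynomial MeasureTheory Set Filter

namespace Pool.Agent.Lib.H42V

/-- the values of the matrix are small at a bad point -/
theorem qd1_small (n : ℕ) (N Z ε t : ℝ) (hN : 0 < N) (hZ : 0 < Z) (w : Fin (n + 1) → ℤ)
    (h0 : |tc (a0 n) (rv w) 0| ≤ ε * (N ^ n / Z ^ n))
    (h1' : ∀ i : ℕ, i ≤ n → |tc (-(2 + t ^ 2)) (rv w) i| ≤ ε * (Z * N ^ (2 * i) / N ^ n))
    (i : Fin (n + 1)) : |H70X.ev (h1 n N Z) t w i| ≤ ε := by
  refine Fin.cases ?_ (fun i => ?_) i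
  · rw [ev_h1_zero, abs_mul, abs_of_pos (by positivity : (0 : ℝ) < Z ^ n / N ^ n)]
    calc Z ^ n / N ^ n * |tc (a0 n) (rv w) 0| ≤ Z ^ n / N ^ n * (ε * (N ^ n / Z ^ n)) :=
          mul_le_mul_of_nonneg_left h0 (by positivity)
      _ = ε := by field_simp
  · rw [ev_h1_succ, abs_mul,
      abs_of_pos (by positivity : (0 : ℝ) < N ^ n / (Z * N ^ (2 * (i : ℕ))))]
    calc N ^ n / (Z * N ^ (2 * (i : ℕ))) * |tc (-(2 + t ^ 2)) (rv w) (i : ℕ)|
        ≤ N ^ n / (Z * N ^ (2 * (i : ℕ))) * (ε * (Z * N ^ (2 * (i : ℕ)) / N ^ n)) :=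
          mul_le_mul_of_nonneg_left (h1' _ i.2.le) (by positivity)
      _ = ε := by field_simp

theorem bad1_measure (n : ℕ) (hn : 1 ≤ n) : ∃ C α : ℝ, 0 < C ∧ 0 < α ∧ ∀ N Z ε : ℝ, 1 ≤ N → 1 ≤ Z → Z ≤ N ^ n →
    0 < ε → volume (Bad1 n N Z ε ∩ Icc 2 3) ≤ ENNReal.ofReal (C * ε ^ α) := by
  obtain ⟨C0, α, hC0, hα, hq⟩ := H70X.qnd (n + 1) (2 * n)
  obtain ⟨c, hc, hc1, hs⟩ := sup1 n hn
  set K : ℝ := 2 * ((n : ℝ) + 1) ^ 2 with hK
  have hK0 : 0 < K := by positivity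
  refine ⟨2 * ((C0 + 1) * (K / c) ^ α), α, by positivity, hα, ?_⟩
  intro N Z ε hN hZ hZN hε
  set T : Set ℝ := {t ∈ Icc (0 : ℝ) 1 | 2 + t ^ 2 ∈ Bad1 n N Z ε} with hT
  have hT01 : T ⊆ Icc 0 1 := fun t ht => ht.1
  have hsub : T ⊆ {x ∈ Icc (0 : ℝ) 1 | ∃ u : Fin (n + 1) → ℤ, u ≠ 0 ∧
      ((n + 1 : ℕ) : ℝ) * ∑ i, |H70X.ev (h1 n N Z) x u i| < K * ε} := by
    rintro t ⟨ht, w, hw, h0, h1'⟩
    refine ⟨ht, w, hw, ?_⟩
    have hi := qd1_small n N Z ε t (by linarith) (by linarith) w h0 h1'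
    have hsum : ∑ i, |H70X.ev (h1 n N Z) t w i| ≤ ((n : ℝ) + 1) * ε := by
      have := Finset.sum_le_card_nsmul (Finset.univ : Finset (Fin (n + 1)))
        (fun i => |H70X.ev (h1 n N Z) t w i|) ε (fun i _ => hi i)
      rw [Finset.card_univ, Fintype.card_fin, nsmul_eq_mul] at this
      push_cast at this
      exact this
    have hn1 : (0 : ℝ) < (n : ℝ) + 1 := by positivity
    push_cast
    calc ((n : ℝ) + 1) * ∑ i, |H70X.ev (h1 n N Z) t w i| ≤ ((n : ℝ) + 1) * (((n : ℝ) + 1) * ε) :=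
          mul_le_mul_of_nonneg_left hsum hn1.le
      _ < K * ε := by
          rw [hK]
          have h2 : 0 < ((n : ℝ) + 1) ^ 2 * ε := by positivity
          nlinarith
  have hvol : volume T ≤ ENNReal.ofReal ((C0 + 1) * (K * ε / c) ^ α) := by
    rcases le_or_gt (K * ε) c with hle | hgt
    · have h1 := hq (h1 n N Z) 0 1 c (K * ε) (fun i j => h1_deg n N Z i j)
        (fun x hx => by
          have := h1_det n hn N Z x (by linarith) (by linarith)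
          rw [hx, abs_zero] at this
          linarith)
        zero_lt_one (by positivity) hle hc1
        (fun j hj v hv => hs N Z hN hZ hZN j hj v hv)
      refine (measure_mono hsub).trans (h1.trans ?_)
      apply ENNReal.ofReal_le_ofReal
      have h3 : 0 ≤ (K * ε / c) ^ α := by positivity
      nlinarith
    · refine (measure_mono hT01).trans ?_
      rw [Real.volume_Icc]
      apply ENNReal.ofReal_le_ofReal
      have h3 : 1 ≤ (K * ε / c) ^ α := by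
        apply Real.one_le_rpow _ hα.le
        rw [le_div_iff₀ hc]
        linarith
      nlinarith
  have hfin : volume (Bad1 n N Z ε ∩ Icc 2 3) ≤ 2 * volume T :=
    (measure_mono (sub_image_sq (Bad1 n N Z ε))).trans (image_sq T hT01)
  refine hfin.trans ?_
  have h4 : (K * ε / c) ^ α = (K / c) ^ α * ε ^ α := by
    rw [← Real.mul_rpow (by positivity) hε.le]
    congr 1
    ring
  calc 2 * volume T ≤ 2 * ENNReal.ofReal ((C0 + 1) * (K * ε / c) ^ α) := by gcongr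
    _ = ENNReal.ofReal (2 * ((C0 + 1) * (K / c) ^ α) * ε ^ α) := by
        rw [h4, show (2 : ℝ) * ((C0 + 1) * (K / c) ^ α) * ε ^ α =
          2 * ((C0 + 1) * ((K / c) ^ α * ε ^ α)) by ring,
          ENNReal.ofReal_mul (p := 2) (by norm_num), ENNReal.ofReal_ofNat]

end Pool.Agent.Lib.H42V
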