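import Pool.Agent.Lib.H42V.PK1
import Pool.Agent.Lib.H70X.MK3
import Pool.Agent.Lib.H70X.J4

/-!
# Chunk QM (M/L)
Minors of tuples containing `pk` (the quotient by `pk`).

Proof. `a = al n g`, `P = pk n g`, `P_n` its last coordinate (`2 q^n ≤ |P_n|`), `β_m(v) = tc a v m - v_n/P_n tc a P m` for `0 ≤ m < n` (so `β_m(P) = 0`; `tc a P 0 = 0`, `tc a P n = P_n`), `ω(0) = q^n Z^(n-1)`, `ω(m) = 1/Z` for `m ≥ 1`. `κ1 = (n+1) 6^n`, `κ2 = (n+1) 4 * 36^n` (`pk_tc`),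
`κ3 = κ1 (1 + κ2)`, `η = (1/2) κ3^(-n) Z^(-s) ≤ 1`. Let `z ≠ 0`, `u = ∑ z_s w_s`: not a multiple of `P`. Suppose all `|ω(m) β_m(u)| ≤ η`. Let `m0` be the integer nearest to `u_n/P_n`, `v = u - m0 • P`: not a multiple of `P`, `|v_n| ≤ |P_n|/2`, `tc a v m = β_m(u) + v_n/P_n tc a P m`. So `|tc a v m| ≤ η Z + κ2 q^n ≤ (1 + κ2) Z`
for all `m ≤ n` (for `m = 0`: `tc a v 0 = β_0(u)`, `|β_0(u)| ≤ η/(q^n Z^(n-1)) ≤ 1`), so `|v_l| ≤ κ3 Z =: X` (`le_tc`). `GoodA` (`X ≥ q^n ≥ q^(1/(n+1))`): `X^(-s)/X^(n-1) (1/q^n) ≤ |tc a v 0| ≤ η/(q^n Z^(n-1))`, so `κ3^(-n) Z^(-s) ≤ κ3^(-s-(n-1)) Z^(-s) ≤ η`: contradiction.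
The vectors `y_s = (ω(m) β_m(w_s))_{m : Fin n}` are linearly independent over `ℝ` (`H70X.J4_real` for `P, w`; the `β_m`, `m < n`, vanish together only on `ℝ P`: `v - v_n/P_n P` has all Taylor coefficients 0). `H70X.submink i n`: `S` with `c_i η^i ≤ ∏ ω(S t) |det (β_(S t)(w_s))|`, and (row operations with the row `P`)
`Da a (P, w) (last, S) = ± P_n det (β_(S t)(w_s))`. `I t = S t` as an element of `Fin (n+1)`. `|P_n| ≥ 2 q^n`; `η^i ≥ (κ3^(-n)/2)^n (Z^(-s))^n` (`i ≤ n`: `P, w` are `i + 1` independent vectors of `ℤ^(n+1)`).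
-/

open Polynomial MeasureTheory Set Filter

namespace Pool.Agent.Lib.H42V

/-- the coordinates in the quotient by `P` -/
noncomputable def qm_b {n : ℕ} (a : ℝ) (P v : Fin (n + 1) → ℤ) (m : ℕ) : ℝ :=
  tc a (rv v) m - (v (Fin.last n) : ℝ) / (P (Fin.last n) : ℝ) * tc a (rv P) m

theorem qm_det {n i : ℕ} (a : ℝ) (P : Fin (n + 1) → ℤ) (w : Fin i → Fin (n + 1) → ℤ)
    (hP : (P (Fin.last n) : ℝ) ≠ 0) (S : Fin i → Fin (n + 1)) :
    Da a (fun s => rv (cn P w s)) (Fin.cons (Fin.last n) S) =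
      (P (Fin.last n) : ℝ) * Matrix.det (Matrix.of fun s t : Fin i => qm_b a P (w s) (S t : ℕ)) := by
  set A : Matrix (Fin (i + 1)) (Fin (i + 1)) ℝ := Matrix.of fun s t : Fin (i + 1) =>
    tc a (rv (cn P w s)) (((Fin.cons (Fin.last n) S : Fin (i + 1) → Fin (n + 1)) t : Fin (n + 1)) : ℕ)
    with hA
  set B : Matrix (Fin (i + 1)) (Fin (i + 1)) ℝ := Matrix.of fun s t : Fin (i + 1) =>
    (Fin.cons (A 0 t) (fun s : Fin i => A s.succ t -
      (w s (Fin.last n) : ℝ) / (P (Fin.last n) : ℝ) * A 0 t) : Fin (i + 1) → ℝ) s with hB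
  have h1 : A.det = B.det := by
    refine Matrix.det_eq_of_forall_row_eq_smul_add_const
      (Fin.cons 0 (fun s : Fin i => (w s (Fin.last n) : ℝ) / (P (Fin.last n) : ℝ)) : Fin (i + 1) → ℝ)
      0 (by simp) ?_
    intro s t
    refine Fin.cases ?_ (fun s => ?_) s
    · simp [hB]
    · simp [hB]
  have hA0 : A 0 0 = (P (Fin.last n) : ℝ) := by
    simp only [hA, Matrix.of_apply, Fin.cons_zero, Fin.val_last]
    rw [tc_top]
    rfl
  have hB0 : ∀ s : Fin i, B s.succ 0 = 0 := by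
    intro s
    have h2 : A s.succ 0 = (w s (Fin.last n) : ℝ) := by
      simp only [hA, Matrix.of_apply, Fin.cons_zero, Fin.cons_succ, Fin.val_last]
      rw [tc_top]
      rfl
    simp only [hB, Matrix.of_apply, Fin.cons_succ]
    rw [h2, hA0, div_mul_cancel₀ _ hP, sub_self]
  have h3 : B.det = (P (Fin.last n) : ℝ) *
      Matrix.det (Matrix.of fun s t : Fin i => qm_b a P (w s) (S t : ℕ)) := by
    rw [Matrix.det_succ_column_zero, Fin.sum_univ_succ]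
    have h4 : ∑ s : Fin i, (-1 : ℝ) ^ ((s.succ : Fin (i + 1)) : ℕ) * B s.succ 0 *
        (B.submatrix s.succ.succAbove Fin.succ).det = 0 :=
      Finset.sum_eq_zero fun s _ => by rw [hB0]; ring
    rw [h4, add_zero]
    have h5 : B 0 0 = (P (Fin.last n) : ℝ) := by
      simp only [hB, Matrix.of_apply, Fin.cons_zero]
      exact hA0
    have h6 : B.submatrix (Fin.succAbove 0) Fin.succ =
        Matrix.of fun s t : Fin i => qm_b a P (w s) (S t : ℕ) := by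
      ext s t
      simp only [Matrix.submatrix_apply, Fin.succAbove_zero, hB, Matrix.of_apply, Fin.cons_succ, hA,
        Fin.cons_zero, qm_b]
    rw [h5, h6]
    simp
  rw [Da, ← hA, h1, h3]

theorem qm_b_sum {n i : ℕ} (a : ℝ) (P : Fin (n + 1) → ℤ) (z : Fin i → ℤ) (w : Fin i → Fin (n + 1) → ℤ)
    (m : ℕ) : qm_b a P (∑ s, z s • w s) m = ∑ s, (z s : ℝ) * qm_b a P (w s) m := by
  unfold qm_b
  rw [rv_sum, tc_sum]
  have h1 : ((∑ s, z s • w s) (Fin.last n) : ℤ) = ∑ s, z s * w s (Fin.last n) := by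
    simp [Finset.sum_apply]
  rw [h1]
  push_cast
  rw [Finset.sum_div, Finset.sum_mul, ← Finset.sum_sub_distrib]
  refine Finset.sum_congr rfl fun s _ => ?_
  ring

/-- a vector all whose coordinates in the quotient are small is a multiple of `pk` -/
theorem qm_short (n : ℕ) (hn : 1 ≤ n) (g : Mo) (hg : g.Ok) (s Z : ℝ) (hs0 : 0 ≤ s) (hs1 : s ≤ 1)
    (hgood : GoodA n s g) (hZ : (g.q : ℝ) ^ n ≤ Z) (κ : ℝ)
    (hκ : κ = (n + 1) * 6 ^ n * (1 + (n + 1) * (4 * 36 ^ n))) (u : Fin (n + 1) → ℤ)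
    (hu : ¬ Mul u (pk n g))
    (h : ∀ m : Fin n, |(if (m : ℕ) = 0 then (g.q : ℝ) ^ n * Z ^ (n - 1) else 1 / Z) *
      qm_b (al n g) (pk n g) u (m : ℕ)| ≤ 1 / 2 * (1 / κ ^ n) * Z ^ (-s)) : False := by
  obtain ⟨q1, q2, q3, q4, q5, q6, q7⟩ := pk1_real g hg
  have hq1 : (1 : ℝ) ≤ (g.q : ℝ) ^ n := one_le_pow₀ q2
  have hZ1 : 1 ≤ Z := hq1.trans hZ
  have hZ0 : 0 < Z := by linarith
  have hn0 : (0 : ℝ) ≤ n := Nat.cast_nonneg n
  set κ2 : ℝ := (n + 1) * (4 * 36 ^ n) with hκ2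
  have hκ2' : 0 ≤ κ2 := by positivity
  have h6 : (1 : ℝ) ≤ 6 ^ n := one_le_pow₀ (by norm_num)
  have hκ16 : (1 : ℝ) ≤ (n + 1) * 6 ^ n := by nlinarith
  have hκ1 : 1 ≤ κ := by
    rw [hκ]
    nlinarith
  have hκ0 : 0 < κ := by linarith
  have hκn : (1 : ℝ) ≤ κ ^ n := one_le_pow₀ hκ1
  set P := pk n g with hP
  set a := al n g with ha
  set η : ℝ := 1 / 2 * (1 / κ ^ n) * Z ^ (-s) with hη
  have hZs : Z ^ (-s) ≤ 1 := by
    rw [Real.rpow_neg hZ0.le]
    exact inv_le_one_of_one_le₀ (Real.one_le_rpow hZ1 hs0)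
  have hZs0 : 0 < Z ^ (-s) := Real.rpow_pos_of_pos hZ0 _
  have hη1 : η ≤ 1 := by
    rw [hη]
    have : 1 / κ ^ n ≤ 1 := by rw [div_le_one (by positivity)]; exact hκn
    have h2 : 0 < 1 / κ ^ n := by positivity
    nlinarith
  have hη0 : 0 < η := by rw [hη]; positivity
  have hPn : 2 * (g.q : ℝ) ^ n ≤ |(P (Fin.last n) : ℝ)| := (pk_bd n hn g hg).2
  have hPn0 : (P (Fin.last n) : ℝ) ≠ 0 := by
    intro h0
    rw [h0, abs_zero] at hPn
    linarith
  -- reduce the last coordinate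
  set m0 : ℤ := round ((u (Fin.last n) : ℝ) / (P (Fin.last n) : ℝ)) with hm0
  set v : Fin (n + 1) → ℤ := u - m0 • P with hv
  have hvM : ¬ Mul v P := by
    rintro ⟨k, hk⟩
    refine hu ⟨k + m0, ?_⟩
    rw [add_smul, ← hk, hv]
    abel
  have hvt : ∀ m : ℕ, tc a (rv v) m = qm_b a P u m +
      ((u (Fin.last n) : ℝ) / (P (Fin.last n) : ℝ) - m0) * tc a (rv P) m := by
    intro m
    have h1 : rv v = rv u + (-(m0 : ℝ)) • rv P := by
      rw [hv, rv_sub, rv_smul, neg_smul, sub_eq_add_neg]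
    rw [h1, tc_add, tc_smul, qm_b]
    ring
  have hhalf : |(u (Fin.last n) : ℝ) / (P (Fin.last n) : ℝ) - m0| ≤ 1 / 2 := abs_sub_round _
  have hPt : ∀ m : ℕ, |tc a (rv P) m| ≤ κ2 * (g.q : ℝ) ^ n := fun m => pk_tc n hn g hg m
  have hb : ∀ m : Fin (n + 1), |qm_b a P u (m : ℕ)| ≤ Z := by
    intro m
    rcases lt_or_ge (m : ℕ) n with hmn | hmn
    · have h1 := h ⟨m, hmn⟩
      simp only at h1
      rw [abs_mul] at h1
      split_ifs at h1 with h0
      · rw [abs_of_pos (by positivity : (0 : ℝ) < (g.q : ℝ) ^ n * Z ^ (n - 1))] at h1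
        have h2 : (1 : ℝ) ≤ (g.q : ℝ) ^ n * Z ^ (n - 1) := by
          have := one_le_pow₀ (n := n - 1) hZ1
          nlinarith
        have h3 := abs_nonneg (qm_b a P u (m : ℕ))
        nlinarith
      · rw [abs_of_pos (by positivity : (0 : ℝ) < 1 / Z), one_div_mul_eq_div,
          div_le_iff₀ hZ0] at h1
        have h3 : η * Z ≤ 1 * Z := by gcongr
        linarith
    · have hmn' : (m : ℕ) = n := by omega
      have h1 : qm_b a P u (m : ℕ) = 0 := by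
        rw [hmn', qm_b, tc_top, tc_top]
        rw [rv, rv, div_mul_cancel₀ _ hPn0, sub_self]
      rw [h1, abs_zero]
      exact hZ0.le
  have htv : ∀ l : Fin (n + 1), |tc a (rv v) (l : ℕ)| ≤ (1 + κ2) * Z := by
    intro l
    rw [hvt]
    refine (abs_add_le _ _).trans ?_
    rw [abs_mul]
    have h1 := hb l
    have h2 := hPt (l : ℕ)
    have h3 : |(u (Fin.last n) : ℝ) / (P (Fin.last n) : ℝ) - m0| * |tc a (rv P) (l : ℕ)| ≤
        1 / 2 * (κ2 * (g.q : ℝ) ^ n) := by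
      gcongr
    have h4 : κ2 * (g.q : ℝ) ^ n ≤ κ2 * Z := by gcongr
    have h5 : 0 ≤ κ2 * Z := by positivity
    linarith
  have hX : ∀ l, |(v l : ℝ)| ≤ κ * Z := by
    intro l
    have h1 := le_tc a ((1 + κ2) * Z) ((al_le n hn g hg).trans (by norm_num)) (by positivity)
      (rv v) htv l
    refine h1.trans (le_of_eq ?_)
    rw [hκ]
    ring
  have hXq : (g.q : ℝ) ^ (1 / ((n : ℝ) + 1)) ≤ κ * Z := by
    have h1 : (g.q : ℝ) ^ (1 / ((n : ℝ) + 1)) ≤ (g.q : ℝ) ^ (1 : ℝ) := by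
      apply Real.rpow_le_rpow_of_exponent_le q2
      rw [div_le_one (by positivity)]
      linarith
    rw [Real.rpow_one] at h1
    have h2 : (g.q : ℝ) ≤ (g.q : ℝ) ^ n := by
      calc (g.q : ℝ) = (g.q : ℝ) ^ 1 := (pow_one _).symm
        _ ≤ (g.q : ℝ) ^ n := pow_le_pow_right₀ q2 hn
    nlinarith
  have hA := hgood (κ * Z) hXq v hvM hX
  -- the value at `a`
  have h0 : tc a (rv v) 0 = qm_b a P u 0 := by
    rw [hvt, pk_root n hn g hg, mul_zero, add_zero]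
  rw [← ha, h0] at hA
  have hβ := h ⟨0, hn⟩
  simp only [if_true] at hβ
  rw [abs_mul, abs_of_pos (by positivity : (0 : ℝ) < (g.q : ℝ) ^ n * Z ^ (n - 1))] at hβ
  have hX0 : 0 < κ * Z := by positivity
  have hlow : (κ * Z) ^ (-s) / (κ * Z) ^ (n - 1) * (1 / (g.q : ℝ) ^ n) ≤ |qm_b a P u 0| := by
    refine le_trans ?_ hA
    have h1 : 0 ≤ (κ * Z) ^ (-s) / (κ * Z) ^ (n - 1) := by positivity
    exact mul_le_mul_of_nonneg_left (le_max_right _ _) h1
  have hκs : 1 / κ ≤ κ ^ (-s) := by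
    rw [one_div, ← Real.rpow_neg_one]
    apply Real.rpow_le_rpow_of_exponent_le hκ1
    linarith
  have hκ3 : 1 / κ ^ n ≤ κ ^ (-s) / κ ^ (n - 1) := by
    have h1 : κ ^ n = κ * κ ^ (n - 1) := by
      rw [← pow_succ']
      congr 1
      omega
    rw [h1, ← div_div]
    gcongr
  have hfin : 1 / κ ^ n * Z ^ (-s) ≤ η := by
    have h1 : (κ * Z) ^ (-s) / (κ * Z) ^ (n - 1) * (1 / (g.q : ℝ) ^ n) *
        ((g.q : ℝ) ^ n * Z ^ (n - 1)) = κ ^ (-s) / κ ^ (n - 1) * Z ^ (-s) := by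
      rw [Real.mul_rpow hκ0.le hZ0.le, mul_pow]
      field_simp
    calc 1 / κ ^ n * Z ^ (-s) ≤ κ ^ (-s) / κ ^ (n - 1) * Z ^ (-s) := by gcongr
      _ = (κ * Z) ^ (-s) / (κ * Z) ^ (n - 1) * (1 / (g.q : ℝ) ^ n) *
        ((g.q : ℝ) ^ n * Z ^ (n - 1)) := h1.symm
      _ ≤ |qm_b a P u 0| * ((g.q : ℝ) ^ n * Z ^ (n - 1)) := by gcongr
      _ = (g.q : ℝ) ^ n * Z ^ (n - 1) * |qm_b a P u 0| := mul_comm _ _
      _ ≤ η := hβ
  have h9 : 0 < 1 / κ ^ n * Z ^ (-s) := by positivity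
  rw [hη] at hfin
  linarith

theorem qm_indep {n i : ℕ} (a : ℝ) (P : Fin (n + 1) → ℤ) (hP : (P (Fin.last n) : ℝ) ≠ 0)
    (w : Fin i → Fin (n + 1) → ℤ) (hw : LinearIndependent ℤ (cn P w)) (ω : Fin n → ℝ)
    (hω : ∀ m, ω m ≠ 0) :
    LinearIndependent ℝ (fun s : Fin i => fun m : Fin n => ω m * qm_b a P (w s) (m : ℕ)) := by
  have h1 := H70X.J4_real (cn P w) hw
  rw [Fintype.linearIndependent_iff] at h1 ⊢
  intro c hc
  have h2 : ∀ m : Fin n, ∑ s, c s * qm_b a P (w s) (m : ℕ) = 0 := by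
    intro m
    have h3 := congrFun hc m
    simp only [Finset.sum_apply, Pi.smul_apply, smul_eq_mul, Pi.zero_apply] at h3
    have h4 : ω m * ∑ s, c s * qm_b a P (w s) (m : ℕ) = 0 := by
      rw [Finset.mul_sum, ← h3]
      refine Finset.sum_congr rfl fun s _ => ?_
      ring
    exact (mul_eq_zero.1 h4).resolve_left (hω m)
  -- the real vector
  set x : Fin (n + 1) → ℝ := ∑ s, c s • rv (w s) with hx
  set d : ℝ := x (Fin.last n) / (P (Fin.last n) : ℝ) with hd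
  have hxn : x (Fin.last n) = ∑ s, c s * (w s (Fin.last n) : ℝ) := by
    rw [hx, Finset.sum_apply]
    rfl
  have h5 : ∀ m : Fin (n + 1), tc a (x + (-d) • rv P) (m : ℕ) = 0 := by
    intro m
    rw [tc_add, tc_smul, hx, tc_sum]
    rcases lt_or_ge (m : ℕ) n with hmn | hmn
    · have h6 := h2 ⟨m, hmn⟩
      simp only at h6
      rw [← h6]
      unfold qm_b
      rw [hd, hxn, Finset.sum_div, neg_mul, Finset.sum_mul, ← sub_eq_add_neg,
        ← Finset.sum_sub_distrib]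
      refine Finset.sum_congr rfl fun s _ => ?_
      ring
    · have hmn' : (m : ℕ) = n := by omega
      rw [hmn', tc_top]
      simp only [tc_top]
      have h7 : ∑ s, c s * rv (w s) (Fin.last n) = x (Fin.last n) := hxn.symm
      rw [h7, hd, rv]
      field_simp
      ring
  have h6 : x + (-d) • rv P = 0 := by
    funext m
    rw [tc_inv a (x + (-d) • rv P) m]
    refine Finset.sum_eq_zero fun l _ => ?_
    rw [h5 l, mul_zero]
  have h7 := h1 (Fin.cons (-d) c : Fin (i + 1) → ℝ) (by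
    rw [Fin.sum_univ_succ]
    simp only [Fin.cons_zero, Fin.cons_succ]
    have h8 : (-d) • rv P + ∑ s, c s • rv (w s) = 0 := by
      rw [← hx, add_comm (-d • rv P) x]
      exact h6
    exact h8)
  intro s
  exact h7 s.succ

theorem qm (n : ℕ) (hn : 1 ≤ n) : ∃ c : ℝ, 0 < c ∧ c ≤ 1 ∧ ∀ (g : Mo) (s Z : ℝ), g.Ok → 0 ≤ s → s ≤ 1 →
    GoodA n s g → (g.q : ℝ) ^ n ≤ Z → ∀ i : ℕ, 1 ≤ i → ∀ w : Fin i → Fin (n + 1) → ℤ,
    LinearIndependent ℤ (cn (pk n g) w) → ∃ I : Fin i → Fin (n + 1), (∀ t, I t ≠ Fin.last n) ∧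
      c * (Z ^ (-s)) ^ n * (g.q : ℝ) ^ n ≤ |(∏ t, if I t = 0 then (g.q : ℝ) ^ n * Z ^ (n - 1) else 1 / Z) *
        Da (al n g) (fun s => rv (cn (pk n g) w s)) (Fin.cons (Fin.last n) I)| := by
  choose f hf hf2 using H70X.submink
  obtain ⟨c1, hc1, hc11, hc1f⟩ := H70X.J4_min (Finset.range (n + 1)) (fun i => f i n)
    (fun i _ => hf i n)
  set κ : ℝ := (n + 1) * 6 ^ n * (1 + (n + 1) * (4 * 36 ^ n)) with hκ
  have h6 : (1 : ℝ) ≤ 6 ^ n := one_le_pow₀ (by norm_num)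
  have hn0 : (0 : ℝ) ≤ n := Nat.cast_nonneg n
  have hκ1 : 1 ≤ κ := by
    have h1 : (1 : ℝ) ≤ (n + 1) * 6 ^ n := by nlinarith
    have h2 : (0 : ℝ) ≤ (n + 1) * (4 * 36 ^ n) := by positivity
    rw [hκ]
    nlinarith
  have hκn : (1 : ℝ) ≤ κ ^ n := one_le_pow₀ hκ1
  set b : ℝ := 1 / 2 * (1 / κ ^ n) with hb
  have hb0 : 0 < b := by positivity
  have hb1 : b ≤ 1 := by
    have : 1 / κ ^ n ≤ 1 := by rw [div_le_one (by positivity)]; exact hκn
    rw [hb]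
    linarith
  refine ⟨c1 * b ^ n, by positivity, ?_, ?_⟩
  · have := pow_le_one₀ (n := n) hb0.le hb1
    have h2 : 0 < b ^ n := by positivity
    nlinarith
  intro g s Z hg hs0 hs1 hgood hZ i hi w hw
  obtain ⟨q1, q2, q3, q4, q5, q6, q7⟩ := pk1_real g hg
  have hq1 : (1 : ℝ) ≤ (g.q : ℝ) ^ n := one_le_pow₀ q2
  have hZ1 : 1 ≤ Z := hq1.trans hZ
  have hZ0 : 0 < Z := by linarith
  have hPn : 2 * (g.q : ℝ) ^ n ≤ |(pk n g (Fin.last n) : ℝ)| := (pk_bd n hn g hg).2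
  have hPn0 : (pk n g (Fin.last n) : ℝ) ≠ 0 := by
    intro h0
    rw [h0, abs_zero] at hPn
    linarith
  have hin : i ≤ n := by
    have h1 := hw.fintype_card_le_finrank
    simp at h1
    omega
  have hZs0 : 0 < Z ^ (-s) := Real.rpow_pos_of_pos hZ0 _
  have hZs : Z ^ (-s) ≤ 1 := by
    rw [Real.rpow_neg hZ0.le]
    exact inv_le_one_of_one_le₀ (Real.one_le_rpow hZ1 hs0)
  set ω : Fin n → ℝ := fun m => if (m : ℕ) = 0 then (g.q : ℝ) ^ n * Z ^ (n - 1) else 1 / Z with hω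
  have hω0 : ∀ m, ω m ≠ 0 := by
    intro m
    simp only [hω]
    split_ifs <;> positivity
  have hy := qm_indep (al n g) (pk n g) hPn0 w hw ω hω0
  obtain ⟨S, hS⟩ := hf2 i n _ hy (b * Z ^ (-s)) (by positivity) (by
    intro z hz
    by_contra hcon
    push Not at hcon
    refine qm_short n hn g hg s Z hs0 hs1 hgood hZ κ hκ (∑ t, z t • w t) ?_ ?_
    · rintro ⟨k, hk⟩
      rw [Fintype.linearIndependent_iff] at hw
      have h1 := hw (Fin.cons (-k) z : Fin (i + 1) → ℤ) (by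
        rw [Fin.sum_univ_succ]
        simp only [Fin.cons_zero, Fin.cons_succ]
        rw [hk, neg_smul, neg_add_cancel])
      exact hz (funext fun t => h1 t.succ)
    · intro m
      have h1 := hcon m
      have h2 : ∑ t, (z t : ℝ) * (ω m * qm_b (al n g) (pk n g) (w t) (m : ℕ)) =
          ω m * qm_b (al n g) (pk n g) (∑ t, z t • w t) (m : ℕ) := by
        rw [qm_b_sum, Finset.mul_sum]
        refine Finset.sum_congr rfl fun t _ => ?_
        ring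
      rw [h2] at h1
      exact h1)
  refine ⟨fun t => (S t).castSucc, fun t => (Fin.castSucc_lt_last _).ne, ?_⟩
  rw [qm_det _ _ _ hPn0]
  have hdet : Matrix.det (Matrix.of fun s t : Fin i =>
      ω (S t) * qm_b (al n g) (pk n g) (w s) (S t : ℕ)) =
      (∏ t, ω (S t)) * Matrix.det (Matrix.of fun s t : Fin i =>
        qm_b (al n g) (pk n g) (w s) (S t : ℕ)) :=
    Matrix.det_mul_row (fun t => ω (S t)) (Matrix.of fun s t : Fin i =>
        qm_b (al n g) (pk n g) (w s) (S t : ℕ))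
  have hprod : (∏ t, if (S t).castSucc = 0 then (g.q : ℝ) ^ n * Z ^ (n - 1) else 1 / Z) =
      ∏ t, ω (S t) := by
    refine Finset.prod_congr rfl fun t _ => ?_
    simp only [hω]
    have h1 : (S t).castSucc = 0 ↔ ((S t : Fin n) : ℕ) = 0 := by
      rw [Fin.ext_iff]
      simp
    simp only [h1]
  rw [hprod]
  have h7 : (∏ t, ω (S t)) * ((pk n g (Fin.last n) : ℝ) * Matrix.det (Matrix.of fun s t : Fin i =>
        qm_b (al n g) (pk n g) (w s) (((S t).castSucc : Fin (n + 1)) : ℕ))) =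
      (pk n g (Fin.last n) : ℝ) * Matrix.det (Matrix.of fun s t : Fin i =>
      ω (S t) * qm_b (al n g) (pk n g) (w s) (S t : ℕ)) := by
    rw [hdet]
    simp only [Fin.val_castSucc]
    ring
  rw [h7, abs_mul]
  have h8 : c1 * b ^ n * (Z ^ (-s)) ^ n ≤ f i n * (b * Z ^ (-s)) ^ i := by
    have h9 : c1 ≤ f i n := hc1f i (Finset.mem_range.2 (by omega))
    have h10 : (b * Z ^ (-s)) ^ n ≤ (b * Z ^ (-s)) ^ i := by
      apply pow_le_pow_of_le_one (by positivity) _ hin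
      nlinarith
    calc c1 * b ^ n * (Z ^ (-s)) ^ n = c1 * (b * Z ^ (-s)) ^ n := by rw [mul_pow]; ring
      _ ≤ f i n * (b * Z ^ (-s)) ^ i := by
          apply mul_le_mul h9 h10 (by positivity) (hf i n).le
  calc c1 * b ^ n * (Z ^ (-s)) ^ n * (g.q : ℝ) ^ n ≤
        (f i n * (b * Z ^ (-s)) ^ i) * (2 * (g.q : ℝ) ^ n) := by
        apply mul_le_mul h8 (by linarith) (by positivity)
        exact mul_nonneg (hf i n).le (by positivity)
    _ = (2 * (g.q : ℝ) ^ n) * (f i n * (b * Z ^ (-s)) ^ i) := mul_comm _ _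
    _ ≤ _ := by
        apply mul_le_mul hPn hS _ (abs_nonneg _)
        exact mul_nonneg (hf i n).le (by positivity)

end Pool.Agent.Lib.H42V
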