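import Pool.Agent.Lib.H42V.Defs

/-!
# Chunk SAT (M)
Saturation: independent integer vectors `v_0..v_j` whose rational span contains the primitive vector `f` are combinations of a tuple `f, w_0, ..., w_{j-1}`. Pure Mathlib.

Proof. Let `L` be the set of the `x : Fin m → ℤ` with `d • x ∈ span_ℤ (range v)` for some `d ≠ 0`: a submodule, `ℤ^m / L` is torsion free, `L` has rank `j + 1`, and `f ∈ L` (a nontrivial relation between `f` and the `v_s` has a nonzero coefficient at `f`).
`L` is free of rank `j + 1`. `L / ℤ f` is torsion free: if `d x = e f` with `d ≠ 0`, `x ∈ L`, then (primitive) `d ∣ e f_i` for all `i`, so `d ∣ e` (Bezout: `∑ c_i f_i = 1`), so `x ∈ ℤ f`. It is finitely generated, hence free, of rank `j`; lift a basis to `w_0, ..., w_{j-1}`.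
Then `f, w` is a basis of `L`. As `v_s ∈ L` there is an integer matrix `M`, and `det M ≠ 0` because `v` is independent (a vector `x ≠ 0` with `x M = 0` gives a relation).
-/

open Polynomial MeasureTheory Set Filter

namespace Pool.Agent.Lib.H42V

/-- saturation of a submodule -/
def satL {m : ℕ} (S : Submodule ℤ (Fin m → ℤ)) : Submodule ℤ (Fin m → ℤ) where
  carrier := {x | ∃ d : ℤ, d ≠ 0 ∧ d • x ∈ S}
  add_mem' := by
    rintro x y ⟨a, ha, hx⟩ ⟨b, hb, hy⟩
    refine ⟨a * b, mul_ne_zero ha hb, ?_⟩
    rw [smul_add]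
    refine S.add_mem ?_ ?_
    · rw [mul_comm, mul_smul]
      exact S.smul_mem b hx
    · rw [mul_smul]
      exact S.smul_mem a hy
  zero_mem' := ⟨1, one_ne_zero, by simp⟩
  smul_mem' := by
    rintro c x ⟨a, ha, hx⟩
    exact ⟨a, ha, by rw [smul_comm]; exact S.smul_mem c hx⟩

theorem sat_tf {m : ℕ} (f : Fin m → ℤ) (hf : ∀ d : ℤ, (∀ i, d ∣ f i) → IsUnit d)
    (L : Submodule ℤ (Fin m → ℤ)) (hfL : f ∈ L) (d : ℤ) (hd : d ≠ 0) (x : L)
    (hx : d • x ∈ Submodule.span ℤ {(⟨f, hfL⟩ : L)}) : x ∈ Submodule.span ℤ {(⟨f, hfL⟩ : L)} := by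
  obtain ⟨e, he⟩ := Submodule.mem_span_singleton.1 hx
  have h1 : ∀ i, e * f i = d * (x : Fin m → ℤ) i := by
    intro i
    have h2 := congrArg (fun y : L => (y : Fin m → ℤ) i) he
    simpa using h2
  have hg : 0 < Int.gcd d e := Int.gcd_pos_of_ne_zero_left _ hd
  obtain ⟨d', e', hde, hd', he'⟩ := Int.exists_gcd_one hg
  set g : ℤ := (Int.gcd d e : ℤ) with hgd
  have hg0 : g ≠ 0 := by
    rw [hgd]
    exact_mod_cast hg.ne'
  have h3 : ∀ i, e' * f i = d' * (x : Fin m → ℤ) i := by
    intro i
    have h4 := h1 i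
    rw [hd', he'] at h4
    have h5 : g * (e' * f i) = g * (d' * (x : Fin m → ℤ) i) := by linear_combination h4
    exact mul_left_cancel₀ hg0 h5
  have hu : IsUnit d' := hf d' fun i =>
    Int.dvd_of_dvd_mul_right_of_gcd_one ⟨(x : Fin m → ℤ) i, h3 i⟩ hde
  have hsq : d' * d' = 1 := by
    rcases Int.isUnit_iff.1 hu with h | h <;> rw [h] <;> norm_num
  refine Submodule.mem_span_singleton.2 ⟨d' * e', ?_⟩
  apply Subtype.ext
  funext i
  have h6 := h3 i
  simp only [SetLike.mk_smul_mk, Pi.smul_apply, smul_eq_mul]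
  calc d' * e' * f i = d' * (e' * f i) := by ring
    _ = d' * d' * (x : Fin m → ℤ) i := by rw [h6]; ring
    _ = (x : Fin m → ℤ) i := by rw [hsq, one_mul]

theorem saturate {m j : ℕ} (f : Fin m → ℤ) (hf : ∀ d : ℤ, (∀ i, d ∣ f i) → IsUnit d)
    (v : Fin (j + 1) → Fin m → ℤ) (hv : LinearIndependent ℤ v) (hd : ¬ LinearIndependent ℤ (cn f v)) :
    ∃ (w : Fin j → Fin m → ℤ) (M : Matrix (Fin (j + 1)) (Fin (j + 1)) ℤ), M.det ≠ 0 ∧
      LinearIndependent ℤ (cn f w) ∧ ∀ s, v s = ∑ t, M s t • cn f w t := by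
  classical
  set S := Submodule.span ℤ (Set.range v) with hS
  set L := satL S with hL
  have hvL : ∀ s, v s ∈ L := fun s =>
    ⟨1, one_ne_zero, by rw [one_smul]; exact Submodule.subset_span ⟨s, rfl⟩⟩
  have hf0 : f ≠ 0 := by
    intro h
    have h1 := hf 2 fun i => by rw [h]; exact dvd_zero 2
    rcases Int.isUnit_iff.1 h1 with h2 | h2 <;> omega
  have hfL : f ∈ L := by
    rw [Fintype.not_linearIndependent_iff] at hd
    obtain ⟨g, hg, i, hi⟩ := hd
    rw [Fin.sum_univ_succ] at hg
    simp only [cn, Fin.cons_zero, Fin.cons_succ] at hg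
    by_cases h0 : g 0 = 0
    · rw [h0, zero_smul, zero_add] at hg
      have h1 := Fintype.linearIndependent_iff.1 hv (fun s => g s.succ) hg
      exact absurd (Fin.cases (motive := fun i => g i = 0) h0 h1 i) hi
    · refine ⟨g 0, h0, ?_⟩
      have h1 : g 0 • f = - ∑ s : Fin (j + 1), g s.succ • v s := eq_neg_of_add_eq_zero_left hg
      rw [h1]
      exact S.neg_mem (S.sum_mem fun s _ => S.smul_mem _ (Submodule.subset_span ⟨s, rfl⟩))
  set f' : L := ⟨f, hfL⟩ with hf'
  set N : Submodule ℤ L := Submodule.span ℤ {f'} with hN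
  have htf : Module.IsTorsionFree ℤ (L ⧸ N) := by
    refine Module.IsTorsionFree.of_smul_eq_zero fun d q hq => ?_
    by_cases hd0 : d = 0
    · exact Or.inl hd0
    · right
      obtain ⟨x, rfl⟩ := Submodule.mkQ_surjective N q
      rw [← map_smul] at hq
      have h1 : d • x ∈ N := (Submodule.Quotient.mk_eq_zero N).1 hq
      exact (Submodule.Quotient.mk_eq_zero N).2 (sat_tf f hf L hfL d hd0 x h1)
  obtain ⟨r, b⟩ := Module.basisOfFiniteTypeTorsionFree' (R := ℤ) (M := L ⧸ N)
  have hlift : ∀ t, ∃ y : L, N.mkQ y = b t := fun t => Submodule.mkQ_surjective N (b t)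
  choose w' hw' using hlift
  set c : Fin (r + 1) → L := Fin.cons f' w' with hc
  have hfN : N.mkQ f' = 0 := (Submodule.Quotient.mk_eq_zero N).2 (Submodule.mem_span_singleton_self f')
  have hcLI : LinearIndependent ℤ c := by
    rw [Fintype.linearIndependent_iff]
    intro g hg
    rw [Fin.sum_univ_succ] at hg
    simp only [hc, Fin.cons_zero, Fin.cons_succ] at hg
    have h1 := congrArg N.mkQ hg
    rw [map_add, map_smul, hfN, smul_zero, zero_add, map_sum, map_zero] at h1
    simp only [map_smul, hw'] at h1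
    have h2 := Fintype.linearIndependent_iff.1 b.linearIndependent (fun t => g t.succ) h1
    have h3 : g 0 • f' = 0 := by
      have h4 : ∑ t : Fin r, g t.succ • w' t = 0 :=
        Finset.sum_eq_zero fun t _ => by rw [h2 t, zero_smul]
      rw [h4, add_zero] at hg
      exact hg
    have h5 : g 0 = 0 := by
      rcases smul_eq_zero.1 h3 with h | h
      · exact h
      · exact absurd (congrArg Subtype.val h) hf0
    exact fun i => Fin.cases (motive := fun i => g i = 0) h5 h2 i
  have hcs : ⊤ ≤ Submodule.span ℤ (Set.range c) := by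
    intro x _
    have h1 : N.mkQ x = ∑ t, b.repr (N.mkQ x) t • N.mkQ (w' t) := by
      simp only [hw']
      exact (b.sum_repr _).symm
    have h2 : x - ∑ t, b.repr (N.mkQ x) t • w' t ∈ N := by
      rw [← Submodule.Quotient.mk_eq_zero N]
      change N.mkQ (x - ∑ t, b.repr (N.mkQ x) t • w' t) = 0
      rw [map_sub, map_sum, sub_eq_zero]
      simp only [map_smul]
      exact h1
    obtain ⟨e, he⟩ := Submodule.mem_span_singleton.1 h2
    have h3 : x = e • f' + ∑ t, b.repr (N.mkQ x) t • w' t := by rw [he]; abel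
    rw [h3]
    refine Submodule.add_mem _ (Submodule.smul_mem _ _ (Submodule.subset_span ⟨0, rfl⟩))
      (Submodule.sum_mem _ fun t _ => Submodule.smul_mem _ _ (Submodule.subset_span ⟨t.succ, rfl⟩))
  set B : Module.Basis (Fin (r + 1)) ℤ L := Module.Basis.mk hcLI hcs with hB
  have hBc : ∀ t, B t = c t := fun t => Module.Basis.mk_apply hcLI hcs t
  -- the rank
  have hrank : Module.finrank ℤ L = r + 1 := by
    rw [Module.finrank_eq_card_basis B, Fintype.card_fin]
  have hrj : r = j := by
    have h1 : j + 1 ≤ Module.finrank ℤ L := by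
      have h2 : LinearIndependent ℤ (fun s => (⟨v s, hvL s⟩ : L)) :=
        LinearIndependent.of_comp L.subtype hv
      have := h2.fintype_card_le_finrank
      rwa [Fintype.card_fin] at this
    have h3 : Module.finrank ℤ L ≤ j + 1 := by
      have h4 : ∀ t, ∃ d : ℤ, d ≠ 0 ∧ d • (c t : Fin m → ℤ) ∈ S := fun t => (c t).2
      choose dd hdd0 hdd using h4
      set D := ∏ t, dd t with hD
      have hD0 : D ≠ 0 := Finset.prod_ne_zero_iff.2 fun t _ => hdd0 t
      have hDc : ∀ t, D • (c t : Fin m → ℤ) ∈ S := by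
        intro t
        have h5 : D = (∏ s ∈ Finset.univ.erase t, dd s) * dd t := by
          rw [hD, Finset.prod_erase_mul _ _ (Finset.mem_univ t)]
        rw [h5, mul_smul]
        exact S.smul_mem _ (hdd t)
      have hDx : ∀ x : L, D • (x : Fin m → ℤ) ∈ S := by
        intro x
        have h6 : (x : Fin m → ℤ) = ∑ t, B.repr x t • (c t : Fin m → ℤ) := by
          conv_lhs => rw [← B.sum_repr x]
          simp only [hBc]
          simp
        rw [h6, Finset.smul_sum]
        refine S.sum_mem fun t _ => ?_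
        rw [smul_comm]
        exact S.smul_mem _ (hDc t)
      set φ : L →ₗ[ℤ] S := (D • L.subtype).codRestrict S hDx with hφ
      have hφi : Function.Injective φ := by
        intro x y hxy
        have h7 := congrArg Subtype.val hxy
        have h8 : D • (x : Fin m → ℤ) = D • (y : Fin m → ℤ) := h7
        exact Subtype.ext (smul_right_injective _ hD0 h8)
      have h9 := LinearMap.finrank_le_finrank_of_injective hφi
      have h10 : Module.finrank ℤ S = j + 1 := by
        rw [hS, finrank_span_eq_card hv, Fintype.card_fin]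
      omega
    omega
  subst hrj
  refine ⟨fun t => (w' t : Fin m → ℤ), Matrix.of fun s t => B.repr ⟨v s, hvL s⟩ t, ?_, ?_, ?_⟩
  · intro hdet
    obtain ⟨x, hx0, hx⟩ := Matrix.exists_vecMul_eq_zero_iff.2 hdet
    apply hx0
    have h1 : ∑ s, x s • (⟨v s, hvL s⟩ : L) = 0 := by
      apply B.repr.injective
      rw [map_sum, map_zero]
      ext t
      have h2 := congrFun hx t
      simp only [Matrix.vecMul, dotProduct, Matrix.of_apply, Pi.zero_apply] at h2
      rw [Finsupp.finsetSum_apply, Finsupp.zero_apply, ← h2]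
      refine Finset.sum_congr rfl fun i _ => ?_
      rw [map_smul, Finsupp.smul_apply, smul_eq_mul]
    have h3 : ∑ s, x s • v s = 0 := by
      have h4 := congrArg Subtype.val h1
      simpa using h4
    funext s
    exact Fintype.linearIndependent_iff.1 hv x h3 s
  · have h1 : cn f (fun t => (w' t : Fin m → ℤ)) = L.subtype ∘ c := by
      funext t
      refine Fin.cases ?_ (fun t => ?_) t
      · rfl
      · rfl
    rw [h1]
    exact hcLI.map' L.subtype (Submodule.ker_subtype L)
  · intro s
    have h1 := congrArg Subtype.val (B.sum_repr ⟨v s, hvL s⟩)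
    simp only [hBc] at h1
    have h2 : ∀ t, cn f (fun t => (w' t : Fin m → ℤ)) t = (c t : Fin m → ℤ) := by
      intro t
      refine Fin.cases ?_ (fun t => ?_) t
      · rfl
      · rfl
    simp only [h2, Matrix.of_apply]
    conv_lhs => rw [← h1]
    simp

end Pool.Agent.Lib.H42V
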