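import Pool.Agent.Lib.H42V.Defs
import Pool.Agent.Lib.H70X.J1
import Pool.Agent.Lib.H70X.QL5

/-!
# Chunk UP (S/M)
Lower bounds on `[Y, 2Y]` for polynomials.

Proofs. `up_coeff`: let `C` be the constant of `H70X.coeff_bound n`, `B` the maximum of `|g|` on `[Y, 2Y]` (attained at some `y`): `|coeff m| Y^m ≤ C B`. `c = 1/C`. `up_zero`: `mn h y v S` is the value at `y` of the polynomial `H70X.ql5_mnP h v S` (`H70X.ql5_eval`),
of degree `≤ k d` (`H70X.ql5_deg`), whose coefficient 0 is its value at 0; `up_coeff (k*d)` with `m = 0`.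
-/

open Polynomial MeasureTheory Set Filter

namespace Pool.Agent.Lib.H42V

theorem up_coeff (n : ℕ) : ∃ c : ℝ, 0 < c ∧ ∀ (g : ℝ[X]) (Y : ℝ) (m : ℕ), g.natDegree ≤ n → 0 < Y →
    ∃ y ∈ Icc Y (2 * Y), c * (|g.coeff m| * Y ^ m) ≤ |g.eval y| := by
  obtain ⟨C, hC1, hC⟩ := H70X.coeff_bound n
  have hC0 : 0 < C := by linarith
  refine ⟨1 / C, by positivity, fun g Y m hg hY => ?_⟩
  have hne : (Icc Y (2 * Y)).Nonempty := ⟨Y, le_rfl, by linarith⟩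
  have hcont : ContinuousOn (fun y => |g.eval y|) (Icc Y (2 * Y)) :=
    (continuous_abs.comp g.continuous).continuousOn
  obtain ⟨y, hy, hmax⟩ := isCompact_Icc.exists_isMaxOn hne hcont
  refine ⟨y, hy, ?_⟩
  have h1 := hC g (|g.eval y|) Y hg hY (fun x hx => hmax hx) m
  rw [one_div, inv_mul_le_iff₀ hC0]
  exact h1

theorem up_zero (k d : ℕ) : ∃ c : ℝ, 0 < c ∧ ∀ (h : Matrix (Fin k) (Fin k) ℝ[X]), (∀ i j, (h i j).natDegree ≤ d) →
    ∀ (j : ℕ) (v : Fin j → Fin k → ℤ) (S : Fin j → Fin k) (Y : ℝ), j ≤ k → 0 < Y →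
      ∃ y ∈ Icc Y (2 * Y), c * |H70X.mn h 0 v S| ≤ |H70X.mn h y v S| := by
  obtain ⟨c, hc, hcc⟩ := up_coeff (k * d)
  refine ⟨c, hc, fun h hd j v S Y hj hY => ?_⟩
  obtain ⟨y, hy, h1⟩ := hcc (H70X.ql5_mnP h v S) Y 0 (H70X.ql5_deg h hd v S hj) hY
  refine ⟨y, hy, ?_⟩
  rw [pow_zero, mul_one, H70X.ql5_eval, Polynomial.coeff_zero_eq_eval_zero, H70X.ql5_eval] at h1
  exact h1

end Pool.Agent.Lib.H42V
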