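import Pool.Agent.Lib.H42V.QM
import Pool.Agent.Lib.H42V.HL
import Pool.Agent.Lib.H42V.UP
import Pool.Agent.Lib.H42V.PLU

/-!
# Chunk SLB (M/L)
Large scales, tuples which contain `pk`. `a = al n g`, `q^2 Y/q^n = q^(-n w0)`, so `Z^n Y q^2/q^n ≥ 1`; `Z ≥ 1`.

Proof. (0) There is `I : Fin i → Fin (n+1)` (no value `last`) with `∏ ω(I t) |Da a (pk, w) (last, I)| ≥ c0 (Z^(-s))^n q^n`: for `i ≥ 1` this is `qm`, for `i = 0` it is `|pk_n| ≥ 2 q^n` (`pk_bd`; `Z^(-s) ≤ 1`, `c0 ≤ 1`). (1) If some `I t` is 0 (exactly one, as `I` is injective): `S = (last, I)` has `∏ Ω = Z^n Z^(-i) = ∏ ω(I t)/q^n`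
(`∏ ω = q^n Z^(n-1) Z^(-(i-1))`), so `|mn (hL) 0 (pk, w) S| ≥ c0 (Z^(-s))^n` (`mn_hL_zero`), and `up_zero (n+1) n` gives `y`. (2) If no `I t` is 0: `|Da (last, I)| ≥ c0 (Z^(-s))^n q^n Z^i`. `pluecker` with `K = κ q^n`, `κ = (n+1) 4 * 36^n` (`pk_tc`), gives `J`, no value 0, with
`|Da (1, J)| ≥ |tc a pk 1| |Da (last, I)| / ((i+1) κ q^n) ≥ c1 (Z^(-s))^n Z^i q^2/q^n`, `c1 = c0/(5^n (n+1) κ)` (`pk_der`: `|tc a pk 1| ≥ q^2/(5^n q^n)`). `S = (0, J)`: `mn (hL) y (pk, w) S = Z^n Z^(-i) ∑_m y^m Da (m, J)` (the first column is `tc (a+y) . 0 = ∑_m y^m tc a . m`: `tc_shift`), a polynomial in `y`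
of degree `≤ n` whose coefficient of `y` is `Z^n Z^(-i) Da (1, J)`. `up_coeff n` with `m = 1` gives `y ∈ [Y, 2Y]` with `|mn| ≥ c2 Z^n Z^(-i) |Da (1, J)| Y ≥ c2 c1 (Z^(-s))^n Z^n Y q^2/q^n ≥ c2 c1 (Z^(-s))^n`.
-/

open Polynomial MeasureTheory Set Filter

namespace Pool.Agent.Lib.H42V

theorem slb_card {n i : ℕ} (w : Fin (i + 1) → Fin (n + 1) → ℤ) (h : LinearIndependent ℤ w) : i ≤ n := by
  have h1 := h.fintype_card_le_finrank
  simp at h1
  omega

/-- The determinant whose first column consists of the values at `a + y`. -/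
theorem slb_det {n i : ℕ} (a y : ℝ) (v : Fin (i + 1) → Fin (n + 1) → ℝ) (J : Fin i → Fin (n + 1)) :
    Matrix.det (Matrix.of fun s t : Fin (i + 1) =>
      (Fin.cons (tc (a + y) (v s) 0) (fun t : Fin i => tc a (v s) (J t : ℕ)) : Fin (i + 1) → ℝ) t) =
      ∑ m : Fin (n + 1), Da a v (Fin.cons m J) * y ^ (m : ℕ) := by
  have h1 : ∀ m : Fin (n + 1), Da a v (Fin.cons m J) * y ^ (m : ℕ) =
      ∑ s : Fin (i + 1), (-1) ^ (s : ℕ) * (tc a (v s) (m : ℕ) * y ^ (m : ℕ)) *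
        Matrix.det (Matrix.of fun s' t' : Fin i => tc a (v (s.succAbove s')) (J t' : ℕ)) := by
    intro m
    unfold Da
    rw [Matrix.det_succ_column_zero, Finset.sum_mul]
    refine Finset.sum_congr rfl fun s _ => ?_
    have h2 : (Matrix.of fun s t : Fin (i + 1) => tc a (v s)
        (((Fin.cons m J : Fin (i + 1) → Fin (n + 1)) t : Fin (n + 1)) : ℕ)).submatrix s.succAbove Fin.succ =
        Matrix.of fun s' t' : Fin i => tc a (v (s.succAbove s')) (J t' : ℕ) := by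
      ext s' t'
      simp
    rw [h2]
    simp only [Matrix.of_apply, Fin.cons_zero]
    ring
  rw [Finset.sum_congr rfl fun m _ => h1 m, Finset.sum_comm, Matrix.det_succ_column_zero]
  refine Finset.sum_congr rfl fun s _ => ?_
  have h3 : (Matrix.of fun s t : Fin (i + 1) =>
      (Fin.cons (tc (a + y) (v s) 0) (fun t : Fin i => tc a (v s) (J t : ℕ)) : Fin (i + 1) → ℝ) t).submatrix
        s.succAbove Fin.succ = Matrix.of fun s' t' : Fin i => tc a (v (s.succAbove s')) (J t' : ℕ) := by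
    ext s' t'
    simp
  rw [h3]
  have h4 : tc (a + y) (v s) 0 = ∑ m : Fin (n + 1), tc a (v s) (m : ℕ) * y ^ (m : ℕ) := by
    rw [tc_shift]
    refine Finset.sum_congr rfl fun m _ => ?_
    rw [Nat.choose_zero_right, Nat.sub_zero, Nat.cast_one, one_mul, mul_comm]
  simp only [Matrix.of_apply, Fin.cons_zero]
  rw [h4, Finset.mul_sum, Finset.sum_mul]

/-- The minor with columns `(0, J)`. -/
theorem slb_mn {n i : ℕ} (a Z y : ℝ) (v : Fin (i + 1) → Fin (n + 1) → ℤ) (J : Fin i → Fin (n + 1))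
    (hJ : ∀ t, J t ≠ 0) :
    H70X.mn (hL n a Z) y v (Fin.cons 0 J) =
      Z ^ n * (1 / Z) ^ i * ∑ m : Fin (n + 1), Da a (fun s => rv (v s)) (Fin.cons m J) * y ^ (m : ℕ) := by
  rw [← slb_det]
  unfold H70X.mn
  have h1 : (Matrix.of fun s t : Fin (i + 1) => H70X.ev (hL n a Z) y (v s)
      ((Fin.cons 0 J : Fin (i + 1) → Fin (n + 1)) t)) =
      Matrix.of fun s t : Fin (i + 1) => (Fin.cons (Z ^ n) (fun _ => 1 / Z) : Fin (i + 1) → ℝ) t *
        (Matrix.of fun s t : Fin (i + 1) => (Fin.cons (tc (a + y) (rv (v s)) 0)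
          (fun t : Fin i => tc a (rv (v s)) (J t : ℕ)) : Fin (i + 1) → ℝ) t) s t := by
    ext s t
    refine Fin.cases ?_ (fun t => ?_) t
    · simp only [Matrix.of_apply, Fin.cons_zero]
      exact ev_hL_zero n a Z y (v s)
    · simp only [Matrix.of_apply, Fin.cons_succ]
      exact ev_hL n a Z y (v s) (J t) (hJ t)
  rw [h1, Matrix.det_mul_row, Fin.prod_univ_succ]
  simp only [Fin.cons_zero, Fin.cons_succ, Finset.prod_const, Finset.card_univ, Fintype.card_fin]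

/-- The number in step (0). -/
theorem slb_zero (n : ℕ) (hn : 1 ≤ n) : ∃ c : ℝ, 0 < c ∧ c ≤ 1 ∧ ∀ (g : Mo) (s Z : ℝ), g.Ok → 0 ≤ s → s ≤ 1 →
    GoodA n s g → (g.q : ℝ) ^ n ≤ Z → ∀ i : ℕ, ∀ w : Fin i → Fin (n + 1) → ℤ,
    LinearIndependent ℤ (cn (pk n g) w) → ∃ I : Fin i → Fin (n + 1),
      c * (Z ^ (-s)) ^ n * (g.q : ℝ) ^ n ≤ (∏ t, if I t = 0 then (g.q : ℝ) ^ n * Z ^ (n - 1) else 1 / Z) *
        |Da (al n g) (fun s => rv (cn (pk n g) w s)) (Fin.cons (Fin.last n) I)| := by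
  obtain ⟨c0, hc0, hc01, hqm⟩ := qm n hn
  refine ⟨c0, hc0, hc01, fun g s Z hg hs0 hs1 hgood hZ i w hw => ?_⟩
  have hq1 : (1 : ℝ) ≤ g.q := by
    have := hg.qpos
    exact_mod_cast (by omega : (1 : ℤ) ≤ g.q)
  have hqn : (1 : ℝ) ≤ (g.q : ℝ) ^ n := one_le_pow₀ hq1
  have hqn0 : (0 : ℝ) < (g.q : ℝ) ^ n := by linarith
  have hZ0 : 0 < Z := by linarith
  have hZ1 : 1 ≤ Z := by linarith
  rcases Nat.eq_zero_or_pos i with hi | hi
  · subst hi
    refine ⟨fun t => t.elim0, ?_⟩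
    have h1 : Da (al n g) (fun s => rv (cn (pk n g) w s))
        (Fin.cons (Fin.last n) (fun t : Fin 0 => t.elim0)) = pk n g (Fin.last n) := by
      unfold Da
      rw [Matrix.det_fin_one]
      simp only [Matrix.of_apply]
      have h2 : ((Fin.cons (Fin.last n) (fun t : Fin 0 => t.elim0) : Fin 1 → Fin (n + 1)) 0 : ℕ) = n := rfl
      have h3 : rv (cn (pk n g) w 0) = rv (pk n g) := rfl
      rw [h2, h3, tc_top]
      rfl
    rw [h1]
    have h4 := (pk_bd n hn g hg).2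
    have h5 : (Z ^ (-s)) ^ n ≤ 1 := by
      refine pow_le_one₀ (Real.rpow_nonneg hZ0.le _) ?_
      exact Real.rpow_le_one_of_one_le_of_nonpos hZ1 (by linarith)
    have h6 : (∏ t : Fin 0, if (fun t : Fin 0 => (t.elim0 : Fin (n + 1))) t = 0 then
        (g.q : ℝ) ^ n * Z ^ (n - 1) else 1 / Z) = 1 := by
      simp
    rw [h6, one_mul]
    have h7 : c0 * (Z ^ (-s)) ^ n ≤ 1 := by
      have h8 : 0 ≤ (Z ^ (-s)) ^ n := pow_nonneg (Real.rpow_nonneg hZ0.le _) _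
      nlinarith
    nlinarith
  · obtain ⟨I, -, hbig⟩ := hqm g s Z hg hs0 hs1 hgood hZ i hi w hw
    refine ⟨I, ?_⟩
    have hω : 0 < ∏ t, (if I t = 0 then (g.q : ℝ) ^ n * Z ^ (n - 1) else 1 / Z) :=
      Finset.prod_pos fun t _ => by split_ifs <;> positivity
    rwa [abs_mul, abs_of_pos hω] at hbig

/-- Comparison of the weights when some `I t` is 0. -/
theorem slb_prod {n i : ℕ} (hn : 1 ≤ n) (q Z : ℝ) (hq : 1 ≤ q) (hZ : q ≤ Z) (I : Fin i → Fin (n + 1))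
    (t0 : Fin i) (ht0 : I t0 = 0) :
    (∏ t, if I t = 0 then q * Z ^ (n - 1) else 1 / Z) ≤
      q * ∏ t, if (Fin.cons (Fin.last n) I : Fin (i + 1) → Fin (n + 1)) t = 0 then Z ^ n else 1 / Z := by
  have hZ0 : 0 < Z := by linarith
  have hq0 : 0 < q := by linarith
  have hl : (Fin.last n) ≠ 0 := by
    intro h
    have := congrArg Fin.val h
    simp at this
    omega
  rw [Fin.prod_univ_succ]
  simp only [Fin.cons_zero, Fin.cons_succ]
  rw [if_neg hl]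
  have hpow : Z ^ n = Z * Z ^ (n - 1) := by
    obtain ⟨m, rfl⟩ : ∃ m, n = m + 1 := ⟨n - 1, by omega⟩
    rw [pow_succ', Nat.add_sub_cancel]
  have h1 : (∏ t, if I t = 0 then q * Z ^ (n - 1) else 1 / Z) =
      (q * Z ^ (n - 1)) * ∏ t ∈ Finset.univ.erase t0, if I t = 0 then q * Z ^ (n - 1) else 1 / Z := by
    rw [← Finset.mul_prod_erase Finset.univ _ (Finset.mem_univ t0), if_pos ht0]
  have h2 : (∏ t, if I t = 0 then Z ^ n else 1 / Z) =
      Z ^ n * ∏ t ∈ Finset.univ.erase t0, if I t = 0 then Z ^ n else 1 / Z := by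
    rw [← Finset.mul_prod_erase Finset.univ _ (Finset.mem_univ t0), if_pos ht0]
  have h3 : (∏ t ∈ Finset.univ.erase t0, if I t = 0 then q * Z ^ (n - 1) else 1 / Z) ≤
      ∏ t ∈ Finset.univ.erase t0, if I t = 0 then Z ^ n else 1 / Z := by
    refine Finset.prod_le_prod (fun t _ => by split_ifs <;> positivity) fun t _ => ?_
    split_ifs with h
    · rw [hpow]
      exact mul_le_mul_of_nonneg_right hZ (by positivity)
    · exact le_rfl
  rw [h1, h2]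
  have h4 : q * (1 / Z * (Z ^ n * ∏ t ∈ Finset.univ.erase t0, if I t = 0 then Z ^ n else 1 / Z)) =
      q * Z ^ (n - 1) * ∏ t ∈ Finset.univ.erase t0, if I t = 0 then Z ^ n else 1 / Z := by
    rw [hpow]
    field_simp
  rw [h4]
  exact mul_le_mul_of_nonneg_left h3 (by positivity)

theorem sup_B (n : ℕ) (hn : 1 ≤ n) : ∃ c : ℝ, 0 < c ∧ c ≤ 1 ∧ ∀ (g : Mo) (s Z w0 : ℝ), g.Ok → 0 ≤ s → s ≤ 1 →
    GoodA n s g → (g.q : ℝ) ^ n ≤ Z → (g.q : ℝ) ^ (n * w0) ≤ Z ^ n → ∀ i : ℕ, ∀ w : Fin i → Fin (n + 1) → ℤ,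
    LinearIndependent ℤ (cn (pk n g) w) → ∃ y ∈ Icc (Yy n w0 g) (2 * Yy n w0 g), ∃ S : Fin (i + 1) → Fin (n + 1),
      c * (Z ^ (-s)) ^ n ≤ |H70X.mn (hL n (al n g) Z) y (cn (pk n g) w) S| := by
  obtain ⟨c0, hc0, hc01, hqm⟩ := slb_zero n hn
  obtain ⟨cu, hcu, hup⟩ := up_zero (n + 1) n
  obtain ⟨cv, hcv, hupc⟩ := up_coeff n
  set κ : ℝ := (n + 1) * (4 * 36 ^ n) with hκ
  have hκ0 : 0 < κ := by positivity
  have hn1 : (1 : ℝ) ≤ (n : ℝ) + 1 := by
    have h2 : (0 : ℝ) ≤ n := by positivity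
    linarith
  set c1 : ℝ := c0 / (5 ^ n * (((n : ℝ) + 1) * κ)) with hc1
  have hc10 : 0 < c1 := by positivity
  refine ⟨min 1 (min (cu * c0) (cv * c1)), by positivity, min_le_left _ _, ?_⟩
  intro g s Z w0 hg hs0 hs1 hgood hZ hZw i w hw
  have hq1 : (1 : ℝ) ≤ g.q := by
    have := hg.qpos
    exact_mod_cast (by omega : (1 : ℤ) ≤ g.q)
  have hq0 : (0 : ℝ) < g.q := by linarith
  have hqn : (1 : ℝ) ≤ (g.q : ℝ) ^ n := one_le_pow₀ hq1
  have hqn0 : (0 : ℝ) < (g.q : ℝ) ^ n := by linarith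
  have hZ0 : 0 < Z := by linarith
  have hZs : 0 < (Z ^ (-s)) ^ n := pow_pos (Real.rpow_pos_of_pos hZ0 _) _
  have hY : 0 < Yy n w0 g := Real.rpow_pos_of_pos hq0 _
  have hin := slb_card _ hw
  have hinR : (i : ℝ) + 1 ≤ (n : ℝ) + 1 := by
    have h2 : (i : ℝ) ≤ n := by exact_mod_cast hin
    linarith
  obtain ⟨I, hbig⟩ := hqm g s Z hg hs0 hs1 hgood hZ i w hw
  set D : ℝ := |Da (al n g) (fun s => rv (cn (pk n g) w s)) (Fin.cons (Fin.last n) I)| with hD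
  have hD0 : 0 ≤ D := abs_nonneg _
  by_cases hI : ∃ t0, I t0 = 0
  · -- case (1)
    obtain ⟨t0, ht0⟩ := hI
    obtain ⟨y, hy, hmn⟩ := hup (hL n (al n g) Z) (hL_deg n (al n g) Z) (i + 1) (cn (pk n g) w)
      (Fin.cons (Fin.last n) I) (Yy n w0 g) (by omega) hY
    refine ⟨y, hy, Fin.cons (Fin.last n) I, le_trans ?_ hmn⟩
    rw [mn_hL_zero, abs_mul]
    have hΩ : 0 < ∏ t, (if (Fin.cons (Fin.last n) I : Fin (i + 1) → Fin (n + 1)) t = 0 then Z ^ n else 1 / Z) :=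
      Finset.prod_pos fun t _ => by split_ifs <;> positivity
    rw [abs_of_pos hΩ]
    have h1 := slb_prod hn ((g.q : ℝ) ^ n) Z hqn hZ I t0 ht0
    have h2 := hbig.trans (mul_le_mul_of_nonneg_right h1 hD0)
    have h3 : c0 * (Z ^ (-s)) ^ n ≤
        (∏ t, if (Fin.cons (Fin.last n) I : Fin (i + 1) → Fin (n + 1)) t = 0 then Z ^ n else 1 / Z) * D := by
      refine le_of_mul_le_mul_right ?_ hqn0
      refine h2.trans (le_of_eq ?_)
      ring
    calc min 1 (min (cu * c0) (cv * c1)) * (Z ^ (-s)) ^ n ≤ (cu * c0) * (Z ^ (-s)) ^ n :=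
          mul_le_mul_of_nonneg_right ((min_le_right _ _).trans (min_le_left _ _)) hZs.le
      _ = cu * (c0 * (Z ^ (-s)) ^ n) := by ring
      _ ≤ _ := mul_le_mul_of_nonneg_left h3 hcu.le
  · -- case (2)
    push Not at hI
    have hω : (∏ t, if I t = 0 then (g.q : ℝ) ^ n * Z ^ (n - 1) else 1 / Z) = (1 / Z) ^ i := by
      rw [Finset.prod_congr rfl fun t _ => if_neg (hI t), Finset.prod_const, Finset.card_univ,
        Fintype.card_fin]
    rw [hω] at hbig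
    obtain ⟨J, hJ, hpl⟩ := pluecker hn (al n g) (κ * (g.q : ℝ) ^ n) (fun s => rv (cn (pk n g) w s))
      (fun m => pk_tc n hn g hg m) I hI
    have hder : (g.q : ℝ) ^ 2 ≤ 5 ^ n * (g.q : ℝ) ^ n *
        |tc (al n g) ((fun s => rv (cn (pk n g) w s)) 0) 1| := pk_der n hn g hg
    set T : ℝ := |tc (al n g) ((fun s => rv (cn (pk n g) w s)) 0) 1| with hT
    have hT0 : 0 ≤ T := abs_nonneg _
    set E : ℝ := |Da (al n g) (fun s => rv (cn (pk n g) w s))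
      (Fin.cons (⟨1, by omega⟩ : Fin (n + 1)) J)| with hE
    have hE0 : 0 ≤ E := abs_nonneg _
    set pl : ℝ[X] := ∑ m : Fin (n + 1), C (Z ^ n * (1 / Z) ^ i *
      Da (al n g) (fun s => rv (cn (pk n g) w s)) (Fin.cons m J)) * X ^ (m : ℕ) with hpl'
    have hdeg : pl.natDegree ≤ n := by
      refine Polynomial.natDegree_sum_le_of_forall_le _ _ fun m _ => ?_
      refine (Polynomial.natDegree_C_mul_X_pow_le _ _).trans ?_
      omega
    have hcoef : pl.coeff 1 = Z ^ n * (1 / Z) ^ i *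
        Da (al n g) (fun s => rv (cn (pk n g) w s)) (Fin.cons (⟨1, by omega⟩ : Fin (n + 1)) J) := by
      rw [hpl', Polynomial.finsetSum_coeff]
      rw [Finset.sum_eq_single (⟨1, by omega⟩ : Fin (n + 1))]
      · rw [Polynomial.coeff_C_mul_X_pow, if_pos rfl]
      · intro m _ hm
        rw [Polynomial.coeff_C_mul_X_pow, if_neg]
        intro h
        exact hm (Fin.ext h.symm)
      · intro h
        exact absurd (Finset.mem_univ _) h
    obtain ⟨y, hy, hval⟩ := hupc pl (Yy n w0 g) 1 hdeg hY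
    refine ⟨y, hy, Fin.cons 0 J, ?_⟩
    have hev : pl.eval y = H70X.mn (hL n (al n g) Z) y (cn (pk n g) w) (Fin.cons 0 J) := by
      rw [slb_mn _ _ _ _ _ hJ, hpl', Polynomial.eval_finsetSum, Finset.mul_sum]
      refine Finset.sum_congr rfl fun m _ => ?_
      rw [Polynomial.eval_mul, Polynomial.eval_C, Polynomial.eval_pow, Polynomial.eval_X]
      ring
    rw [← hev]
    refine le_trans ?_ hval
    rw [hcoef, abs_mul, ← hE, abs_of_pos (by positivity), pow_one]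
    -- the size of `E`
    have h1 : (g.q : ℝ) ^ 2 * (c0 * (Z ^ (-s)) ^ n * (g.q : ℝ) ^ n) ≤
        (5 ^ n * (g.q : ℝ) ^ n * ((1 / Z) ^ i)) * (((n : ℝ) + 1) * (κ * (g.q : ℝ) ^ n) * E) := by
      calc (g.q : ℝ) ^ 2 * (c0 * (Z ^ (-s)) ^ n * (g.q : ℝ) ^ n)
          ≤ (5 ^ n * (g.q : ℝ) ^ n * T) * ((1 / Z) ^ i * D) :=
            mul_le_mul hder hbig (by positivity) (by positivity)
        _ = (5 ^ n * (g.q : ℝ) ^ n * ((1 / Z) ^ i)) * (T * D) := by ring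
        _ ≤ (5 ^ n * (g.q : ℝ) ^ n * ((1 / Z) ^ i)) * (((n : ℝ) + 1) * (κ * (g.q : ℝ) ^ n) * E) := by
            refine mul_le_mul_of_nonneg_left ?_ (by positivity)
            refine hpl.trans ?_
            refine mul_le_mul_of_nonneg_right ?_ hE0
            exact mul_le_mul_of_nonneg_right hinR (by positivity)
    have h2 : c1 * (Z ^ (-s)) ^ n * ((g.q : ℝ) ^ 2 / (g.q : ℝ) ^ n) ≤ (1 / Z) ^ i * E := by
      have h3 : 0 < 5 ^ n * (((n : ℝ) + 1) * κ) * ((g.q : ℝ) ^ n) ^ 2 := by positivity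
      refine le_of_mul_le_mul_right ?_ h3
      have h4 : c1 * (Z ^ (-s)) ^ n * ((g.q : ℝ) ^ 2 / (g.q : ℝ) ^ n) *
          (5 ^ n * (((n : ℝ) + 1) * κ) * ((g.q : ℝ) ^ n) ^ 2) =
          (g.q : ℝ) ^ 2 * (c0 * (Z ^ (-s)) ^ n * (g.q : ℝ) ^ n) := by
        rw [hc1]
        field_simp
      rw [h4]
      refine h1.trans (le_of_eq ?_)
      ring
    have h5 : 1 ≤ Z ^ n * ((g.q : ℝ) ^ 2 / (g.q : ℝ) ^ n) * Yy n w0 g := by
      have h6 : ((g.q : ℝ) ^ 2 / (g.q : ℝ) ^ n) * Yy n w0 g = ((g.q : ℝ) ^ ((n : ℝ) * w0))⁻¹ := by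
        unfold Yy
        rw [← Real.rpow_natCast, ← Real.rpow_natCast, ← Real.rpow_sub hq0, ← Real.rpow_add hq0,
          ← Real.rpow_neg hq0.le]
        congr 1
        push_cast
        ring
      rw [mul_assoc, h6, ← div_eq_mul_inv, le_div_iff₀ (Real.rpow_pos_of_pos hq0 _), one_mul]
      exact hZw
    calc min 1 (min (cu * c0) (cv * c1)) * (Z ^ (-s)) ^ n ≤ (cv * c1) * (Z ^ (-s)) ^ n :=
          mul_le_mul_of_nonneg_right ((min_le_right _ _).trans (min_le_right _ _)) hZs.le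
      _ ≤ (cv * c1) * (Z ^ (-s)) ^ n * (Z ^ n * ((g.q : ℝ) ^ 2 / (g.q : ℝ) ^ n) * Yy n w0 g) :=
          le_mul_of_one_le_right (by positivity) h5
      _ = cv * (Z ^ n * (c1 * (Z ^ (-s)) ^ n * ((g.q : ℝ) ^ 2 / (g.q : ℝ) ^ n)) * Yy n w0 g) := by ring
      _ ≤ cv * (Z ^ n * ((1 / Z) ^ i * E) * Yy n w0 g) := by
          refine mul_le_mul_of_nonneg_left ?_ hcv.le
          refine mul_le_mul_of_nonneg_right ?_ hY.le
          exact mul_le_mul_of_nonneg_left h2 (by positivity)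
      _ = cv * (Z ^ n * (1 / Z) ^ i * E * Yy n w0 g) := by ring

end Pool.Agent.Lib.H42V
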