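import Pool.Agent.Lib.H42V.SLA
import Pool.Agent.Lib.H42V.SLB
import Pool.Agent.Lib.H42V.SAT

/-!
# Chunk SL (S/M)
The hypothesis of quantitative nondivergence near `al`, large scales.

Proof. If `pk, v` are independent: `sup_A` and `up_zero (n+1) n` (`j ≤ n`). Otherwise write `j = i + 1`; `saturate` (`pk_prim`) gives `w : Fin i → _` and `M`, `v_s = ∑_t M s t • (pk, w)_t`, so `mn h y v S = det M * mn h y (pk, w) S` for every `h, y, S` (`ev` is linear) and `|det M| ≥ 1`: `sup_B`.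
-/

open Polynomial MeasureTheory Set Filter

namespace Pool.Agent.Lib.H42V

theorem sl_ev {k j : ℕ} (h : Matrix (Fin k) (Fin k) ℝ[X]) (y : ℝ) (u : Fin k → ℤ) (w : Fin j → Fin k → ℤ)
    (m : Fin j → ℤ) (hu : u = ∑ t, m t • w t) (i : Fin k) :
    H70X.ev h y u i = ∑ t, (m t : ℝ) * H70X.ev h y (w t) i := by
  unfold H70X.ev
  simp only [Finset.mul_sum]
  rw [Finset.sum_comm]
  refine Finset.sum_congr rfl fun l _ => ?_
  rw [hu, Finset.sum_apply, Int.cast_sum, Finset.mul_sum]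
  refine Finset.sum_congr rfl fun t _ => ?_
  rw [Pi.smul_apply, smul_eq_mul, Int.cast_mul]
  ring

theorem sl_mn {k j : ℕ} (h : Matrix (Fin k) (Fin k) ℝ[X]) (y : ℝ) (v w : Fin j → Fin k → ℤ)
    (M : Matrix (Fin j) (Fin j) ℤ) (hv : ∀ s, v s = ∑ t, M s t • w t) (S : Fin j → Fin k) :
    H70X.mn h y v S = (M.det : ℝ) * H70X.mn h y w S := by
  have h1 : (Matrix.of fun s t : Fin j => H70X.ev h y (v s) (S t)) =
      (Int.castRingHom ℝ).mapMatrix M * (Matrix.of fun s t : Fin j => H70X.ev h y (w s) (S t)) := by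
    ext s t
    rw [Matrix.mul_apply]
    exact sl_ev h y (v s) w (fun t => M s t) (hv s) (S t)
  unfold H70X.mn
  rw [h1, Matrix.det_mul, ← RingHom.map_det]
  rfl

theorem sup_large (n : ℕ) (hn : 1 ≤ n) : ∃ c : ℝ, 0 < c ∧ c ≤ 1 ∧ ∀ (g : Mo) (s Z w0 : ℝ), g.Ok → 0 ≤ s → s ≤ 1 →
    GoodA n s g → (g.q : ℝ) ^ n ≤ Z → (g.q : ℝ) ^ (n * w0) ≤ Z ^ n → ∀ j : ℕ, 1 ≤ j →
    ∀ v : Fin j → Fin (n + 1) → ℤ, LinearIndependent ℤ v → ∃ y ∈ Icc (Yy n w0 g) (2 * Yy n w0 g),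
      ∃ S : Fin j → Fin (n + 1), c * (Z ^ (-s)) ^ n ≤ |H70X.mn (hL n (al n g) Z) y v S| := by
  obtain ⟨cA, hcA, hcA1, hA⟩ := sup_A n hn
  obtain ⟨cB, hcB, hcB1, hB⟩ := sup_B n hn
  obtain ⟨cu, hcu, hU⟩ := up_zero (n + 1) n
  refine ⟨min (cu * cA) cB, lt_min (mul_pos hcu hcA) hcB, (min_le_right _ _).trans hcB1, ?_⟩
  intro g s Z w0 hg hs0 hs1 hgood hZ hZ2 j hj v hv
  have hq : (0 : ℝ) < g.q := by
    have := hg.qpos
    exact_mod_cast this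
  have hZ0 : 0 < Z := lt_of_lt_of_le (pow_pos hq n) hZ
  have hZs : 0 ≤ (Z ^ (-s)) ^ n := (pow_pos (Real.rpow_pos_of_pos hZ0 _) _).le
  have hY : 0 < Yy n w0 g := Real.rpow_pos_of_pos hq _
  by_cases hind : LinearIndependent ℤ (cn (pk n g) v)
  · obtain ⟨S, hS⟩ := hA g s Z hg hs0 hs1 hgood hZ j hj v hind
    have hjn : j ≤ n + 1 := by
      have := sla_card _ hind
      omega
    obtain ⟨y, hy, hyS⟩ := hU (hL n (al n g) Z) (hL_deg n (al n g) Z) j v S (Yy n w0 g) hjn hY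
    refine ⟨y, hy, S, ?_⟩
    calc min (cu * cA) cB * (Z ^ (-s)) ^ n ≤ (cu * cA) * (Z ^ (-s)) ^ n :=
          mul_le_mul_of_nonneg_right (min_le_left _ _) hZs
      _ = cu * (cA * (Z ^ (-s)) ^ n) := by ring
      _ ≤ cu * |H70X.mn (hL n (al n g) Z) 0 v S| := mul_le_mul_of_nonneg_left hS hcu.le
      _ ≤ _ := hyS
  · obtain ⟨i, rfl⟩ : ∃ i, j = i + 1 := ⟨j - 1, by omega⟩
    obtain ⟨w, M, hM, hw, hvw⟩ := saturate (pk n g) (pk_prim n hn g hg) v hv hind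
    obtain ⟨y, hy, S, hS⟩ := hB g s Z w0 hg hs0 hs1 hgood hZ hZ2 i w hw
    refine ⟨y, hy, S, ?_⟩
    have hdet : (1 : ℝ) ≤ |(M.det : ℝ)| := by
      have h1 : (1 : ℤ) ≤ |M.det| := Int.one_le_abs hM
      rw [← Int.cast_abs]
      exact_mod_cast h1
    rw [sl_mn (hL n (al n g) Z) y v (cn (pk n g) w) M hvw S, abs_mul]
    calc min (cu * cA) cB * (Z ^ (-s)) ^ n ≤ cB * (Z ^ (-s)) ^ n :=
          mul_le_mul_of_nonneg_right (min_le_right _ _) hZs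
      _ ≤ |H70X.mn (hL n (al n g) Z) y (cn (pk n g) w) S| := hS
      _ = 1 * |H70X.mn (hL n (al n g) Z) y (cn (pk n g) w) S| := (one_mul _).symm
      _ ≤ _ := mul_le_mul_of_nonneg_right hdet (abs_nonneg _)

end Pool.Agent.Lib.H42V
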