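import Pool.Agent.Lib.H42V.SM
import Pool.Agent.Lib.H42V.SL
import Pool.Agent.Lib.H70X.QL5

/-!
# Chunk SCF (M)
One scale, full matrix (small or large scales).

Proof. `Y = Yy n w0 g > 0`, `κ = (n+1) 6^n`. `c` = minimum of the constants of `sup_small`, `sup_large`; `C0, α` of `H70X.qnd (n+1) n`. `ρ = c (Z^(-s))^(n+1) ≤ 1` (`(Z^(-s))^n ≥ (Z^(-s))^(n+1)` as `Z ≥ 1`). If `y` is in the set, with `v ≠ 0` (not a multiple of `pk`): `|ev (hL) y v 0| ≤ δ`, `|ev (hL) y v i| ≤ κ δ`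
(`tc_le` with `B = δ Z`), so `(n+1) ∑ |ev| ≤ (n+1)^2 κ δ < ε := 2 (n+1)^2 κ δ`. If `ε ≤ ρ`: `qnd` gives `C0 (ε/ρ)^α Y`, and `ε/ρ = (2 (n+1)^2 κ/c) δ (Z^s)^(n+1)`. If `ε > ρ` the measure is `≤ Y ≤ (ε/ρ)^α Y`. `C = max C0 1 * (2 (n+1)^2 κ/c)^α`.
-/

open Polynomial MeasureTheory Set Filter

namespace Pool.Agent.Lib.H42V

theorem scale_full (n : ℕ) (hn : 1 ≤ n) : ∃ C α : ℝ, 0 < C ∧ 0 < α ∧ ∀ (g : Mo) (s Z w0 δ : ℝ), g.Ok → 0 ≤ s → s ≤ 1 →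
    GoodA n s g → 1 ≤ w0 → (g.q : ℝ) ^ (1 / ((n : ℝ) + 1)) ≤ Z → 0 < δ →
    (Z ≤ (g.q : ℝ) ^ n ∨ ((g.q : ℝ) ^ n ≤ Z ∧ (g.q : ℝ) ^ (n * w0) ≤ Z ^ n)) →
    volume {y ∈ Icc (Yy n w0 g) (2 * Yy n w0 g) | ∃ v : Fin (n + 1) → ℤ, ¬ Mul v (pk n g) ∧
      (∀ l, |(v l : ℝ)| ≤ δ * Z) ∧ |tc (al n g + y) (rv v) 0| ≤ δ / Z ^ n} ≤
      ENNReal.ofReal (C * (δ * (Z ^ s) ^ (n + 1)) ^ α * Yy n w0 g) := by
  obtain ⟨c1, hc1, hc11, hs1⟩ := sup_small n hn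
  obtain ⟨c2, hc2, hc21, hs2⟩ := sup_large n hn
  obtain ⟨C0, α, hC0, hα, hq⟩ := H70X.qnd (n + 1) n
  set κ : ℝ := (n + 1) * 6 ^ n with hκ
  have hκ1 : 1 ≤ κ := by
    have h1 : (1 : ℝ) ≤ (n : ℝ) + 1 := by linarith [Nat.cast_nonneg (α := ℝ) n]
    have h2 : (1 : ℝ) ≤ 6 ^ n := one_le_pow₀ (by norm_num)
    rw [hκ]
    nlinarith
  have hκ0 : 0 < κ := by linarith
  set c : ℝ := min c1 c2 with hc
  have hc0 : 0 < c := lt_min hc1 hc2
  have hcle : c ≤ 1 := (min_le_left _ _).trans hc11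
  set K : ℝ := 2 * ((n : ℝ) + 1) ^ 2 * κ / c with hK
  have hK0 : 0 < K := by positivity
  refine ⟨max C0 1 * K ^ α, α, by positivity, hα, ?_⟩
  intro g s Z w0 δ hg hs hs' hgood hw0 hZ hδ hcase
  have hq0 : (0 : ℝ) < g.q := by exact_mod_cast hg.qpos
  have hq1 : (1 : ℝ) ≤ g.q := by exact_mod_cast hg.qpos
  have hZ1 : 1 ≤ Z := (Real.one_le_rpow hq1 (by positivity)).trans hZ
  have hZ0 : 0 < Z := by linarith
  obtain ⟨Y, hY⟩ : ∃ Y : ℝ, Y = Yy n w0 g := ⟨_, rfl⟩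
  have hY0 : 0 < Y := by
    rw [hY]
    exact Real.rpow_pos_of_pos hq0 _
  rw [← hY]
  have hζ0 : 0 < Z ^ (-s) := Real.rpow_pos_of_pos hZ0 _
  have hζ1 : Z ^ (-s) ≤ 1 := Real.rpow_le_one_of_one_le_of_nonpos hZ1 (by linarith)
  obtain ⟨ρ, hρ⟩ : ∃ ρ : ℝ, ρ = c * (Z ^ (-s)) ^ (n + 1) := ⟨_, rfl⟩
  have hρ0 : 0 < ρ := by
    rw [hρ]
    positivity
  have hρ1 : ρ ≤ 1 := by
    rw [hρ]
    exact mul_le_one₀ hcle (by positivity) (pow_le_one₀ hζ0.le hζ1)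
  have hsup : ∀ j : ℕ, 1 ≤ j → ∀ v : Fin j → Fin (n + 1) → ℤ, LinearIndependent ℤ v →
      ∃ x ∈ Icc Y (2 * Y), ∃ S : Fin j → Fin (n + 1), ρ ≤ |H70X.mn (hL n (al n g) Z) x v S| := by
    intro j hj v hv
    rcases hcase with h | ⟨h, h'⟩
    · obtain ⟨y, hy, S, hS⟩ := hs1 g s Z Y hg hs hs' hgood hZ h hY0 j hj v hv
      refine ⟨y, hy, S, le_trans ?_ hS⟩
      rw [hρ]
      exact mul_le_mul_of_nonneg_right (min_le_left _ _) (by positivity)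
    · obtain ⟨y, hy, S, hS⟩ := hs2 g s Z w0 hg hs hs' hgood h h' j hj v hv
      rw [← hY] at hy
      refine ⟨y, hy, S, le_trans ?_ hS⟩
      rw [hρ]
      exact mul_le_mul (min_le_right _ _) (pow_le_pow_of_le_one hζ0.le hζ1 (Nat.le_succ n))
        (by positivity) hc2.le
  obtain ⟨ε, hε⟩ : ∃ ε : ℝ, ε = 2 * ((n : ℝ) + 1) ^ 2 * κ * δ := ⟨_, rfl⟩
  have hε0 : 0 < ε := by
    rw [hε]
    positivity
  have hsub : {y ∈ Icc Y (2 * Y) | ∃ v : Fin (n + 1) → ℤ, ¬ Mul v (pk n g) ∧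
      (∀ l, |(v l : ℝ)| ≤ δ * Z) ∧ |tc (al n g + y) (rv v) 0| ≤ δ / Z ^ n} ⊆
      {x ∈ Icc Y (2 * Y) | ∃ u : Fin (n + 1) → ℤ, u ≠ 0 ∧
        ((n + 1 : ℕ) : ℝ) * ∑ i, |H70X.ev (hL n (al n g) Z) x u i| < ε} := by
    rintro y ⟨hy, v, hv, hvl, hv0⟩
    refine ⟨hy, v, ?_, ?_⟩
    · rintro rfl
      exact hv ⟨0, by rw [zero_smul]⟩
    · have hal : |al n g| ≤ 3 := (al_le n hn g hg).trans (by norm_num)
      have h1 : ∀ i, |H70X.ev (hL n (al n g) Z) y v i| ≤ κ * δ := by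
        intro i
        by_cases hi : i = 0
        · subst hi
          rw [ev_hL_zero, abs_mul, abs_of_nonneg (by positivity : (0 : ℝ) ≤ Z ^ n)]
          have h2 : Z ^ n * |tc (al n g + y) (rv v) 0| ≤ Z ^ n * (δ / Z ^ n) :=
            mul_le_mul_of_nonneg_left hv0 (by positivity)
          rw [mul_div_cancel₀ _ (by positivity : (Z ^ n : ℝ) ≠ 0)] at h2
          refine h2.trans ?_
          exact le_mul_of_one_le_left hδ.le hκ1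
        · rw [ev_hL n (al n g) Z y v i hi, abs_mul, abs_of_nonneg (by positivity : (0 : ℝ) ≤ 1 / Z)]
          have h2 := tc_le (al n g) (δ * Z) hal (by positivity) (rv v) hvl (i : ℕ)
          have h3 : 1 / Z * |tc (al n g) (rv v) (i : ℕ)| ≤ 1 / Z * ((n + 1) * 6 ^ n * (δ * Z)) :=
            mul_le_mul_of_nonneg_left h2 (by positivity)
          refine h3.trans (le_of_eq ?_)
          rw [hκ]
          field_simp
      have h2 : ∑ i, |H70X.ev (hL n (al n g) Z) y v i| ≤ ((n : ℝ) + 1) * (κ * δ) := by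
        refine (Finset.sum_le_sum fun i _ => h1 i).trans (le_of_eq ?_)
        rw [Finset.sum_const, Finset.card_univ, Fintype.card_fin, nsmul_eq_mul]
        push_cast
        ring
      have h3 : ((n + 1 : ℕ) : ℝ) * ∑ i, |H70X.ev (hL n (al n g) Z) y v i| ≤
          ((n : ℝ) + 1) * (((n : ℝ) + 1) * (κ * δ)) := by
        push_cast
        exact mul_le_mul_of_nonneg_left h2 (by positivity)
      refine lt_of_le_of_lt h3 ?_
      rw [hε]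
      have h4 : 0 < ((n : ℝ) + 1) ^ 2 * κ * δ := by positivity
      linarith
  have hratio : ε / ρ = K * (δ * (Z ^ s) ^ (n + 1)) := by
    rw [hε, hρ, hK, Real.rpow_neg hZ0.le]
    have h1 : 0 < Z ^ s := Real.rpow_pos_of_pos hZ0 _
    field_simp
    rw [← mul_pow, one_div, inv_mul_cancel₀ h1.ne', one_pow]
  have hpos : 0 < δ * (Z ^ s) ^ (n + 1) := by
    have h1 : 0 < Z ^ s := Real.rpow_pos_of_pos hZ0 _
    positivity
  have hpow : (ε / ρ) ^ α = K ^ α * (δ * (Z ^ s) ^ (n + 1)) ^ α := by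
    rw [hratio, Real.mul_rpow hK0.le hpos.le]
  by_cases hερ : ε ≤ ρ
  · have h1 := hq (hL n (al n g) Z) Y (2 * Y) ρ ε (fun i l => hL_deg n _ Z i l)
      (fun x => by rw [hL_det n _ Z x hZ0.ne']; exact one_ne_zero) (by linarith) hε0 hερ hρ1 hsup
    refine (measure_mono hsub).trans (h1.trans (ENNReal.ofReal_le_ofReal ?_))
    rw [hpow]
    have h2 : 2 * Y - Y = Y := by ring
    rw [h2]
    refine mul_le_mul_of_nonneg_right ?_ hY0.le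
    rw [← mul_assoc]
    refine mul_le_mul_of_nonneg_right ?_ (by positivity)
    exact mul_le_mul_of_nonneg_right (le_max_left _ _) (by positivity)
  · push Not at hερ
    refine (measure_mono (fun y hy => hy.1 : _ ⊆ Icc Y (2 * Y))).trans ?_
    rw [Real.volume_Icc]
    refine ENNReal.ofReal_le_ofReal ?_
    have h1 : 1 ≤ (ε / ρ) ^ α := by
      refine Real.one_le_rpow ?_ hα.le
      rw [le_div_iff₀ hρ0]
      linarith
    rw [hpow] at h1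
    have h2 : (1 : ℝ) ≤ max C0 1 * (K ^ α * (δ * (Z ^ s) ^ (n + 1)) ^ α) :=
      one_le_mul_of_one_le_of_one_le (le_max_right _ _) h1
    have h3 : 1 * Y ≤ max C0 1 * (K ^ α * (δ * (Z ^ s) ^ (n + 1)) ^ α) * Y :=
      mul_le_mul_of_nonneg_right h2 hY0.le
    calc 2 * Y - Y = 1 * Y := by ring
      _ ≤ _ := h3
      _ = _ := by ring

end Pool.Agent.Lib.H42V
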