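import Pool.Agent.Lib.H42V.QM
import Pool.Agent.Lib.H42V.HL

/-!
# Chunk SLA (M)
Large scales, tuples independent of `pk`.

Proof. `qm` with `i = j` (constant `c0`) gives `I`. Laplace expansion of `Da a (pk, v) (last, I)` along the row `pk`: the sum over `τ : Fin (j+1)` of `± tc a pk ((last, I) τ) * Da a v ((last, I) ∘ succAbove τ)`. So for some `τ`: `|tc a pk ((last, I) τ)| |Da a v J| ≥ |Da a (pk, v) (last, I)|/(j+1) > 0`, `J = (last, I) ∘ succAbove τ`,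
and `|tc a pk m| ≤ κ q^n`, `κ = (n+1) 4 * 36^n` (`pk_tc`); `(last, I) τ ≠ 0` as `tc a pk 0 = 0` (`pk_root`). `I` is injective (otherwise the minor is 0), so at most one `I t` is 0. Let `Ω(0) = Z^n`, `Ω(m) = 1/Z`. If no `I t` is 0: `∏ Ω(J t) = Z^(-j) = ∏ ω(I t)`. If one is 0: it is still a value of `J`, so
`∏ Ω(J t) = Z^n Z^(-(j-1)) = ∏ ω(I t) * Z/q^n ≥ ∏ ω(I t)` (`ω(0) = q^n Z^(n-1)`). Hence (`mn_hL_zero`) `|mn (hL) 0 v J| ≥ ∏ ω(I t) |Da a (pk, v) (last, I)| / ((j+1) κ q^n) ≥ c0 (Z^(-s))^n/((n+1) κ)`. (`j + 1 ≤ n + 1`.)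
-/

open Polynomial MeasureTheory Set Filter

namespace Pool.Agent.Lib.H42V

theorem sla_card {n j : ℕ} (w : Fin (j + 1) → Fin (n + 1) → ℤ) (h : LinearIndependent ℤ w) : j ≤ n := by
  have h1 := h.fintype_card_le_finrank
  simp at h1
  omega

/-- Laplace expansion: a large cofactor. -/
theorem sla_laplace {n j : ℕ} (a : ℝ) (f : Fin (n + 1) → ℤ) (v : Fin j → Fin (n + 1) → ℤ)
    (L : Fin (j + 1) → Fin (n + 1)) :
    ∃ τ : Fin (j + 1), |Da a (fun s => rv (cn f v s)) L| ≤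
      (j + 1) * (|tc a (rv f) (L τ : ℕ)| * |Da a (fun s => rv (v s)) (fun t => L (τ.succAbove t))|) := by
  by_contra hcon
  push Not at hcon
  have h1 : Da a (fun s => rv (cn f v s)) L =
      ∑ τ : Fin (j + 1), (-1) ^ (τ : ℕ) * tc a (rv f) (L τ : ℕ) *
        Da a (fun s => rv (v s)) (fun t => L (τ.succAbove t)) := by
    unfold Da
    rw [Matrix.det_succ_row_zero]
    rfl
  have h2 : |Da a (fun s => rv (cn f v s)) L| ≤ ∑ τ : Fin (j + 1),
      |tc a (rv f) (L τ : ℕ)| * |Da a (fun s => rv (v s)) (fun t => L (τ.succAbove t))| := by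
    rw [h1]
    refine (Finset.abs_sum_le_sum_abs _ _).trans (Finset.sum_le_sum fun τ _ => ?_)
    rw [abs_mul, abs_mul, abs_pow, abs_neg, abs_one, one_pow, one_mul]
  have h3 : ∑ τ : Fin (j + 1), ((j : ℝ) + 1) *
      (|tc a (rv f) (L τ : ℕ)| * |Da a (fun s => rv (v s)) (fun t => L (τ.succAbove t))|) <
      ∑ τ : Fin (j + 1), |Da a (fun s => rv (cn f v s)) L| :=
    Finset.sum_lt_sum_of_nonempty ⟨0, Finset.mem_univ _⟩ fun τ _ => hcon τ
  rw [← Finset.mul_sum, Finset.sum_const, Finset.card_univ, Fintype.card_fin, nsmul_eq_mul] at h3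
  push_cast at h3
  have h4 : (0 : ℝ) < (j : ℝ) + 1 := by positivity
  have h5 := mul_le_mul_of_nonneg_left h2 h4.le
  linarith

theorem sla_prod {n j : ℕ} (hn : 1 ≤ n) (Z : ℝ) (hZ : 0 < Z) (I : Fin j → Fin (n + 1)) (τ : Fin (j + 1))
    (hτ : (Fin.cons (Fin.last n) I : Fin (j + 1) → Fin (n + 1)) τ ≠ 0) :
    (∏ t : Fin j, if (Fin.cons (Fin.last n) I : Fin (j + 1) → Fin (n + 1)) (τ.succAbove t) = 0 then Z ^ n
      else 1 / Z) = ∏ t : Fin j, if I t = 0 then Z ^ n else 1 / Z := by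
  have h1 := Fin.prod_univ_succAbove (fun x : Fin (j + 1) =>
    if (Fin.cons (Fin.last n) I : Fin (j + 1) → Fin (n + 1)) x = 0 then Z ^ n else 1 / Z) τ
  have h2 := Fin.prod_univ_succ (fun x : Fin (j + 1) =>
    if (Fin.cons (Fin.last n) I : Fin (j + 1) → Fin (n + 1)) x = 0 then Z ^ n else 1 / Z)
  have hl : (Fin.last n) ≠ 0 := by
    intro h
    have := congrArg Fin.val h
    simp at this
    omega
  rw [h1, if_neg hτ] at h2
  simp only [Fin.cons_zero, Fin.cons_succ] at h2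
  rw [if_neg hl] at h2
  have h3 : (1 / Z : ℝ) ≠ 0 := by positivity
  exact mul_left_cancel₀ h3 h2

theorem sup_A (n : ℕ) (hn : 1 ≤ n) : ∃ c : ℝ, 0 < c ∧ c ≤ 1 ∧ ∀ (g : Mo) (s Z : ℝ), g.Ok → 0 ≤ s → s ≤ 1 →
    GoodA n s g → (g.q : ℝ) ^ n ≤ Z → ∀ j : ℕ, 1 ≤ j → ∀ v : Fin j → Fin (n + 1) → ℤ,
    LinearIndependent ℤ (cn (pk n g) v) →
      ∃ S : Fin j → Fin (n + 1), c * (Z ^ (-s)) ^ n ≤ |H70X.mn (hL n (al n g) Z) 0 v S| := by
  obtain ⟨c0, hc0, hc01, hqm⟩ := qm n hn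
  set κ : ℝ := (n + 1) * (4 * 36 ^ n) with hκ
  have hκ1 : 1 ≤ κ := by
    have h1 : (1 : ℝ) ≤ 36 ^ n := one_le_pow₀ (by norm_num)
    have h2 : (0 : ℝ) ≤ n := by positivity
    rw [hκ]
    nlinarith
  have hκ0 : 0 < κ := by linarith
  have hn1 : (1 : ℝ) ≤ (n : ℝ) + 1 := by
    have h2 : (0 : ℝ) ≤ n := by positivity
    linarith
  have hnκ : 1 ≤ ((n : ℝ) + 1) * κ := by nlinarith
  refine ⟨c0 / (((n : ℝ) + 1) * κ), by positivity, ?_, ?_⟩
  · rw [div_le_one (by positivity)]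
    linarith
  intro g s Z hg hs0 hs1 hgood hZ j hj v hv
  have hq1 : (1 : ℝ) ≤ g.q := by
    have := hg.qpos
    exact_mod_cast (by omega : (1 : ℤ) ≤ g.q)
  have hqn : (1 : ℝ) ≤ (g.q : ℝ) ^ n := one_le_pow₀ hq1
  have hqn0 : (0 : ℝ) < (g.q : ℝ) ^ n := by linarith
  have hZ0 : 0 < Z := by linarith
  obtain ⟨I, hI, hbig⟩ := hqm g s Z hg hs0 hs1 hgood hZ j hj v hv
  set L : Fin (j + 1) → Fin (n + 1) := Fin.cons (Fin.last n) I with hL
  set D : ℝ := Da (al n g) (fun s => rv (cn (pk n g) v s)) L with hD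
  have hZs : 0 < (Z ^ (-s)) ^ n := pow_pos (Real.rpow_pos_of_pos hZ0 _) _
  have hω0 : ∀ t, 0 < (if I t = 0 then (g.q : ℝ) ^ n * Z ^ (n - 1) else 1 / Z) := by
    intro t
    split_ifs <;> positivity
  have hω : 0 < ∏ t, (if I t = 0 then (g.q : ℝ) ^ n * Z ^ (n - 1) else 1 / Z) :=
    Finset.prod_pos fun t _ => hω0 t
  rw [abs_mul, abs_of_pos hω] at hbig
  have hD0 : 0 < |D| := by
    by_contra hcon
    have h1 : |D| = 0 := le_antisymm (not_lt.mp hcon) (abs_nonneg _)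
    rw [h1, mul_zero] at hbig
    have h2 : 0 < c0 * (Z ^ (-s)) ^ n * (g.q : ℝ) ^ n := by positivity
    linarith
  obtain ⟨τ, hτ⟩ := sla_laplace (al n g) (pk n g) v L
  have hLτ : L τ ≠ 0 := by
    intro h
    rw [h] at hτ
    have h1 : tc (al n g) (rv (pk n g)) ((0 : Fin (n + 1)) : ℕ) = 0 := pk_root n hn g hg
    rw [h1] at hτ
    simp only [abs_zero, zero_mul, mul_zero] at hτ
    linarith
  refine ⟨fun t => L (τ.succAbove t), ?_⟩
  rw [mn_hL_zero, sla_prod hn Z hZ0 I τ hLτ]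
  set E : ℝ := |Da (al n g) (fun s => rv (v s)) (fun t => L (τ.succAbove t))| with hE
  have hE0 : 0 ≤ E := abs_nonneg _
  have hΩ0 : ∀ t, 0 < (if I t = 0 then Z ^ n else 1 / Z) := by
    intro t
    split_ifs <;> positivity
  have hΩ : (∏ t, (if I t = 0 then (g.q : ℝ) ^ n * Z ^ (n - 1) else 1 / Z)) ≤
      ∏ t, (if I t = 0 then Z ^ n else 1 / Z) := by
    refine Finset.prod_le_prod (fun t _ => (hω0 t).le) fun t _ => ?_
    split_ifs with h
    · have h1 : Z ^ n = Z * Z ^ (n - 1) := by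
        obtain ⟨m, rfl⟩ : ∃ m, n = m + 1 := ⟨n - 1, by omega⟩
        rw [pow_succ', Nat.add_sub_cancel]
      rw [h1]
      exact mul_le_mul_of_nonneg_right hZ (by positivity)
    · exact le_rfl
  rw [abs_mul, abs_of_pos (Finset.prod_pos fun t _ => hΩ0 t)]
  have hpk := pk_tc n hn g hg (L τ : ℕ)
  have hjn : (j : ℝ) + 1 ≤ (n : ℝ) + 1 := by
    have := sla_card _ hv
    have h2 : (j : ℝ) ≤ n := by exact_mod_cast this
    linarith
  have h1 : |D| ≤ ((n : ℝ) + 1) * (κ * (g.q : ℝ) ^ n * E) := by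
    refine hτ.trans ?_
    have h2 : |tc (al n g) (rv (pk n g)) (L τ : ℕ)| * E ≤ κ * (g.q : ℝ) ^ n * E :=
      mul_le_mul_of_nonneg_right hpk hE0
    have h3 : (0 : ℝ) ≤ κ * (g.q : ℝ) ^ n * E := by positivity
    calc ((j : ℝ) + 1) * (|tc (al n g) (rv (pk n g)) (L τ : ℕ)| * E)
        ≤ ((j : ℝ) + 1) * (κ * (g.q : ℝ) ^ n * E) := mul_le_mul_of_nonneg_left h2 (by positivity)
      _ ≤ _ := mul_le_mul_of_nonneg_right hjn h3
  have h2 : c0 * (Z ^ (-s)) ^ n * (g.q : ℝ) ^ n ≤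
      (∏ t, (if I t = 0 then Z ^ n else 1 / Z)) * (((n : ℝ) + 1) * (κ * (g.q : ℝ) ^ n * E)) := by
    refine hbig.trans ?_
    exact mul_le_mul hΩ h1 hD0.le (Finset.prod_pos fun t _ => hΩ0 t).le
  have h3 : c0 / (((n : ℝ) + 1) * κ) * (Z ^ (-s)) ^ n =
      (c0 * (Z ^ (-s)) ^ n * (g.q : ℝ) ^ n) / (((n : ℝ) + 1) * κ * (g.q : ℝ) ^ n) := by
    field_simp
  rw [h3, div_le_iff₀ (by positivity)]
  refine h2.trans (le_of_eq ?_)
  ring

end Pool.Agent.Lib.H42V
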