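import Pool.Agent.Lib.H42V.UP
import Pool.Agent.Lib.H42V.HL
import Pool.Agent.Lib.H42V.PK1
import Pool.Agent.Lib.H70X.MK3
import Pool.Agent.Lib.H70X.J4

/-!
# Chunk SM (M)
The hypothesis of quantitative nondivergence near `al`, small scales.

Proof. `κ = (n+1) 6^n ≥ 1`, `η = c' Z^(-s)`, `c' = 1/(2 κ)`, `a = al n g`, `Z ≥ 1`. Let `u = ∑ z_s v_s ≠ 0` and suppose `|Z^n tc a u 0| ≤ η`, `|1/Z tc a u i| ≤ η` for `i ≥ 1`. Then all `|tc a u i| ≤ η Z`, so `|u_l| ≤ κ η Z ≤ Z` (`le_tc`, `al_le`). If `u` is not a multiple of `pk`: `GoodA` with `X = Z`: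
`Z^(-s)/Z^(n-1) * (1/Z) ≤ |tc a u 0| ≤ c' Z^(-s)/Z^n`, so `1 ≤ c'`: contradiction. If `u = m • pk`, `m ≠ 0`: `2 q^n ≤ |u_last| ≤ Z ≤ q^n` (`pk_bd`): contradiction. So some coordinate of `∑ z_s y_s`, `y_s = (ev (hL) 0 (v_s) i)_i`, is `> η`, and `H70X.submink j (n+1)` (the `y_s` are independent over `ℝ`:
`H70X.J4_real` and `hL_det`) gives `S` with `c_j η^j ≤ |mn (hL) 0 v S|`; `j ≤ n+1`, `η ≤ 1`: `c_j η^j ≥ c_j c'^(n+1) (Z^(-s))^(n+1)`. Then `up_zero (n+1) n`. `c` = minimum over `j ≤ n + 1`.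
-/

open Polynomial MeasureTheory Set Filter

namespace Pool.Agent.Lib.H42V

theorem sm_ev_sum {j k : ℕ} (h : Matrix (Fin k) (Fin k) ℝ[X]) (x : ℝ) (z : Fin j → ℤ)
    (v : Fin j → Fin k → ℤ) (i : Fin k) :
    H70X.ev h x (∑ s, z s • v s) i = ∑ s, (z s : ℝ) * H70X.ev h x (v s) i := by
  unfold H70X.ev
  simp only [Finset.sum_apply, Pi.smul_apply, smul_eq_mul, Int.cast_sum, Int.cast_mul,
    Finset.mul_sum]
  rw [Finset.sum_comm]
  refine Finset.sum_congr rfl fun s _ => Finset.sum_congr rfl fun l _ => ?_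
  ring

theorem sm_li {j k : ℕ} (h : Matrix (Fin k) (Fin k) ℝ[X]) (x : ℝ)
    (hdet : ((h).map (Polynomial.eval x)).det ≠ 0) (v : Fin j → Fin k → ℤ)
    (hv : LinearIndependent ℤ v) :
    LinearIndependent ℝ (fun s => fun i => H70X.ev h x (v s) i) := by
  have h1 := H70X.J4_real v hv
  have h2 : Function.Injective (Matrix.mulVecLin (h.map (Polynomial.eval x))) := by
    intro a b hab
    exact (Matrix.mulVec_injective_of_isUnit
      ((Matrix.isUnit_iff_isUnit_det _).2 (isUnit_iff_ne_zero.2 hdet))) hab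
  have h3 := h1.map' (Matrix.mulVecLin (h.map (Polynomial.eval x))) (LinearMap.ker_eq_bot.2 h2)
  exact h3

theorem sm_card {j n : ℕ} (v : Fin j → Fin (n + 1) → ℤ) (hv : LinearIndependent ℤ v) :
    j ≤ n + 1 := by
  have h1 := (H70X.J4_real v hv).fintype_card_le_finrank
  simpa using h1

theorem sm_main (n : ℕ) (hn : 1 ≤ n) (g : Mo) (s Z : ℝ) (hg : g.Ok) (hs : 0 ≤ s)
    (hgood : GoodA n s g) (hZ : (g.q : ℝ) ^ (1 / ((n : ℝ) + 1)) ≤ Z) (hZ2 : Z ≤ (g.q : ℝ) ^ n)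
    (hZ1 : 1 ≤ Z) (u : Fin (n + 1) → ℤ) (hu : u ≠ 0) :
    ∃ i, 1 / (2 * ((n + 1) * 6 ^ n)) * Z ^ (-s) < |H70X.ev (hL n (al n g) Z) 0 u i| := by
  by_contra hcon
  push Not at hcon
  have hκ : (1 : ℝ) ≤ (n + 1) * 6 ^ n := by
    have h1 : (1 : ℝ) ≤ (n : ℝ) + 1 := by linarith [Nat.cast_nonneg (α := ℝ) n]
    have h2 : (1 : ℝ) ≤ 6 ^ n := one_le_pow₀ (by norm_num)
    nlinarith
  have hκ0 : (0 : ℝ) < (n + 1) * 6 ^ n := by linarith
  have hZ0 : 0 < Z := by linarith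
  have hζ0 : 0 < Z ^ (-s) := Real.rpow_pos_of_pos hZ0 _
  have hζ1 : Z ^ (-s) ≤ 1 := Real.rpow_le_one_of_one_le_of_nonpos hZ1 (by linarith)
  set κ : ℝ := (n + 1) * 6 ^ n with hκd
  set ζ : ℝ := Z ^ (-s) with hζd
  have hη0 : 0 < 1 / (2 * κ) * ζ := by positivity
  set η : ℝ := 1 / (2 * κ) * ζ with hηd
  have hκη : κ * η = ζ / 2 := by
    rw [hηd]
    field_simp
  have h0 : Z ^ n * |tc (al n g) (rv u) 0| ≤ η := by
    have h1 := hcon 0
    rw [ev_hL_zero, add_zero, abs_mul, abs_of_nonneg (by positivity : (0 : ℝ) ≤ Z ^ n)] at h1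
    exact h1
  have hZn : (1 : ℝ) ≤ Z ^ n := one_le_pow₀ hZ1
  have h0' : |tc (al n g) (rv u) 0| ≤ η / Z ^ n := by
    rw [le_div_iff₀ (by positivity)]
    linarith
  have hi : ∀ l : Fin (n + 1), |tc (al n g) (rv u) (l : ℕ)| ≤ η * Z := by
    intro l
    by_cases hl : l = 0
    · subst hl
      have h1 : |tc (al n g) (rv u) 0| ≤ η := by
        calc |tc (al n g) (rv u) 0| ≤ Z ^ n * |tc (al n g) (rv u) 0| :=
              le_mul_of_one_le_left (abs_nonneg _) hZn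
          _ ≤ η := h0
      calc |tc (al n g) (rv u) ((0 : Fin (n + 1)) : ℕ)| = |tc (al n g) (rv u) 0| := by simp
        _ ≤ η := h1
        _ ≤ η * Z := le_mul_of_one_le_right hη0.le hZ1
    · have h1 := hcon l
      rw [ev_hL n (al n g) Z 0 u l hl, abs_mul, abs_of_nonneg (by positivity : (0 : ℝ) ≤ 1 / Z),
        one_div, inv_mul_le_iff₀ hZ0] at h1
      linarith
  have hal : |al n g| ≤ 3 := (al_le n hn g hg).trans (by norm_num)
  have hub : ∀ l, |(u l : ℝ)| ≤ ζ / 2 * Z := by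
    intro l
    have h1 := le_tc (al n g) (η * Z) hal (by positivity) (rv u) hi l
    calc |(u l : ℝ)| ≤ κ * (η * Z) := h1
      _ = κ * η * Z := by ring
      _ = ζ / 2 * Z := by rw [hκη]
  have hub' : ∀ l, |(u l : ℝ)| ≤ Z := by
    intro l
    refine (hub l).trans ?_
    nlinarith
  by_cases hm : Mul u (pk n g)
  · obtain ⟨m, hm⟩ := hm
    have hm0 : m ≠ 0 := by
      rintro rfl
      exact hu (by rw [hm, zero_smul])
    have h1 := (pk_bd n hn g hg).2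
    have h2 := hub' (Fin.last n)
    have h3 : (u (Fin.last n) : ℝ) = (m : ℝ) * (pk n g (Fin.last n) : ℝ) := by
      rw [hm]
      simp
    rw [h3, abs_mul] at h2
    have h4 : (1 : ℝ) ≤ |(m : ℝ)| := by
      rw [← Int.cast_abs]
      exact_mod_cast Int.one_le_abs hm0
    have hq : (0 : ℝ) < g.q := by exact_mod_cast hg.qpos
    have hqn : (0 : ℝ) < (g.q : ℝ) ^ n := by positivity
    have h5 : |(pk n g (Fin.last n) : ℝ)| ≤ |(m : ℝ)| * |(pk n g (Fin.last n) : ℝ)| :=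
      le_mul_of_one_le_left (abs_nonneg _) h4
    linarith
  · have h1 := hgood Z hZ u hm hub'
    have h2 : ζ / Z ^ (n - 1) * (1 / Z) ≤ η / Z ^ n := by
      calc ζ / Z ^ (n - 1) * (1 / Z) ≤ ζ / Z ^ (n - 1) * max (1 / Z) (1 / (g.q : ℝ) ^ n) :=
            mul_le_mul_of_nonneg_left (le_max_left _ _) (by positivity)
        _ ≤ |tc (al n g) (rv u) 0| := h1
        _ ≤ η / Z ^ n := h0'
    have h3 : ζ / Z ^ (n - 1) * (1 / Z) = ζ / Z ^ n := by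
      rw [div_mul_div_comm, mul_one, ← pow_succ, Nat.sub_add_cancel hn]
    rw [h3, div_le_div_iff_of_pos_right (by positivity)] at h2
    have h4 : η ≤ ζ / 2 := by
      rw [← hκη]
      exact le_mul_of_one_le_left hη0.le hκ
    linarith

theorem sup_small (n : ℕ) (hn : 1 ≤ n) : ∃ c : ℝ, 0 < c ∧ c ≤ 1 ∧ ∀ (g : Mo) (s Z Y : ℝ), g.Ok → 0 ≤ s → s ≤ 1 →
    GoodA n s g → (g.q : ℝ) ^ (1 / ((n : ℝ) + 1)) ≤ Z → Z ≤ (g.q : ℝ) ^ n → 0 < Y →
    ∀ j : ℕ, 1 ≤ j → ∀ v : Fin j → Fin (n + 1) → ℤ, LinearIndependent ℤ v →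
      ∃ y ∈ Icc Y (2 * Y), ∃ S : Fin j → Fin (n + 1), c * (Z ^ (-s)) ^ (n + 1) ≤ |H70X.mn (hL n (al n g) Z) y v S| := by
  choose f hf hf2 using H70X.submink
  obtain ⟨c1, hc1, -, hc1f⟩ := H70X.J4_min (Finset.range (n + 2)) (fun j => f j (n + 1))
    (fun x _ => hf x _)
  obtain ⟨c0, hc0, hup⟩ := up_zero (n + 1) n
  have hκ : (1 : ℝ) ≤ (n + 1) * 6 ^ n := by
    have h1 : (1 : ℝ) ≤ (n : ℝ) + 1 := by linarith [Nat.cast_nonneg (α := ℝ) n]
    have h2 : (1 : ℝ) ≤ 6 ^ n := one_le_pow₀ (by norm_num)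
    nlinarith
  set c' : ℝ := 1 / (2 * ((n + 1) * 6 ^ n)) with hc'
  have hc'0 : 0 < c' := by
    rw [hc']
    positivity
  have hc'1 : c' ≤ 1 := by
    rw [hc', div_le_one (by positivity)]
    linarith
  refine ⟨min 1 (c0 * (c1 * c' ^ (n + 1))), lt_min one_pos (by positivity), min_le_left _ _, ?_⟩
  intro g s Z Y hg hs hs1 hgood hZ hZ2 hY j hj v hv
  have hq1 : (1 : ℝ) ≤ g.q := by exact_mod_cast hg.qpos
  have hZ1 : 1 ≤ Z := (Real.one_le_rpow hq1 (by positivity)).trans hZ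
  have hZ0 : 0 < Z := by linarith
  have hζ0 : 0 < Z ^ (-s) := Real.rpow_pos_of_pos hZ0 _
  have hζ1 : Z ^ (-s) ≤ 1 := Real.rpow_le_one_of_one_le_of_nonpos hZ1 (by linarith)
  have hjn : j ≤ n + 1 := sm_card v hv
  have hli := sm_li (hL n (al n g) Z) 0 (by rw [hL_det n _ Z 0 hZ0.ne']; exact one_ne_zero) v hv
  obtain ⟨S, hS⟩ := hf2 j (n + 1) _ hli (c' * Z ^ (-s)) (by positivity) (by
    intro z hz
    have hu : (∑ s, z s • v s) ≠ 0 := by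
      intro h0
      rw [Fintype.linearIndependent_iff] at hv
      exact hz (funext fun i => hv z h0 i)
    obtain ⟨i, hi⟩ := sm_main n hn g s Z hg hs hgood hZ hZ2 hZ1 _ hu
    refine ⟨i, ?_⟩
    rw [sm_ev_sum] at hi
    exact hi)
  obtain ⟨y, hy, hy2⟩ := hup (hL n (al n g) Z) (fun i l => hL_deg n _ Z i l) j v S Y hjn hY
  refine ⟨y, hy, S, ?_⟩
  have h1 : c1 * c' ^ (n + 1) * (Z ^ (-s)) ^ (n + 1) ≤ f j (n + 1) * (c' * Z ^ (-s)) ^ j := by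
    have h2 : c1 ≤ f j (n + 1) := hc1f j (Finset.mem_range.2 (by omega))
    have h3 : (c' * Z ^ (-s)) ^ (n + 1) ≤ (c' * Z ^ (-s)) ^ j :=
      pow_le_pow_of_le_one (by positivity) (mul_le_one₀ hc'1 hζ0.le hζ1) hjn
    calc c1 * c' ^ (n + 1) * (Z ^ (-s)) ^ (n + 1) = c1 * (c' * Z ^ (-s)) ^ (n + 1) := by
          rw [mul_pow]
          ring
      _ ≤ f j (n + 1) * (c' * Z ^ (-s)) ^ j :=
          mul_le_mul h2 h3 (by positivity) (hf j (n + 1)).le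
  calc min 1 (c0 * (c1 * c' ^ (n + 1))) * (Z ^ (-s)) ^ (n + 1) ≤
        c0 * (c1 * c' ^ (n + 1)) * (Z ^ (-s)) ^ (n + 1) :=
        mul_le_mul_of_nonneg_right (min_le_right _ _) (by positivity)
    _ = c0 * (c1 * c' ^ (n + 1) * (Z ^ (-s)) ^ (n + 1)) := by ring
    _ ≤ c0 * (f j (n + 1) * (c' * Z ^ (-s)) ^ j) := mul_le_mul_of_nonneg_left h1 hc0.le
    _ ≤ c0 * |H70X.mn (hL n (al n g) Z) 0 v S| := mul_le_mul_of_nonneg_left hS hc0.le
    _ ≤ _ := hy2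

end Pool.Agent.Lib.H42V
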