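import Pool.Agent.Lib.H42V.HQ
import Pool.Agent.Lib.H42V.QM
import Pool.Agent.Lib.H42V.UP

/-!
# Chunk SQ (M)
The hypothesis of quantitative nondivergence for the quotient.

Proof. `w_s = VG G (u_s)`; `pk, w` are independent (`VG_li`). `qm`: `I`, constant `c0`. Let `S t : Fin n` be `I t` (`≠ last`). The matrix of `mn (hQ) 0 u S` has the entries `ω(S t) β_(S t)(w_s)`, and `Da a (pk, w) (last, I) = ± P_n det (β_(I t)(w_s))` (row operations with the row `pk`, `tc a pk n = P_n`), so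
`|mn (hQ) 0 u S| = |∏ ω Da|/|P_n| ≥ c0 (Z^(-s))^n q^n/(4 * 6^n q^n)` (`pk_bd`). Then `up_zero n n` (`j ≤ n`).
-/

open Polynomial MeasureTheory Set Filter

namespace Pool.Agent.Lib.H42V

/-- The reduced Taylor coefficient. -/
noncomputable def sq_b {n : ℕ} (a : ℝ) (P w : Fin (n + 1) → ℤ) (m : ℕ) : ℝ :=
  tc a (rv w) m - (w (Fin.last n) : ℝ) / P (Fin.last n) * tc a (rv P) m

theorem sq_det {n j : ℕ} (a : ℝ) (P : Fin (n + 1) → ℤ) (hP : (P (Fin.last n) : ℝ) ≠ 0)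
    (w : Fin j → Fin (n + 1) → ℤ) (I : Fin j → Fin (n + 1)) :
    Da a (fun s => rv (cn P w s)) (Fin.cons (Fin.last n) I) =
      (P (Fin.last n) : ℝ) * Matrix.det (Matrix.of fun s t : Fin j => sq_b a P (w s) (I t : ℕ)) := by
  unfold Da
  set A : Matrix (Fin (j + 1)) (Fin (j + 1)) ℝ := Matrix.of fun s t : Fin (j + 1) =>
    tc a (rv (cn P w s)) ((Fin.cons (Fin.last n) I : Fin (j + 1) → Fin (n + 1)) t : ℕ) with hA
  set B : Matrix (Fin (j + 1)) (Fin (j + 1)) ℝ := Matrix.of fun s t : Fin (j + 1) =>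
    (Fin.cons (A 0 t) (fun s : Fin j => A s.succ t - (w s (Fin.last n) : ℝ) / P (Fin.last n) * A 0 t) :
      Fin (j + 1) → ℝ) s with hB
  have hdet : A.det = B.det := by
    refine Matrix.det_eq_of_forall_row_eq_smul_add_const
      (Fin.cons 0 (fun s : Fin j => (w s (Fin.last n) : ℝ) / P (Fin.last n)) : Fin (j + 1) → ℝ) 0 rfl ?_
    intro i t
    refine Fin.cases ?_ (fun i => ?_) i
    · show A 0 t = A 0 t + 0 * B 0 t
      ring
    · show A i.succ t = (A i.succ t - (w i (Fin.last n) : ℝ) / P (Fin.last n) * A 0 t) +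
        (w i (Fin.last n) : ℝ) / P (Fin.last n) * A 0 t
      ring
  rw [hdet, Matrix.det_succ_column_zero, Fin.sum_univ_succ]
  have h00 : B 0 0 = (P (Fin.last n) : ℝ) := by
    show tc a (rv P) ((Fin.last n : Fin (n + 1)) : ℕ) = _
    rw [Fin.val_last, tc_top]
    rfl
  have hs0 : ∀ s : Fin j, B s.succ 0 = 0 := by
    intro s
    show tc a (rv (w s)) ((Fin.last n : Fin (n + 1)) : ℕ) - (w s (Fin.last n) : ℝ) / P (Fin.last n) *
      tc a (rv P) ((Fin.last n : Fin (n + 1)) : ℕ) = 0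
    rw [Fin.val_last, tc_top, tc_top]
    show (w s (Fin.last n) : ℝ) - (w s (Fin.last n) : ℝ) / P (Fin.last n) * (P (Fin.last n) : ℝ) = 0
    rw [div_mul_cancel₀ _ hP, sub_self]
  rw [Finset.sum_eq_zero (fun s _ => by rw [hs0 s, mul_zero, zero_mul]), add_zero, h00]
  simp only [Fin.val_zero, pow_zero, one_mul]
  rfl

theorem sq_mn {n j : ℕ} (g : Mo) (Z : ℝ) (G : Matrix (Fin (n + 1)) (Fin (n + 1)) ℤ)
    (u : Fin j → Fin n → ℤ) (S : Fin j → Fin n) :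
    H70X.mn (hQ n g Z G) 0 u S =
      (∏ t, if ((S t).castSucc : Fin (n + 1)) = 0 then (g.q : ℝ) ^ n * Z ^ (n - 1) else 1 / Z) *
        Matrix.det (Matrix.of fun s t : Fin j =>
          sq_b (al n g) (pk n g) (VG G (u s)) ((S t).castSucc : ℕ)) := by
  rw [← Matrix.det_mul_row]
  unfold H70X.mn
  congr 1
  ext s t
  simp only [Matrix.of_apply]
  by_cases h : (S t : ℕ) = 0
  · have h1 : ((S t).castSucc : Fin (n + 1)) = 0 := Fin.ext h
    rw [if_pos h1, ev_hQ_zero n g Z 0 G (u s) (S t) h, h1, add_zero]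
    rfl
  · have h1 : ((S t).castSucc : Fin (n + 1)) ≠ 0 := fun h2 => h (congrArg Fin.val h2)
    rw [if_neg h1, ev_hQ n g Z 0 G (u s) (S t) h]
    rfl

theorem sup_quot (n : ℕ) (hn : 1 ≤ n) : ∃ c : ℝ, 0 < c ∧ c ≤ 1 ∧ ∀ (g : Mo) (s Z Y : ℝ)
    (G : Matrix (Fin (n + 1)) (Fin (n + 1)) ℤ), g.Ok → 0 ≤ s → s ≤ 1 → GoodA n s g → (g.q : ℝ) ^ n ≤ Z → 0 < Y →
    IsUnit G.det → (∀ i, G i 0 = pk n g i) → ∀ j : ℕ, 1 ≤ j → ∀ u : Fin j → Fin n → ℤ, LinearIndependent ℤ u →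
      ∃ y ∈ Icc Y (2 * Y), ∃ S : Fin j → Fin n, c * (Z ^ (-s)) ^ n ≤ |H70X.mn (hQ n g Z G) y u S| := by
  obtain ⟨c0, hc0, hc01, hqm⟩ := qm n hn
  obtain ⟨c1, hc1, hup⟩ := up_zero n n
  have h6 : (0 : ℝ) < 4 * 6 ^ n := by positivity
  refine ⟨min 1 (c1 * (c0 / (4 * 6 ^ n))), lt_min one_pos (by positivity), min_le_left _ _, ?_⟩
  intro g s Z Y G hg hs0 hs1 hgood hZ hY hG hG0 j hj u hu
  have hq1 : (1 : ℝ) ≤ g.q := by
    have := hg.qpos
    exact_mod_cast (by omega : (1 : ℤ) ≤ g.q)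
  have hqn : (1 : ℝ) ≤ (g.q : ℝ) ^ n := one_le_pow₀ hq1
  have hqn0 : (0 : ℝ) < (g.q : ℝ) ^ n := by linarith
  have hZ0 : 0 < Z := by linarith
  have hZs : 0 < (Z ^ (-s)) ^ n := pow_pos (Real.rpow_pos_of_pos hZ0 _) _
  have hli := VG_li G hG (pk n g) hG0 u hu
  obtain ⟨I, hI, hbig⟩ := hqm g s Z hg hs0 hs1 hgood hZ j hj (fun s => VG G (u s)) hli
  have hPb := pk_bd n hn g hg
  have hP2 : |(pk n g (Fin.last n) : ℝ)| ≤ 4 * 6 ^ n * (g.q : ℝ) ^ n := hPb.1 _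
  have hP0 : 0 < |(pk n g (Fin.last n) : ℝ)| := by
    have := hPb.2
    linarith
  have hPne : (pk n g (Fin.last n) : ℝ) ≠ 0 := abs_pos.mp hP0
  set S : Fin j → Fin n := fun t => (I t).castPred (hI t) with hS
  have hSI : ∀ t, (S t).castSucc = I t := fun t => Fin.castSucc_castPred _ _
  have hmn : (∏ t, if I t = 0 then (g.q : ℝ) ^ n * Z ^ (n - 1) else 1 / Z) *
      Da (al n g) (fun s => rv (cn (pk n g) (fun s => VG G (u s)) s)) (Fin.cons (Fin.last n) I) =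
      (pk n g (Fin.last n) : ℝ) * H70X.mn (hQ n g Z G) 0 u S := by
    rw [sq_det _ _ hPne, sq_mn]
    simp only [hSI]
    ring
  rw [hmn, abs_mul] at hbig
  have h1 : c0 * (Z ^ (-s)) ^ n * (g.q : ℝ) ^ n ≤
      4 * 6 ^ n * (g.q : ℝ) ^ n * |H70X.mn (hQ n g Z G) 0 u S| :=
    hbig.trans (mul_le_mul_of_nonneg_right hP2 (abs_nonneg _))
  have h2 : c0 / (4 * 6 ^ n) * (Z ^ (-s)) ^ n ≤ |H70X.mn (hQ n g Z G) 0 u S| := by
    rw [div_mul_eq_mul_div, div_le_iff₀ h6]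
    refine le_of_mul_le_mul_right ?_ hqn0
    refine h1.trans (le_of_eq ?_)
    ring
  have hjn : j ≤ n := by
    have h3 := hu.fintype_card_le_finrank
    simpa using h3
  obtain ⟨y, hy, hyl⟩ := hup (hQ n g Z G) (fun i s => hQ_deg n g Z G i s) j u S Y hjn hY
  refine ⟨y, hy, S, ?_⟩
  refine le_trans ?_ hyl
  calc min 1 (c1 * (c0 / (4 * 6 ^ n))) * (Z ^ (-s)) ^ n ≤ c1 * (c0 / (4 * 6 ^ n)) * (Z ^ (-s)) ^ n :=
        mul_le_mul_of_nonneg_right (min_le_right _ _) hZs.le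
    _ = c1 * (c0 / (4 * 6 ^ n) * (Z ^ (-s)) ^ n) := by ring
    _ ≤ c1 * |H70X.mn (hQ n g Z G) 0 u S| := mul_le_mul_of_nonneg_left h2 hc1.le

end Pool.Agent.Lib.H42V
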