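import Pool.Agent.Lib.H42V.GM2

/-!
# Chunk TRF (M)
Transfer from `p/q` to `θ` near `q'/q`.

Proof. `|e_i(-q'/q)| = q^(2i)/q^n |tc (p/q) (rv v) (n-i)| ≤ 4^n N^(2i)/N^n (n+1) 6^n X` (`gm_tc`, `tc_le`, `0 ≤ p/q ≤ 1`, `q ≤ N < 4 q`). For `θ = q'/q + τ`, `|τ| ≤ 1/N^2`: `tc_shift` at `-q'/q + (-τ)`: `|e_i(-θ)| ≤ ∑_{l ≥ i} 2^n N^(-2(l-i)) (n+1) 24^n X N^(2l)/N^n ≤ (n+1)^2 48^n X N^(2i)/N^n`.
Second claim: `gm_eval`, `q a0 + q' ≤ 5 q ≤ 5 N`. So `C = (n+1)^2 48^n` (`≥ 5^n`).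
-/

open Polynomial MeasureTheory Set Filter

namespace Pool.Agent.Lib.H42V

theorem transfer (n : ℕ) (hn : 1 ≤ n) : ∃ C : ℝ, 1 ≤ C ∧ ∀ (g : Mo) (N X θ : ℝ) (v : Fin (n + 1) → ℤ), g.Ok →
    N < 4 * g.q → (g.q : ℝ) ≤ N → 0 ≤ X → (∀ l, |(v l : ℝ)| ≤ X) → |θ - (g.q' : ℝ) / g.q| ≤ 1 / N ^ 2 →
      (∀ i : ℕ, i ≤ n → |tc (-θ) (rv (gm g v)) i| ≤ C * X * (N ^ (2 * i) / N ^ n)) ∧
        |tc (a0 n) (rv (gm g v)) 0| ≤ C * N ^ n * |tc (al n g) (rv v) 0| := by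
  obtain ⟨-, ha1, ha2⟩ := a0_props n hn
  have hC1 : (1 : ℝ) ≤ ((n : ℝ) + 1) ^ 2 * 48 ^ n := by
    have h1 : (1 : ℝ) ≤ ((n : ℝ) + 1) ^ 2 := by
      have h0 : (0 : ℝ) ≤ (n : ℝ) := Nat.cast_nonneg n
      nlinarith
    have h2 : (1 : ℝ) ≤ 48 ^ n := one_le_pow₀ (by norm_num)
    nlinarith
  have hC5 : (5 : ℝ) ^ n ≤ ((n : ℝ) + 1) ^ 2 * 48 ^ n := by
    have h1 : (1 : ℝ) ≤ ((n : ℝ) + 1) ^ 2 := by
      have h0 : (0 : ℝ) ≤ (n : ℝ) := Nat.cast_nonneg n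
      nlinarith
    have h2 : (5 : ℝ) ^ n ≤ 48 ^ n := pow_le_pow_left₀ (by norm_num) (by norm_num) n
    have h3 : (0 : ℝ) ≤ 48 ^ n := by positivity
    nlinarith
  refine ⟨((n : ℝ) + 1) ^ 2 * 48 ^ n, hC1, ?_⟩
  intro g N X θ v hg hN4 hqN hX hv hθ
  have hq1 : (1 : ℝ) ≤ (g.q : ℝ) := by
    have h1 : (1 : ℤ) ≤ g.q := by
      have := hg.qpos
      omega
    exact_mod_cast h1
  have hq0 : (0 : ℝ) < (g.q : ℝ) := by linarith
  have hN0 : (0 : ℝ) < N := by linarith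
  constructor
  · -- Taylor coefficients
    have hp0 : (0 : ℝ) ≤ (g.p : ℝ) := by exact_mod_cast hg.p0
    have hp1 : (g.p : ℝ) ≤ (g.q : ℝ) := by exact_mod_cast hg.p1
    have hpq : |(g.p : ℝ) / g.q| ≤ 3 := by
      rw [abs_of_nonneg (by positivity), div_le_iff₀ hq0]
      linarith
    have hE : ∀ l : ℕ, l ≤ n → |tc (-((g.q' : ℝ) / g.q)) (rv (gm g v)) l| ≤ ((n : ℝ) + 1) * 24 ^ n * X * (N ^ (2 * l) / N ^ n) := by
      intro l hl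
      have h1 := gm_tc g hg v l hl
      have h2 := tc_le ((g.p : ℝ) / g.q) X hpq hX (rv v) (fun m => hv m) (n - l)
      have h3 : (g.q : ℝ) ^ (2 * l) ≤ N ^ (2 * l) := pow_le_pow_left₀ hq0.le hqN _
      have h4 : N ^ n ≤ 4 ^ n * (g.q : ℝ) ^ n := by
        rw [← mul_pow]
        exact pow_le_pow_left₀ hN0.le hN4.le n
      have h5 : (0 : ℝ) < (g.q : ℝ) ^ n := pow_pos hq0 n
      have h6 : (0 : ℝ) < N ^ n := pow_pos hN0 n
      have h7 : |tc (-((g.q' : ℝ) / g.q)) (rv (gm g v)) l| * N ^ n ≤ ((n : ℝ) + 1) * 24 ^ n * X * N ^ (2 * l) := by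
        calc |tc (-((g.q' : ℝ) / g.q)) (rv (gm g v)) l| * N ^ n
            ≤ |tc (-((g.q' : ℝ) / g.q)) (rv (gm g v)) l| * (4 ^ n * (g.q : ℝ) ^ n) := mul_le_mul_of_nonneg_left h4 (abs_nonneg _)
          _ = 4 ^ n * (|tc (-((g.q' : ℝ) / g.q)) (rv (gm g v)) l| * (g.q : ℝ) ^ n) := by ring
          _ = 4 ^ n * ((g.q : ℝ) ^ (2 * l) * |tc ((g.p : ℝ) / g.q) (rv v) (n - l)|) := by rw [h1]
          _ ≤ 4 ^ n * (N ^ (2 * l) * (((n : ℝ) + 1) * 6 ^ n * X)) := by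
              apply mul_le_mul_of_nonneg_left _ (by positivity)
              exact mul_le_mul h3 h2 (abs_nonneg _) (by positivity)
          _ = ((n : ℝ) + 1) * (4 ^ n * 6 ^ n) * X * N ^ (2 * l) := by ring
          _ = ((n : ℝ) + 1) * 24 ^ n * X * N ^ (2 * l) := by
              rw [← mul_pow]
              norm_num
      rw [← mul_div_assoc, le_div_iff₀ h6]
      exact h7
    intro i hi
    have e1 : -θ = -((g.q' : ℝ) / g.q) + -(θ - (g.q' : ℝ) / g.q) := by ring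
    rw [e1, tc_shift]
    have hterm : ∀ l : Fin (n + 1), |((l : ℕ).choose i : ℝ) * (-(θ - (g.q' : ℝ) / g.q)) ^ ((l : ℕ) - i) * tc (-((g.q' : ℝ) / g.q)) (rv (gm g v)) (l : ℕ)| ≤
        2 ^ n * (((n : ℝ) + 1) * 24 ^ n * X) * (N ^ (2 * i) / N ^ n) := by
      intro l
      have hln : (l : ℕ) ≤ n := Nat.lt_succ_iff.1 l.2
      by_cases hli : (l : ℕ) < i
      · rw [Nat.choose_eq_zero_of_lt hli]
        simp only [Nat.cast_zero, zero_mul, abs_zero]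
        positivity
      · push Not at hli
        rw [abs_mul, abs_mul, abs_pow, abs_neg, Nat.abs_cast]
        have h1 : (((l : ℕ).choose i : ℕ) : ℝ) ≤ 2 ^ n := by
          have h2 : (l : ℕ).choose i ≤ 2 ^ n := le_trans (Nat.choose_le_two_pow _ _) (Nat.pow_le_pow_right (by norm_num) hln)
          exact_mod_cast h2
        have h3 : |θ - (g.q' : ℝ) / g.q| ^ ((l : ℕ) - i) ≤ (1 / N ^ 2) ^ ((l : ℕ) - i) := pow_le_pow_left₀ (abs_nonneg _) hθ _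
        have h4 := hE l hln
        calc (((l : ℕ).choose i : ℕ) : ℝ) * |θ - (g.q' : ℝ) / g.q| ^ ((l : ℕ) - i) * |tc (-((g.q' : ℝ) / g.q)) (rv (gm g v)) (l : ℕ)|
            ≤ 2 ^ n * (1 / N ^ 2) ^ ((l : ℕ) - i) * (((n : ℝ) + 1) * 24 ^ n * X * (N ^ (2 * (l : ℕ)) / N ^ n)) := by
              apply mul_le_mul _ h4 (abs_nonneg _) (by positivity)
              exact mul_le_mul h1 h3 (by positivity) (by positivity)
          _ = 2 ^ n * (((n : ℝ) + 1) * 24 ^ n * X) * (((1 / N ^ 2) ^ ((l : ℕ) - i) * N ^ (2 * (l : ℕ))) / N ^ n) := by ring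
          _ = 2 ^ n * (((n : ℝ) + 1) * 24 ^ n * X) * (N ^ (2 * i) / N ^ n) := by
              congr 2
              have h5 : 2 * (l : ℕ) = 2 * ((l : ℕ) - i) + 2 * i := by omega
              rw [h5, pow_add, pow_mul, one_div, inv_pow, ← mul_assoc, inv_mul_cancel₀ (by positivity), one_mul]
    calc |∑ l : Fin (n + 1), ((l : ℕ).choose i : ℝ) * (-(θ - (g.q' : ℝ) / g.q)) ^ ((l : ℕ) - i) * tc (-((g.q' : ℝ) / g.q)) (rv (gm g v)) (l : ℕ)|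
        ≤ ∑ l : Fin (n + 1), |((l : ℕ).choose i : ℝ) * (-(θ - (g.q' : ℝ) / g.q)) ^ ((l : ℕ) - i) * tc (-((g.q' : ℝ) / g.q)) (rv (gm g v)) (l : ℕ)| := Finset.abs_sum_le_sum_abs _ _
      _ ≤ ∑ _l : Fin (n + 1), 2 ^ n * (((n : ℝ) + 1) * 24 ^ n * X) * (N ^ (2 * i) / N ^ n) := Finset.sum_le_sum fun l _ => hterm l
      _ = ((n : ℝ) + 1) ^ 2 * (2 ^ n * 24 ^ n) * X * (N ^ (2 * i) / N ^ n) := by
          rw [Finset.sum_const, Finset.card_univ, Fintype.card_fin, nsmul_eq_mul]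
          push_cast
          ring
      _ = ((n : ℝ) + 1) ^ 2 * 48 ^ n * X * (N ^ (2 * i) / N ^ n) := by
          rw [← mul_pow]
          norm_num
  · -- value
    rw [gm_eval n hn g hg v, abs_mul, abs_pow]
    apply mul_le_mul_of_nonneg_right _ (abs_nonneg _)
    have hlo : 2 * (g.q : ℝ) ≤ (g.q' : ℝ) := by exact_mod_cast hg.lo
    have hhi : (g.q' : ℝ) ≤ 3 * (g.q : ℝ) := by exact_mod_cast hg.hi
    have h1 : 0 ≤ (g.q : ℝ) * a0 n + g.q' := by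
      have : 0 ≤ (g.q : ℝ) * a0 n := mul_nonneg hq0.le (by linarith)
      linarith
    have h2 : (g.q : ℝ) * a0 n + g.q' ≤ 5 * N := by
      have : (g.q : ℝ) * a0 n ≤ g.q * 2 := mul_le_mul_of_nonneg_left ha2 hq0.le
      linarith
    rw [abs_of_nonneg h1]
    calc ((g.q : ℝ) * a0 n + g.q') ^ n ≤ (5 * N) ^ n := pow_le_pow_left₀ h1 h2 n
      _ = 5 ^ n * N ^ n := mul_pow _ _ _
      _ ≤ ((n : ℝ) + 1) ^ 2 * 48 ^ n * N ^ n := mul_le_mul_of_nonneg_right hC5 (by positivity)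

end Pool.Agent.Lib.H42V
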