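import Pool.Agent.Lib.H42V.H1B
import Pool.Agent.Lib.H42V.NUM
import Pool.Agent.Lib.H42V.K2
import Pool.Agent.Lib.H42V.ML
import Pool.Agent.Lib.H42V.LAP
import Pool.Agent.Lib.H42V.SAT

/-!
# Chunk U1 (L)
The hypothesis of quantitative nondivergence for `h1`.

Proof. Constants: `c1` of `wr_large n`, `c2` of `wr2_large n`, `cM` of `minkliou n`, `K = 2 (n+2) (n+1) + 1`. Let `D = Dn`, `T = Tn (a0 n)` of the real tuple `rv (v s)`; `D ≥ 1` (`Dn_ge_one`). Let `θ = 2 + t^2`, `A = (N^(n+1-j)/Z)^j`,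
`B = Z^n/N^n * (N^(n+2-j)/Z)^(j-1)`. By `mn_h1_one`, `prod_h1`, `wr_large`: if `j ≤ n`, some `t ∈ [0,1]` and `S` have `|mn| ≥ c1 A D`. By `mn_h1_two` (with `j - 1` for `j`), `wr2_large`: some `t, S` have `|mn| ≥ c2 B T`.
CASE `j = 1`: `A = N^n/Z ≥ 1`: `|mn| ≥ c1`. CASE `j = n + 1`: `S = id` (cast): `mn = det (h1(t)) * det v` and `|det v| ≥ 1`; `h1_det`. CASE `2 ≤ j ≤ n`, `F0, v` independent: `minkliou` with `i = j`, `μ = N^(n+1-j)/Z`, `μ^j = A`, `Dn (F0, v) ≤ K D`, `Tn (F0, v) ≤ K T` (`Dn_cons`, `Tn_cons`,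
`tc (a0) F0 0 = 0`, `Fin.cons` of `rv F0` and `rv ∘ v` is `rv ∘ cn F0 v`): `cM ≤ A K D`, or `cM μ^(n-j) ≤ K T`, so `B T ≥ (cM/K) μ^(n-j) B ≥ cM/K` (`num_a`). CASE `2 ≤ j ≤ n`, dependent: `saturate` (`F0` is primitive) gives `w` (`j - 1` vectors) and `M`; every minor (`Dn`, `Tn`) of `v` is
`det M` times that of `F0, w`, `|det M| ≥ 1`: `D ≥ Dn (F0, w)`, `T ≥ Tn (F0, w)`. `minkliou` with `i = j - 1` and `μ = A^(1/(j-1))` (real power): `cM ≤ A D`, or `cM μ^(n-j+1) ≤ T`, and `(μ^(n-j+1) B)^(j-1) = A^(n-j+1) B^(j-1) ≥ 1` (`num_b`), so `μ^(n-j+1) B ≥ 1` and `B T ≥ cM`.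
-/

open Polynomial MeasureTheory Set Filter

namespace Pool.Agent.Lib.H42V

private theorem u1_a0F0 (n : ℕ) (hn : 1 ≤ n) : tc (a0 n) (rv (F0 n)) 0 = 0 := by
  rw [tc_val]
  have h : ∀ l : Fin (n + 1), a0 n ^ (l : ℕ) * rv (F0 n) l =
      (if (l : ℕ) = n then a0 n ^ (l : ℕ) else 0) + (if (l : ℕ) = 0 then -2 else 0) := by
    intro l
    unfold rv F0
    by_cases h1 : (l : ℕ) = n
    · have h2 : ¬ (l : ℕ) = 0 := by omega
      simp [h1]
      omega
    · by_cases h2 : (l : ℕ) = 0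
      · have h3 : ¬ (0 : ℕ) = n := by omega
        simp [h2, h3]
      · simp [h1, h2]
  rw [Finset.sum_congr rfl (fun l _ => h l), Finset.sum_add_distrib]
  have e1 : ∑ l : Fin (n + 1), (if (l : ℕ) = n then a0 n ^ (l : ℕ) else 0) = a0 n ^ n := by
    rw [Finset.sum_eq_single (Fin.last n)]
    · simp
    · intro b _ hb
      rw [if_neg]
      intro h3
      exact hb (Fin.ext (by simpa using h3))
    · simp
  have e2 : ∑ l : Fin (n + 1), (if (l : ℕ) = 0 then (-2 : ℝ) else 0) = -2 := by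
    rw [Finset.sum_eq_single 0]
    · simp
    · intro b _ hb
      rw [if_neg]
      intro h3
      exact hb (Fin.ext (by simpa using h3))
    · simp
  rw [e1, e2, (a0_props n hn).1]
  norm_num

private theorem u1_F0le (n : ℕ) (l : Fin (n + 1)) : |rv (F0 n) l| ≤ 2 := by
  unfold rv F0
  split_ifs <;> norm_num

private theorem u1_F0prim (n : ℕ) (d : ℤ) (h : ∀ i, d ∣ F0 n i) : IsUnit d := by
  have h1 := h (Fin.last n)
  simp only [F0, Fin.val_last, if_true] at h1
  exact isUnit_of_dvd_one h1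

private theorem u1_cons {k j : ℕ} (f : Fin k → ℤ) (v : Fin j → Fin k → ℤ) :
    (fun s => rv (cn f v s)) = (Fin.cons (rv f) (fun s => rv (v s)) : Fin (j + 1) → Fin k → ℝ) := by
  funext s
  refine Fin.cases ?_ (fun s => ?_) s
  · simp [cn]
  · simp [cn]

private theorem u1_detZ {k j : ℕ} (M : Matrix (Fin j) (Fin j) ℤ) (v w : Fin j → Fin k → ℤ)
    (h : ∀ s, v s = ∑ t, M s t • w t) (φ : Fin j → (Fin k → ℝ) → ℝ)
    (hφ : ∀ t (z : Fin j → ℤ) (u : Fin j → Fin k → ℤ), φ t (rv (∑ s, z s • u s)) = ∑ s, (z s : ℝ) * φ t (rv (u s))) :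
    Matrix.det (Matrix.of fun s t : Fin j => φ t (rv (v s))) =
      (M.det : ℝ) * Matrix.det (Matrix.of fun s t : Fin j => φ t (rv (w s))) := by
  have h1 : (Matrix.of fun s t : Fin j => φ t (rv (v s))) =
      M.map (fun x : ℤ => (x : ℝ)) * (Matrix.of fun s t : Fin j => φ t (rv (w s))) := by
    ext s t
    rw [Matrix.mul_apply, Matrix.of_apply, h s, hφ]
    rfl
  rw [h1, Matrix.det_mul]
  congr 1
  exact ((Int.castRingHom ℝ).map_det M).symm

private theorem u1_absdet {j : ℕ} (M : Matrix (Fin j) (Fin j) ℤ) (h : M.det ≠ 0) : (1 : ℝ) ≤ |(M.det : ℝ)| := by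
  rw [← Int.cast_abs]
  exact_mod_cast Int.one_le_abs h

private theorem u1_D {n j : ℕ} (M : Matrix (Fin j) (Fin j) ℤ) (v w : Fin j → Fin (n + 1) → ℤ) (hM : M.det ≠ 0)
    (h : ∀ s, v s = ∑ t, M s t • w t) : Dn (fun s => rv (w s)) ≤ Dn (fun s => rv (v s)) := by
  unfold Dn
  refine Finset.sum_le_sum fun S _ => ?_
  have h1 := u1_detZ M v w h (fun t x => x (S t)) (by
    intro t z u
    rw [rv_sum]
    simp)
  beta_reduce at h1
  rw [h1, abs_mul]
  exact le_mul_of_one_le_left (abs_nonneg _) (u1_absdet M hM)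

private theorem u1_T {n j : ℕ} (a : ℝ) (M : Matrix (Fin (j + 1)) (Fin (j + 1)) ℤ) (v w : Fin (j + 1) → Fin (n + 1) → ℤ)
    (hM : M.det ≠ 0) (h : ∀ s, v s = ∑ t, M s t • w t) :
    Tn a (fun s => rv (w s)) ≤ Tn a (fun s => rv (v s)) := by
  unfold Tn
  refine Finset.sum_le_sum fun S _ => ?_
  have h1 := u1_detZ M v w h (fun t x => (Fin.cons (tc a x 0) (fun t : Fin j => x (S t)) : Fin (j + 1) → ℝ) t) (by
    intro t z u
    refine Fin.cases ?_ (fun t => ?_) t
    · simp only [Fin.cons_zero]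
      rw [rv_sum, tc_sum]
    · simp only [Fin.cons_succ]
      rw [rv_sum]
      simp)
  beta_reduce at h1
  rw [h1, abs_mul]
  exact le_mul_of_one_le_left (abs_nonneg _) (u1_absdet M hM)

private theorem u1_full (n : ℕ) (hn : 1 ≤ n) (N Z : ℝ) (hN : 1 ≤ N) (hZ : 1 ≤ Z)
    (v : Fin (n + 1) → Fin (n + 1) → ℤ) (hv : LinearIndependent ℤ v) :
    1 ≤ |H70X.mn (h1 n N Z) 0 v (fun s => s)| := by
  have h1' : H70X.mn (h1 n N Z) 0 v (fun s => s) =
      ((Matrix.of v).map (fun x : ℤ => (x : ℝ))).det * ((h1 n N Z).map (Polynomial.eval 0)).det := by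
    rw [← Matrix.det_transpose ((h1 n N Z).map (Polynomial.eval 0)), ← Matrix.det_mul]
    unfold H70X.mn
    congr 1
    ext s t
    rw [Matrix.of_apply, Matrix.mul_apply]
    unfold H70X.ev
    refine Finset.sum_congr rfl fun l _ => ?_
    rw [Matrix.map_apply, Matrix.transpose_apply, Matrix.map_apply, Matrix.of_apply]
    ring
  have h2 : ((Matrix.of v).map (fun x : ℤ => (x : ℝ))).det = ((Matrix.of v).det : ℝ) :=
    ((Int.castRingHom ℝ).map_det (Matrix.of v)).symm
  have h3 : (Matrix.of v).det ≠ 0 := by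
    intro h0
    rw [← Matrix.exists_vecMul_eq_zero_iff] at h0
    obtain ⟨z, hz, hz0⟩ := h0
    apply hz
    rw [Fintype.linearIndependent_iff] at hv
    funext s
    refine hv z ?_ s
    funext l
    have := congrFun hz0 l
    simpa [Matrix.vecMul, dotProduct] using this
  rw [h1', abs_mul, h2]
  have h4 := u1_absdet (Matrix.of v) h3
  have h5 := h1_det n hn N Z 0 (by linarith) (by linarith)
  nlinarith [abs_nonneg ((Matrix.of v).det : ℝ)]

theorem sup1 (n : ℕ) (hn : 1 ≤ n) : ∃ c : ℝ, 0 < c ∧ c ≤ 1 ∧ ∀ N Z : ℝ, 1 ≤ N → 1 ≤ Z → Z ≤ N ^ n →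
    ∀ j : ℕ, 1 ≤ j → ∀ v : Fin j → Fin (n + 1) → ℤ, LinearIndependent ℤ v →
      ∃ t ∈ Icc (0 : ℝ) 1, ∃ S : Fin j → Fin (n + 1), c ≤ |H70X.mn (h1 n N Z) t v S| := by
  obtain ⟨c1, hc1, H1⟩ := wr_large n
  obtain ⟨c2, hc2, H2⟩ := wr2_large n
  obtain ⟨cM, hcM, HM⟩ := minkliou n hn
  set K : ℝ := 2 * (n + 2) * (n + 1) + 1 with hK
  have hK1 : 1 ≤ K := by
    rw [hK]
    have : (0 : ℝ) ≤ n := Nat.cast_nonneg n
    nlinarith
  have hK0 : 0 < K := by linarith
  set c : ℝ := min 1 (min c1 (min (c1 * cM / K) (c2 * cM / K))) with hc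
  have hc_1 : c ≤ 1 := min_le_left _ _
  have hc_c1 : c ≤ c1 := (min_le_right _ _).trans (min_le_left _ _)
  have hc_a : c ≤ c1 * cM / K := (min_le_right _ _).trans ((min_le_right _ _).trans (min_le_left _ _))
  have hc_b : c ≤ c2 * cM / K := (min_le_right _ _).trans ((min_le_right _ _).trans (min_le_right _ _))
  have hcpos : 0 < c := by
    rw [hc]
    refine lt_min one_pos (lt_min hc1 (lt_min ?_ ?_)) <;> positivity
  have hc_a' : c ≤ c1 * cM := hc_a.trans (div_le_self (by positivity) hK1)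
  have hc_b' : c ≤ c2 * cM := hc_b.trans (div_le_self (by positivity) hK1)
  refine ⟨c, hcpos, hc_1, ?_⟩
  intro N Z hN hZ hZN j hj v hv
  have hN0 : 0 < N := by linarith
  have hZ0 : 0 < Z := by linarith
  have hjn : j ≤ n + 1 := by
    have := hv.fintype_card_le_finrank
    simpa using this
  rcases Nat.lt_or_ge n j with hlt | hle
  · have hjeq : j = n + 1 := by omega
    subst hjeq
    exact ⟨0, ⟨le_refl _, zero_le_one⟩, fun s => s, hc_1.trans (u1_full n hn N Z hN hZ v hv)⟩
  · -- j ≤ n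
    set A : ℝ := (N ^ (n + 1 - j) / Z) ^ j with hA
    have hApos : 0 < A := by positivity
    set D : ℝ := Dn (fun s => rv (v s)) with hD
    have hD1 : 1 ≤ D := Dn_ge_one v hv
    -- first kind of minors
    have kindA : c ≤ c1 * (A * D) → ∃ t ∈ Icc (0 : ℝ) 1, ∃ S : Fin j → Fin (n + 1), c ≤ |H70X.mn (h1 n N Z) t v S| := by
      intro hcA
      obtain ⟨t, ht, h⟩ := H1 j (by omega) (fun s => rv (v s))
      refine ⟨t, ht, (fun s => ⟨(s : ℕ) + 1, by omega⟩), ?_⟩
      rw [mn_h1_one n j hle N Z t v, prod_h1 n j hjn N Z hN0 hZ0, abs_mul]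
      rw [← hA, abs_of_pos hApos]
      calc c ≤ c1 * (A * D) := hcA
        _ = A * (c1 * D) := by ring
        _ ≤ A * |wr (2 + t ^ 2) fun s => rv (v s)| := mul_le_mul_of_nonneg_left h hApos.le
    obtain ⟨i, rfl⟩ : ∃ i, j = i + 1 := ⟨j - 1, by omega⟩
    set B : ℝ := Z ^ n / N ^ n * (N ^ (n + 2 - (i + 1)) / Z) ^ (i + 1 - 1) with hB
    have hBpos : 0 < B := by positivity
    set T : ℝ := Tn (a0 n) (fun s => rv (v s)) with hT
    have kindB : c ≤ c2 * (B * T) → ∃ t ∈ Icc (0 : ℝ) 1, ∃ S : Fin (i + 1) → Fin (n + 1),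
        c ≤ |H70X.mn (h1 n N Z) t v S| := by
      intro hcB
      obtain ⟨t, ht, h⟩ := H2 (a0 n) i (by omega) (fun s => rv (v s))
      refine ⟨t, ht, (fun s => ⟨(s : ℕ), by omega⟩), ?_⟩
      rw [mn_h1_two n i (by omega) N Z t v, prod_h1 n i (by omega) N Z hN0 hZ0, abs_mul]
      have e : Z ^ n / N ^ n * (N ^ (n + 1 - i) / Z) ^ i = B := by
        have e1 : n + 1 - i = n + 2 - (i + 1) := by omega
        have e2 : i + 1 - 1 = i := by omega
        rw [hB, e1, e2]
      rw [e, abs_of_pos hBpos]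
      calc c ≤ c2 * (B * T) := hcB
        _ = B * (c2 * T) := by ring
        _ ≤ B * |wr2 (a0 n) (2 + t ^ 2) fun s => rv (v s)| := mul_le_mul_of_nonneg_left h hBpos.le
    rcases Nat.eq_zero_or_pos i with hi0 | hipos
    · -- j = 1
      apply kindA
      subst hi0
      have hA1 : 1 ≤ A := by
        rw [hA]
        simp only [Nat.zero_add, Nat.add_sub_cancel, pow_one]
        rw [le_div_iff₀ hZ0, one_mul]
        exact hZN
      calc c ≤ c1 := hc_c1
        _ = c1 * (1 * 1) := by ring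
        _ ≤ c1 * (A * D) := by
            apply mul_le_mul_of_nonneg_left _ hc1.le
            exact mul_le_mul hA1 hD1 (by norm_num) (by linarith)
    · have hf2 : ∀ l, |rv (F0 n) l| ≤ 2 := u1_F0le n
      have hfa : tc (a0 n) (rv (F0 n)) 0 = 0 := u1_a0F0 n hn
      by_cases hind : LinearIndependent ℤ (cn (F0 n) v)
      · -- independent of F0
        set μ : ℝ := N ^ (n + 1 - (i + 1)) / Z with hμ
        have hμpos : 0 < μ := by positivity
        have hin : (i : ℝ) + 1 ≤ n := by exact_mod_cast hle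
        rcases HM (i + 1) (by omega) v hind μ hμpos with h | h
        · apply kindA
          rw [u1_cons] at h
          have h2 := Dn_cons (rv (F0 n)) hf2 (fun s => rv (v s))
          have h3 : (2 : ℝ) * ((i + 1 : ℕ) + 1) * (n + 1) ≤ K := by
            rw [hK]
            push_cast
            nlinarith
          have h4 : Dn (Fin.cons (rv (F0 n)) (fun s => rv (v s)) : Fin (i + 1 + 1) → Fin (n + 1) → ℝ) ≤ K * D :=
            h2.trans (mul_le_mul_of_nonneg_right h3 (by linarith))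
          have h5 : cM ≤ A * (K * D) := h.trans (mul_le_mul_of_nonneg_left h4 hApos.le)
          refine hc_a.trans ?_
          rw [div_le_iff₀ hK0]
          calc c1 * cM ≤ c1 * (A * (K * D)) := mul_le_mul_of_nonneg_left h5 hc1.le
            _ = c1 * (A * D) * K := by ring
        · apply kindB
          rw [u1_cons] at h
          have h2 := Tn_cons (a0 n) (rv (F0 n)) hf2 hfa (fun s => rv (v s))
          have hT0 : 0 ≤ T := by
            rw [hT]
            unfold Tn
            positivity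
          have h3 : (2 : ℝ) * (i + 2) * (n + 1) ≤ K := by
            rw [hK]
            nlinarith
          have h4 : Tn (a0 n) (Fin.cons (rv (F0 n)) (fun s => rv (v s)) : Fin (i + 1 + 1) → Fin (n + 1) → ℝ) ≤ K * T :=
            h2.trans (mul_le_mul_of_nonneg_right h3 hT0)
          have h5 : cM * μ ^ (n - (i + 1)) ≤ K * T := h.trans h4
          have h6 := num_a n (i + 1) (by omega) hle N Z hN hZ
          rw [← hB, ← hμ] at h6
          refine hc_b.trans ?_
          rw [div_le_iff₀ hK0]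
          calc c2 * cM = c2 * cM * 1 := by ring
            _ ≤ c2 * cM * (μ ^ (n - (i + 1)) * B) := mul_le_mul_of_nonneg_left h6 (by positivity)
            _ = c2 * B * (cM * μ ^ (n - (i + 1))) := by ring
            _ ≤ c2 * B * (K * T) := mul_le_mul_of_nonneg_left h5 (by positivity)
            _ = c2 * (B * T) * K := by ring
      · -- dependent
        obtain ⟨w, M, hM0, hw, hvw⟩ := saturate (F0 n) (u1_F0prim n) v hv hind
        have hDw := u1_D M v (cn (F0 n) w) hM0 hvw
        have hTw := u1_T (a0 n) M v (cn (F0 n) w) hM0 hvw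
        set μ : ℝ := A ^ (1 / (i : ℝ)) with hμ
        have hμpos : 0 < μ := Real.rpow_pos_of_pos hApos _
        have hi0 : (i : ℝ) ≠ 0 := by
          have : 0 < (i : ℝ) := by exact_mod_cast hipos
          exact this.ne'
        have hμi : μ ^ i = A := by
          rw [hμ, ← Real.rpow_natCast, ← Real.rpow_mul hApos.le, one_div_mul_cancel hi0, Real.rpow_one]
        rcases HM i hipos w hw μ hμpos with h | h
        · apply kindA
          rw [hμi] at h
          have h5 : cM ≤ A * D := h.trans (mul_le_mul_of_nonneg_left hDw hApos.le)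
          exact hc_a'.trans (mul_le_mul_of_nonneg_left h5 hc1.le)
        · apply kindB
          have h5 : cM * μ ^ (n - i) ≤ T := h.trans hTw
          have h6 : 1 ≤ μ ^ (n - i) * B := by
            have h7 := num_b n (i + 1) (by omega) hle N Z hN hZ hZN
            rw [← hB, ← hA] at h7
            have e1 : n + 1 - (i + 1) = n - i := by omega
            have e2 : i + 1 - 1 = i := by omega
            rw [e1, e2] at h7
            have h8 : (μ ^ (n - i) * B) ^ i = A ^ (n - i) * B ^ i := by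
              rw [mul_pow, ← pow_mul, mul_comm (n - i) i, pow_mul, hμi]
            rw [← h8] at h7
            by_contra hlt1
            push Not at hlt1
            have h9 : (μ ^ (n - i) * B) ^ i < 1 := pow_lt_one₀ (by positivity) hlt1 (by omega)
            linarith
          refine hc_b'.trans ?_
          calc c2 * cM = c2 * cM * 1 := by ring
            _ ≤ c2 * cM * (μ ^ (n - i) * B) := mul_le_mul_of_nonneg_left h6 (by positivity)
            _ = c2 * B * (cM * μ ^ (n - i)) := by ring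
            _ ≤ c2 * B * T := mul_le_mul_of_nonneg_left h5 (by positivity)
            _ = c2 * (B * T) := by ring

end Pool.Agent.Lib.H42V
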