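import Pool.Agent.Lib.H42V.H2B
import Pool.Agent.Lib.H42V.K2
import Pool.Agent.Lib.H42V.ML

/-!
# Chunk U2 (M/L)
The hypothesis of quantitative nondivergence for `h2`.

Proof. Let `n = m + 1`, `U = (F0, r_0, ..., r_{j-1})`, linearly independent (`F0` has last coordinate 1, the others 0), `D = Dn`, `T = Tn (a0 n)` of it, `D > 0`. `j ≤ m + 1`. Constants `c1, c2, cM` of `wr_large n`, `wr2_large n`, `minkliou n`.
CASE `j ≤ m` (so `m ≥ 1`): `μ = N^(m-j)/Z`. (I) some `t, S` have `|mn| ≥ c1 μ^j D` (`mn_h2_one`, `prod_h2`). (II) (with `j - 1` for `j` in `mn_h2_two`) some `t, S` have `|mn| ≥ c2 B T/(3^n+2)`, `B = Z^m (N^(m+1-j)/Z)^(j-1)`. `minkliou` (`i = j`): `cM ≤ μ^j D`, or `cM μ^(n-j) ≤ T`, and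
`μ^(n-j) B = N^((m-j)(m+1-j) + (m+1-j)(j-1)) = N^((m+1-j)(m-1)) ≥ 1`. CASE `j = m + 1`: `B = Z^m (N^0/Z)^m = 1`; choose `μ > 0` with `μ^n D < cM`: `minkliou` gives `cM ≤ T` (`n - j = 0`), and (II).
-/

open Polynomial MeasureTheory Set Filter

namespace Pool.Agent.Lib.H42V

private theorem u2_indep (m j : ℕ) (r : Fin j → Fin (m + 1) → ℤ) (hr : LinearIndependent ℤ r) :
    LinearIndependent ℤ (cn (F0 (m + 1)) (fun s => (Fin.snoc (r s) 0 : Fin (m + 2) → ℤ))) := by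
  rw [Fintype.linearIndependent_iff] at hr ⊢
  intro z hz
  rw [Fin.sum_univ_succ] at hz
  simp only [cn, Fin.cons_zero, Fin.cons_succ] at hz
  have h0 : z 0 = 0 := by
    have h1 := congrFun hz (Fin.last (m + 1))
    simp only [Pi.add_apply, Pi.smul_apply, Finset.sum_apply, Fin.snoc_last, smul_eq_mul, mul_zero, Finset.sum_const_zero, add_zero,
      Pi.zero_apply] at h1
    rw [H2A_F0_last m (Fin.last (m + 1)) (by simp), mul_one] at h1
    exact h1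
  have h2 : ∀ s : Fin j, z s.succ = 0 := by
    refine hr (fun s => z s.succ) ?_
    funext l
    have h1 := congrFun hz l.castSucc
    simp only [h0, zero_smul, zero_add, Finset.sum_apply, Pi.smul_apply, Fin.snoc_castSucc, smul_eq_mul, Pi.zero_apply] at h1
    simp only [Finset.sum_apply, Pi.smul_apply, smul_eq_mul, Pi.zero_apply]
    exact h1
  intro s
  refine Fin.cases h0 h2 s

private theorem u2_num (m i : ℕ) (him : i + 1 ≤ m) (N Z : ℝ) (hN : 1 ≤ N) (hZ : 0 < Z) :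
    1 ≤ (N ^ (m - (i + 1)) / Z) ^ (m + 1 - (i + 1)) * (Z ^ m * (N ^ (m - i) / Z) ^ i) := by
  obtain ⟨k, rfl⟩ : ∃ k, m = i + 1 + k := ⟨m - (i + 1), by omega⟩
  have e1 : i + 1 + k - (i + 1) = k := by omega
  have e2 : i + 1 + k + 1 - (i + 1) = k + 1 := by omega
  have e3 : i + 1 + k - i = k + 1 := by omega
  rw [e1, e2, e3]
  have hN0 : 0 < N := by linarith
  have h1 : (N ^ k / Z) ^ (k + 1) * (Z ^ (i + 1 + k) * (N ^ (k + 1) / Z) ^ i) = (N ^ k) ^ (k + 1) * (N ^ (k + 1)) ^ i := by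
    rw [div_pow, div_pow]
    have e4 : Z ^ (i + 1 + k) = Z ^ (k + 1) * Z ^ i := by
      rw [← pow_add]
      congr 1
      omega
    rw [e4]
    field_simp
  rw [h1]
  have h2 : 1 ≤ (N ^ k) ^ (k + 1) := one_le_pow₀ (one_le_pow₀ hN)
  have h3 : 1 ≤ (N ^ (k + 1)) ^ i := one_le_pow₀ (one_le_pow₀ hN)
  nlinarith

theorem sup2 (m : ℕ) : ∃ c : ℝ, 0 < c ∧ c ≤ 1 ∧ ∀ N Z : ℝ, 1 ≤ N → 0 < Z →
    ∀ j : ℕ, 1 ≤ j → ∀ r : Fin j → Fin (m + 1) → ℤ, LinearIndependent ℤ r →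
      ∃ t ∈ Icc (0 : ℝ) 1, ∃ S : Fin j → Fin (m + 1), c ≤ |H70X.mn (h2 m N Z) t r S| := by
  obtain ⟨c1, hc1, H1⟩ := wr_large (m + 1)
  obtain ⟨c2, hc2, H2⟩ := wr2_large (m + 1)
  obtain ⟨cM, hcM, HM⟩ := minkliou (m + 1) (by omega)
  obtain ⟨K, hK⟩ : ∃ K : ℝ, K = 3 ^ (m + 1) + 2 := ⟨_, rfl⟩
  have hK0 : 0 < K := by
    rw [hK]
    positivity
  obtain ⟨c, hc⟩ : ∃ c : ℝ, c = min 1 (min (c1 * cM) (c2 * cM / K)) := ⟨_, rfl⟩
  have hc_1 : c ≤ 1 := by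
    rw [hc]
    exact min_le_left _ _
  have hc_a : c ≤ c1 * cM := by
    rw [hc]
    exact (min_le_right _ _).trans (min_le_left _ _)
  have hc_b : c ≤ c2 * cM / K := by
    rw [hc]
    exact (min_le_right _ _).trans (min_le_right _ _)
  have hcpos : 0 < c := by
    rw [hc]
    refine lt_min one_pos (lt_min ?_ ?_) <;> positivity
  refine ⟨c, hcpos, hc_1, ?_⟩
  intro N Z hN hZ j hj r hr
  have hN0 : 0 < N := by linarith
  have hjm : j ≤ m + 1 := by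
    have := hr.fintype_card_le_finrank
    simpa using this
  have hind := u2_indep m j r hr
  obtain ⟨i, rfl⟩ : ∃ i, j = i + 1 := ⟨j - 1, by omega⟩
  obtain ⟨U, hU⟩ : ∃ U : Fin (i + 1 + 1) → Fin (m + 1 + 1) → ℝ,
      U = fun s => rv (cn (F0 (m + 1)) (fun s => (Fin.snoc (r s) 0 : Fin (m + 2) → ℤ)) s) := ⟨_, rfl⟩
  have kindB : c2 * cM ≤ c2 * ((Z ^ m * (N ^ (m - i) / Z) ^ i) * Tn (a0 (m + 1)) U) → ∃ t ∈ Icc (0 : ℝ) 1, ∃ S : Fin (i + 1) → Fin (m + 1),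
      c ≤ |H70X.mn (h2 m N Z) t r S| := by
    intro hcB
    obtain ⟨t, ht, h⟩ := H2 (a0 (m + 1)) (i + 1) (by omega) U
    refine ⟨t, ht, (fun s => ⟨(s : ℕ), by omega⟩), ?_⟩
    have h1 := mn_h2_two m i (by omega) N Z t ht r
    rw [prod_h2 m i (by omega) N Z hN0 hZ, ← hU, ← hK] at h1
    have hB : 0 < Z ^ m * (N ^ (m - i) / Z) ^ i := by positivity
    rw [abs_of_pos hB] at h1
    refine hc_b.trans ?_
    rw [div_le_iff₀ hK0]
    calc c2 * cM ≤ c2 * ((Z ^ m * (N ^ (m - i) / Z) ^ i) * Tn (a0 (m + 1)) U) := hcB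
      _ = (Z ^ m * (N ^ (m - i) / Z) ^ i) * (c2 * Tn (a0 (m + 1)) U) := by ring
      _ ≤ (Z ^ m * (N ^ (m - i) / Z) ^ i) * |wr2 (a0 (m + 1)) (2 + t ^ 2) U| := mul_le_mul_of_nonneg_left h hB.le
      _ ≤ K * |H70X.mn (h2 m N Z) t r (fun s => ⟨(s : ℕ), by omega⟩)| := h1
      _ = _ := by ring
  rcases Nat.lt_or_ge i m with hlt | hge
  · -- `j ≤ m`
    obtain ⟨μ, hμ⟩ : ∃ μ : ℝ, μ = N ^ (m - (i + 1)) / Z := ⟨_, rfl⟩
    have hμpos : 0 < μ := by
      rw [hμ]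
      positivity
    rcases HM (i + 1) (by omega) _ hind μ hμpos with h | h
    · rw [← hU] at h
      obtain ⟨t, ht, h'⟩ := H1 (i + 1 + 1) (by omega) U
      refine ⟨t, ht, (fun s => ⟨(s : ℕ) + 1, by omega⟩), ?_⟩
      have h1 := mn_h2_one m (i + 1) (by omega) (by omega) N Z t r
      rw [prod_h2 m (i + 1) (by omega) N Z hN0 hZ, ← hU, ← hμ, abs_of_pos (pow_pos hμpos _)] at h1
      calc c ≤ c1 * cM := hc_a
        _ ≤ c1 * (μ ^ (i + 1) * Dn U) := mul_le_mul_of_nonneg_left h hc1.le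
        _ = μ ^ (i + 1) * (c1 * Dn U) := by ring
        _ ≤ μ ^ (i + 1) * |wr (2 + t ^ 2) U| := mul_le_mul_of_nonneg_left h' (pow_pos hμpos _).le
        _ ≤ _ := h1
    · apply kindB
      rw [← hU] at h
      have h6 := u2_num m i (by omega) N Z hN hZ
      rw [← hμ] at h6
      have hB : 0 < Z ^ m * (N ^ (m - i) / Z) ^ i := by positivity
      apply mul_le_mul_of_nonneg_left _ hc2.le
      calc cM = cM * 1 := (mul_one _).symm
        _ ≤ cM * (μ ^ (m + 1 - (i + 1)) * (Z ^ m * (N ^ (m - i) / Z) ^ i)) := mul_le_mul_of_nonneg_left h6 hcM.le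
        _ = (Z ^ m * (N ^ (m - i) / Z) ^ i) * (cM * μ ^ (m + 1 - (i + 1))) := by ring
        _ ≤ _ := mul_le_mul_of_nonneg_left h hB.le
  · -- `j = m + 1`
    have hi : i = m := by omega
    subst hi
    apply kindB
    have hB : Z ^ i * (N ^ (i - i) / Z) ^ i = 1 := by
      rw [Nat.sub_self, pow_zero, ← mul_pow, mul_one_div_cancel hZ.ne', one_pow]
    rw [hB, one_mul]
    apply mul_le_mul_of_nonneg_left _ hc2.le
    have hD0 : 0 ≤ Dn U := by
      unfold Dn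
      positivity
    obtain ⟨μ, hμ⟩ : ∃ μ : ℝ, μ = min 1 (cM / (2 * (Dn U + 1))) := ⟨_, rfl⟩
    have hμpos : 0 < μ := by
      rw [hμ]
      refine lt_min one_pos ?_
      positivity
    have hμ1 : μ ≤ 1 := by
      rw [hμ]
      exact min_le_left _ _
    have hμ2 : μ * (2 * (Dn U + 1)) ≤ cM := by
      rw [← le_div_iff₀ (by positivity), hμ]
      exact min_le_right _ _
    rcases HM (i + 1) (by omega) _ hind μ hμpos with h | h
    · exfalso
      rw [← hU] at h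
      have h1 : μ ^ (i + 1) ≤ μ := by
        calc μ ^ (i + 1) = μ ^ i * μ := pow_succ _ _
          _ ≤ 1 * μ := mul_le_mul_of_nonneg_right (pow_le_one₀ hμpos.le hμ1) hμpos.le
          _ = μ := one_mul _
      have h2 : μ ^ (i + 1) * Dn U ≤ μ * Dn U := mul_le_mul_of_nonneg_right h1 hD0
      nlinarith
    · rw [← hU, Nat.sub_self, pow_zero, mul_one] at h
      exact h

end Pool.Agent.Lib.H42V
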