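import Pool.Agent.Lib.H42V.PI
import Pool.Agent.Lib.H42V.PK2
import Pool.Agent.Lib.H70W.Defs

/-!
# Chunk VP (M)
Vectors and polynomials.

Proofs. `vec_eval`: `aeval ζ P = ∑ coeff * ζ^l` for `natDegree ≤ n`, `tc_val`. `coeff_le_height`: as `H70X.U.natAbs_coeff_le_height`. `pkP_facts`: `P = ∑ C (pk_l) X^l`; irreducible of degree `n` (`pk_irred`), `height ≤ 4 * 6^n q^n` (`pk_bd`), `aeval ζ P = tc ζ (rv pk) 0`.
`pk_two`: for `y = ζ - al ∈ [Y, 2Y]`, `Y = Yy n w0 g ≤ 1/q^2`, `q^2 Y/q^n = q^(-n w0)`: upper bound by `pk_up` (`y ≤ 2 Y`); lower bound by `pk_low` if `5 q^2 * 2 Y ≤ 1/2`, i.e. `20 ≤ q^(n(w0-1))`, which is the hypothesis.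
`mul_pk`: `v = m • pk`, `m ≠ 0`: `|v_last| ≥ 2 q^n`, `|tc ζ v 0| ≥ |tc ζ pk 0|`.
-/

open Polynomial MeasureTheory Set Filter

namespace Pool.Agent.Lib.H42V

theorem vec_eval {n : ℕ} (P : ℤ[X]) (hP : P.natDegree ≤ n) (ζ : ℝ) :
    tc ζ (rv fun l : Fin (n + 1) => P.coeff (l : ℕ)) 0 = aeval ζ P := by
  rw [aeval_eq_sum_range' (Nat.lt_succ_iff.2 hP), tc_val,
    ← Fin.sum_univ_eq_sum_range (fun i => P.coeff i • ζ ^ i) (n + 1)]
  refine Finset.sum_congr rfl fun i _ => ?_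
  rw [zsmul_eq_mul, mul_comm]
  rfl

theorem coeff_le_height (P : ℤ[X]) (i : ℕ) : |(P.coeff i : ℝ)| ≤ H70W.height P := by
  by_cases hi : i ∈ P.support
  · have h1 : (P.coeff i).natAbs ≤ H70W.height P :=
      Finset.le_sup (f := fun i => (P.coeff i).natAbs) hi
    have h2 : |(P.coeff i : ℝ)| = ((P.coeff i).natAbs : ℝ) := by
      rw [Nat.cast_natAbs, Int.cast_abs]
    rw [h2]
    exact_mod_cast h1
  · rw [notMem_support_iff.1 hi]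
    simp

theorem pkP_facts (n : ℕ) (hn : 1 ≤ n) (g : Mo) (hg : g.Ok) : ∃ P : ℤ[X], Irreducible P ∧ P.natDegree = n ∧
    (H70W.height P : ℝ) ≤ 4 * 6 ^ n * (g.q : ℝ) ^ n ∧ ∀ ζ : ℝ, aeval ζ P = tc ζ (rv (pk n g)) 0 := by
  obtain ⟨h1, h2⟩ := pk_irred n hn g hg
  have hc : ∀ l : Fin (n + 1),
      (∑ l : Fin (n + 1), C (pk n g l) * X ^ (l : ℕ) : ℤ[X]).coeff (l : ℕ) = pk n g l := by
    intro l
    rw [finsetSum_coeff, Finset.sum_eq_single l]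
    · rw [coeff_C_mul, coeff_X_pow, if_pos rfl, mul_one]
    · intro b _ hb
      rw [coeff_C_mul, coeff_X_pow, if_neg, mul_zero]
      intro h
      exact hb (Fin.ext h.symm)
    · intro h
      exact absurd (Finset.mem_univ l) h
  refine ⟨_, h1, h2, ?_, ?_⟩
  · have hB : (0 : ℝ) ≤ 4 * 6 ^ n * (g.q : ℝ) ^ n := by
      have : (0 : ℝ) < g.q := by exact_mod_cast hg.qpos
      positivity
    have h3 : H70W.height (∑ l : Fin (n + 1), C (pk n g l) * X ^ (l : ℕ) : ℤ[X]) ≤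
        ⌊4 * 6 ^ n * (g.q : ℝ) ^ n⌋₊ := by
      refine Finset.sup_le fun i hi => ?_
      have hin : i ≤ n := by
        have := le_natDegree_of_mem_supp i hi
        omega
      refine Nat.le_floor ?_
      have h4 := (pk_bd n hn g hg).1 ⟨i, Nat.lt_succ_iff.2 hin⟩
      have h5 := hc ⟨i, Nat.lt_succ_iff.2 hin⟩
      have h6 : ((∑ l : Fin (n + 1), C (pk n g l) * X ^ (l : ℕ) : ℤ[X]).coeff i) =
          pk n g ⟨i, Nat.lt_succ_iff.2 hin⟩ := h5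
      rw [h6, Nat.cast_natAbs, Int.cast_abs]
      exact h4
    exact (Nat.cast_le.2 h3).trans (Nat.floor_le hB)
  · intro ζ
    rw [← vec_eval _ h2.le ζ]
    congr 1
    funext l
    exact congrArg (fun z : ℤ => (z : ℝ)) (hc l)

theorem pk_two (n : ℕ) (hn : 1 ≤ n) (g : Mo) (hg : g.Ok) (w0 ζ : ℝ) (hw0 : 1 ≤ w0)
    (hq : 20 ≤ (g.q : ℝ) ^ (n * (w0 - 1))) (hζ : ζ ∈ Jj n w0 g) :
    (g.q : ℝ) ^ (-(n * w0)) / 5 ^ n ≤ |tc ζ (rv (pk n g)) 0| ∧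
      |tc ζ (rv (pk n g)) 0| ≤ 2 * n * 32 ^ n * (g.q : ℝ) ^ (-(n * w0)) := by
  have hq1 : (1 : ℝ) ≤ g.q := by exact_mod_cast hg.qpos
  have hq0 : (0 : ℝ) < g.q := lt_of_lt_of_le one_pos hq1
  have hnR : (1 : ℝ) ≤ n := by exact_mod_cast hn
  have hqn : (0 : ℝ) < (g.q : ℝ) ^ n := pow_pos hq0 n
  obtain ⟨y, hy⟩ : ∃ y : ℝ, ζ = al n g + y := ⟨ζ - al n g, by ring⟩
  obtain ⟨hl, hu⟩ := hζ
  rw [hy] at hl hu
  have hy1 : Yy n w0 g ≤ y := by linarith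
  have hy2 : y ≤ 2 * Yy n w0 g := by linarith
  have hY0 : 0 < Yy n w0 g := Real.rpow_pos_of_pos hq0 _
  have hy0 : 0 ≤ y := hY0.le.trans hy1
  have e2 : (g.q : ℝ) ^ 2 * Yy n w0 g = (g.q : ℝ) ^ (-(n * (w0 - 1))) := by
    unfold Yy
    rw [← Real.rpow_natCast (g.q : ℝ) 2, ← Real.rpow_add hq0]
    congr 1
    push_cast
    ring
  have e3 : (g.q : ℝ) ^ 2 * Yy n w0 g = (g.q : ℝ) ^ n * (g.q : ℝ) ^ (-(n * w0)) := by
    unfold Yy
    rw [← Real.rpow_natCast (g.q : ℝ) 2, ← Real.rpow_natCast (g.q : ℝ) n, ← Real.rpow_add hq0,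
      ← Real.rpow_add hq0]
    congr 1
    push_cast
    ring
  have hsmall : (g.q : ℝ) ^ 2 * Yy n w0 g * 20 ≤ 1 := by
    rw [e2, Real.rpow_neg hq0.le, inv_mul_le_iff₀ (Real.rpow_pos_of_pos hq0 _), mul_one]
    exact hq
  have hYle : (g.q : ℝ) ^ 2 * Yy n w0 g ≤ 1 := by
    rw [e2, Real.rpow_neg hq0.le]
    refine inv_le_one_of_one_le₀ ?_
    exact le_trans (by norm_num) hq
  have hq2 : (0 : ℝ) < (g.q : ℝ) ^ 2 := pow_pos hq0 2
  have hlow := pk_low n hn g hg y hy0 (by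
    have h1 : (g.q : ℝ) ^ 2 * y ≤ (g.q : ℝ) ^ 2 * (2 * Yy n w0 g) :=
      mul_le_mul_of_nonneg_left hy2 hq2.le
    nlinarith)
  have hup := pk_up n hn g hg y hy0 (by
    rw [le_div_iff₀ hq2]
    have h1 : y * (g.q : ℝ) ^ 2 ≤ (2 * Yy n w0 g) * (g.q : ℝ) ^ 2 :=
      mul_le_mul_of_nonneg_right hy2 hq2.le
    nlinarith)
  rw [hy]
  constructor
  · have h5 : (0 : ℝ) < 5 ^ n := by positivity
    refine le_trans ?_ (le_abs_self _)
    rw [div_le_iff₀ h5]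
    have h1 : (g.q : ℝ) ^ n * (g.q : ℝ) ^ (-(n * w0)) ≤ (g.q : ℝ) ^ 2 * y := by
      rw [← e3]
      exact mul_le_mul_of_nonneg_left hy1 hq2.le
    have h2 : (g.q : ℝ) ^ n * (g.q : ℝ) ^ (-(n * w0)) ≤
        (g.q : ℝ) ^ n * (tc (al n g + y) (rv (pk n g)) 0 * 5 ^ n) := by
      refine (h1.trans hlow).trans (le_of_eq ?_)
      ring
    exact le_of_mul_le_mul_left h2 hqn
  · have h1 : (g.q : ℝ) ^ 2 * y ≤ 2 * ((g.q : ℝ) ^ n * (g.q : ℝ) ^ (-(n * w0))) := by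
      rw [← e3]
      have := mul_le_mul_of_nonneg_left hy2 hq2.le
      linarith
    have h2 : (g.q : ℝ) ^ n * |tc (al n g + y) (rv (pk n g)) 0| ≤
        (g.q : ℝ) ^ n * (2 * n * 32 ^ n * (g.q : ℝ) ^ (-(n * w0))) := by
      refine hup.trans ?_
      have h3 : (n : ℝ) * 32 ^ n * ((g.q : ℝ) ^ 2 * y) ≤
          n * 32 ^ n * (2 * ((g.q : ℝ) ^ n * (g.q : ℝ) ^ (-(n * w0)))) :=
        mul_le_mul_of_nonneg_left h1 (by positivity)
      refine h3.trans (le_of_eq ?_)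
      ring
    exact le_of_mul_le_mul_left h2 hqn

theorem mul_pk (n : ℕ) (hn : 1 ≤ n) (g : Mo) (hg : g.Ok) (v : Fin (n + 1) → ℤ) (hv : v ≠ 0) (h : Mul v (pk n g)) (ζ : ℝ) :
    2 * (g.q : ℝ) ^ n ≤ |(v (Fin.last n) : ℝ)| ∧ |tc ζ (rv (pk n g)) 0| ≤ |tc ζ (rv v) 0| := by
  obtain ⟨m, hm⟩ := h
  have hm0 : m ≠ 0 := by
    rintro rfl
    exact hv (by rw [hm, zero_smul])
  have hm1 : (1 : ℝ) ≤ |(m : ℝ)| := by
    have : (1 : ℤ) ≤ |m| := Int.one_le_abs hm0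
    exact_mod_cast this
  constructor
  · have h1 : (v (Fin.last n) : ℝ) = m * pk n g (Fin.last n) := by
      rw [hm, Pi.smul_apply, smul_eq_mul]
      push_cast
      ring
    rw [h1, abs_mul]
    have h2 := (pk_bd n hn g hg).2
    exact h2.trans (le_mul_of_one_le_left (abs_nonneg _) hm1)
  · rw [hm, rv_smul, tc_smul, abs_mul]
    exact le_mul_of_one_le_left (abs_nonneg _) hm1

end Pool.Agent.Lib.H42V
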