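import Pool.Agent.Lib.H42V.Defs

/-!
# Chunk W1 (M)
Echelon form over `ℝ`, with respect to the LAST nonzero coordinate. (Compare `H70X.WR3_echelon`, which is the same over `ℚ` with the first nonzero coordinate: its proof can be adapted.)

Proof. Induction on `j` (or on `n`). `j = 0` trivial. Let `m` be the largest index such that some `v s m ≠ 0`, `s0` such an `s`; put `w = v s0` for this row, `l = m`, and replace the other rows by
`v s - (v s m / v s0 m) v s0`, which are independent and vanish at all indices `≥ m`; apply the induction hypothesis to these `j - 1` rows (all `l a < m`, because the linear combinations of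
these rows vanish at indices `≥ m` and `w a (l a) ≠ 0`). Alternatively: among all `g` ... any proof is fine.
-/

open Polynomial MeasureTheory Set Filter

namespace Pool.Agent.Lib.H42V

theorem echelon {n j : ℕ} (v : Fin j → Fin (n + 1) → ℝ) (hv : LinearIndependent ℝ v) :
    ∃ (l : Fin j → Fin (n + 1)) (w : Fin j → Fin (n + 1) → ℝ) (g : Matrix (Fin j) (Fin j) ℝ),
      Function.Injective l ∧ (∀ a i, w a i = ∑ s, g a s * v s i) ∧ (∀ a i, l a < i → w a i = 0) ∧
      ∀ a, w a (l a) ≠ 0 := by
  classical
  set V := Submodule.span ℝ (Set.range v) with hV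
  have hdim : Module.finrank ℝ V = j := by
    rw [hV, finrank_span_eq_card hv, Fintype.card_fin]
  set I : Finset (Fin (n + 1)) := Finset.univ.filter fun i => ∃ f ∈ V, f i ≠ 0 ∧
    ∀ i', i < i' → f i' = 0 with hI
  have hcard : j ≤ I.card := by
    let F : V →ₗ[ℝ] (I → ℝ) :=
      { toFun := fun f i => (f : Fin (n + 1) → ℝ) i
        map_add' := fun f f' => by ext i; simp
        map_smul' := fun c f => by ext i; simp }
    have hF : Function.Injective F := by
      rw [injective_iff_map_eq_zero]
      intro f hf
      by_contra hne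
      have hne' : ∃ i, (f : Fin (n + 1) → ℝ) i ≠ 0 := by
        by_contra hc
        push Not at hc
        exact hne (Subtype.ext (funext hc))
      have hS : (Finset.univ.filter fun i => (f : Fin (n + 1) → ℝ) i ≠ 0).Nonempty := by
        obtain ⟨i, hi⟩ := hne'
        exact ⟨i, by simp [hi]⟩
      obtain ⟨i, hi, hmax⟩ := Finset.exists_maximal hS
      have hi1 : (f : Fin (n + 1) → ℝ) i ≠ 0 := (Finset.mem_filter.1 hi).2
      have hi2 : ∀ i', i < i' → (f : Fin (n + 1) → ℝ) i' = 0 := by
        intro i' hlt
        by_contra hc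
        have := hmax (Finset.mem_filter.2 ⟨Finset.mem_univ i', hc⟩) hlt.le
        exact absurd hlt (not_lt.2 this)
      have hiI : i ∈ I := Finset.mem_filter.2 ⟨Finset.mem_univ i, f, f.2, hi1, hi2⟩
      exact hi1 (congrFun hf ⟨i, hiI⟩)
    have := LinearMap.finrank_le_finrank_of_injective hF
    rwa [hdim, Module.finrank_fintype_fun_eq_card, Fintype.card_coe] at this
  let l : Fin j → Fin (n + 1) := fun a => I.orderEmbOfFin rfl (Fin.castLE hcard a)
  have hl : ∀ a, l a ∈ I := fun a => Finset.orderEmbOfFin_mem _ _ _
  have hl2 : ∀ a, ∃ f ∈ V, f (l a) ≠ 0 ∧ ∀ i', l a < i' → f i' = 0 := fun a =>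
    (Finset.mem_filter.1 (hl a)).2
  choose w hw1 hw2 hw3 using hl2
  have hw4 : ∀ a, ∃ c : Fin j → ℝ, ∑ s, c s • v s = w a := fun a =>
    (Submodule.mem_span_range_iff_exists_fun ℝ).1 (hw1 a)
  choose g hg using hw4
  refine ⟨l, w, g, ?_, ?_, fun a i hi => hw3 a i hi, hw2⟩
  · intro a b hab
    have := (I.orderEmbOfFin rfl).injective hab
    exact Fin.castLE_injective hcard this
  · intro a i
    rw [← hg a]
    simp

end Pool.Agent.Lib.H42V
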