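import Pool.Agent.Lib.H42V.Defs

/-!
# Chunk W2 (S)
A binomial determinant.

Proof. Suppose it vanishes: there are reals `λ_t`, not all zero, with `∑_t λ_t choose (d a) t = 0` for all `a : Fin j`. The polynomial `g(x) = ∑_t λ_t x (x-1) ... (x-t+1) / t!` is nonzero (the degrees
`t` are distinct) of degree `< j`, and it vanishes at the `j` distinct numbers `d a`: contradiction. (Or: `choose (d a) t * t!` is the value of `descPochhammer`, a monic polynomial of degree `t`, and
`Matrix.det_eval_matrixOfPolynomials_eq_det_vandermonde`, `Matrix.det_vandermonde_ne_zero_iff`.)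
-/

open Polynomial MeasureTheory Set Filter

namespace Pool.Agent.Lib.H42V

theorem binom_ne {j : ℕ} (d : Fin j → ℕ) (hd : Function.Injective d) :
    Matrix.det (Matrix.of fun a t : Fin j => (((d a).choose (t : ℕ) : ℕ) : ℝ)) ≠ 0 := by
  intro h0
  have hv : (Matrix.vandermonde (fun a : Fin j => ((d a : ℕ) : ℝ))).det ≠ 0 := by
    rw [Matrix.det_vandermonde_ne_zero_iff]
    intro a b hab
    exact hd (Nat.cast_injective (R := ℝ) hab)
  apply hv
  rw [Matrix.det_eval_matrixOfPolynomials_eq_det_vandermonde (fun a : Fin j => ((d a : ℕ) : ℝ))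
    (fun t : Fin j => descPochhammer ℝ (t : ℕ)) (fun t => descPochhammer_natDegree _ _)
    (fun t => monic_descPochhammer _ _)]
  have h1 : (Matrix.of fun a t : Fin j =>
      (descPochhammer ℝ (t : ℕ)).eval ((fun a : Fin j => ((d a : ℕ) : ℝ)) a)) =
      (Matrix.of fun a t : Fin j => (((d a).choose (t : ℕ) : ℕ) : ℝ)) *
        Matrix.diagonal (fun t : Fin j => (((t : ℕ).factorial : ℕ) : ℝ)) := by
    ext a t
    rw [Matrix.mul_diagonal]
    simp only [Matrix.of_apply]
    rw [descPochhammer_eval_eq_descFactorial, Nat.descFactorial_eq_factorial_mul_choose]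
    push_cast
    ring
  rw [h1, Matrix.det_mul, h0, zero_mul]

end Pool.Agent.Lib.H42V
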