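import Pool.Agent.Lib.H42V.W1
import Pool.Agent.Lib.H42V.W2

/-!
# Chunk W3 (M/L)
The Wronskian of independent polynomials is not zero at one of the points `2 + (i/(D+1))^2`, `0 ≤ i ≤ D`, `D = 2 (n+1)^2`.

Proof. Let `M v` be the `j × j` matrix over `ℝ[X]` with entries `∑_l choose l t (-X)^(l-t) v s l`; `wr θ v = eval θ (det (M v))`, and `natDegree (det (M v)) ≤ j n ≤ (n+1)^2` (`j ≤ n+1` as `v` is independent).
(1) `det (M v) ≠ 0`: let `l, w, g` be given by `echelon`; `M w = g * M v`, so it is enough that `det (M w) ≠ 0`. Substitute `-X` for `X` (entries `∑_l choose l t X^(l-t) w a l`). As `w a` vanishes after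
the index `l a`, the entry `(a, t)` has degree `≤ l a - t` with coefficient `choose (l a) t * w a (l a)` of `X^(l a - t)` (for `l a < t` the entry is 0 and so is the binomial coefficient). So
the coefficient of `X^E`, `E = ∑_a l a - ∑_t t`, in the determinant is `∏_a w a (l a) * det (choose (l a) t) ≠ 0` (`binom_ne`). (To avoid truncated subtraction: multiply the column `t` by `X^t`; then
the entry `(a,t)` has degree `≤ l a` with coefficient `choose (l a) t * w a (l a)` of `X^(l a)`, so the determinant, multiplied by `X^(∑ t)`, has the coefficient in question at `∑_a l a`: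
`Polynomial.coeff_det...` or: divide the row `a` by `x^(l a)` and let `x → ∞`.)
(2) `p = (det (M v)).comp (2 + X^2)` is a nonzero polynomial of degree `≤ 2 (n+1)^2 = D`, so it does not vanish at all the `D + 1` points `i/(D+1)` (`Polynomial.card_roots'`).
-/

open Polynomial MeasureTheory Set Filter

namespace Pool.Agent.Lib.H42V

/-- the Wronskian of a transformed family -/
lemma w3_mul {n j : ℕ} (θ : ℝ) (v w : Fin j → Fin (n + 1) → ℝ) (g : Matrix (Fin j) (Fin j) ℝ)
    (hw : ∀ a i, w a i = ∑ s, g a s * v s i) : wr θ w = g.det * wr θ v := by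
  unfold wr
  rw [← Matrix.det_mul]
  congr 1
  ext a t
  rw [Matrix.mul_apply]
  simp only [Matrix.of_apply, tc]
  simp_rw [hw, Finset.mul_sum]
  rw [Finset.sum_comm]
  refine Finset.sum_congr rfl fun s _ => Finset.sum_congr rfl fun l _ => ?_
  ring

/-- one point where the Wronskian of an echelon family does not vanish -/
lemma w3_echelon {n j : ℕ} (l : Fin j → Fin (n + 1)) (w : Fin j → Fin (n + 1) → ℝ)
    (hl : Function.Injective l) (h0 : ∀ a i, l a < i → w a i = 0) (h1 : ∀ a, w a (l a) ≠ 0) :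
    ∃ x : ℝ, wr x w ≠ 0 := by
  -- the reversed matrix
  let F : ℝ → ℝ := fun y => Matrix.det (Matrix.of fun a t : Fin j =>
    ∑ i : Fin (n + 1), (((i : ℕ).choose (t : ℕ) : ℕ) : ℝ) * w a i * y ^ ((l a : ℕ) - (i : ℕ)))
  have hF : Continuous F := by
    apply Continuous.matrix_det
    refine continuous_matrix fun a t => ?_
    simp only [Matrix.of_apply]
    fun_prop
  have hF0 : F 0 ≠ 0 := by
    have h2 : F 0 = (∏ a, w a (l a)) *
        Matrix.det (Matrix.of fun a t : Fin j => ((((l a : ℕ)).choose (t : ℕ) : ℕ) : ℝ)) := by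
      rw [← Matrix.det_mul_column]
      show Matrix.det _ = Matrix.det _
      congr 1
      ext a t
      simp only [Matrix.of_apply]
      rw [Finset.sum_eq_single (l a)]
      · rw [Nat.sub_self, pow_zero, mul_one]
        ring
      · intro i _ hi
        rcases lt_or_gt_of_ne hi with h | h
        · have h3 : (l a : ℕ) - (i : ℕ) ≠ 0 := by
            have : (i : ℕ) < (l a : ℕ) := h
            omega
          rw [zero_pow h3, mul_zero]
        · rw [h0 a i h, mul_zero, zero_mul]
      · intro h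
        exact absurd (Finset.mem_univ _) h
    rw [h2]
    refine mul_ne_zero (Finset.prod_ne_zero_iff.2 fun a _ => h1 a) ?_
    exact binom_ne (fun a => (l a : ℕ)) (fun a b hab => hl (Fin.ext hab))
  have hev : ∀ᶠ y in nhds (0 : ℝ), F y ≠ 0 := hF.continuousAt.eventually_ne hF0
  obtain ⟨ε, hε, hball⟩ := Metric.eventually_nhds_iff.1 hev
  have hy : F (ε / 2) ≠ 0 := by
    apply hball
    rw [Real.dist_eq, sub_zero, abs_of_pos (by positivity)]
    linarith
  set y : ℝ := ε / 2 with hydef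
  have hy0 : 0 < y := by positivity
  set x : ℝ := y⁻¹ with hx
  have hx0 : x ≠ 0 := inv_ne_zero hy0.ne'
  refine ⟨-x, fun hwr => hy ?_⟩
  -- entrywise identity
  have hent : ∀ (a t : Fin j), tc x (w a) (t : ℕ) * x ^ (t : ℕ) = x ^ (l a : ℕ) *
      ∑ i : Fin (n + 1), (((i : ℕ).choose (t : ℕ) : ℕ) : ℝ) * w a i * y ^ ((l a : ℕ) - (i : ℕ)) := by
    intro a t
    rw [tc, Finset.sum_mul, Finset.mul_sum]
    refine Finset.sum_congr rfl fun i _ => ?_
    rcases lt_or_ge (l a) i with h | h
    · rw [h0 a i h]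
      ring
    · rcases lt_or_ge (i : ℕ) (t : ℕ) with h' | h'
      · rw [Nat.choose_eq_zero_of_lt h']
        push_cast
        ring
      · have e1 : x ^ ((i : ℕ) - (t : ℕ)) * x ^ (t : ℕ) = x ^ (i : ℕ) := by
          rw [← pow_add, Nat.sub_add_cancel h']
        have e2 : x ^ (l a : ℕ) * y ^ ((l a : ℕ) - (i : ℕ)) = x ^ (i : ℕ) := by
          have h3 : (l a : ℕ) = (i : ℕ) + ((l a : ℕ) - (i : ℕ)) := by
            have : (i : ℕ) ≤ (l a : ℕ) := h
            omega
          have h4 : x ^ (l a : ℕ) = x ^ (i : ℕ) * x ^ ((l a : ℕ) - (i : ℕ)) := by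
            rw [← pow_add, ← h3]
          rw [h4, mul_assoc, ← mul_pow, hx, inv_mul_cancel₀ hy0.ne', one_pow, mul_one]
        calc ((i : ℕ).choose (t : ℕ) : ℝ) * x ^ ((i : ℕ) - (t : ℕ)) * w a i * x ^ (t : ℕ)
            = ((i : ℕ).choose (t : ℕ) : ℝ) * w a i * (x ^ ((i : ℕ) - (t : ℕ)) * x ^ (t : ℕ)) := by
              ring
          _ = ((i : ℕ).choose (t : ℕ) : ℝ) * w a i *
              (x ^ (l a : ℕ) * y ^ ((l a : ℕ) - (i : ℕ))) := by rw [e1, e2]
          _ = _ := by ring
  have h5 : (∏ t : Fin j, x ^ (t : ℕ)) * wr (-x) w = (∏ a : Fin j, x ^ (l a : ℕ)) * F y := by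
    unfold wr
    rw [neg_neg, ← Matrix.det_mul_row]
    show _ = _ * Matrix.det _
    rw [← Matrix.det_mul_column]
    congr 1
    ext a t
    simp only [Matrix.of_apply]
    rw [mul_comm (x ^ (t : ℕ)), hent a t]
  rw [hwr, mul_zero] at h5
  rcases mul_eq_zero.1 h5.symm with h6 | h6
  · exact absurd h6 (Finset.prod_ne_zero_iff.2 fun a _ => pow_ne_zero _ hx0)
  · exact h6

theorem wr_ne {n j : ℕ} (v : Fin j → Fin (n + 1) → ℝ) (hv : LinearIndependent ℝ v) :
    ∃ i : ℕ, i ≤ 2 * (n + 1) ^ 2 ∧ wr (2 + ((i : ℝ) / (2 * (n + 1) ^ 2 + 1)) ^ 2) v ≠ 0 := by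
  obtain ⟨l, w, g, hl, hw, h0, h1⟩ := echelon v hv
  obtain ⟨x, hx⟩ := w3_echelon l w hl h0 h1
  have hxv : wr x v ≠ 0 := by
    intro h
    rw [w3_mul x v w g hw, h, mul_zero] at hx
    exact hx rfl
  -- the polynomial
  obtain ⟨M, hM⟩ : ∃ M : Matrix (Fin j) (Fin j) ℝ[X], M = Matrix.of fun s t : Fin j =>
      ∑ i : Fin (n + 1), C ((((i : ℕ).choose (t : ℕ) : ℕ) : ℝ) * v s i) *
        (-X) ^ ((i : ℕ) - (t : ℕ)) := ⟨_, rfl⟩
  obtain ⟨P, hPM⟩ : ∃ P : ℝ[X], P = M.det := ⟨_, rfl⟩
  have hP : ∀ θ : ℝ, P.eval θ = wr θ v := by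
    intro θ
    rw [hPM, hM, wr, ← Polynomial.coe_evalRingHom, RingHom.map_det]
    congr 1
    ext s t
    simp only [RingHom.mapMatrix_apply, Matrix.map_apply, Matrix.of_apply,
      Polynomial.coe_evalRingHom, Polynomial.eval_finsetSum, Polynomial.eval_mul,
      Polynomial.eval_C, Polynomial.eval_pow, Polynomial.eval_neg, Polynomial.eval_X, tc]
    refine Finset.sum_congr rfl fun i _ => ?_
    ring
  have hP0 : P ≠ 0 := by
    intro h
    apply hxv
    rw [← hP, h, Polynomial.eval_zero]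
  have hjn : j ≤ n + 1 := by
    have := hv.fintype_card_le_finrank
    simpa using this
  have hdeg : P.natDegree ≤ (n + 1) ^ 2 := by
    rw [hPM, Matrix.det_apply]
    refine Polynomial.natDegree_sum_le_of_forall_le _ _ fun σ _ => ?_
    refine (Polynomial.natDegree_smul_le _ _).trans ?_
    refine (Polynomial.natDegree_prod_le _ _).trans ?_
    calc ∑ i : Fin j, _ ≤ ∑ _i : Fin j, (n + 1) := by
          refine Finset.sum_le_sum fun i _ => ?_
          rw [hM]
          simp only [Matrix.of_apply]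
          refine Polynomial.natDegree_sum_le_of_forall_le _ _ fun k _ => ?_
          refine (Polynomial.natDegree_C_mul_le _ _).trans ?_
          refine Polynomial.natDegree_pow_le.trans ?_
          rw [Polynomial.natDegree_neg, Polynomial.natDegree_X, mul_one]
          have := k.2
          omega
      _ = j * (n + 1) := by simp
      _ ≤ (n + 1) ^ 2 := by rw [sq]; exact Nat.mul_le_mul_right _ hjn
  -- substitute
  have hq : (C (2 : ℝ) + X ^ 2 : ℝ[X]).natDegree = 2 := by
    rw [add_comm]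
    exact Polynomial.natDegree_X_pow_add_C
  have hcomp0 : P.comp (C 2 + X ^ 2) ≠ 0 := by
    intro h
    rcases Polynomial.comp_eq_zero_iff.1 h with h2 | ⟨-, h2⟩
    · exact hP0 h2
    · have := congrArg Polynomial.natDegree h2
      rw [hq, Polynomial.natDegree_C] at this
      omega
  have hcompd : (P.comp (C 2 + X ^ 2)).natDegree ≤ 2 * (n + 1) ^ 2 := by
    rw [Polynomial.natDegree_comp, hq]
    omega
  by_contra hcon
  push Not at hcon
  apply hcomp0
  have hD : (0 : ℝ) < 2 * ((n : ℝ) + 1) ^ 2 + 1 := by positivity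
  refine Polynomial.eq_zero_of_natDegree_lt_card_of_eval_eq_zero (R := ℝ)
    (P.comp (C 2 + X ^ 2))
    (f := fun i : Fin (2 * (n + 1) ^ 2 + 1) => ((i : ℕ) : ℝ) / (2 * ((n : ℝ) + 1) ^ 2 + 1)) ?_ ?_ ?_
  · intro a b hab
    have h3 : ((a : ℕ) : ℝ) / (2 * ((n : ℝ) + 1) ^ 2 + 1) =
        ((b : ℕ) : ℝ) / (2 * ((n : ℝ) + 1) ^ 2 + 1) := hab
    rw [div_left_inj' hD.ne'] at h3
    exact Fin.ext (by exact_mod_cast h3)
  · intro i
    rw [Polynomial.eval_comp, hP]
    simp only [Polynomial.eval_add, Polynomial.eval_C, Polynomial.eval_pow, Polynomial.eval_X]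
    exact hcon i (by have := i.2; omega)
  · rw [Fintype.card_fin]
    omega

end Pool.Agent.Lib.H42V
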